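import Pool.Agent.helper96.FPP.Prob

/-!
# Module G1 (BK): van den Berg-Kesten inequality for disjoint cheap edge sets
-/

open MeasureTheory Filter Topology
open scoped NNReal ENNReal BoundedContinuousFunction

namespace FPP

variable (μ : Measure ℝ≥0) [IsProbabilityMeasure μ]

section bk

variable {ι : Type*} [Fintype ι] [DecidableEq ι]

/-- The label of the copy of the edge `e` used by the `i`-th set. -/
def bkLab (D : Finset E) (i : ι) (e : E) : Option ι := if e ∈ D then some i else none

/-- The interpolating events of the edge splitting argument. -/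
def bkEv (F : ι → Finset (Finset E × ℝ)) (D : Finset E) : Set (Option ι × E → ℝ≥0) :=
  {w | ∃ A ∈ Fintype.piFinset F, (∀ i j, i ≠ j → (A i).1 ∩ (A j).1 ⊆ D) ∧
    ∀ i, ∑ e ∈ (A i).1, (w (bkLab D i e, e) : ℝ) < (A i).2}

theorem bk_measurableSet (F : ι → Finset (Finset E × ℝ)) (D : Finset E) :
    MeasurableSet (bkEv F D) := by
  have : bkEv F D = ⋃ A ∈ Fintype.piFinset F, {w | (∀ i j, i ≠ j → (A i).1 ∩ (A j).1 ⊆ D)} ∩
      ⋂ i, {w : Option ι × E → ℝ≥0 | ∑ e ∈ (A i).1, (w (bkLab D i e, e) : ℝ) < (A i).2} := by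
    ext w
    simp only [bkEv, Set.mem_ofPred_eq, Set.mem_iUnion, Set.mem_inter_iff, Set.mem_iInter,
      exists_prop]
  rw [this]
  refine Finset.measurableSet_biUnion _ fun A _ => ?_
  refine MeasurableSet.inter (MeasurableSet.const _) (MeasurableSet.iInter fun i => ?_)
  refine measurableSet_lt ?_ measurable_const
  fun_prop

/-- Merging two environments: coordinates at the edge `e` from the first, the other ones from the
second. -/
def bkMerge (e : E) (p : (Option ι × E → ℝ≥0) × (Option ι × E → ℝ≥0)) : Option ι × E → ℝ≥0 :=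
  fun q => if q.2 = e then p.1 q else p.2 q

omit [DecidableEq ι] in
theorem bk_mp_merge (e : E) :
    MeasurePreserving (bkMerge (ι := ι) e)
      ((Measure.infinitePi fun _ : Option ι × E => μ).prod
        (Measure.infinitePi fun _ : Option ι × E => μ))
      (Measure.infinitePi fun _ : Option ι × E => μ) := by
  have hm : Measurable (bkMerge (ι := ι) e) := by
    refine measurable_pi_lambda _ fun q => ?_
    unfold bkMerge
    by_cases hq : q.2 = e
    · simp only [hq, if_true]; fun_prop
    · simp only [hq, if_false]; fun_prop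
  refine ⟨hm, ?_⟩
  refine Measure.eq_infinitePi _ fun s t ht => ?_
  rw [Measure.map_apply hm (MeasurableSet.pi s.countable_toSet fun i _ => ht i)]
  have : bkMerge (ι := ι) e ⁻¹' (Set.pi s t) =
      (Set.pi ((s.filter fun q => q.2 = e : Finset _) : Set _) t) ×ˢ
      (Set.pi ((s.filter fun q => ¬ q.2 = e : Finset _) : Set _) t) := by
    ext p
    simp only [Set.mem_preimage, Set.mem_pi, Finset.mem_coe, Set.mem_prod, Finset.mem_filter,
      bkMerge]
    constructor
    · intro h
      refine ⟨fun q hq => ?_, fun q hq => ?_⟩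
      · have := h q hq.1
        rwa [if_pos hq.2] at this
      · have := h q hq.1
        rwa [if_neg hq.2] at this
    · rintro ⟨h1, h2⟩ q hq
      by_cases hqe : q.2 = e
      · rw [if_pos hqe]; exact h1 q ⟨hq, hqe⟩
      · rw [if_neg hqe]; exact h2 q ⟨hq, hqe⟩
  rw [this, Measure.prod_prod, Measure.infinitePi_pi _ fun i _ => ht i,
    Measure.infinitePi_pi _ fun i _ => ht i, Finset.prod_filter_mul_prod_filter_not]

theorem bk_step (F : ι → Finset (Finset E × ℝ)) (D : Finset E) (e : E) (he : e ∉ D) :
    (Measure.infinitePi fun _ : Option ι × E => μ) (bkEv F D) ≤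
      (Measure.infinitePi fun _ : Option ι × E => μ) (bkEv F (insert e D)) := by
  set Q := Measure.infinitePi fun _ : Option ι × E => μ with hQ
  have hmp := bk_mp_merge (ι := ι) μ e
  rw [← hmp.measure_preimage (bk_measurableSet F D).nullMeasurableSet,
    ← hmp.measure_preimage (bk_measurableSet F (insert e D)).nullMeasurableSet,
    Measure.prod_apply_symm (hmp.measurable (bk_measurableSet F D)),
    Measure.prod_apply_symm (hmp.measurable (bk_measurableSet F (insert e D)))]
  refine lintegral_mono fun y => ?_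
  simp only [Set.preimage_preimage]
  by_cases hfree : ∃ A ∈ Fintype.piFinset F, (∀ i j, i ≠ j → (A i).1 ∩ (A j).1 ⊆ D) ∧
      (∀ i, e ∉ (A i).1) ∧ ∀ i, ∑ e ∈ (A i).1, (y (bkLab D i e, e) : ℝ) < (A i).2
  · -- a witness that does not use `e`
    obtain ⟨A, hA, hAD, heA, hs⟩ := hfree
    have : (fun x => bkMerge e (x, y)) ⁻¹' bkEv F (insert e D) = Set.univ := by
      ext x
      simp only [Set.mem_preimage, Set.mem_univ, iff_true]
      refine ⟨A, hA, fun i j hij => (hAD i j hij).trans (Finset.subset_insert _ _), fun i => ?_⟩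
      refine lt_of_eq_of_lt ?_ (hs i)
      refine Finset.sum_congr rfl fun e' he' => ?_
      have hne : e' ≠ e := by
        rintro rfl
        exact heA i he'
      simp [bkMerge, bkLab, hne]
    rw [this]
    exact measure_mono (Set.subset_univ _)
  -- every witness uses `e` exactly once
  let J : ι → LowerSet ℝ≥0 := fun i => ⟨{t | ∃ A ∈ Fintype.piFinset F,
    (∀ i j, i ≠ j → (A i).1 ∩ (A j).1 ⊆ D) ∧ (∀ j, j ≠ i → e ∉ (A j).1) ∧
      ∀ j, ∑ e' ∈ (A j).1, ((if e' = e then t else y (bkLab D j e', e') : ℝ≥0) : ℝ) < (A j).2}, by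
    rintro t t' htt ⟨A, hA, hAD, heA, hs⟩
    refine ⟨A, hA, hAD, heA, fun j => lt_of_le_of_lt ?_ (hs j)⟩
    refine Finset.sum_le_sum fun e' _ => ?_
    split_ifs
    · exact_mod_cast htt
    · exact le_rfl⟩
  have hsub : (fun x => bkMerge e (x, y)) ⁻¹' bkEv F D ⊆ {x | ∃ i, x (none, e) ∈ J i} := by
    rintro x ⟨A, hA, hAD, hs⟩
    have hs' : ∀ j, ∑ e' ∈ (A j).1,
        ((if e' = e then x (none, e) else y (bkLab D j e', e') : ℝ≥0) : ℝ) < (A j).2 := by
      intro j
      refine lt_of_eq_of_lt (Finset.sum_congr rfl fun e' _ => ?_) (hs j)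
      by_cases h : e' = e
      · subst h; simp [bkMerge, bkLab, he]
      · simp [bkMerge, h]
    by_cases hA' : ∃ i, e ∈ (A i).1
    · obtain ⟨i, hi⟩ := hA'
      refine ⟨i, A, hA, hAD, fun j hj hj' => he ?_, hs'⟩
      exact hAD j i hj (Finset.mem_inter.2 ⟨hj', hi⟩)
    · push Not at hA'
      refine absurd ⟨A, hA, hAD, hA', fun i => ?_⟩ hfree
      refine lt_of_eq_of_lt (Finset.sum_congr rfl fun e' he' => ?_) (hs' i)
      have hne : e' ≠ e := by
        rintro rfl
        exact hA' i he'
      simp [hne]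
  rcases isEmpty_or_nonempty ι with hι | hι
  · have : (fun x => bkMerge e (x, y)) ⁻¹' bkEv F D = ∅ := by
      rw [← Set.subset_empty_iff]
      refine hsub.trans ?_
      rintro x ⟨i, _⟩
      exact hι.elim i
    rw [this]
    simp
  obtain ⟨i₀, hi₀⟩ := Finite.exists_max J
  have hmeas : MeasurableSet (J i₀ : Set ℝ≥0) := (J i₀).lower.ordConnected.measurableSet
  calc Q ((fun x => bkMerge e (x, y)) ⁻¹' bkEv F D)
      ≤ Q {x | x (none, e) ∈ J i₀} := by
        refine measure_mono (hsub.trans ?_)
        rintro x ⟨i, hi⟩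
        exact hi₀ i hi
    _ = μ (J i₀ : Set ℝ≥0) := by
        have := (measurePreserving_eval_infinitePi (fun _ : Option ι × E => μ)
          (none, e)).measure_preimage hmeas.nullMeasurableSet
        exact this
    _ = Q {x | x (some i₀, e) ∈ J i₀} := by
        have := (measurePreserving_eval_infinitePi (fun _ : Option ι × E => μ)
          (some i₀, e)).measure_preimage hmeas.nullMeasurableSet
        exact this.symm
    _ ≤ Q ((fun x => bkMerge e (x, y)) ⁻¹' bkEv F (insert e D)) := by
        refine measure_mono ?_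
        rintro x ⟨A, hA, hAD, heA, hs⟩
        refine ⟨A, hA, fun i j hij => (hAD i j hij).trans (Finset.subset_insert _ _), fun j => ?_⟩
        refine lt_of_eq_of_lt (Finset.sum_congr rfl fun e' he' => ?_) (hs j)
        by_cases h : e' = e
        · subst h
          have : j = i₀ := by
            by_contra hj
            exact heA j hj he'
          subst this
          simp [bkMerge, bkLab]
        · simp [bkMerge, bkLab, h]

theorem bk_mono (F : ι → Finset (Finset E × ℝ)) (D : Finset E) :
    (Measure.infinitePi fun _ : Option ι × E => μ) (bkEv F ∅) ≤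
      (Measure.infinitePi fun _ : Option ι × E => μ) (bkEv F D) := by
  induction D using Finset.induction_on with
  | empty => exact le_rfl
  | insert e D he ih => exact ih.trans (bk_step μ F D e he)

end bk

/-- Let `F i`, `i : ι`, be finite families of pairs (edge set `A`, threshold `τ`).  The probability
that there are pairwise disjoint cheap sets, one from each family, is at most the product of the
probabilities that each family contains a cheap set.

Proof by edge splitting: work on `Option ι × E → ℝ≥0` with the product measure.  For a finite set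
`D` of edges consider the event `Ev D` that there are `(A i, τ i) ∈ F i` with `A i ∩ A j ⊆ D` for
`i ≠ j` and `∑_{e ∈ A i \ D} w (none, e) + ∑_{e ∈ A i ∩ D} w (some i, e) < τ i`.  `Ev ∅` is the
disjoint occurrence, `Ev (everything)` an intersection of independent events, and
`P (Ev D) ≤ P (Ev (insert e D))`: given all the other coordinates, `Ev D` has the form
`t = w (none, e) ∈ ⋃ i, J i` with `J i` down-sets (`A i` is the only set that uses `e`), so the
union is one of them, say `J i₀` with `i₀` a measurable function of the other coordinates; exchange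
the coordinates `(none, e)` and `(some i₀, e)`. -/
theorem bk {ι : Type*} [Fintype ι] [DecidableEq ι] (F : ι → Finset (Finset E × ℝ)) :
    P μ {ω | ∃ A : ι → Finset E × ℝ, (∀ i, A i ∈ F i) ∧
        (∀ i j, i ≠ j → Disjoint (A i).1 (A j).1) ∧
        ∀ i, (∑ e ∈ (A i).1, (ω e : ℝ)) < (A i).2}
      ≤ ∏ i, P μ {ω | ∃ A ∈ F i, (∑ e ∈ A.1, (ω e : ℝ)) < A.2} := by
  classical
  set Q := Measure.infinitePi fun _ : Option ι × E => μ with hQ
  -- measurability of the single events
  have hBm : ∀ i, MeasurableSet {ω : Om | ∃ A ∈ F i, (∑ e ∈ A.1, (ω e : ℝ)) < A.2} := by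
    intro i
    have : {ω : Om | ∃ A ∈ F i, (∑ e ∈ A.1, (ω e : ℝ)) < A.2} =
        ⋃ A ∈ F i, {ω : Om | (∑ e ∈ A.1, (ω e : ℝ)) < A.2} := by
      ext w; simp
    rw [this]
    refine Finset.measurableSet_biUnion _ fun A _ => measurableSet_lt ?_ measurable_const
    fun_prop
  have hLm : MeasurableSet {ω : Om | ∃ A : ι → Finset E × ℝ, (∀ i, A i ∈ F i) ∧
        (∀ i j, i ≠ j → Disjoint (A i).1 (A j).1) ∧
        ∀ i, (∑ e ∈ (A i).1, (ω e : ℝ)) < (A i).2} := by
    have : {ω : Om | ∃ A : ι → Finset E × ℝ, (∀ i, A i ∈ F i) ∧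
        (∀ i j, i ≠ j → Disjoint (A i).1 (A j).1) ∧
        ∀ i, (∑ e ∈ (A i).1, (ω e : ℝ)) < (A i).2} =
        ⋃ A ∈ Fintype.piFinset F, {w | (∀ i j, i ≠ j → Disjoint (A i).1 (A j).1)} ∩
          ⋂ i, {ω : Om | ∑ e ∈ (A i).1, (ω e : ℝ) < (A i).2} := by
      ext w
      simp only [Set.mem_ofPred_eq, Set.mem_iUnion, Set.mem_inter_iff, Set.mem_iInter,
        exists_prop, Fintype.mem_piFinset]
    rw [this]
    refine Finset.measurableSet_biUnion _ fun A _ => ?_
    refine MeasurableSet.inter (MeasurableSet.const _) (MeasurableSet.iInter fun i => ?_)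
    refine measurableSet_lt ?_ measurable_const
    fun_prop
  -- the projections
  have hproj : ∀ o : Option ι, MeasurePreserving
      (fun (w : Option ι × E → ℝ≥0) (e : E) => w (o, e)) Q (P μ) := by
    intro o
    refine ⟨by fun_prop, ?_⟩
    have := Measure.map_infinitePi_infinitePi_of_inj (Ω := fun _ : Option ι × E => ℝ≥0)
      (P := fun _ => μ) (f := fun e : E => (o, e)) (fun a b h => by simpa using h)
    exact this
  set D : Finset E := Finset.univ.biUnion fun i => (F i).biUnion Prod.fst with hD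
  have h0 : P μ {ω | ∃ A : ι → Finset E × ℝ, (∀ i, A i ∈ F i) ∧
        (∀ i j, i ≠ j → Disjoint (A i).1 (A j).1) ∧
        ∀ i, (∑ e ∈ (A i).1, (ω e : ℝ)) < (A i).2} = Q (bkEv F ∅) := by
    rw [← (hproj none).measure_preimage hLm.nullMeasurableSet]
    congr 1
    ext w
    simp only [Set.mem_preimage, Set.mem_ofPred_eq, bkEv, Fintype.mem_piFinset,
      Finset.subset_empty, bkLab, Finset.notMem_empty, if_false, Finset.disjoint_iff_inter_eq_empty]
  have h1 : bkEv F D ⊆ {w | ∀ i : ι, (fun e => w (some i, e)) ∈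
      {ω : Om | ∃ A ∈ F i, (∑ e ∈ A.1, (ω e : ℝ)) < A.2}} := by
    rintro w ⟨A, hA, -, hs⟩ i
    rw [Fintype.mem_piFinset] at hA
    refine ⟨A i, hA i, lt_of_eq_of_lt (Finset.sum_congr rfl fun e he => ?_) (hs i)⟩
    have : e ∈ D := by
      simp only [hD, Finset.mem_biUnion, Finset.mem_univ, true_and]
      exact ⟨i, A i, hA i, he⟩
    simp [bkLab, this]
  have h2 : Q {w | ∀ i : ι, (fun e => w (some i, e)) ∈
      {ω : Om | ∃ A ∈ F i, (∑ e ∈ A.1, (ω e : ℝ)) < A.2}} =
      ∏ i, P μ {ω | ∃ A ∈ F i, (∑ e ∈ A.1, (ω e : ℝ)) < A.2} := by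
    have hc := Measure.infinitePi_map_curry (ι := Option ι) (κ := E) (X := ℝ≥0)
      (fun _ _ => μ)
    let B : Option ι → Set Om := fun o => o.elim Set.univ
      fun i => {ω : Om | ∃ A ∈ F i, (∑ e ∈ A.1, (ω e : ℝ)) < A.2}
    have hBm' : ∀ o, MeasurableSet (B o) := by
      rintro (_ | i)
      · exact MeasurableSet.univ
      · exact hBm i
    have hpi := Measure.infinitePi_pi (fun _ : Option ι => P μ) (s := Finset.univ) (t := B)
      (fun o _ => hBm' o)
    have hset : {w : Option ι × E → ℝ≥0 | ∀ i : ι, (fun e => w (some i, e)) ∈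
      {ω : Om | ∃ A ∈ F i, (∑ e ∈ A.1, (ω e : ℝ)) < A.2}} =
      MeasurableEquiv.curry (Option ι) E ℝ≥0 ⁻¹' (Set.pi ((Finset.univ : Finset (Option ι)) : Set _) B) := by
      ext w
      simp only [Set.mem_ofPred_eq, Set.mem_preimage, Set.mem_pi, Finset.coe_univ, Set.mem_univ,
        true_imp_iff]
      constructor
      · rintro h (_ | i)
        · exact Set.mem_univ _
        · exact h i
      · intro h i
        exact h (some i)
    rw [hset, ← Measure.map_apply (MeasurableEquiv.measurable _)
      (MeasurableSet.pi (Finset.countable_toSet _) fun o _ => hBm' o)]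
    have hc' : Measure.map (MeasurableEquiv.curry (Option ι) E ℝ≥0) Q =
      Measure.infinitePi (fun _ : Option ι => P μ) := hc
    rw [hc', hpi, Fintype.prod_option]
    simp [B]
  calc _ = Q (bkEv F ∅) := h0
    _ ≤ Q (bkEv F D) := bk_mono μ F D
    _ ≤ _ := measure_mono h1
    _ = _ := h2

end FPP
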