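import Pool.Agent.helper96.FPP.Flow

/-!
# Module M2 (Balance): the flow along a geodesic is balanced
-/

open MeasureTheory Filter Topology
open scoped NNReal ENNReal BoundedContinuousFunction

namespace FPP

/-! ### Truncation -/

theorem balance_trunc {ι : Type*} [Fintype ι] (m : ι → Measure Om) [∀ i, IsFiniteMeasure (m i)]
    (f : ι → Om → ℝ) (hf : ∀ i, Continuous (f i)) (B : ℝ)
    (h : ∀ M : ℕ, ∑ i, ∫ ω', min |f i ω'| (M : ℝ) ∂(m i) ≤ B) :
    (∀ i, Integrable (f i) (m i)) ∧ ∑ i, ∫ ω', |f i ω'| ∂(m i) ≤ B := by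
  have hB : 0 ≤ B := by
    have := h 0
    have e : ∀ i, ∫ ω', min |f i ω'| ((0 : ℕ) : ℝ) ∂(m i) = 0 := by
      intro i
      rw [Nat.cast_zero]
      have : (fun ω' => min |f i ω'| (0 : ℝ)) = fun _ => 0 := by
        funext ω'
        exact min_eq_right (abs_nonneg _)
      rw [this, integral_zero]
    rwa [Finset.sum_congr rfl fun i _ => e i, Finset.sum_const_zero] at this
  have hint : ∀ (M : ℕ) i, Integrable (fun ω' => min |f i ω'| (M : ℝ)) (m i) := by
    intro M i
    refine Integrable.of_bound (C := (M : ℝ)) ?_ ?_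
    · exact ((hf i).abs.min continuous_const).aestronglyMeasurable
    · refine Eventually.of_forall fun ω' => ?_
      rw [Real.norm_eq_abs, abs_of_nonneg (le_min (abs_nonneg _) (Nat.cast_nonneg _))]
      exact min_le_right _ _
  have hM : ∀ M : ℕ, ∑ i, ∫⁻ ω', ENNReal.ofReal (min |f i ω'| (M : ℝ)) ∂(m i)
      ≤ ENNReal.ofReal B := by
    intro M
    have e : ∀ i, ∫⁻ ω', ENNReal.ofReal (min |f i ω'| (M : ℝ)) ∂(m i) =
        ENNReal.ofReal (∫ ω', min |f i ω'| (M : ℝ) ∂(m i)) := fun i =>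
      (ofReal_integral_eq_lintegral_ofReal (hint M i)
        (Eventually.of_forall fun ω' => le_min (abs_nonneg _) (Nat.cast_nonneg _))).symm
    rw [Finset.sum_congr rfl fun i _ => e i, ← ENNReal.ofReal_sum_of_nonneg]
    · exact ENNReal.ofReal_le_ofReal (h M)
    · intro i _
      exact integral_nonneg fun ω' => le_min (abs_nonneg _) (Nat.cast_nonneg _)
  have hlim : ∀ i, Tendsto (fun M : ℕ => ∫⁻ ω', ENNReal.ofReal (min |f i ω'| (M : ℝ)) ∂(m i))
      atTop (𝓝 (∫⁻ ω', ENNReal.ofReal |f i ω'| ∂(m i))) := by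
    intro i
    refine lintegral_tendsto_of_tendsto_of_monotone ?_ ?_ ?_
    · intro M
      exact (((hf i).abs.min continuous_const).measurable.ennreal_ofReal).aemeasurable
    · refine Eventually.of_forall fun ω' M M' hMM' => ?_
      exact ENNReal.ofReal_le_ofReal (min_le_min le_rfl (Nat.cast_le.mpr hMM'))
    · refine Eventually.of_forall fun ω' => ?_
      refine tendsto_atTop_of_eventually_const (i₀ := ⌈|f i ω'|⌉₊) fun M hM => ?_
      rw [min_eq_left]
      exact (Nat.le_ceil _).trans (Nat.cast_le.mpr hM)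
  have hsum : ∑ i, ∫⁻ ω', ENNReal.ofReal |f i ω'| ∂(m i) ≤ ENNReal.ofReal B :=
    le_of_tendsto' (tendsto_finsetSum _ fun i _ => hlim i) hM
  have hfin : ∀ i, ∫⁻ ω', ENNReal.ofReal |f i ω'| ∂(m i) < ∞ := fun i =>
    ((Finset.single_le_sum (f := fun i => ∫⁻ ω', ENNReal.ofReal |f i ω'| ∂(m i))
      (fun _ _ => zero_le) (Finset.mem_univ i)).trans hsum).trans_lt ENNReal.ofReal_lt_top
  have hI : ∀ i, Integrable (f i) (m i) := by
    intro i
    refine ⟨(hf i).aestronglyMeasurable, ?_⟩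
    rw [hasFiniteIntegral_iff_norm]
    simpa [Real.norm_eq_abs] using hfin i
  refine ⟨hI, ?_⟩
  have e : ∀ i, ENNReal.ofReal (∫ ω', |f i ω'| ∂(m i)) =
      ∫⁻ ω', ENNReal.ofReal |f i ω'| ∂(m i) := fun i =>
    ofReal_integral_eq_lintegral_ofReal (hI i).abs (Eventually.of_forall fun ω' => abs_nonneg _)
  rw [← Finset.sum_congr rfl fun i _ => e i, ← ENNReal.ofReal_sum_of_nonneg] at hsum
  · exact (ENNReal.ofReal_le_ofReal_iff hB).mp hsum
  · intro i _
    exact integral_nonneg fun ω' => abs_nonneg _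

/-- The bounded continuous function `min |f| M`. -/
noncomputable def balance_bcf (f : Om → ℝ) (hf : Continuous f) (M : ℕ) : Om →ᵇ ℝ :=
  BoundedContinuousFunction.ofNormedAddCommGroup (fun ω' => min |f ω'| (M : ℝ))
    (hf.abs.min continuous_const) M (fun ω' => by
      rw [Real.norm_eq_abs, abs_of_nonneg (le_min (abs_nonneg _) (Nat.cast_nonneg _))]
      exact min_le_right _ _)

theorem balance_bcf_apply (f : Om → ℝ) (hf : Continuous f) (M : ℕ) (ω' : Om) :
    balance_bcf f hf M ω' = min |f ω'| (M : ℝ) := rfl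

theorem balance_lim {ω : Om} {g : ℕ → V} {s : ℕ → Dir} {F : Filter ℕ} {ν : Measure Om}
    {m : List Dir → Measure Om} (hm : IsBlockLimit ω g s F ν m) (N : ℕ)
    (h : (Fin N → Dir) → (Om →ᵇ ℝ)) :
    Tendsto (fun n : ℕ => (∑ k ∈ Finset.range n,
      h (fun i => s (k + i)) (shift (g k) ω)) / n) F
      (𝓝 (∑ γ : Fin N → Dir, ∫ ω', h γ ω' ∂(m (List.ofFn γ)))) := by
  have h1 := tendsto_finsetSum Finset.univ
    fun (γ : Fin N → Dir) _ => hm.lim (List.ofFn γ) (h γ)
  refine h1.congr fun n => ?_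
  rw [← Finset.sum_div, Finset.sum_comm]
  congr 1
  refine Finset.sum_congr rfl fun k _ => ?_
  have hblk : ∀ γ : Fin N → Dir, blk s k (List.ofFn γ).length = List.ofFn γ ↔
      (fun i : Fin N => s (k + i)) = γ := by
    intro γ
    rw [List.length_ofFn]
    have : blk s k N = List.ofFn (fun i : Fin N => s (k + i)) := by
      unfold blk
      rw [List.ofFn_eq_map, List.map_coe_finRange_eq_range.symm, List.map_map]
      rfl
    rw [this]
    exact List.ofFn_injective.eq_iff
  simp only [hblk]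
  rw [Finset.sum_ite_eq]
  simp

/-! ### Sums along the path -/

theorem balance_sum_mul (f : ℕ → ℝ) (N M : ℕ) :
    ∑ k ∈ Finset.range (M * N), f k =
      ∑ r ∈ Finset.range N, ∑ i ∈ Finset.range M, f (r + i * N) := by
  rw [Finset.sum_comm]
  induction M with
  | zero => simp
  | succ M ih =>
    rw [Nat.succ_mul, Finset.sum_range_add, ih, Finset.sum_range_succ]
    congr 1
    exact Finset.sum_congr rfl fun r _ => by rw [add_comm]

theorem balance_shift_sum (φ : ℕ → ℝ) (n N : ℕ) :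
    ∑ k ∈ Finset.range n, (φ (k + N) - φ k) = ∑ i ∈ Finset.range N, (φ (n + i) - φ i) := by
  have h1 := Finset.sum_range_add φ n N
  have h2 := Finset.sum_range_add φ N n
  rw [add_comm N n] at h2
  rw [Finset.sum_sub_distrib, Finset.sum_sub_distrib]
  have h3 : ∑ k ∈ Finset.range n, φ (k + N) = ∑ k ∈ Finset.range n, φ (N + k) :=
    Finset.sum_congr rfl fun k _ => by rw [add_comm]
  rw [h3]
  linarith

/-- Sums of blocks of nonnegative numbers. -/
theorem balance_block_sum (w : ℕ → ℝ) (hw : ∀ k, 0 ≤ w k) (n N : ℕ) :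
    ∑ k ∈ Finset.range n, ∑ i ∈ Finset.range N, w (k + i) ≤
      N * ∑ k ∈ Finset.range (n + N), w k := by
  rw [Finset.sum_comm]
  have h : ∀ i ∈ Finset.range N, ∑ k ∈ Finset.range n, w (k + i) ≤
      ∑ k ∈ Finset.range (n + N), w k := by
    intro i hi
    rw [Finset.mem_range] at hi
    have e : ∑ k ∈ Finset.range n, w (k + i) = ∑ k ∈ Finset.Ico i (n + i), w k := by
      rw [Finset.sum_Ico_eq_sum_range]
      simp [add_comm]
    rw [e]
    refine Finset.sum_le_sum_of_subset_of_nonneg ?_ fun _ _ _ => hw _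
    intro k hk
    rw [Finset.mem_Ico] at hk
    rw [Finset.mem_range]
    omega
  calc _ ≤ ∑ _i ∈ Finset.range N, ∑ k ∈ Finset.range (n + N), w k := Finset.sum_le_sum h
    _ = _ := by rw [Finset.sum_const, Finset.card_range, nsmul_eq_mul]

/-- The block functional: weight of the block minus `ρ ·` displacement. -/
noncomputable def balance_F (ρ : ℝ × ℝ) (γ : List Dir) (ω' : Om) : ℝ :=
  (wt ω' 0 γ : ℝ) - dot ρ (disp γ)

theorem balance_F_continuous (ρ : ℝ × ℝ) (γ : List Dir) : Continuous (balance_F ρ γ) := by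
  unfold balance_F
  have := (continuous_wt 0 γ)
  exact (NNReal.continuous_coe.comp this).sub continuous_const

section det

variable {ω : Om} {g : ℕ → V} {s : ℕ → Dir} (hs : ∀ k, g (k + 1) = g k + vec (s k))
  {ρ : ℝ × ℝ}

include hs in
theorem balance_blk (k N : ℕ) :
    (wt ω (g k) (List.ofFn fun i : Fin N => s (k + i)) : ℝ) =
        ∑ i ∈ Finset.range N, (ω (edge (g (k + i)) (g (k + i + 1))) : ℝ) ∧
      g k + disp (List.ofFn fun i : Fin N => s (k + i)) = g (k + N) := by
  induction N generalizing k with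
  | zero => simp [wt_nil, disp_nil]
  | succ N ih =>
    have h := ih (k + 1)
    have e : (fun i : Fin N => s (k + 1 + i)) = fun i : Fin N => s (k + (i + 1 : ℕ)) := by
      funext i
      congr 1
      omega
    rw [e] at h
    rw [List.ofFn_succ]
    simp only [Fin.val_zero, add_zero, Fin.val_succ]
    rw [wt_cons, disp_cons, ← hs, Finset.sum_range_succ', ← add_assoc, ← hs]
    refine ⟨?_, ?_⟩
    · push_cast
      rw [h.1, add_comm]
      congr 1
      refine Finset.sum_congr rfl fun i _ => ?_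
      rw [add_right_comm k 1 i, add_assoc k i 1]
    · rw [h.2]
      congr 1
      omega

include hs in
theorem balance_F_eq (k N : ℕ) :
    balance_F ρ (List.ofFn fun i : Fin N => s (k + i)) (shift (g k) ω) =
      ∑ i ∈ Finset.range N, (ω (edge (g (k + i)) (g (k + i + 1))) : ℝ) -
        dot ρ (g (k + N) - g k) := by
  obtain ⟨h1, h2⟩ := balance_blk (ω := ω) hs k N
  unfold balance_F
  rw [← wt_shift, zero_add, h1, ← h2, add_sub_cancel_left]

/-- Weight of a block minus `ρ ·` displacement, along the path. -/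
noncomputable def balance_a (ρ : ℝ × ℝ) (ω : Om) (g : ℕ → V) (N k : ℕ) : ℝ :=
  ∑ i ∈ Finset.range N, (ω (edge (g (k + i)) (g (k + i + 1))) : ℝ) - dot ρ (g (k + N) - g k)

theorem balance_dot_le {ω : Om} {g : ℕ → V} (hg : IsGeodesicRay ω g) (ρ : ℝ × ℝ) (a n : ℕ) :
    |dot ρ (g (a + n) - g a)| ≤ (|ρ.1| + |ρ.2|) * n := by
  refine (abs_dot_le ρ _).trans ?_
  have h1 : nrm (g (a + n) - g a) ≤ n := by
    have := nrm_path_le (p := g) (n := a + n) (fun k _ => hg.adj k) (Nat.le_add_right a n) le_rfl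
    omega
  have h2 : ((nrm (g (a + n) - g a) : ℕ) : ℝ) ≤ n := by exact_mod_cast h1
  exact mul_le_mul_of_nonneg_left h2 (by positivity)

theorem balance_sum_a {ω : Om} {g : ℕ → V} (hg : IsGeodesicRay ω g) (ρ : ℝ × ℝ) (N n : ℕ) :
    ∑ k ∈ Finset.range n, balance_a ρ ω g N k ≤
      N * (T ω (g 0) (g (n + N)) - dot ρ (g (n + N) - g 0)) +
        2 * (|ρ.1| + |ρ.2|) * N ^ 2 := by
  have hT : ∑ k ∈ Finset.range (n + N), (ω (edge (g k) (g (k + 1))) : ℝ) =
      T ω (g 0) (g (n + N)) := by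
    rw [← hg.geo 0 (n + N) (Nat.zero_le _), Finset.range_eq_Ico]
  have h1 := balance_block_sum (fun k => (ω (edge (g k) (g (k + 1))) : ℝ))
    (fun k => NNReal.coe_nonneg _) n N
  rw [hT] at h1
  have h2 := balance_shift_sum (fun k => dot ρ (g k)) n N
  have h3 : ∑ i ∈ Finset.range N, (dot ρ (g (n + i)) - dot ρ (g i)) ≥
      ∑ i ∈ Finset.range N, (dot ρ (g (n + N) - g 0) - 2 * (|ρ.1| + |ρ.2|) * N) := by
    refine Finset.sum_le_sum fun i hi => ?_
    rw [Finset.mem_range] at hi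
    have h4 := balance_dot_le hg ρ (n + i) (N - i)
    have h5 := balance_dot_le hg ρ 0 i
    rw [show n + i + (N - i) = n + N by omega, dot_sub] at h4
    rw [zero_add, dot_sub] at h5
    rw [dot_sub]
    have h6 : ((N - i : ℕ) : ℝ) ≤ N := by exact_mod_cast Nat.sub_le N i
    have h7 : (i : ℝ) ≤ N := by exact_mod_cast hi.le
    have hC : 0 ≤ |ρ.1| + |ρ.2| := by positivity
    have h8 := mul_le_mul_of_nonneg_left h6 hC
    have h9 := mul_le_mul_of_nonneg_left h7 hC
    have h10 := (abs_le.mp h4).2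
    have h11 := (abs_le.mp h5).2
    linarith
  rw [Finset.sum_const, Finset.card_range, nsmul_eq_mul] at h3
  unfold balance_a
  rw [Finset.sum_sub_distrib]
  have h4 : ∑ k ∈ Finset.range n, dot ρ (g (k + N) - g k) =
      ∑ k ∈ Finset.range n, (dot ρ (g (k + N)) - dot ρ (g k)) :=
    Finset.sum_congr rfl fun k _ => dot_sub _ _ _
  rw [h4, h2]
  nlinarith [h1, h3]

/-- The block number `k` is fast. -/
def balance_fast (tc : V → ℝ) (ε : ℝ) (ω : Om) (g : ℕ → V) (N k : ℕ) : Prop :=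
  ∑ i ∈ Finset.range N, (ω (edge (g (k + i)) (g (k + i + 1))) : ℝ) < tc (g (k + N) - g k) - ε * N

open Classical in
theorem balance_few {tc : V → ℝ} {ε κ : ℝ} {ω : Om} {g : ℕ → V} (hg : IsGeodesicRay ω g)
    (hκ : 0 < κ) {N : ℕ} (hN : 0 < N) (hfew : FewFast tc ε κ N ω) :
    ∃ n₀ : ℕ, ∀ n, n₀ ≤ n →
      (((Finset.range n).filter fun k => balance_fast tc ε ω g N k).card : ℝ) ≤
        κ * (n + N) := by
  choose M₀ hM₀ using hfew
  refine ⟨N * ∑ r ∈ Finset.range N, M₀ (g r), fun n hn => ?_⟩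
  set M := n / N + 1 with hM
  have hnM : n ≤ M * N := by
    have := Nat.div_add_mod n N
    have h2 := Nat.mod_lt n hN
    rw [hM, Nat.add_mul, one_mul, mul_comm]
    omega
  have hMn : M * N ≤ n + N := by
    rw [hM, Nat.add_mul, one_mul]
    have := Nat.div_mul_le_self n N
    omega
  have hMM : ∀ r < N, M₀ (g r) ≤ M := by
    intro r hr
    have h1 : M₀ (g r) ≤ ∑ r ∈ Finset.range N, M₀ (g r) :=
      Finset.single_le_sum (f := fun r => M₀ (g r)) (fun _ _ => Nat.zero_le _)
        (Finset.mem_range.mpr hr)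
    have h2 : ∑ r ∈ Finset.range N, M₀ (g r) ≤ n / N := by
      rw [Nat.le_div_iff_mul_le hN, mul_comm]
      exact hn
    omega
  have hcount : ∀ r < N,
      (∑ i ∈ Finset.range M, if balance_fast tc ε ω g N (r + i * N) then (1 : ℝ) else 0) ≤
        κ * M := by
    intro r hr
    have h1 := hM₀ (g r) M (hMM r hr) (fun i => g (r + i)) rfl (hg.isPath r (M * N))
    refine le_trans (le_of_eq ?_) h1
    unfold fastc
    rw [Finset.sum_boole]
    congr 2
    refine Finset.filter_congr fun i _ => ?_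
    unfold balance_fast
    rw [Finset.sum_Ico_eq_sum_range]
    have e1 : (i + 1) * N - i * N = N := by rw [Nat.add_mul, one_mul]; omega
    have e2 : r + (i + 1) * N = r + i * N + N := by rw [Nat.add_mul, one_mul]; omega
    beta_reduce
    rw [e1, e2]
    have e3 : ∀ k, r + (i * N + k) = r + i * N + k := fun k => by omega
    have e4 : ∀ k, r + (i * N + k + 1) = r + i * N + k + 1 := fun k => by omega
    simp only [e3, e4]
  rw [Finset.card_filter, Nat.cast_sum]
  have h1 : (∑ k ∈ Finset.range n, (((if balance_fast tc ε ω g N k then 1 else 0 : ℕ)) : ℝ)) ≤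
      ∑ k ∈ Finset.range (M * N), if balance_fast tc ε ω g N k then (1 : ℝ) else 0 := by
    have : ∀ k, (((if balance_fast tc ε ω g N k then 1 else 0 : ℕ)) : ℝ) =
        if balance_fast tc ε ω g N k then (1 : ℝ) else 0 := by
      intro k; split_ifs <;> simp
    simp only [this]
    refine Finset.sum_le_sum_of_subset_of_nonneg (Finset.range_mono hnM) fun k _ _ => ?_
    split_ifs <;> norm_num
  refine h1.trans ?_
  rw [balance_sum_mul]
  calc _ ≤ ∑ _r ∈ Finset.range N, κ * M :=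
        Finset.sum_le_sum fun r hr => hcount r (Finset.mem_range.mp hr)
    _ = κ * ((M * N : ℕ) : ℝ) := by
        rw [Finset.sum_const, Finset.card_range, nsmul_eq_mul]; push_cast; ring
    _ ≤ κ * (n + N) := by
        refine mul_le_mul_of_nonneg_left ?_ hκ.le
        exact_mod_cast hMn

open Classical in
/-- Lower bounds for the blocks: `≥ -ε N` if not fast, `≥ -C N` always. -/
theorem balance_a_ge {tc : V → ℝ} (hρ : ∀ v, dot ρ v ≤ tc v) {ε : ℝ} (hε : 0 < ε) {ω : Om}
    {g : ℕ → V} (hg : IsGeodesicRay ω g) (N k : ℕ) :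
    -(ε * N + (|ρ.1| + |ρ.2|) * N * (if balance_fast tc ε ω g N k then 1 else 0)) ≤
      balance_a ρ ω g N k := by
  unfold balance_a
  have hC : 0 ≤ |ρ.1| + |ρ.2| := by positivity
  split_ifs with hf
  · have h1 := (abs_le.mp (balance_dot_le hg ρ k N)).2
    have h2 : 0 ≤ ∑ i ∈ Finset.range N, (ω (edge (g (k + i)) (g (k + i + 1))) : ℝ) :=
      Finset.sum_nonneg fun _ _ => NNReal.coe_nonneg _
    have h3 : 0 ≤ ε * N := by positivity
    linarith
  · unfold balance_fast at hf
    push Not at hf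
    have := hρ (g (k + N) - g k)
    linarith

open Classical in
theorem balance_sum_abs {tc : V → ℝ} (hρ : ∀ v, dot ρ v ≤ tc v) {ε κ : ℝ} (hε : 0 < ε)
    (hκ : 0 < κ) {ω : Om} {g : ℕ → V} (hg : IsGeodesicRay ω g) {N : ℕ} (hN : 0 < N)
    (hfew : FewFast tc ε κ N ω) (M : ℕ) :
    ∃ n₀ : ℕ, ∀ n, n₀ ≤ n →
      ∑ k ∈ Finset.range n, min |balance_a ρ ω g N k| (M : ℝ) ≤
        N * (T ω (g 0) (g n) - dot ρ (g n - g 0)) + 2 * (|ρ.1| + |ρ.2|) * N ^ 2 +
          2 * (ε + (|ρ.1| + |ρ.2|) * κ) * N * n + N * M := by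
  obtain ⟨n₀, hn₀⟩ := balance_few hg hκ hN hfew
  refine ⟨n₀ + N, fun n hn => ?_⟩
  obtain ⟨n', rfl⟩ : ∃ n', n = n' + N := ⟨n - N, by omega⟩
  have hn' := hn₀ n' (by omega)
  have hC : 0 ≤ |ρ.1| + |ρ.2| := by positivity
  rw [Finset.sum_range_add]
  have h1 : ∑ x ∈ Finset.range N, min |balance_a ρ ω g N (n' + x)| (M : ℝ) ≤ N * M := by
    calc _ ≤ ∑ _x ∈ Finset.range N, (M : ℝ) := Finset.sum_le_sum fun x _ => min_le_right _ _
      _ = N * M := by rw [Finset.sum_const, Finset.card_range, nsmul_eq_mul]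
  have h2 : ∀ k, min |balance_a ρ ω g N k| (M : ℝ) ≤ balance_a ρ ω g N k +
      2 * (ε * N + (|ρ.1| + |ρ.2|) * N * (if balance_fast tc ε ω g N k then 1 else 0)) := by
    intro k
    refine (min_le_left _ _).trans ?_
    have h3 := balance_a_ge hρ hε hg N k
    have h4 : 0 ≤ ε * N + (|ρ.1| + |ρ.2|) * N * (if balance_fast tc ε ω g N k then 1 else 0) := by
      have : (0 : ℝ) ≤ if balance_fast tc ε ω g N k then 1 else 0 := by
        split_ifs <;> norm_num
      positivity
    rcases abs_cases (balance_a ρ ω g N k) with ⟨h5, _⟩ | ⟨h5, _⟩ <;> rw [h5] <;> linarith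
  have h3 : ∑ k ∈ Finset.range n', min |balance_a ρ ω g N k| (M : ℝ) ≤
      ∑ k ∈ Finset.range n', balance_a ρ ω g N k + 2 * (ε * N * n' +
        (|ρ.1| + |ρ.2|) * N * (κ * (n' + N))) := by
    calc _ ≤ ∑ k ∈ Finset.range n', (balance_a ρ ω g N k +
        2 * (ε * N + (|ρ.1| + |ρ.2|) * N * (if balance_fast tc ε ω g N k then 1 else 0))) :=
          Finset.sum_le_sum fun k _ => h2 k
      _ = ∑ k ∈ Finset.range n', balance_a ρ ω g N k + 2 * (ε * N * n' +
        (|ρ.1| + |ρ.2|) * N * (((Finset.range n').filter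
          fun k => balance_fast tc ε ω g N k).card : ℝ)) := by
          rw [Finset.sum_add_distrib, ← Finset.mul_sum, Finset.sum_add_distrib, Finset.sum_const,
            ← Finset.mul_sum, Finset.sum_boole, Finset.card_range, nsmul_eq_mul]
          ring
      _ ≤ _ := by
          have := mul_le_mul_of_nonneg_left hn' (show 0 ≤ (|ρ.1| + |ρ.2|) * N by positivity)
          linarith
  have h4 := balance_sum_a hg ρ N n'
  have h5 : 0 ≤ ε * N * N := by positivity
  push_cast
  nlinarith [h1, h3, h4, h5]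

end det

/-! ### Limits -/

section lim

variable {tc : V → ℝ} {ρ : ℝ × ℝ} (hρ : ∀ v, dot ρ v ≤ tc v) {ω : Om} {g : ℕ → V}
    (hg : IsGeodesicRay ω g) {s : ℕ → Dir} (hs : ∀ k, g (k + 1) = g k + vec (s k))
    {ν : Measure Om} [IsProbabilityMeasure ν] {F : Ultrafilter ℕ} (hF : (F : Filter ℕ) ≤ atTop)
    {m : List Dir → Measure Om} (hm : IsBlockLimit ω g s F ν m)
    (hlim : ∀ ε : ℝ, 0 < ε → ∀ᶠ n : ℕ in F, T ω (g 0) (g n) - dot ρ (g n - g 0) ≤ ε * n)

omit [IsProbabilityMeasure ν] in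
include hρ hg hs hF hm hlim in
theorem balance_bound {ε κ : ℝ} (hε : 0 < ε) (hκ : 0 < κ) {N : ℕ} (hN : 0 < N)
    (hfew : FewFast tc ε κ N ω) (M : ℕ) :
    ∑ γ : Fin N → Dir, ∫ ω', min |balance_F ρ (List.ofFn γ) ω'| (M : ℝ) ∂(m (List.ofFn γ)) ≤
      2 * (ε + (|ρ.1| + |ρ.2|) * κ) * N := by
  have h1 := balance_lim hm N
    fun γ => balance_bcf (balance_F ρ (List.ofFn γ)) (balance_F_continuous ρ _) M
  simp only [balance_bcf_apply, balance_F_eq hs] at h1
  obtain ⟨n₀, hn₀⟩ := balance_sum_abs hρ hε hκ hg hN hfew M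
  have hNR : (0 : ℝ) < N := by exact_mod_cast hN
  refine le_of_forall_pos_le_add fun ε' hε' => ?_
  have h2 : Tendsto (fun n : ℕ => ε' + 2 * (ε + (|ρ.1| + |ρ.2|) * κ) * N +
      (2 * (|ρ.1| + |ρ.2|) * N ^ 2 + N * M) / n) F
      (𝓝 (ε' + 2 * (ε + (|ρ.1| + |ρ.2|) * κ) * N + 0)) := by
    refine tendsto_const_nhds.add ?_
    exact (tendsto_const_div_atTop_nhds_zero_nat _).mono_left hF
  have h3 := le_of_tendsto_of_tendsto h1 h2 ?_
  · linarith
  have h4 := hlim (ε' / N) (by positivity)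
  have h5 : ∀ᶠ n : ℕ in F, n₀ ≤ n := hF (eventually_ge_atTop n₀)
  have h6 : ∀ᶠ n : ℕ in F, 1 ≤ n := hF (eventually_ge_atTop 1)
  filter_upwards [h4, h5, h6] with n h4 h5 h6
  have h7 := hn₀ n h5
  unfold balance_a at h7
  have hn : (0 : ℝ) < n := by exact_mod_cast h6
  rw [div_le_iff₀ hn, add_mul, div_mul_cancel₀ _ hn.ne']
  have h8 := mul_le_mul_of_nonneg_left h4 hNR.le
  have h9 : N * (ε' / N * n) = ε' * n := by field_simp
  rw [h9] at h8
  linarith

omit [IsProbabilityMeasure ν] in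
include hg hs hF hm hlim in
theorem balance_int1 (M : ℕ) :
    ∑ a : Dir, ∫ ω', min |(ω' (edge 0 (vec a)) : ℝ)| (M : ℝ) ∂(m [a]) ≤
      (|ρ.1| + |ρ.2|) + 1 := by
  have hcont : ∀ a : Dir, Continuous fun ω' : Om => (ω' (edge 0 (vec a)) : ℝ) := fun a =>
    NNReal.continuous_coe.comp (continuous_apply _)
  have h1 := tendsto_finsetSum Finset.univ
    fun (a : Dir) _ => hm.lim [a] (balance_bcf _ (hcont a) M)
  have h2 : ∀ k a, (blk s k [a].length = [a]) ↔ s k = a := by
    intro k a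
    simp [blk]
  simp only [balance_bcf_apply, h2] at h1
  have hw : ∀ k, ((shift (g k) ω) (edge 0 (vec (s k)))) = ω (edge (g k) (g (k + 1))) := by
    intro k
    rw [shift_edge, zero_add, hs k, add_comm]
  refine le_of_tendsto h1 ?_
  filter_upwards [hlim 1 one_pos, hF (eventually_ge_atTop 1)] with n h4 h6
  have hn : (0 : ℝ) < n := by exact_mod_cast h6
  rw [← Finset.sum_div, div_le_iff₀ hn, Finset.sum_comm]
  have h7 : ∑ k ∈ Finset.range n, ∑ a : Dir, (if s k = a then
      min |((shift (g k) ω) (edge 0 (vec a)) : ℝ)| (M : ℝ) else 0) ≤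
      ∑ k ∈ Finset.range n, (ω (edge (g k) (g (k + 1))) : ℝ) := by
    refine Finset.sum_le_sum fun k _ => ?_
    rw [Finset.sum_ite_eq, if_pos (Finset.mem_univ _), hw, abs_of_nonneg (NNReal.coe_nonneg _)]
    exact min_le_left _ _
  have hT : ∑ k ∈ Finset.range n, (ω (edge (g k) (g (k + 1))) : ℝ) = T ω (g 0) (g n) := by
    rw [← hg.geo 0 n (Nat.zero_le _), Finset.range_eq_Ico]
  rw [hT] at h7
  have h8 := (abs_le.mp (balance_dot_le hg ρ 0 n)).2
  rw [zero_add] at h8
  linarith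

end lim

theorem balance_wt (ω' : Om) (x : V) (N : ℕ) (γ : Fin N → Dir) :
    (wt ω' x (List.ofFn γ) : ℝ) = ∑ i : Fin N, (ω' (edge (x + disp ((List.ofFn γ).take i))
      (x + disp ((List.ofFn γ).take i) + vec (γ i))) : ℝ) := by
  induction N generalizing x with
  | zero => simp [wt_nil]
  | succ N ih =>
    rw [List.ofFn_succ, wt_cons, Fin.sum_univ_succ]
    push_cast
    rw [ih]
    congr 1
    · simp [disp_nil]
    · refine Finset.sum_congr rfl fun i _ => ?_
      rw [Fin.val_succ, List.take_succ_cons, disp_cons, ← add_assoc]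

theorem balance_disp (N : ℕ) (γ : Fin N → Dir) (ρ : ℝ × ℝ) :
    dot ρ (disp (List.ofFn γ)) = ∑ i : Fin N, dot ρ (vec (γ i)) := by
  induction N with
  | zero => simp [disp_nil, dot_zero]
  | succ N ih =>
    rw [List.ofFn_succ, disp_cons, Fin.sum_univ_succ, dot_add, ih]

theorem balance_F_sum (ρ : ℝ × ℝ) (N : ℕ) (γ : Fin N → Dir) (ω' : Om) :
    balance_F ρ (List.ofFn γ) ω' = ∑ i : Fin N,
      (((shift (disp ((List.ofFn γ).take i)) ω') (edge 0 (vec (γ i))) : ℝ) -
        dot ρ (vec (γ i))) := by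
  unfold balance_F
  rw [balance_wt, balance_disp, ← Finset.sum_sub_distrib]
  refine Finset.sum_congr rfl fun i _ => ?_
  rw [shift_edge, zero_add, add_comm (vec (γ i))]

/-- Balance.  `F` is an ultrafilter along which `T(g 0, g n) - ρ · (g n - g 0) ≤ o(n)`. -/
theorem balance {tc : V → ℝ} (htc : ∃ C : ℝ, ∀ v, tc v ≤ C * nrm v) {ρ : ℝ × ℝ}
    (hρ : ∀ v, dot ρ v ≤ tc v) {ω : Om} {g : ℕ → V}
    (hg : IsGeodesicRay ω g) {s : ℕ → Dir} (hs : ∀ k, g (k + 1) = g k + vec (s k))
    {ν : Measure Om} [IsProbabilityMeasure ν] {F : Ultrafilter ℕ} (hF : (F : Filter ℕ) ≤ atTop)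
    {m : List Dir → Measure Om} (hm : IsBlockLimit ω g s F ν m)
    (hlim : ∀ ε : ℝ, 0 < ε → ∀ᶠ n : ℕ in F, T ω (g 0) (g n) - dot ρ (g n - g 0) ≤ ε * n)
    (hfew : ∀ ε κ : ℝ, 0 < ε → 0 < κ → ∃ N : ℕ, 0 < N ∧ FewFast tc ε κ N ω)
    {Z : Set Om} (hZ : MeasurableSet Z) (hZinv : ∀ v ω', shift v ω' ∈ Z ↔ ω' ∈ Z) :
    (∀ a : Dir, Integrable (fun ω' : Om => (ω' (edge 0 (vec a)) : ℝ)) (m [a])) ∧
      ∑ a : Dir, ∫ ω' in Z, ((ω' (edge 0 (vec a)) : ℝ) - dot ρ (vec a)) ∂(m [a]) = 0 := by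
  have hfm : ∀ γ, IsFiniteMeasure (m γ) := fun γ => isFiniteMeasure_of_le ν (hm.le γ)
  have hcont : ∀ a : Dir, Continuous fun ω' : Om => (ω' (edge 0 (vec a)) : ℝ) := fun a =>
    NNReal.continuous_coe.comp (continuous_apply _)
  have hint := (balance_trunc (fun a : Dir => m [a]) (fun a ω' => (ω' (edge 0 (vec a)) : ℝ))
    hcont _ (balance_int1 hg hs hF hm hlim)).1
  refine ⟨hint, ?_⟩
  have hint' : ∀ a : Dir, Integrable
      (fun ω' : Om => (ω' (edge 0 (vec a)) : ℝ) - dot ρ (vec a)) (m [a]) := fun a =>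
    (hint a).sub (integrable_const _)
  set C := |ρ.1| + |ρ.2| with hC
  have hC0 : 0 ≤ C := by positivity
  -- the key bound
  have key : ∀ ε κ : ℝ, 0 < ε → 0 < κ →
      |∑ a : Dir, ∫ ω' in Z, ((ω' (edge 0 (vec a)) : ℝ) - dot ρ (vec a)) ∂(m [a])| ≤
        2 * (ε + C * κ) := by
    intro ε κ hε hκ
    obtain ⟨N, hN, hfewN⟩ := hfew ε κ hε hκ
    have hNR : (0 : ℝ) < N := by exact_mod_cast hN
    have hb := balance_trunc (fun γ : Fin N → Dir => m (List.ofFn γ))
      (fun γ => balance_F ρ (List.ofFn γ)) (fun γ => balance_F_continuous ρ _) _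
      (balance_bound hρ hg hs hF hm hlim hε hκ hN hfewN)
    -- marginals
    have hle : ∀ (γ : Fin N → Dir) (i : Fin N),
        (m (List.ofFn γ)).map (shift (disp ((List.ofFn γ).take i))) ≤ m [γ i] := by
      intro γ i
      rw [hm.marginal N i i.2 (γ i)]
      intro t
      rw [Measure.coe_finsetSum, Finset.sum_apply]
      refine le_trans (le_of_eq ?_) (Finset.single_le_sum (fun _ _ => zero_le)
        (Finset.mem_univ γ))
      rw [if_pos rfl]
    have hmap : ∀ (γ : Fin N → Dir) (i : Fin N),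
        ∫ ω' in Z, (((shift (disp ((List.ofFn γ).take i)) ω') (edge 0 (vec (γ i))) : ℝ) -
          dot ρ (vec (γ i))) ∂(m (List.ofFn γ)) =
        ∫ ω' in Z, ((ω' (edge 0 (vec (γ i))) : ℝ) - dot ρ (vec (γ i)))
          ∂((m (List.ofFn γ)).map (shift (disp ((List.ofFn γ).take i)))) := by
      intro γ i
      rw [setIntegral_map hZ ((hint' (γ i)).mono_measure (hle γ i)).aestronglyMeasurable
        (measurable_shift _).aemeasurable]
      have : shift (disp ((List.ofFn γ).take i)) ⁻¹' Z = Z := by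
        ext ω'
        exact hZinv _ _
      rw [this]
    have hintmap : ∀ (γ : Fin N → Dir) (i : Fin N), Integrable (fun ω' : Om =>
        ((shift (disp ((List.ofFn γ).take i)) ω') (edge 0 (vec (γ i))) : ℝ) -
          dot ρ (vec (γ i))) (m (List.ofFn γ)) := by
      intro γ i
      exact ((hint' (γ i)).mono_measure (hle γ i)).comp_measurable (measurable_shift _)
    have hFint : ∀ γ : Fin N → Dir, ∫ ω' in Z, balance_F ρ (List.ofFn γ) ω' ∂(m (List.ofFn γ)) =
        ∑ i : Fin N, ∫ ω' in Z, ((ω' (edge 0 (vec (γ i))) : ℝ) - dot ρ (vec (γ i)))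
          ∂((m (List.ofFn γ)).map (shift (disp ((List.ofFn γ).take i)))) := by
      intro γ
      simp only [balance_F_sum]
      rw [integral_finsetSum _ fun i _ => (hintmap γ i).integrableOn]
      exact Finset.sum_congr rfl fun i _ => hmap γ i
    have hmarg : ∀ (i : Fin N) (a : Dir),
        ∫ ω' in Z, ((ω' (edge 0 (vec a)) : ℝ) - dot ρ (vec a)) ∂(m [a]) =
        ∑ γ : Fin N → Dir, if γ i = a then
          ∫ ω' in Z, ((ω' (edge 0 (vec a)) : ℝ) - dot ρ (vec a))
            ∂((m (List.ofFn γ)).map (shift (disp ((List.ofFn γ).take i)))) else 0 := by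
      intro i a
      conv_lhs => rw [hm.marginal N i i.2 a]
      have e1 : (∑ γ : Fin N → Dir, if γ ⟨i, i.2⟩ = a then
          (m (List.ofFn γ)).map (shift (disp ((List.ofFn γ).take i))) else 0).restrict Z =
          ∑ γ : Fin N → Dir, (if γ i = a then
          (m (List.ofFn γ)).map (shift (disp ((List.ofFn γ).take i))) else 0).restrict Z := by
        have := map_sum (Measure.restrictₗ (α := Om) Z) (fun γ : Fin N → Dir =>
          if γ i = a then (m (List.ofFn γ)).map (shift (disp ((List.ofFn γ).take i))) else 0)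
          Finset.univ
        simp only [Measure.restrictₗ_apply] at this
        exact this
      rw [e1, integral_finsetSum_measure]
      · refine Finset.sum_congr rfl fun γ _ => ?_
        split_ifs with h
        · rfl
        · simp
      · intro γ _
        split_ifs with h
        · subst h
          exact ((hint' (γ i)).mono_measure (hle γ i)).integrableOn
        · simp
    have hsum : N * ∑ a : Dir, ∫ ω' in Z, ((ω' (edge 0 (vec a)) : ℝ) - dot ρ (vec a)) ∂(m [a]) =
        ∑ γ : Fin N → Dir, ∫ ω' in Z, balance_F ρ (List.ofFn γ) ω' ∂(m (List.ofFn γ)) := by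
      rw [Finset.sum_congr rfl fun γ _ => hFint γ, Finset.sum_comm]
      have e2 : ∀ i : Fin N,
          ∑ a : Dir, ∫ ω' in Z, ((ω' (edge 0 (vec a)) : ℝ) - dot ρ (vec a)) ∂(m [a]) =
          ∑ γ : Fin N → Dir, ∫ ω' in Z, ((ω' (edge 0 (vec (γ i))) : ℝ) - dot ρ (vec (γ i)))
            ∂((m (List.ofFn γ)).map (shift (disp ((List.ofFn γ).take i)))) := by
        intro i
        rw [Finset.sum_congr rfl fun a _ => hmarg i a, Finset.sum_comm]
        refine Finset.sum_congr rfl fun γ _ => ?_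
        rw [Finset.sum_ite_eq, if_pos (Finset.mem_univ _)]
      rw [← Finset.sum_congr rfl fun i _ => e2 i, Finset.sum_const, Finset.card_univ,
        Fintype.card_fin, nsmul_eq_mul]
    have h1 : |N * ∑ a : Dir, ∫ ω' in Z, ((ω' (edge 0 (vec a)) : ℝ) - dot ρ (vec a)) ∂(m [a])| ≤
        2 * (ε + C * κ) * N := by
      rw [hsum]
      refine (Finset.abs_sum_le_sum_abs _ _).trans (le_trans (Finset.sum_le_sum fun γ _ => ?_) hb.2)
      refine (abs_integral_le_integral_abs).trans ?_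
      exact setIntegral_le_integral (hb.1 γ).abs (Eventually.of_forall fun _ => abs_nonneg _)
    rw [abs_mul, abs_of_pos hNR, mul_comm] at h1
    exact le_of_mul_le_mul_right h1 hNR
  by_contra hne
  have hpos := abs_pos.mpr hne
  set A := |∑ a : Dir, ∫ ω' in Z, ((ω' (edge 0 (vec a)) : ℝ) - dot ρ (vec a)) ∂(m [a])| with hA
  have h1 := key (A / 8) (A / (8 * (C + 1))) (by positivity) (by positivity)
  have h2 : C * (A / (8 * (C + 1))) ≤ A / 8 := by
    rw [mul_div_assoc', div_le_div_iff₀ (by positivity) (by positivity)]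
    nlinarith
  linarith

end FPP
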