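import Pool.Agent.helper96.FPP.Defs2

/-!
# Module B (Prob): the product measures `P μ`, `P2 μ`
-/

open MeasureTheory Filter Topology ProbabilityTheory
open scoped NNReal ENNReal BoundedContinuousFunction

namespace FPP

variable (μ : Measure ℝ≥0) [IsProbabilityMeasure μ]

instance : IsProbabilityMeasure (P μ) := by unfold P; infer_instance
instance : IsProbabilityMeasure (P2 μ) := by unfold P2; infer_instance

theorem prob_mp_reindex {α ι : Type*} {f : α → ι} (hf : Function.Injective f) :
    MeasurePreserving (fun (w : ι → ℝ≥0) i => w (f i)) (Measure.infinitePi fun _ : ι => μ)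
      (Measure.infinitePi fun _ : α => μ) :=
  ⟨by fun_prop, Measure.map_infinitePi_infinitePi_of_inj (P := fun _ => μ) hf⟩

theorem mp_shift (v : V) : MeasurePreserving (shift v) (P μ) (P μ) := by
  refine prob_mp_reindex μ (f := fun e : E => ((e.1 + v, e.2) : E)) ?_
  intro e e' h
  simp only [Prod.mk.injEq, add_left_inj] at h
  exact Prod.ext h.1 h.2

theorem mp_mix (A : Finset E) : MeasurePreserving (mix A) (P2 μ) (P μ) := by
  refine prob_mp_reindex μ (f := fun e : E => ((decide (e ∈ A), e) : Bool × E)) ?_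
  intro e e' h
  exact (Prod.ext_iff.mp h).2

theorem mp_base : MeasurePreserving base (P2 μ) (P μ) := by
  refine prob_mp_reindex μ (f := fun e : E => ((false, e) : Bool × E)) ?_
  intro e e' h
  exact (Prod.ext_iff.mp h).2

theorem mp_swp (A : Finset E) : MeasurePreserving (swp A) (P2 μ) (P2 μ) := by
  refine prob_mp_reindex μ (f := fun q : Bool × E => ((xor q.1 (decide (q.2 ∈ A)), q.2) : Bool × E)) ?_
  rintro ⟨b, e⟩ ⟨b', e'⟩ h
  have h2 : e = e' := (Prod.ext_iff.mp h).2
  subst h2
  have h1 : xor b (decide (e ∈ A)) = xor b' (decide (e ∈ A)) := (Prod.ext_iff.mp h).1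
  have : b = b' := by
    revert h1
    cases b <;> cases b' <;> cases decide (e ∈ A) <;> simp
  rw [this]

theorem mp_shift2 (v : V) : MeasurePreserving (shift2 v) (P2 μ) (P2 μ) := by
  refine prob_mp_reindex μ (f := fun q : Bool × E => ((q.1, (q.2.1 + v, q.2.2)) : Bool × E)) ?_
  rintro ⟨b, e, c⟩ ⟨b', e', c'⟩ h
  simp only [Prod.mk.injEq, add_left_inj] at h
  obtain ⟨rfl, rfl, rfl⟩ := h
  rfl

/-- Merge two environments into a pair. -/
def probMerge (p : Om × Om) : Bool × E → ℝ≥0 := fun q => if q.1 then p.2 q.2 else p.1 q.2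

theorem prob_measurable_merge : Measurable probMerge := by
  refine measurable_pi_lambda _ fun q => ?_
  unfold probMerge
  cases q.1
  · simp only [Bool.false_eq_true, if_false]; fun_prop
  · simp only [if_true]; fun_prop

theorem prob_mp_merge : MeasurePreserving probMerge ((P μ).prod (P μ)) (P2 μ) := by
  classical
  refine ⟨prob_measurable_merge, ?_⟩
  have hi0 : Function.Injective (fun e : E => ((false, e) : Bool × E)) := fun a b h =>
    (Prod.ext_iff.mp h).2
  have hi1 : Function.Injective (fun e : E => ((true, e) : Bool × E)) := fun a b h =>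
    (Prod.ext_iff.mp h).2
  unfold P2
  refine Measure.eq_infinitePi _ fun s t ht => ?_
  rw [Measure.map_apply prob_measurable_merge
    (MeasurableSet.pi s.countable_toSet fun i _ => ht i)]
  have : probMerge ⁻¹' (Set.pi s t) =
      (Set.pi ((s.preimage _ hi0.injOn : Finset E) : Set E) fun e => t (false, e)) ×ˢ
      (Set.pi ((s.preimage _ hi1.injOn : Finset E) : Set E) fun e => t (true, e)) := by
    ext p
    simp only [Set.mem_preimage, Set.mem_pi, Finset.mem_coe, Set.mem_prod, Finset.mem_preimage,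
      probMerge]
    constructor
    · intro h
      refine ⟨fun e he => ?_, fun e he => ?_⟩
      · simpa using h _ he
      · simpa using h _ he
    · rintro ⟨h1, h2⟩ ⟨b, e⟩ hq
      cases b
      · simpa using h1 e hq
      · simpa using h2 e hq
  rw [this, Measure.prod_prod]
  unfold P
  have g0 := Finset.prod_preimage' (fun e : E => ((false, e) : Bool × E)) s hi0.injOn
    (fun q => μ (t q))
  have g1 := Finset.prod_preimage' (fun e : E => ((true, e) : Bool × E)) s hi1.injOn
    (fun q => μ (t q))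
  rw [Measure.infinitePi_pi _ fun i _ => ht _, Measure.infinitePi_pi _ fun i _ => ht _,
    g0, g1, ← Finset.prod_filter_mul_prod_filter_not s (fun q => q.1 = false)]
  congr 1
  · refine Finset.prod_congr ?_ fun q _ => rfl
    ext ⟨b, e⟩
    simp only [Finset.mem_filter, Set.mem_range, Prod.mk.injEq, exists_eq_right]
    cases b <;> simp
  · refine Finset.prod_congr ?_ fun q _ => rfl
    ext ⟨b, e⟩
    simp only [Finset.mem_filter, Set.mem_range, Prod.mk.injEq, exists_eq_right]
    cases b <;> simp

theorem prob_base_merge (p : Om × Om) : base (probMerge p) = p.1 := by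
  funext e; simp [base, probMerge]

theorem prob_other_merge (p : Om × Om) : other (probMerge p) = p.2 := by
  funext e; simp [other, probMerge]

theorem prob_measurable_base : Measurable base := by unfold base; fun_prop
theorem prob_measurable_other : Measurable other := by unfold other; fun_prop

/-- Fubini for the pair of independent environments. -/
theorem mp_pair : MeasurePreserving (fun w : Bool × E → ℝ≥0 => (base w, other w))
    (P2 μ) ((P μ).prod (P μ)) := by
  refine ⟨prob_measurable_base.prodMk prob_measurable_other, ?_⟩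
  rw [← (prob_mp_merge μ).map_eq, Measure.map_map
    (prob_measurable_base.prodMk prob_measurable_other) prob_measurable_merge]
  have : (fun w : Bool × E → ℝ≥0 => (base w, other w)) ∘ probMerge = id := by
    funext p
    simp [prob_base_merge, prob_other_merge]
  rw [this, Measure.map_id]

theorem ae_pair {Q : Om → Om → Prop}
    (h : ∀ᵐ w ∂(P2 μ), Q (base w) (other w)) :
    ∀ᵐ ω ∂(P μ), ∀ᵐ ω' ∂(P μ), Q ω ω' := by
  have h1 := (prob_mp_merge μ).quasiMeasurePreserving.ae h
  simp only [prob_base_merge, prob_other_merge] at h1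
  exact Measure.ae_ae_of_ae_prod h1

/-- Resampling of the coordinate `e`. -/
theorem prob_mp_update (e : E) :
    MeasurePreserving (fun p : ℝ≥0 × Om => Function.update p.2 e p.1) (μ.prod (P μ)) (P μ) := by
  classical
  have hm : Measurable (fun p : ℝ≥0 × Om => Function.update p.2 e p.1) := by
    refine measurable_pi_lambda _ fun e' => ?_
    by_cases h : e' = e
    · subst h
      simp only [Function.update_self]; fun_prop
    · simp only [Function.update_of_ne h]; fun_prop
  refine ⟨hm, ?_⟩
  conv_rhs => unfold P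
  refine Measure.eq_infinitePi _ fun s t ht => ?_
  rw [Measure.map_apply hm (MeasurableSet.pi s.countable_toSet fun i _ => ht i)]
  by_cases he : e ∈ s
  · have : (fun p : ℝ≥0 × Om => Function.update p.2 e p.1) ⁻¹' (Set.pi s t) =
        t e ×ˢ (Set.pi ((s.erase e : Finset E) : Set E) t) := by
      ext p
      simp only [Set.mem_preimage, Set.mem_pi, Finset.mem_coe, Set.mem_prod, Finset.mem_erase]
      constructor
      · intro h
        refine ⟨by simpa using h e he, fun e' he' => ?_⟩
        have := h e' he'.2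
        rwa [Function.update_of_ne he'.1] at this
      · rintro ⟨h1, h2⟩ e' he'
        by_cases h : e' = e
        · subst h; simpa using h1
        · rw [Function.update_of_ne h]; exact h2 e' ⟨h, he'⟩
    rw [this, Measure.prod_prod]
    unfold P
    rw [Measure.infinitePi_pi _ fun i _ => ht _, Finset.mul_prod_erase s (fun i => μ (t i)) he]
  · have : (fun p : ℝ≥0 × Om => Function.update p.2 e p.1) ⁻¹' (Set.pi s t) =
        Set.univ ×ˢ (Set.pi (s : Set E) t) := by
      ext p
      simp only [Set.mem_preimage, Set.mem_pi, Finset.mem_coe, Set.mem_prod, Set.mem_univ,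
        true_and]
      refine forall₂_congr fun e' he' => ?_
      rw [Function.update_of_ne (by rintro rfl; exact he he')]
    rw [this, Measure.prod_prod, measure_univ, one_mul]
    unfold P
    rw [Measure.infinitePi_pi _ fun i _ => ht _]

/-- A set all of whose sections in the direction of the coordinate `e` have at most one point is
null. -/
theorem null_section [NullSingletonClass μ] (e : E) {A : Set Om} (hA : MeasurableSet A)
    (h : ∀ ω ∈ A, ∀ ω' ∈ A, (∀ e' ≠ e, ω e' = ω' e') → ω e = ω' e) : P μ A = 0 := by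
  classical
  rw [← (prob_mp_update μ e).measure_preimage hA.nullMeasurableSet,
    Measure.prod_apply_symm ((prob_mp_update μ e).measurable hA)]
  refine lintegral_eq_zero_of_ae_eq_zero (Eventually.of_forall fun w => ?_)
  refine Set.Subsingleton.measure_zero ?_ μ
  intro s hs s' hs'
  simp only [Set.mem_preimage] at hs hs'
  have := h _ hs _ hs' (fun e' he' => by
    rw [Function.update_of_ne he', Function.update_of_ne he'])
  simpa using this

/-- Extension by `0` outside `A`. -/
noncomputable def probExt (A : Finset E) (x : A → ℝ≥0) : Om :=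
  by
    classical
    exact fun e => if h : e ∈ A then x ⟨e, h⟩ else 0

theorem prob_measurable_ext (A : Finset E) : Measurable (probExt A) := by
  classical
  refine measurable_pi_lambda _ fun e => ?_
  unfold probExt
  by_cases h : e ∈ A
  · simp only [h, dif_pos]; fun_prop
  · simp only [h, dif_neg, not_false_eq_true]; fun_prop

theorem prob_ext_eq (A : Finset E) (ω : Om) : ∀ e ∈ A, ω e = probExt A (fun i : A => ω i) e := by
  intro e he
  simp [probExt, he]

/-- Functions of disjoint finite sets of edges are independent. -/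
theorem indepFun_of_disjoint {α β : Type*} [MeasurableSpace α] [MeasurableSpace β]
    {f : Om → α} {g : Om → β} (hf : Measurable f) (hg : Measurable g) (A B : Finset E)
    (hAB : Disjoint A B) (hfA : ∀ ω ω', (∀ e ∈ A, ω e = ω' e) → f ω = f ω')
    (hgB : ∀ ω ω', (∀ e ∈ B, ω e = ω' e) → g ω = g ω') : IndepFun f g (P μ) := by
  have h1 : iIndepFun (fun (i : E) (ω : Om) => ω i) (P μ) :=
    iIndepFun_infinitePi (P := fun _ : E => μ) (X := fun _ x => x) (fun _ => measurable_id)
  have h2 := h1.indepFun_finset A B hAB (fun i => measurable_pi_apply i)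
  have h3 := h2.comp (hf.comp (prob_measurable_ext A)) (hg.comp (prob_measurable_ext B))
  have e1 : (f ∘ probExt A) ∘ (fun (a : Om) (i : A) => a i) = f := by
    funext ω
    exact (hfA _ _ (prob_ext_eq A ω)).symm
  have e2 : (g ∘ probExt B) ∘ (fun (a : Om) (i : B) => a i) = g := by
    funext ω
    exact (hgB _ _ (prob_ext_eq B ω)).symm
  rwa [e1, e2] at h3

/-- Independence of finitely many edges: `P(ω e ∈ t e for all e ∈ A) = ∏ μ (t e)`. -/
theorem P_pi (A : Finset E) (t : E → Set ℝ≥0) (ht : ∀ e, MeasurableSet (t e)) :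
    P μ {ω | ∀ e ∈ A, ω e ∈ t e} = ∏ e ∈ A, μ (t e) := by
  unfold P
  rw [← Measure.infinitePi_pi (fun _ : E => μ) (s := A) (t := t) fun i _ => ht i]
  rfl

theorem pos_cylinder (A : Finset E) (c : E → ℝ≥0) (h : ∀ e ∈ A, 0 < μ (Set.Iio (c e))) :
    0 < P μ {ω | ∀ e ∈ A, ω e < c e} := by
  have := P_pi μ A (fun e => Set.Iio (c e)) (fun e => measurableSet_Iio)
  simp only [Set.mem_Iio] at this
  rw [this]
  exact pos_iff_ne_zero.mpr (Finset.prod_ne_zero_iff.mpr fun e he => (h e he).ne')

theorem ae_edge {p : ℝ≥0 → Prop} (h : ∀ᵐ s ∂μ, p s) : ∀ᵐ ω ∂(P μ), ∀ e, p (ω e) := by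
  rw [ae_all_iff]
  intro e
  exact (measurePreserving_eval_infinitePi (fun _ : E => μ) e).quasiMeasurePreserving.ae h

/-- The moment assumption, for four distinct edges. -/
theorem memLp_min4 (hμ : MinSq μ) (e : Fin 4 → E) (he : Function.Injective e) :
    MemLp (fun ω : Om => ((⨅ i, ω (e i) : ℝ≥0) : ℝ)) 2 (P μ) := by
  have hmp : MeasurePreserving (fun (w : Om) (i : Fin 4) => w (e i)) (P μ)
      (Measure.pi fun _ : Fin 4 => μ) := by
    have := prob_mp_reindex μ he
    rwa [Measure.infinitePi_eq_pi (μ := fun _ : Fin 4 => μ)] at this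
  have hmeas : Measurable (fun ω : Om => (⨅ i, ω (e i) : ℝ≥0)) :=
    Measurable.iInf fun i => measurable_pi_apply _
  refine ⟨hmeas.coe_nnreal_real.aestronglyMeasurable, ?_⟩
  rw [eLpNorm_lt_top_iff_lintegral_rpow_enorm_lt_top (by norm_num) (by norm_num)]
  have hpt : ∀ ω : Om, ‖((⨅ i, ω (e i) : ℝ≥0) : ℝ)‖ₑ ^ (2 : ℝ≥0∞).toReal =
      (⨅ i, ((ω (e i) : ℝ≥0) : ℝ≥0∞)) ^ 2 := by
    intro ω
    rw [← ENNReal.coe_iInf]
    simp
  simp_rw [hpt]
  unfold MinSq at hμ
  have hF : Measurable fun x : Fin 4 → ℝ≥0 => (⨅ i, (x i : ℝ≥0∞)) ^ 2 := by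
    have : Measurable fun x : Fin 4 → ℝ≥0 => (⨅ i, (x i : ℝ≥0∞)) :=
      Measurable.iInf fun i => (measurable_pi_apply i).coe_nnreal_ennreal
    exact this.pow_const 2
  have := hmp.lintegral_comp hF
  rw [this]
  exact hμ

/-- If an event holds a.s., so do all its shifts. -/
theorem ae_all_shift {Q : Om → Prop} (h : ∀ᵐ ω ∂(P μ), Q ω) :
    ∀ᵐ ω ∂(P μ), ∀ v, Q (shift v ω) := by
  rw [ae_all_iff]
  intro v
  exact (mp_shift μ v).quasiMeasurePreserving.ae h

/-- Mass transport principle for a measure preserving action of `ℤ²`. -/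
theorem mtp {X : Type*} [MeasurableSpace X] {Q : Measure X} (τ : V → X → X)
    (hτ : ∀ v, MeasurePreserving (τ v) Q Q) (m : V → V → X → ℝ≥0∞)
    (hm : ∀ x y, Measurable (m x y)) (hcov : ∀ x y v w, m (x + v) (y + v) w = m x y (τ v w)) :
    ∑' y, ∫⁻ w, m 0 y w ∂Q = ∑' x, ∫⁻ w, m x 0 w ∂Q := by
  have h1 : ∀ y : V, ∫⁻ w, m 0 y w ∂Q = ∫⁻ w, m (-y) 0 w ∂Q := by
    intro y
    have h2 : ∀ w, m 0 y w = m (-y) 0 (τ y w) := by
      intro w
      rw [← hcov, neg_add_cancel, zero_add]
    simp_rw [h2]
    exact (hτ y).lintegral_comp (hm _ _)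
  simp_rw [h1]
  exact (Equiv.neg V).tsum_eq (fun x => ∫⁻ w, m x 0 w ∂Q)

/-- The infimum `a` of the support of `μ` and a threshold `θ > a` for light edges. -/
theorem exists_a_theta [NullSingletonClass μ] : ∃ a θ : ℝ≥0, a < θ ∧ μ (Set.Iic a) = 0 ∧
    (∀ b, a < b → 0 < μ (Set.Iio b)) ∧ μ (Set.Iio θ) ≤ (16⁻¹ : ℝ≥0∞) ^ 8 := by
  set B : Set ℝ≥0 := {s | 0 < μ (Set.Iic s)} with hB
  have hne : B.Nonempty := by
    by_contra hcon
    rw [Set.not_nonempty_iff_eq_empty] at hcon
    have h1 : ∀ n : ℕ, μ (Set.Iic (n : ℝ≥0)) = 0 := by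
      intro n
      by_contra h2
      have : (n : ℝ≥0) ∈ B := pos_iff_ne_zero.mpr h2
      rw [hcon] at this
      exact this
    have h3 : μ Set.univ = 0 := by
      have : (Set.univ : Set ℝ≥0) = ⋃ n : ℕ, Set.Iic (n : ℝ≥0) := by
        ext x
        simp only [Set.mem_univ, Set.mem_iUnion, Set.mem_Iic, true_iff]
        exact exists_nat_ge x
      rw [this, measure_iUnion_null_iff]
      exact h1
    rw [measure_univ] at h3
    exact one_ne_zero h3
  have h0 : μ (Set.Iio (sInf B)) = 0 := by
    refine measure_null_of_locally_null _ fun x hx => ?_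
    obtain ⟨y, hxy, hy⟩ := exists_between (Set.mem_Iio.mp hx)
    refine ⟨Set.Iio y, mem_nhdsWithin_of_mem_nhds (Iio_mem_nhds hxy), ?_⟩
    have h2 : y ∉ B := notMem_of_lt_csInf hy (OrderBot.bddBelow _)
    have h3 : μ (Set.Iic y) = 0 := by
      by_contra h4
      exact h2 (pos_iff_ne_zero.mpr h4)
    exact measure_mono_null Set.Iio_subset_Iic_self h3
  have ha : μ (Set.Iic (sInf B)) = 0 := by
    have : Set.Iic (sInf B) ⊆ Set.Iio (sInf B) ∪ {sInf B} := by
      intro x hx
      rcases lt_or_eq_of_le (Set.mem_Iic.mp hx) with h | h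
      · exact Or.inl h
      · exact Or.inr h
    refine measure_mono_null this (measure_union_null h0 (measure_singleton _))
  have hb : ∀ b, sInf B < b → 0 < μ (Set.Iio b) := by
    intro b hb
    obtain ⟨s, hs, hsb⟩ := exists_lt_of_csInf_lt hne hb
    refine lt_of_lt_of_le hs (measure_mono ?_)
    intro x hx
    exact lt_of_le_of_lt hx hsb
  have ht : Tendsto (μ ∘ fun r : ℝ≥0 => Set.Iio r) (𝓝[Set.Ioi (sInf B)] (sInf B))
      (𝓝 (μ (⋂ r > sInf B, Set.Iio r))) := by
    refine tendsto_measure_biInter_gt (fun r _ => measurableSet_Iio.nullMeasurableSet) ?_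
      ⟨sInf B + 1, lt_add_of_pos_right _ one_pos, measure_ne_top _ _⟩
    intro i j _ hij
    exact Set.Iio_subset_Iio hij
  have hInter : (⋂ r > sInf B, Set.Iio r) = Set.Iic (sInf B) := by
    ext x
    simp only [Set.mem_iInter, Set.mem_Iio, Set.mem_Iic]
    constructor
    · intro h
      exact le_of_forall_gt h
    · intro h r hr
      exact lt_of_le_of_lt h hr
  rw [hInter, ha] at ht
  have hpos : (0 : ℝ≥0∞) < (16⁻¹ : ℝ≥0∞) ^ 8 := by
    refine pos_iff_ne_zero.mpr (pow_ne_zero _ ?_)
    simp
  have hev : ∀ᶠ r in 𝓝[Set.Ioi (sInf B)] (sInf B), μ (Set.Iio r) < (16⁻¹ : ℝ≥0∞) ^ 8 :=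
    ht.eventually (gt_mem_nhds hpos)
  obtain ⟨θ, h1, h2⟩ := (hev.and self_mem_nhdsWithin).exists
  exact ⟨sInf B, θ, h2, ha, hb, h1.le⟩

end FPP
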