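import Pool.Agent.helper96.FPP.Walk
import Pool.Agent.helper96.FPP.Prob

/-!
# Module D (Moment): square integrability of passage times, linear variance bound
-/

open MeasureTheory Filter Topology ProbabilityTheory
open scoped NNReal ENNReal BoundedContinuousFunction

namespace FPP

variable (μ : Measure ℝ≥0) [IsProbabilityMeasure μ]

/-- Passage time over walks with at most `R` steps. -/
noncomputable def TR (R : ℕ) (ω : Om) (x y : V) : ℝ :=
  ⨅ l : {l : List Dir // l.length ≤ R ∧ x + disp l = y}, (wt ω x l.1 : ℝ)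

theorem moment_TR_bddBelow (R : ℕ) (ω : Om) (x y : V) :
    BddBelow (Set.range fun l : {l : List Dir // l.length ≤ R ∧ x + disp l = y} =>
      (wt ω x l.1 : ℝ)) :=
  ⟨0, by rintro _ ⟨l, rfl⟩; exact NNReal.coe_nonneg _⟩

theorem moment_TR_le_wt {R : ℕ} (ω : Om) {x y : V} {l : List Dir} (hl : l.length ≤ R)
    (h : x + disp l = y) : TR R ω x y ≤ wt ω x l :=
  ciInf_le (moment_TR_bddBelow R ω x y) ⟨l, hl, h⟩

theorem moment_nonempty {R : ℕ} {x y : V} (h : nrm (y - x) ≤ R) :
    Nonempty {l : List Dir // l.length ≤ R ∧ x + disp l = y} := by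
  obtain ⟨l, hl, hl'⟩ := exists_walk (y - x)
  exact ⟨⟨l, by omega, by rw [hl]; abel⟩⟩

theorem moment_exists_lt {R : ℕ} {ω : Om} {x y : V} {c : ℝ} (hR : nrm (y - x) ≤ R)
    (h : TR R ω x y < c) :
    ∃ l : List Dir, l.length ≤ R ∧ x + disp l = y ∧ (wt ω x l : ℝ) < c := by
  have := moment_nonempty hR
  obtain ⟨⟨l, hl, hl'⟩, hlt⟩ := exists_lt_of_ciInf_lt h
  exact ⟨l, hl, hl', hlt⟩

theorem moment_le_TR {R : ℕ} {ω : Om} {x y : V} {c : ℝ} (hR : nrm (y - x) ≤ R)
    (h : ∀ l : List Dir, l.length ≤ R → x + disp l = y → c ≤ (wt ω x l : ℝ)) :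
    c ≤ TR R ω x y := by
  have := moment_nonempty hR
  exact le_ciInf fun l => h l.1 l.2.1 l.2.2

theorem T_le_TR {R : ℕ} (ω : Om) {x y : V} (h : nrm (y - x) ≤ R) : T ω x y ≤ TR R ω x y :=
  moment_le_TR h fun _ _ hl => T_le_wt' ω hl

theorem TR_nonneg (R : ℕ) (ω : Om) (x y : V) : 0 ≤ TR R ω x y :=
  Real.iInf_nonneg fun _ => NNReal.coe_nonneg _

theorem moment_TR_anti {R R' : ℕ} (ω : Om) {x y : V} (h : nrm (y - x) ≤ R) (hR : R ≤ R') :
    TR R' ω x y ≤ TR R ω x y :=
  moment_le_TR h fun _ hl hl' => moment_TR_le_wt ω (hl.trans hR) hl'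

theorem TR_triangle {R R' : ℕ} (ω : Om) {x y z : V} (h : nrm (y - x) ≤ R)
    (h' : nrm (z - y) ≤ R') : TR (R + R') ω x z ≤ TR R ω x y + TR R' ω y z := by
  by_contra hc
  push Not at hc
  have h1 : TR R ω x y < TR R ω x y + (TR (R + R') ω x z - TR R ω x y - TR R' ω y z) / 2 := by
    linarith
  have h2 : TR R' ω y z < TR R' ω y z + (TR (R + R') ω x z - TR R ω x y - TR R' ω y z) / 2 := by
    linarith
  obtain ⟨l, hl, hxy, hl'⟩ := moment_exists_lt h h1
  obtain ⟨l', hm, hyz, hm'⟩ := moment_exists_lt h' h2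
  subst hxy
  have h3 := moment_TR_le_wt ω (R := R + R') (x := x) (y := z) (l := l ++ l')
    (by rw [List.length_append]; omega) (by rw [disp_append, ← add_assoc, hyz])
  rw [wt_append, NNReal.coe_add] at h3
  linarith

theorem TR_shift (R : ℕ) (ω : Om) (v x y : V) :
    TR R ω (x + v) (y + v) = TR R (shift v ω) x y := by
  unfold TR
  let e : {l : List Dir // l.length ≤ R ∧ x + disp l = y} ≃
      {l : List Dir // l.length ≤ R ∧ x + v + disp l = y + v} :=
    Equiv.subtypeEquivRight fun l => by
      constructor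
      · rintro ⟨h1, h2⟩
        exact ⟨h1, by rw [← h2]; abel⟩
      · rintro ⟨h1, h2⟩
        refine ⟨h1, ?_⟩
        rw [add_right_comm] at h2
        exact add_right_cancel h2
  rw [← e.iInf_comp]
  congr 1
  funext l
  show (wt ω (x + v) l.1 : ℝ) = wt (shift v ω) x l.1
  rw [wt_shift]

theorem measurable_TR (R : ℕ) (x y : V) : Measurable fun ω => TR R ω x y := by
  unfold TR
  exact Measurable.iInf fun l => (measurable_wt x l.1).coe_nnreal_real

theorem moment_edge_near {x z : V} {s : Dir} : nrm ((edge z (z + vec s)).1 - x) ≤ nrm (z - x) + 1 := by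
  rw [edge_vec]
  obtain ⟨x1, x2⟩ := x
  obtain ⟨z1, z2⟩ := z
  cases s <;> simp only [nrm, Prod.mk_add_mk, Prod.mk_sub_mk] <;> omega

theorem moment_wt_local (R : ℕ) (x : V) {ω ω' : Om}
    (h : ∀ e : E, nrm (e.1 - x) ≤ R + 1 → ω e = ω' e) (l : List Dir) (z : V)
    (hz : nrm (z - x) + l.length ≤ R) : wt ω z l = wt ω' z l := by
  induction l generalizing z with
  | nil => rfl
  | cons s l ih =>
    rw [List.length_cons] at hz
    rw [wt_cons, wt_cons]
    have h1 : ω (edge z (z + vec s)) = ω' (edge z (z + vec s)) := by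
      refine h _ ?_
      have := moment_edge_near (x := x) (z := z) (s := s)
      omega
    have h2 : nrm (z + vec s - x) ≤ nrm (z - x) + 1 := by
      have h3 := nrm_add_le (z - x) (vec s)
      rw [nrm_vec] at h3
      have h4 : z + vec s - x = z - x + vec s := by abel
      rw [h4]; exact h3
    rw [h1, ih (z + vec s) (by omega)]

/-- `TR R ω x y` depends only on the edges in the box of radius `R + 1` around `x`. -/
theorem TR_local (R : ℕ) (x y : V) {ω ω' : Om}
    (h : ∀ e : E, nrm (e.1 - x) ≤ R + 1 → ω e = ω' e) : TR R ω x y = TR R ω' x y := by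
  unfold TR
  congr 1
  funext l
  rw [moment_wt_local R x h l.1 x (by rw [sub_self, nrm_zero]; have := l.2.1; omega)]

theorem tendsto_TR (ω : Om) (x y : V) : Tendsto (fun R => TR R ω x y) atTop (𝓝 (T ω x y)) := by
  rw [tendsto_order]
  constructor
  · intro a ha
    filter_upwards [eventually_ge_atTop (nrm (y - x))] with R hR
    exact lt_of_lt_of_le ha (T_le_TR ω hR)
  · intro a ha
    obtain ⟨l, hl, hl'⟩ := exists_wt_lt ha
    filter_upwards [eventually_ge_atTop l.length] with R hR
    exact lt_of_le_of_lt (moment_TR_le_wt ω hR hl) hl'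

/-- The list of edges of a walk. -/
def moment_el : V → List Dir → List E
  | _, [] => []
  | x, s :: l => edge x (x + vec s) :: moment_el (x + vec s) l

theorem moment_wt_el (ω : Om) (x : V) (l : List Dir) :
    wt ω x l = ((moment_el x l).map ω).sum := by
  induction l generalizing x with
  | nil => rfl
  | cons s l ih => rw [wt_cons, moment_el, List.map_cons, List.sum_cons, ih]

theorem moment_el_length (x : V) (l : List Dir) : (moment_el x l).length = l.length := by
  induction l generalizing x with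
  | nil => rfl
  | cons s l ih => rw [moment_el, List.length_cons, List.length_cons, ih]

theorem moment_exists_max (ω : Om) (L : List E) (hL : L ≠ []) :
    ∃ e ∈ L, (L.map ω).sum ≤ L.length * ω e := by
  obtain ⟨e, he, hmax⟩ := Finset.exists_max_image L.toFinset ω (by
    obtain ⟨a, ha⟩ := List.exists_mem_of_ne_nil L hL
    exact ⟨a, List.mem_toFinset.mpr ha⟩)
  refine ⟨e, List.mem_toFinset.mp he, ?_⟩
  have h1 : (L.map ω).sum ≤ (L.map ω).length • ω e := by
    refine List.sum_le_card_nsmul _ _ ?_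
    intro b hb
    obtain ⟨a, ha, rfl⟩ := List.mem_map.mp hb
    exact hmax a (List.mem_toFinset.mpr ha)
  rwa [List.length_map, nsmul_eq_mul] at h1

/-- Four edge-disjoint walks between neighbours. -/
def moment_walks : Dir → Fin 4 → List Dir
  | .r => ![[.r], [.u, .r, .d], [.d, .r, .u], [.l, .u, .u, .r, .r, .r, .d, .d, .l]]
  | .l => ![[.l], [.u, .l, .d], [.d, .l, .u], [.r, .u, .u, .l, .l, .l, .d, .d, .r]]
  | .u => ![[.u], [.r, .u, .l], [.l, .u, .r], [.d, .r, .r, .u, .u, .u, .l, .l, .d]]
  | .d => ![[.d], [.r, .d, .l], [.l, .d, .r], [.u, .r, .r, .d, .d, .d, .l, .l, .u]]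

theorem moment_walks_disp (s : Dir) (i : Fin 4) : disp (moment_walks s i) = vec s := by
  revert s i; decide

theorem moment_walks_len (s : Dir) (i : Fin 4) : (moment_walks s i).length ≤ 9 := by
  revert s i; decide

theorem moment_walks_ne (s : Dir) (i : Fin 4) : moment_walks s i ≠ [] := by
  revert s i; decide

theorem moment_walks_disj (s : Dir) (i j : Fin 4) (hij : i ≠ j) :
    ∀ e ∈ moment_el 0 (moment_walks s i), e ∉ moment_el 0 (moment_walks s j) := by
  revert s i j; decide

/-- The choices of one edge in each of the four walks. -/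
def moment_choices (s : Dir) : Finset (Fin 4 → E) :=
  Fintype.piFinset fun i => (moment_el 0 (moment_walks s i)).toFinset

theorem moment_choices_inj {s : Dir} {c : Fin 4 → E} (hc : c ∈ moment_choices s) :
    Function.Injective c := by
  intro i j hij
  by_contra hne
  rw [moment_choices, Fintype.mem_piFinset] at hc
  have h1 := List.mem_toFinset.mp (hc i)
  have h2 := List.mem_toFinset.mp (hc j)
  rw [← hij] at h2
  exact moment_walks_disj s i j hne _ h1 h2

theorem moment_dom (ω : Om) (s : Dir) :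
    TR 9 ω 0 (vec s) ≤ 9 * ∑ c ∈ moment_choices s, ((⨅ i, ω (c i) : ℝ≥0) : ℝ) := by
  have hex : ∀ i : Fin 4, ∃ e ∈ moment_el 0 (moment_walks s i),
      wt ω 0 (moment_walks s i) ≤ 9 * ω e := by
    intro i
    obtain ⟨e, he, hle⟩ := moment_exists_max ω (moment_el 0 (moment_walks s i)) (by
      intro h
      have := moment_el_length 0 (moment_walks s i)
      rw [h] at this
      exact moment_walks_ne s i (List.eq_nil_of_length_eq_zero (by simpa using this.symm)))
    refine ⟨e, he, ?_⟩
    rw [moment_wt_el]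
    refine hle.trans ?_
    rw [moment_el_length]
    have := moment_walks_len s i
    gcongr
    exact_mod_cast this
  choose c hc hle using hex
  have hcm : c ∈ moment_choices s := by
    rw [moment_choices, Fintype.mem_piFinset]
    exact fun i => List.mem_toFinset.mpr (hc i)
  obtain ⟨i, hi⟩ := exists_eq_ciInf_of_finite (f := fun i => ω (c i))
  have h1 : TR 9 ω 0 (vec s) ≤ wt ω 0 (moment_walks s i) :=
    moment_TR_le_wt ω (moment_walks_len s i) (by rw [moment_walks_disp, zero_add])
  have h2 : (wt ω 0 (moment_walks s i) : ℝ) ≤ 9 * (ω (c i) : ℝ) := by exact_mod_cast hle i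
  have h3 : ((⨅ i, ω (c i) : ℝ≥0) : ℝ) ≤
      ∑ c ∈ moment_choices s, ((⨅ i, ω (c i) : ℝ≥0) : ℝ) :=
    Finset.single_le_sum (f := fun c : Fin 4 → E => ((⨅ i, ω (c i) : ℝ≥0) : ℝ))
      (fun _ _ => NNReal.coe_nonneg _) hcm
  rw [← hi] at h3
  linarith

theorem moment_memLp_zero (hμ : MinSq μ) (s : Dir) :
    MemLp (fun ω => TR 9 ω 0 (vec s)) 2 (P μ) := by
  have h1 : MemLp (fun ω : Om => 9 * ∑ c ∈ moment_choices s, ((⨅ i, ω (c i) : ℝ≥0) : ℝ)) 2
      (P μ) := by
    refine MemLp.const_mul ?_ 9
    exact memLp_finsetSum _ fun c hc => memLp_min4 μ hμ c (moment_choices_inj hc)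
  refine h1.mono' (measurable_TR _ _ _).aestronglyMeasurable (ae_of_all _ fun ω => ?_)
  rw [Real.norm_of_nonneg (TR_nonneg _ _ _ _)]
  exact moment_dom ω s

/-- Key moment estimate.  Neighbours are joined by four edge-disjoint walks with `1, 3, 3, 9`
steps, so `TR 9 ≤ 9 ∑ min(ω e₁, …, ω e₄)`, sum over the `81` choices of one edge in each walk
(the minimum of the four weights is at most `9` times the minimum of the four largest edges). -/
theorem memLp_TR_adj (hμ : MinSq μ) {x y : V} (h : Adj x y) :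
    MemLp (fun ω => TR 9 ω x y) 2 (P μ) := by
  obtain ⟨s, rfl⟩ := h
  have h1 := (moment_memLp_zero μ hμ s).comp_measurePreserving (mp_shift μ x)
  refine h1.ae_eq (ae_of_all _ fun ω => ?_)
  show TR 9 (shift x ω) 0 (vec s) = TR 9 ω x (x + vec s)
  rw [← TR_shift, zero_add, add_comm]

theorem moment_nrm_disp_le (l : List Dir) : nrm (disp l) ≤ l.length := by
  induction l with
  | nil => simp [disp_nil, nrm_zero]
  | cons s l ih =>
    rw [disp_cons, List.length_cons]
    have := nrm_add_le (vec s) (disp l)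
    rw [nrm_vec] at this
    omega

theorem moment_TR_chain (ω : Om) (x : V) (l : List Dir) :
    TR (9 * l.length) ω x (x + disp l) ≤
      ∑ i ∈ Finset.range l.length, TR 9 ω (x + disp (l.take i)) (x + disp (l.take (i + 1))) := by
  induction l generalizing x with
  | nil =>
    have := moment_TR_le_wt ω (R := 0) (x := x) (y := x) (l := []) le_rfl (by simp [disp_nil])
    simpa [disp_nil, wt_nil] using this
  | cons s l ih =>
    rw [List.length_cons, Finset.sum_range_succ', disp_cons, ← add_assoc]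
    have h1 : TR (9 + 9 * l.length) ω x (x + vec s + disp l) ≤ TR 9 ω x (x + vec s) +
        TR (9 * l.length) ω (x + vec s) (x + vec s + disp l) := by
      refine TR_triangle ω ?_ ?_
      · rw [add_sub_cancel_left, nrm_vec]; norm_num
      · rw [add_sub_cancel_left]
        have := moment_nrm_disp_le l
        omega
    have h2 := ih (x + vec s)
    have e0 : 9 * (l.length + 1) = 9 + 9 * l.length := by ring
    rw [e0]
    have e1 : x + disp ((s :: l).take 0) = x := by simp [disp_nil]
    have e2 : x + disp ((s :: l).take (0 + 1)) = x + vec s := by simp [disp_cons, disp_nil]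
    rw [e1, e2]
    have e3 : ∀ i, x + disp ((s :: l).take (i + 1)) = x + vec s + disp (l.take i) := by
      intro i
      rw [List.take_succ_cons, disp_cons, add_assoc]
    simp only [e3]
    linarith

theorem moment_adj_take (x : V) (l : List Dir) {i : ℕ} (hi : i < l.length) :
    Adj (x + disp (l.take i)) (x + disp (l.take (i + 1))) := by
  refine ⟨l[i], ?_⟩
  rw [List.take_succ_eq_append_getElem hi, disp_append, disp_cons, disp_nil]
  abel

/-- (chain `nrm (y - x)` neighbours) -/
theorem memLp_TR (hμ : MinSq μ) {R : ℕ} {x y : V} (h : 9 * nrm (y - x) ≤ R) :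
    MemLp (fun ω => TR R ω x y) 2 (P μ) := by
  obtain ⟨l, hl, hl'⟩ := exists_walk (y - x)
  have hy : x + disp l = y := by rw [hl]; abel
  have h1 : MemLp (fun ω : Om => ∑ i ∈ Finset.range l.length,
      TR 9 ω (x + disp (l.take i)) (x + disp (l.take (i + 1)))) 2 (P μ) :=
    memLp_finsetSum _ fun i hi => memLp_TR_adj μ hμ (moment_adj_take x l (Finset.mem_range.mp hi))
  refine h1.mono' (measurable_TR _ _ _).aestronglyMeasurable (ae_of_all _ fun ω => ?_)
  rw [Real.norm_of_nonneg (TR_nonneg _ _ _ _)]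
  refine le_trans ?_ (moment_TR_chain ω x l)
  rw [hy, hl']
  exact moment_TR_anti ω (by omega) h

theorem memLp_T (hμ : MinSq μ) (x y : V) : MemLp (fun ω => T ω x y) 2 (P μ) := by
  refine (memLp_TR μ hμ (le_refl (9 * nrm (y - x)))).mono' (measurable_T x y).aestronglyMeasurable
    (ae_of_all _ fun ω => ?_)
  rw [Real.norm_of_nonneg (T_nonneg _ _ _)]
  exact T_le_TR ω (by omega)

/-- Variance of a sum of random variables with finite range of dependence. -/
theorem var_sum_le {Ω : Type*} [MeasurableSpace Ω] {Q : Measure Ω} [IsProbabilityMeasure Q]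
    (X : ℕ → Ω → ℝ) (B : ℝ) (r : ℕ) (hX : ∀ i, MemLp (X i) 2 Q)
    (hB : ∀ i, ∫ ω, (X i ω) ^ 2 ∂Q ≤ B)
    (hind : ∀ i j, i + r ≤ j → IndepFun (X i) (X j) Q) (m : ℕ) :
    ∫ ω, (∑ i ∈ Finset.range m, X i ω - ∑ i ∈ Finset.range m, ∫ ω', X i ω' ∂Q) ^ 2 ∂Q
      ≤ (2 * r + 1) * B * m := by
  have hB0 : 0 ≤ B := le_trans (integral_nonneg fun ω => sq_nonneg _) (hB 0)
  have hvar : ∀ i, Var[X i; Q] ≤ B := by
    intro i
    refine (variance_le_expectation_sq (hX i).aestronglyMeasurable).trans ?_
    exact hB i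
  have hcov : ∀ i j, cov[X i, X j; Q] ≤ B := by
    intro i j
    have h1 := variance_nonneg (X i - X j) Q
    rw [variance_sub (hX i) (hX j)] at h1
    have := hvar i
    have := hvar j
    linarith
  have hcov0 : ∀ i j, (i + r ≤ j ∨ j + r ≤ i) → cov[X i, X j; Q] = 0 := by
    intro i j hij
    rcases hij with h | h
    · exact (hind i j h).covariance_eq_zero (hX i) (hX j)
    · rw [covariance_comm]
      exact (hind j i h).covariance_eq_zero (hX j) (hX i)
  have hmem : MemLp (fun ω => ∑ i ∈ Finset.range m, X i ω) 2 Q :=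
    memLp_finsetSum _ fun i _ => hX i
  have e1 : ∫ ω, (∑ i ∈ Finset.range m, X i ω - ∑ i ∈ Finset.range m, ∫ ω', X i ω' ∂Q) ^ 2 ∂Q
      = Var[fun ω => ∑ i ∈ Finset.range m, X i ω; Q] := by
    rw [variance_eq_integral hmem.aestronglyMeasurable.aemeasurable]
    rw [integral_finsetSum _ fun i _ => (hX i).integrable (by norm_num)]
  rw [e1, variance_fun_sum' fun i _ => hX i]
  have h2 : ∀ i ∈ Finset.range m, ∑ j ∈ Finset.range m, cov[X i, X j; Q] ≤ (2 * r + 1) * B := by
    intro i _
    calc ∑ j ∈ Finset.range m, cov[X i, X j; Q]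
        ≤ ∑ j ∈ Finset.range m, (if j ∈ Finset.Icc (i - r) (i + r) then B else 0) := by
          refine Finset.sum_le_sum fun j _ => ?_
          split_ifs with hj
          · exact hcov i j
          · rw [Finset.mem_Icc] at hj
            rw [hcov0 i j (by omega)]
      _ ≤ ∑ j ∈ Finset.Icc (i - r) (i + r), B := by
          rw [← Finset.sum_filter]
          refine Finset.sum_le_sum_of_subset_of_nonneg ?_ fun _ _ _ => hB0
          intro j hj
          exact (Finset.mem_filter.mp hj).2
      _ ≤ (2 * r + 1) * B := by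
          rw [Finset.sum_const, nsmul_eq_mul]
          refine mul_le_mul_of_nonneg_right ?_ hB0
          rw [Nat.card_Icc]
          have : i + r + 1 - (i - r) ≤ 2 * r + 1 := by omega
          exact_mod_cast this
  calc ∑ i ∈ Finset.range m, ∑ j ∈ Finset.range m, cov[X i, X j; Q]
      ≤ ∑ i ∈ Finset.range m, (2 * r + 1) * B := Finset.sum_le_sum h2
    _ = (2 * r + 1) * B * m := by
        rw [Finset.sum_const, Finset.card_range, nsmul_eq_mul]; ring

/-- The edges near `x`. -/
noncomputable def moment_nb (R : ℕ) (x : V) : Finset E :=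
  ((Finset.Icc (x.1 - R, x.2 - R) (x.1 + R, x.2 + R)) ×ˢ Finset.univ).filter
    fun e => nrm (e.1 - x) ≤ R

theorem moment_mem_nb {R : ℕ} {x : V} {e : E} : e ∈ moment_nb R x ↔ nrm (e.1 - x) ≤ R := by
  obtain ⟨⟨a, b⟩, c⟩ := e
  obtain ⟨x1, x2⟩ := x
  simp only [moment_nb, Finset.mem_filter, Finset.mem_product, Finset.mem_Icc, Prod.mk_le_mk,
    Finset.mem_univ, and_true, nrm, Prod.mk_sub_mk, and_iff_right_iff_imp]
  omega

theorem moment_indep {R R' : ℕ} {x y x' y' : V} (h : R + R' + 2 < nrm (x' - x)) :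
    IndepFun (fun ω => TR R ω x y) (fun ω => TR R' ω x' y') (P μ) := by
  refine indepFun_of_disjoint μ (measurable_TR _ _ _) (measurable_TR _ _ _)
    (moment_nb (R + 1) x) (moment_nb (R' + 1) x') ?_ ?_ ?_
  · rw [Finset.disjoint_left]
    intro e he he'
    rw [moment_mem_nb] at he he'
    have h1 := nrm_add_le (e.1 - x) (-(e.1 - x'))
    rw [nrm_neg] at h1
    have h2 : e.1 - x + -(e.1 - x') = x' - x := by abel
    rw [h2] at h1
    omega
  · intro ω ω' hh
    exact TR_local R x y fun e he => hh e (moment_mem_nb.mpr he)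
  · intro ω ω' hh
    exact TR_local R' x' y' fun e he => hh e (moment_mem_nb.mpr he)

theorem moment_integral_shift (v : V) (f : Om → ℝ) (hf : Measurable f) :
    ∫ ω, f (shift v ω) ∂(P μ) = ∫ ω, f ω ∂(P μ) := by
  have h := mp_shift μ v
  conv_rhs => rw [← h.map_eq]
  rw [integral_map h.measurable.aemeasurable hf.aestronglyMeasurable]

/-- Linear bounds for the mean and linear variance bound for the sum of `TR 9` along a shortest
path. -/
theorem exists_CT (hμ : MinSq μ) : ∃ C : ℝ, 0 < C ∧
    (∀ x y : V, ∫ ω, T ω x y ∂(P μ) ≤ C * nrm (y - x)) ∧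
    (∀ x y : V, ∀ s : ℝ, 0 < s → C * nrm (y - x) ≤ s →
      P μ {ω | s < T ω x y} ≤ ENNReal.ofReal (C * nrm (y - x) / s ^ 2)) := by
  set B : ℝ := ∑ s : Dir, ∫ ω, (TR 9 ω 0 (vec s)) ^ 2 ∂(P μ) with hBdef
  have hB0 : 0 ≤ B := Finset.sum_nonneg fun s _ => integral_nonneg fun ω => sq_nonneg _
  have hsq : ∀ x y : V, Adj x y → ∫ ω, (TR 9 ω x y) ^ 2 ∂(P μ) ≤ B := by
    rintro x y ⟨s, rfl⟩
    have e1 : ∫ ω, (TR 9 ω x (x + vec s)) ^ 2 ∂(P μ) = ∫ ω, (TR 9 ω 0 (vec s)) ^ 2 ∂(P μ) := by
      rw [← moment_integral_shift μ x (fun ω => (TR 9 ω 0 (vec s)) ^ 2)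
        ((measurable_TR _ _ _).pow_const 2)]
      congr 1
      funext ω
      rw [← TR_shift, zero_add, add_comm]
    rw [e1]
    exact Finset.single_le_sum (f := fun s : Dir => ∫ ω, (TR 9 ω 0 (vec s)) ^ 2 ∂(P μ))
      (fun s _ => integral_nonneg fun ω => sq_nonneg _) (Finset.mem_univ s)
  have hmean : ∀ x y : V, Adj x y → ∫ ω, TR 9 ω x y ∂(P μ) ≤ 1 + B := by
    intro x y hxy
    have hm := memLp_TR_adj μ hμ hxy
    have hint : Integrable (fun ω => TR 9 ω x y) (P μ) := hm.integrable (by norm_num)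
    have hint2 : Integrable (fun ω => (TR 9 ω x y) ^ 2) (P μ) := hm.integrable_sq
    calc ∫ ω, TR 9 ω x y ∂(P μ) ≤ ∫ ω, (1 + (TR 9 ω x y) ^ 2) ∂(P μ) := by
          refine integral_mono hint ((integrable_const _).add hint2) fun ω => ?_
          show TR 9 ω x y ≤ 1 + (TR 9 ω x y) ^ 2
          nlinarith [sq_nonneg (TR 9 ω x y - 1), TR_nonneg 9 ω x y]
      _ = 1 + ∫ ω, (TR 9 ω x y) ^ 2 ∂(P μ) := by
          rw [integral_add (integrable_const _) hint2]
          simp
      _ ≤ 1 + B := by linarith [hsq x y hxy]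
  -- the sum along a shortest path
  have key : ∀ x y : V, ∃ X : ℕ → Om → ℝ, (∀ i, MemLp (X i) 2 (P μ)) ∧
      (∀ i, ∫ ω, (X i ω) ^ 2 ∂(P μ) ≤ B) ∧ (∀ i, ∫ ω, X i ω ∂(P μ) ≤ 1 + B) ∧
      (∀ i j, i + 21 ≤ j → IndepFun (X i) (X j) (P μ)) ∧
      ∀ ω, T ω x y ≤ ∑ i ∈ Finset.range (nrm (y - x)), X i ω := by
    intro x y
    obtain ⟨l, hl, hl'⟩ := exists_walk (y - x)
    have hy : x + disp l = y := by rw [hl]; abel
    have hfar : ∀ i j, i ≤ j → j ≤ l.length →
        j - i ≤ nrm (x + disp (l.take j) - (x + disp (l.take i))) := by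
      intro i j hij hj
      have h1 : nrm (disp (l.take i)) ≤ i :=
        (moment_nrm_disp_le _).trans (by rw [List.length_take]; omega)
      have h2 : nrm (disp (l.drop j)) ≤ l.length - j :=
        (moment_nrm_disp_le _).trans (by rw [List.length_drop])
      have h3 : disp l = disp (l.take i) + (x + disp (l.take j) - (x + disp (l.take i))) +
          disp (l.drop j) := by
        conv_lhs => rw [← List.take_append_drop j l, disp_append]
        abel
      have h4 := nrm_add_le (disp (l.take i) + (x + disp (l.take j) - (x + disp (l.take i))))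
        (disp (l.drop j))
      have h5 := nrm_add_le (disp (l.take i)) (x + disp (l.take j) - (x + disp (l.take i)))
      rw [← h3, hl, ← hl'] at h4
      omega
    refine ⟨fun i ω => if i < l.length then
      TR 9 ω (x + disp (l.take i)) (x + disp (l.take (i + 1))) else 0, ?_, ?_, ?_, ?_, ?_⟩
    · intro i
      by_cases hi : i < l.length
      · simp only [if_pos hi]
        exact memLp_TR_adj μ hμ (moment_adj_take x l hi)
      · simp only [if_neg hi]
        exact memLp_const 0
    · intro i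
      by_cases hi : i < l.length
      · simp only [if_pos hi]
        exact hsq _ _ (moment_adj_take x l hi)
      · simp only [if_neg hi]
        simpa using hB0
    · intro i
      by_cases hi : i < l.length
      · simp only [if_pos hi]
        exact hmean _ _ (moment_adj_take x l hi)
      · simp only [if_neg hi]
        simp only [integral_zero]
        linarith
    · intro i j hij
      by_cases hj : j < l.length
      · have hi : i < l.length := by omega
        simp only [if_pos hi, if_pos hj]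
        refine moment_indep μ ?_
        have := hfar i j (by omega) (by omega)
        omega
      · simp only [if_neg hj]
        exact indepFun_const_right _ _
    · intro ω
      rw [← hl']
      have e1 : ∑ i ∈ Finset.range l.length, (if i < l.length then
          TR 9 ω (x + disp (l.take i)) (x + disp (l.take (i + 1))) else 0) =
          ∑ i ∈ Finset.range l.length,
            TR 9 ω (x + disp (l.take i)) (x + disp (l.take (i + 1))) := by
        refine Finset.sum_congr rfl fun i hi => ?_
        rw [if_pos (Finset.mem_range.mp hi)]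
      rw [e1]
      refine le_trans ?_ (moment_TR_chain ω x l)
      rw [hy]
      exact T_le_TR ω (by omega)
  refine ⟨172 * (1 + B), by positivity, ?_, ?_⟩
  · intro x y
    obtain ⟨X, hX, -, hXm, -, hXT⟩ := key x y
    have h1 : ∫ ω, T ω x y ∂(P μ) ≤
        ∫ ω, ∑ i ∈ Finset.range (nrm (y - x)), X i ω ∂(P μ) := by
      refine integral_mono ((memLp_T μ hμ x y).integrable (by norm_num)) ?_ hXT
      exact integrable_finsetSum _ fun i _ => (hX i).integrable (by norm_num)
    refine h1.trans ?_
    rw [integral_finsetSum _ fun i _ => (hX i).integrable (by norm_num)]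
    refine (Finset.sum_le_sum fun i _ => hXm i).trans ?_
    rw [Finset.sum_const, Finset.card_range, nsmul_eq_mul, mul_comm]
    have : (0 : ℝ) ≤ nrm (y - x) := Nat.cast_nonneg _
    nlinarith
  · intro x y s hs hCs
    obtain ⟨X, hX, hX2, hXm, hXi, hXT⟩ := key x y
    have hv := var_sum_le X B 21 hX hX2 hXi (nrm (y - x))
    have hmem : MemLp (fun ω => ∑ i ∈ Finset.range (nrm (y - x)), X i ω) 2 (P μ) :=
      memLp_finsetSum _ fun i _ => hX i
    have hEX : ∫ ω, ∑ i ∈ Finset.range (nrm (y - x)), X i ω ∂(P μ) =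
        ∑ i ∈ Finset.range (nrm (y - x)), ∫ ω, X i ω ∂(P μ) :=
      integral_finsetSum _ fun i _ => (hX i).integrable (by norm_num)
    have hM : ∫ ω, ∑ i ∈ Finset.range (nrm (y - x)), X i ω ∂(P μ) ≤ s / 2 := by
      rw [hEX]
      refine (Finset.sum_le_sum fun i _ => hXm i).trans ?_
      rw [Finset.sum_const, Finset.card_range, nsmul_eq_mul]
      have : (0 : ℝ) ≤ nrm (y - x) := Nat.cast_nonneg _
      nlinarith
    have hsub : {ω | s < T ω x y} ⊆ {ω | s / 2 ≤
        |(∑ i ∈ Finset.range (nrm (y - x)), X i ω) -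
          ∫ ω', ∑ i ∈ Finset.range (nrm (y - x)), X i ω' ∂(P μ)|} := by
      intro ω hω
      have h1 := hXT ω
      simp only [Set.mem_ofPred_eq] at hω ⊢
      refine le_trans ?_ (le_abs_self _)
      linarith
    refine (measure_mono hsub).trans ?_
    refine (meas_ge_le_variance_div_sq hmem (half_pos hs)).trans ?_
    refine ENNReal.ofReal_le_ofReal ?_
    rw [variance_eq_integral hmem.aestronglyMeasurable.aemeasurable, hEX]
    have h2 : (s / 2) ^ 2 = s ^ 2 / 4 := by ring
    rw [h2, div_div_eq_mul_div]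
    refine div_le_div_of_nonneg_right ?_ (by positivity)
    have : (0 : ℝ) ≤ nrm (y - x) := Nat.cast_nonneg _
    push_cast at hv
    nlinarith

end FPP
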