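import Pool.Agent.helper96.FPP.Killers
import Pool.Agent.helper96.FPP.Moment

/-!
# Module K (Count): there are no double gradient lines
-/

open MeasureTheory Filter Topology
open scoped NNReal ENNReal BoundedContinuousFunction

namespace FPP

variable {ρ : ℝ × ℝ} {W : ℕ → ℝ} (μ : Measure ℝ≥0) [IsProbabilityMeasure μ]
  [NullSingletonClass μ]

open Classical in
/-- Fewer than `m² / 2` points of the box of radius `m` around `x` have passage time more than `τ`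
from `x`. -/
def CountCen (m : ℕ) (τ : ℝ) (x : V) (ω : Om) : Prop :=
  2 * ((box m).filter fun z => τ < T ω x (x + z)).card < m ^ 2

theorem count_cen_shift (m : ℕ) (τ : ℝ) (x v : V) (ω : Om) :
    CountCen m τ (x + v) ω ↔ CountCen m τ x (shift v ω) := by
  unfold CountCen
  have : ∀ z, T ω (x + v) (x + v + z) = T (shift v ω) x (x + z) := by
    intro z
    rw [← T_shift]
    congr 1
    abel
  simp only [this]

theorem count_measurableSet_cen (m : ℕ) (τ : ℝ) (x : V) :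
    MeasurableSet {ω | CountCen m τ x ω} := by
  classical
  have h : Measurable fun ω : Om =>
      ∑ z ∈ box m, if τ < T ω x (x + z) then (1 : ℕ) else 0 := by
    refine Finset.measurable_sum _ fun z _ => ?_
    exact Measurable.ite (measurableSet_lt measurable_const (measurable_T x (x + z)))
      measurable_const measurable_const
  have h2 : {ω | CountCen m τ x ω} =
      (fun ω : Om => ∑ z ∈ box m, if τ < T ω x (x + z) then (1 : ℕ) else 0) ⁻¹'
        {k | 2 * k < m ^ 2} := by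
    ext ω
    simp only [CountCen, Set.mem_ofPred_eq, Set.mem_preimage, Finset.card_filter]
  rw [h2]
  exact h (MeasurableSet.of_discrete)

/-- Two central points of the same cell. -/
theorem count_cen_cell {m : ℕ} (hm : 0 < m) {τ : ℝ} {x y : V} {ω : Om} (hx : CountCen m τ x ω)
    (hy : CountCen m τ y ω) (h1 : x.1 / (m : ℤ) = y.1 / (m : ℤ))
    (h2 : x.2 / (m : ℤ) = y.2 / (m : ℤ)) : T ω x y ≤ 2 * τ := by
  classical
  set c1 := x.1 / (m : ℤ) with hc1
  set c2 := x.2 / (m : ℤ) with hc2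
  have hmz : (0 : ℤ) < m := by exact_mod_cast hm
  let cell : Finset V := Finset.Ico ((m : ℤ) * c1) (m * c1 + m) ×ˢ Finset.Ico ((m : ℤ) * c2) (m * c2 + m)
  have hcard : cell.card = m ^ 2 := by
    simp only [cell, Finset.card_product, Int.card_Ico]
    simp [pow_two]
  have key : ∀ w : V, CountCen m τ w ω → w.1 / (m : ℤ) = c1 → w.2 / (m : ℤ) = c2 →
      2 * (cell.filter fun z => τ < T ω w z).card < m ^ 2 := by
    intro w hw e1 e2
    refine lt_of_le_of_lt ?_ hw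
    refine Nat.mul_le_mul_left _ ?_
    refine Finset.card_le_card_of_injOn (fun z => z - w) ?_ ?_
    · intro z hz
      simp only [Finset.coe_filter, Set.mem_ofPred_eq, cell, Finset.mem_product,
        Finset.mem_Ico] at hz
      obtain ⟨⟨⟨a1, a2⟩, a3, a4⟩, a5⟩ := hz
      have b1 := Int.emod_nonneg w.1 hmz.ne'
      have b2 := Int.emod_lt_of_pos w.1 hmz
      have b3 := Int.mul_ediv_add_emod w.1 m
      have b4 := Int.emod_nonneg w.2 hmz.ne'
      have b5 := Int.emod_lt_of_pos w.2 hmz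
      have b6 := Int.mul_ediv_add_emod w.2 m
      rw [e1] at b3
      rw [e2] at b6
      simp only [Finset.coe_filter, Set.mem_ofPred_eq, mem_box, Prod.fst_sub, Prod.snd_sub]
      refine ⟨⟨abs_le.2 ⟨by linarith, by linarith⟩, abs_le.2 ⟨by linarith, by linarith⟩⟩, ?_⟩
      rw [add_sub_cancel]
      exact a5
    · intro z _ z' _ h
      simpa using h
  have kx := key x hx rfl rfl
  have ky := key y hy h1.symm h2.symm
  have : ∃ z ∈ cell, z ∉ (cell.filter fun z => τ < T ω x z) ∪ (cell.filter fun z => τ < T ω y z) := by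
    by_contra hcon
    push Not at hcon
    have h3 : cell.card ≤ ((cell.filter fun z => τ < T ω x z) ∪
      (cell.filter fun z => τ < T ω y z)).card := Finset.card_le_card hcon
    have h4 := Finset.card_union_le (cell.filter fun z => τ < T ω x z)
      (cell.filter fun z => τ < T ω y z)
    omega
  obtain ⟨z, hz, hz'⟩ := this
  simp only [Finset.mem_union, Finset.mem_filter, hz, true_and, not_or, not_lt] at hz'
  calc T ω x y ≤ T ω x z + T ω z y := T_triangle _ _ _ _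
    _ = T ω x z + T ω y z := by rw [T_comm ω z y]
    _ ≤ 2 * τ := by linarith [hz'.1, hz'.2]

omit [NullSingletonClass μ] in
theorem count_markov (hμ : MinSq μ) {C : ℝ}
    (hC : ∀ x y : V, ∫ ω, T ω x y ∂(P μ) ≤ C * nrm (y - x)) {τ : ℝ} (hτ : 0 < τ) (x y : V) :
    P μ {ω | τ < T ω x y} ≤ ENNReal.ofReal (C * nrm (y - x) / τ) := by
  have hint : Integrable (fun ω => T ω x y) (P μ) :=
    (memLp_T μ hμ x y).integrable (by norm_num)
  have h := mul_meas_ge_le_integral_of_nonneg (μ := P μ) (f := fun ω => T ω x y)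
    (ae_of_all _ fun ω => T_nonneg ω x y) hint τ
  have h2 : (P μ).real {ω | τ ≤ T ω x y} ≤ C * nrm (y - x) / τ := by
    rw [le_div_iff₀ hτ, mul_comm]
    exact h.trans (hC x y)
  calc P μ {ω | τ < T ω x y} ≤ P μ {ω | τ ≤ T ω x y} := measure_mono fun ω (hω : τ < T ω x y) => hω.le
    _ = ENNReal.ofReal ((P μ).real {ω | τ ≤ T ω x y}) := by
        rw [Measure.real, ENNReal.ofReal_toReal (measure_ne_top _ _)]
    _ ≤ _ := ENNReal.ofReal_le_ofReal h2

omit [NullSingletonClass μ] in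
theorem count_prob_cen (hμ : MinSq μ) {C : ℝ} (hC0 : 0 < C)
    (hC : ∀ x y : V, ∫ ω, T ω x y ∂(P μ) ≤ C * nrm (y - x)) {m : ℕ} (hm : 0 < m) {τ : ℝ}
    (hτ : 0 < τ) (x : V) :
    P μ {ω | ¬ CountCen m τ x ω} ≤ ENNReal.ofReal (36 * C * m / τ) := by
  classical
  let f : Om → ℝ≥0∞ := fun ω => ∑ z ∈ box m, ({ω | τ < T ω x (x + z)} : Set Om).indicator 1 ω
  have hmeas : ∀ z, MeasurableSet {ω : Om | τ < T ω x (x + z)} := fun z =>
    measurableSet_lt measurable_const (measurable_T x (x + z))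
  have hf : Measurable f := Finset.measurable_sum _ fun z _ => measurable_one.indicator (hmeas z)
  have hfc : ∀ ω, f ω = (((box m).filter fun z => τ < T ω x (x + z)).card : ℝ≥0∞) := by
    intro ω
    simp only [f, Finset.card_filter, Nat.cast_sum]
    refine Finset.sum_congr rfl fun z _ => ?_
    simp only [Set.indicator, Set.mem_ofPred_eq, Pi.one_apply]
    split_ifs <;> simp
  have hint : ∫⁻ ω, f ω ∂(P μ) ≤ ((2 * m + 1) ^ 2 : ℕ) * ENNReal.ofReal (2 * C * m / τ) := by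
    simp only [f]
    rw [lintegral_finsetSum _ fun z _ => measurable_one.indicator (hmeas z)]
    calc ∑ z ∈ box m, ∫⁻ ω, ({ω | τ < T ω x (x + z)} : Set Om).indicator 1 ω ∂(P μ)
        = ∑ z ∈ box m, P μ {ω | τ < T ω x (x + z)} := by
          refine Finset.sum_congr rfl fun z _ => ?_
          rw [lintegral_indicator_one (hmeas z)]
      _ ≤ ∑ z ∈ box m, ENNReal.ofReal (2 * C * m / τ) := by
          refine Finset.sum_le_sum fun z hz => ?_
          refine (count_markov μ hμ hC hτ x (x + z)).trans ?_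
          refine ENNReal.ofReal_le_ofReal ?_
          refine div_le_div_of_nonneg_right ?_ hτ.le
          have := nrm_le_of_mem_box hz
          rw [add_sub_cancel_left]
          have h3 : ((nrm z : ℕ) : ℝ) ≤ 2 * m := by exact_mod_cast this
          nlinarith
      _ = _ := by
          rw [Finset.sum_const, card_box, nsmul_eq_mul]
  have hmk := mul_meas_ge_le_lintegral (μ := P μ) hf ((m : ℝ≥0∞) ^ 2 / 2)
  have hsub : {ω | ¬ CountCen m τ x ω} ⊆ {ω | (m : ℝ≥0∞) ^ 2 / 2 ≤ f ω} := by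
    intro ω hω
    simp only [Set.mem_ofPred_eq, CountCen, not_lt] at hω ⊢
    rw [hfc]
    rw [ENNReal.div_le_iff (by norm_num) (by norm_num)]
    have h5 : m ^ 2 ≤ ((box m).filter fun z => τ < T ω x (x + z)).card * 2 := by
      rw [mul_comm]
      convert hω
    exact_mod_cast h5
  have h9 : ((2 * m + 1) ^ 2 : ℕ) ≤ 9 * m ^ 2 := by nlinarith [hm]
  have h10 : (m : ℝ≥0∞) ^ 2 / 2 * P μ {ω | ¬ CountCen m τ x ω} ≤
      (m : ℝ≥0∞) ^ 2 / 2 * (18 * ENNReal.ofReal (2 * C * m / τ)) := by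
    calc (m : ℝ≥0∞) ^ 2 / 2 * P μ {ω | ¬ CountCen m τ x ω}
        ≤ (m : ℝ≥0∞) ^ 2 / 2 * P μ {ω | (m : ℝ≥0∞) ^ 2 / 2 ≤ f ω} := by
          gcongr
      _ ≤ ∫⁻ ω, f ω ∂(P μ) := hmk
      _ ≤ ((2 * m + 1) ^ 2 : ℕ) * ENNReal.ofReal (2 * C * m / τ) := hint
      _ ≤ ((9 * m ^ 2 : ℕ) : ℝ≥0∞) * ENNReal.ofReal (2 * C * m / τ) := by
          gcongr
      _ = (m : ℝ≥0∞) ^ 2 / 2 * (18 * ENNReal.ofReal (2 * C * m / τ)) := by
          rw [← mul_assoc]
          congr 1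
          rw [div_eq_mul_inv, mul_assoc, Nat.cast_mul, Nat.cast_pow, mul_comm]
          congr 1
          rw [show (18 : ℝ≥0∞) = 2 * 9 by norm_num, ← mul_assoc,
            ENNReal.inv_mul_cancel (by norm_num) (by norm_num), one_mul]
          norm_num
  have h11 : P μ {ω | ¬ CountCen m τ x ω} ≤ 18 * ENNReal.ofReal (2 * C * m / τ) := by
    refine (ENNReal.mul_le_mul_iff_right ?_ ?_).1 h10
    · simp [hm.ne']
    · exact ENNReal.div_ne_top (by simp) (by norm_num)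
  refine h11.trans (le_of_eq ?_)
  have : (18 : ℝ≥0∞) = ENNReal.ofReal 18 := by simp
  rw [this, ← ENNReal.ofReal_mul (by norm_num)]
  congr 1
  ring

/-- Mass transport along the lines. -/
theorem count_mtp (hρ : ρ ≠ 0) (hW : Tendsto W atTop atTop) (D : V → Om → Prop)
    (hD : ∀ y, MeasurableSet {ω | D y ω}) (hcov : ∀ y v ω, D (y + v) ω ↔ D y (shift v ω)) (i : ℤ) :
    P μ {ω | (0 : V) ∈ U ρ W ω ∧ D (Ln ρ W ω 0 i) ω} ≤ P μ {ω | D 0 ω} := by
  classical
  let B : V → V → Set Om := fun x y => {ω | x ∈ U ρ W ω ∧ Ln ρ W ω x i = y ∧ D y ω}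
  have hB : ∀ x y, MeasurableSet (B x y) := by
    intro x y
    have h1 := measurableSet_U (W := W) hρ x
    have h2 : MeasurableSet {ω | Ln ρ W ω x i = y} :=
      (measurable_Ln hρ x i) (MeasurableSet.singleton y)
    exact h1.inter (h2.inter (hD y))
  let m : V → V → Om → ℝ≥0∞ := fun x y => (B x y).indicator 1
  have hm : ∀ x y, Measurable (m x y) := fun x y => measurable_one.indicator (hB x y)
  have hcv : ∀ x y v ω, m (x + v) (y + v) ω = m x y (shift v ω) := by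
    intro x y v ω
    have e : (x + v ∈ U ρ W ω ∧ Ln ρ W ω (x + v) i = y + v ∧ D (y + v) ω) ↔
        (x ∈ U ρ W (shift v ω) ∧ Ln ρ W (shift v ω) x i = y ∧ D y (shift v ω)) := by
      rw [U_shift hρ hW, hcov, Ln_shift hρ hW, add_left_inj]
    by_cases h : ω ∈ B (x + v) (y + v)
    · have h' : shift v ω ∈ B x y := e.1 h
      simp only [m]
      rw [Set.indicator_of_mem h, Set.indicator_of_mem h']
      rfl
    · have h' : shift v ω ∉ B x y := fun h2 => h (e.2 h2)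
      simp only [m]
      rw [Set.indicator_of_notMem h, Set.indicator_of_notMem h']
  have hmt := mtp (Q := P μ) shift (fun v => mp_shift μ v) m hm hcv
  calc P μ {ω | (0 : V) ∈ U ρ W ω ∧ D (Ln ρ W ω 0 i) ω}
      ≤ P μ (⋃ y, B 0 y) := by
        refine measure_mono ?_
        intro ω hω
        exact Set.mem_iUnion.2 ⟨_, hω.1, rfl, hω.2⟩
    _ ≤ ∑' y, P μ (B 0 y) := measure_iUnion_le _
    _ = ∑' y, ∫⁻ w, m 0 y w ∂(P μ) := by
        refine tsum_congr fun y => ?_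
        simp only [m]
        rw [lintegral_indicator_one (hB 0 y)]
    _ = ∑' x, ∫⁻ w, m x 0 w ∂(P μ) := hmt
    _ = ∫⁻ w, ∑' x, m x 0 w ∂(P μ) := by
        rw [lintegral_tsum fun x => (hm x 0).aemeasurable]
    _ ≤ ∫⁻ w, ({ω | D 0 ω} : Set Om).indicator 1 w ∂(P μ) := by
        refine lintegral_mono_ae ?_
        filter_upwards [ae_nice μ hρ hW] with ω hn
        by_cases hex : ∃ x, ω ∈ B x 0
        · obtain ⟨x, hx⟩ := hex
          rw [tsum_eq_single x]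
          · simp only [m]
            rw [Set.indicator_of_mem hx, Set.indicator_of_mem (show ω ∈ {ω | D 0 ω} from hx.2.2)]
          · intro y hy
            simp only [m]
            rw [Set.indicator_of_notMem]
            intro hy'
            apply hy
            have h1 : Ln ρ W ω x i = Ln ρ W ω y i := by rw [hx.2.1, hy'.2.1]
            have h2 := hn.eq_of_common hx.1 hy'.1 h1 (-i)
            rw [add_neg_cancel, Ln_zero, Ln_zero] at h2
            exact h2.symm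
        · push Not at hex
          have : ∀ x, m x 0 ω = 0 := fun x => Set.indicator_of_notMem (hex x) _
          simp [this]
    _ = P μ {ω | D 0 ω} := lintegral_indicator_one (hD 0)

/-! ### Deterministic part -/

theorem count_pw_ge {θ a : ℝ≥0} {ω : Om} (haθ : a ≤ θ) (ha : ∀ e, a ≤ ω e) {p : ℕ → V} {n : ℕ}
    (h : 8 * lightc ω θ p n ≤ n) :
    (a : ℝ) * n + 7 / 8 * ((θ : ℝ) - a) * n ≤ pw ω p n := by
  classical
  have haθ' : (a : ℝ) ≤ θ := by exact_mod_cast haθ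
  have h1 : ∑ k ∈ Finset.range n, ((θ : ℝ) - ((θ : ℝ) - a) *
      (if ω (edge (p k) (p (k + 1))) < θ then 1 else 0)) ≤ pw ω p n := by
    unfold pw
    refine Finset.sum_le_sum fun k _ => ?_
    split_ifs with hk
    · have := ha (edge (p k) (p (k + 1)))
      have h2 : (a : ℝ) ≤ ω (edge (p k) (p (k + 1))) := by exact_mod_cast this
      linarith
    · have h2 : (θ : ℝ) ≤ ω (edge (p k) (p (k + 1))) := by exact_mod_cast not_lt.1 hk
      linarith
  rw [Finset.sum_sub_distrib, ← Finset.mul_sum, Finset.sum_const, Finset.card_range,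
    nsmul_eq_mul] at h1
  have h3 : (∑ k ∈ Finset.range n, (if ω (edge (p k) (p (k + 1))) < θ then (1 : ℝ) else 0))
      = (lightc ω θ p n : ℝ) := by
    unfold lightc
    rw [Finset.card_filter, Nat.cast_sum]
    refine Finset.sum_congr rfl fun k _ => ?_
    split_ifs <;> simp
  rw [h3] at h1
  have h4 : (8 : ℝ) * (lightc ω θ p n : ℝ) ≤ n := by exact_mod_cast h
  nlinarith

theorem count_lw_eq_pw (ω : Om) (G : ℤ → V) (s : ℤ) (n : ℕ) :
    lw ω G s n = pw ω (fun k => G (s + k)) n := by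
  unfold lw pw
  refine Finset.sum_congr rfl fun k _ => ?_
  push_cast
  rw [add_assoc]

theorem count_lw_eq_pw_neg (ω : Om) (G : ℤ → V) (s : ℤ) (n : ℕ) :
    lw ω G (s - n) n = pw ω (fun k => G (s - k)) n := by
  unfold lw pw
  rw [← Finset.sum_range_reflect]
  refine Finset.sum_congr rfl fun k hk => ?_
  have hk' := Finset.mem_range.1 hk
  have e1 : s - (n : ℤ) + ((n - 1 - k : ℕ) : ℤ) = s - ((k + 1 : ℕ) : ℤ) := by
    have : ((n - 1 - k : ℕ) : ℤ) = n - 1 - k := by omega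
    rw [this]; push_cast; ring
  have e2 : s - (n : ℤ) + ((n - 1 - k : ℕ) : ℤ) + 1 = s - (k : ℤ) := by
    rw [e1]; push_cast; ring
  rw [e2, e1, edge_comm]

theorem count_lw_add (ω : Om) (G : ℤ → V) (s : ℤ) (m n : ℕ) :
    lw ω G s (m + n) = lw ω G s m + lw ω G (s + m) n := by
  unfold lw
  rw [Finset.sum_range_add]
  congr 1
  refine Finset.sum_congr rfl fun k _ => ?_
  push_cast
  rw [show s + ((m : ℤ) + k) = s + m + k by ring]

section det

variable {ω : Om} (hρ : ρ ≠ 0) (hW : Tendsto W atTop atTop) (hn : Nice ρ W ω)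

include hρ hW hn

theorem count_isPath {G : ℤ → V} (hG : G ∈ S ρ W ω) (s : ℤ) (n : ℕ) :
    IsPath (fun k : ℕ => G (s + k)) n := by
  refine ⟨fun k _ => ?_, ?_⟩
  · have := (hG (s + k)).1
    push_cast
    rw [← add_assoc]
    exact this
  · intro i _ j _ hij
    have := hn.inj hρ hW hG hij
    simpa using this

theorem count_isPath_neg {G : ℤ → V} (hG : G ∈ S ρ W ω) (s : ℤ) (n : ℕ) :
    IsPath (fun k : ℕ => G (s - k)) n := by
  refine ⟨fun k _ => ?_, ?_⟩
  · have := (hG (s - ((k + 1 : ℕ) : ℤ))).1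
    rw [show s - ((k + 1 : ℕ) : ℤ) + 1 = s - (k : ℤ) by push_cast; ring] at this
    exact adj_symm this
  · intro i _ j _ hij
    have := hn.inj hρ hW hG hij
    simpa using this

/-- Two good points whose lines have the same pair of cells are on the same line. -/
theorem count_same_line {a θ : ℝ≥0} (haθ : a < θ) (ha : ∀ e, a ≤ ω e)
    (hsc : ∀ G ∈ S ρ W ω, ∀ H ∈ S ρ W ω, (∀ i j, G i ≠ H j) →
      ∀ (i : ℤ) (m : ℕ) (s : ℤ) (n : ℕ),
        T ω (H i) (H (i + m)) ≤ T ω (H i) (G s) + a * n + T ω (G (s + n)) (H (i + m)))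
    {n₀ N m : ℕ} (hN : n₀ ≤ N) (hN0 : 0 < N) (hm : 0 < m) {x y : V} (hx : x ∈ U ρ W ω)
    (hy : y ∈ U ρ W ω) (hLG : LG θ n₀ x ω)
    (hx1 : CountCen m (((θ : ℝ) - a) / 8 * N) (Ln ρ W ω x N) ω)
    (hx2 : CountCen m (((θ : ℝ) - a) / 8 * N) (Ln ρ W ω x (-N)) ω)
    (hy1 : CountCen m (((θ : ℝ) - a) / 8 * N) (Ln ρ W ω y N) ω)
    (hy2 : CountCen m (((θ : ℝ) - a) / 8 * N) (Ln ρ W ω y (-N)) ω)
    (c1 : (Ln ρ W ω x N).1 / (m : ℤ) = (Ln ρ W ω y N).1 / (m : ℤ))
    (c2 : (Ln ρ W ω x N).2 / (m : ℤ) = (Ln ρ W ω y N).2 / (m : ℤ))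
    (c3 : (Ln ρ W ω x (-N)).1 / (m : ℤ) = (Ln ρ W ω y (-N)).1 / (m : ℤ))
    (c4 : (Ln ρ W ω x (-N)).2 / (m : ℤ) = (Ln ρ W ω y (-N)).2 / (m : ℤ)) :
    ∃ k : ℤ, y = Ln ρ W ω x k := by
  by_contra hcon
  have hdis : ∀ i j, Ln ρ W ω x i ≠ Ln ρ W ω y j := by
    intro i j hij
    apply hcon
    have := hn.eq_of_common hx hy hij (-j)
    rw [add_neg_cancel, Ln_zero] at this
    exact ⟨_, this.symm⟩
  set τ : ℝ := ((θ : ℝ) - a) / 8 * N with hτ
  set G := Ln ρ W ω x with hG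
  set H := Ln ρ W ω y with hH
  have t1 : T ω (G N) (H N) ≤ 2 * τ := count_cen_cell hm hx1 hy1 c1 c2
  have t2 : T ω (G (-N)) (H (-N)) ≤ 2 * τ := count_cen_cell hm hx2 hy2 c3 c4
  have e : (-(N : ℤ)) + ((2 * N : ℕ) : ℤ) = N := by push_cast; ring
  have t3 := hsc G hx H hy hdis (-N) (2 * N) (-N) (2 * N)
  rw [e] at t3
  have t4 : T ω (G (-N)) (G N) ≤ T ω (G (-N)) (H (-N)) + T ω (H (-N)) (H N) + T ω (H N) (G N) :=
    (T_triangle _ _ (H N) _).trans (by gcongr; exact T_triangle _ _ _ _)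
  have t5 := S_geod hρ hW hx (-N) (2 * N)
  rw [e] at t5
  have t6 : lw ω G (-N) (2 * N) = lw ω G (0 - N) N + lw ω G 0 N := by
    rw [two_mul, count_lw_add]
    simp
  have p1 : (a : ℝ) * N + 7 / 8 * ((θ : ℝ) - a) * N ≤ lw ω G 0 N := by
    rw [count_lw_eq_pw]
    refine count_pw_ge haθ.le ha (hLG N hN _ ?_ (count_isPath hρ hW hn hx 0 N))
    simp [G, Ln_zero]
  have p2 : (a : ℝ) * N + 7 / 8 * ((θ : ℝ) - a) * N ≤ lw ω G (0 - N) N := by
    rw [count_lw_eq_pw_neg]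
    refine count_pw_ge haθ.le ha (hLG N hN _ ?_ (count_isPath_neg hρ hW hn hx 0 N))
    simp [G, Ln_zero]
  have c : T ω (H (-N)) (G (-N)) = T ω (G (-N)) (H (-N)) := T_comm _ _ _
  have c' : T ω (H N) (G N) = T ω (G N) (H N) := T_comm _ _ _
  have hpos : 0 < ((θ : ℝ) - a) * N := by
    have : (a : ℝ) < θ := by exact_mod_cast haθ
    have h2 : (0 : ℝ) < N := by exact_mod_cast hN0
    exact mul_pos (by linarith) h2
  rw [c] at t3
  rw [c'] at t4
  push_cast at t3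
  have : τ = ((θ : ℝ) - a) * N / 8 := by rw [hτ]; ring
  nlinarith

/-- Two good points of one line in one cell of side `L`. -/
theorem count_index {θ : ℝ≥0} {n₀ L : ℕ} (hL : 0 < L) {K : ℝ} {x : V} (hx : x ∈ U ρ W ω)
    (hLG : LG θ n₀ x ω) {k : ℤ} (hx1 : CountCen L (K * L) x ω)
    (hy1 : CountCen L (K * L) (Ln ρ W ω x k) ω)
    (c1 : x.1 / (L : ℤ) = (Ln ρ W ω x k).1 / (L : ℤ))
    (c2 : x.2 / (L : ℤ) = (Ln ρ W ω x k).2 / (L : ℤ)) (hk : n₀ ≤ k.natAbs) :
    7 / 8 * (θ : ℝ) * k.natAbs ≤ 2 * (K * L) := by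
  have t1 := count_cen_cell hL hx1 hy1 c1 c2
  refine le_trans ?_ t1
  have hp : ∀ p : ℕ → V, p 0 = x → IsPath p k.natAbs →
      7 / 8 * (θ : ℝ) * k.natAbs ≤ pw ω p k.natAbs := by
    intro p h0 hp
    have := count_pw_ge (a := 0) zero_le (fun _ => zero_le) (hLG _ hk p h0 hp)
    simpa using this
  rcases Int.natAbs_eq k with h | h
  · have h1 := S_geod hρ hW hx 0 k.natAbs
    rw [zero_add, ← h, Ln_zero, count_lw_eq_pw] at h1
    rw [h1]
    refine hp _ ?_ (count_isPath hρ hW hn hx 0 _)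
    simp [Ln_zero]
  · have h1 := S_geod hρ hW hx k k.natAbs
    have e : k + (k.natAbs : ℤ) = 0 := by omega
    rw [e, Ln_zero, T_comm] at h1
    rw [h1]
    have e2 : k = 0 - (k.natAbs : ℤ) := by omega
    have h2 := count_lw_eq_pw_neg ω (Ln ρ W ω x) 0 k.natAbs
    rw [← e2] at h2
    rw [h2]
    refine hp _ ?_ (count_isPath_neg hρ hW hn hx 0 _)
    simp [Ln_zero]

/-- Good points. -/
def CountGood (ρ : ℝ × ℝ) (W : ℕ → ℝ) (θ : ℝ≥0) (n₀ N m L : ℕ) (τ K : ℝ) (x : V) (ω : Om) : Prop :=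
  x ∈ U ρ W ω ∧ LG θ n₀ x ω ∧ CountCen m τ (Ln ρ W ω x N) ω ∧
    CountCen m τ (Ln ρ W ω x (-N)) ω ∧ CountCen L (K * L) x ω

omit hρ hW hn in
theorem count_div_mem {q m : ℕ} (hm : 0 < m) {z : ℤ} (h : |z| ≤ 2 * ((q * m : ℕ) : ℤ)) :
    z / (m : ℤ) ∈ Finset.Icc (-(2 * q : ℤ)) (2 * q) := by
  have hmz : (0 : ℤ) < m := by exact_mod_cast hm
  rw [Finset.mem_Icc]
  have h1 := abs_le.1 h
  push_cast at h1
  constructor
  · rw [Int.le_ediv_iff_mul_le hmz]
    linarith [h1.1]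
  · have : z / (m : ℤ) ≤ (2 * q * m) / (m : ℤ) := Int.ediv_le_ediv hmz (by linarith [h1.2])
    rwa [Int.mul_ediv_cancel _ hmz.ne'] at this

theorem count_card {a θ : ℝ≥0} (haθ : a < θ) (ha : ∀ e, a ≤ ω e)
    (hsc : ∀ G ∈ S ρ W ω, ∀ H ∈ S ρ W ω, (∀ i j, G i ≠ H j) →
      ∀ (i : ℤ) (m : ℕ) (s : ℤ) (n : ℕ),
        T ω (H i) (H (i + m)) ≤ T ω (H i) (G s) + a * n + T ω (G (s + n)) (H (i + m)))
    {n₀ q m L k₁ : ℕ} (hN : n₀ ≤ q * m) (hq : 0 < q) (hm : 0 < m) (hL : 0 < L)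
    (hLN : L ≤ q * m) {K : ℝ} (hk₁ : n₀ ≤ k₁)
    (hk₁' : ∀ k : ℕ, 7 / 8 * (θ : ℝ) * k ≤ 2 * (K * L) → k ≤ k₁)
    (F : Finset V) (hF : ∀ x ∈ F, (0 ≤ x.1 ∧ x.1 < L ∧ 0 ≤ x.2 ∧ x.2 < L) ∧
      CountGood ρ W θ n₀ (q * m) m L (((θ : ℝ) - a) / 8 * (q * m : ℕ)) K x ω) :
    F.card ≤ (2 * k₁ + 1) * (4 * q + 1) ^ 4 := by
  classical
  set N := q * m with hNdef
  have hN0 : 0 < N := Nat.mul_pos hq hm
  let I : Finset ℤ := Finset.Icc (-(2 * q : ℤ)) (2 * q)
  let cells : Finset ((ℤ × ℤ) × (ℤ × ℤ)) := (I ×ˢ I) ×ˢ (I ×ˢ I)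
  have hI : I.card = 4 * q + 1 := by
    simp only [I, Int.card_Icc]
    omega
  have hcells : cells.card = (4 * q + 1) ^ 4 := by
    simp only [cells, Finset.card_product, hI]
    ring
  let c : V → (ℤ × ℤ) × (ℤ × ℤ) := fun x =>
    (((Ln ρ W ω x N).1 / (m : ℤ), (Ln ρ W ω x N).2 / (m : ℤ)),
      ((Ln ρ W ω x (-N)).1 / (m : ℤ), (Ln ρ W ω x (-N)).2 / (m : ℤ)))
  have hdist : ∀ x, x ∈ U ρ W ω → (nrm (Ln ρ W ω x N - x) ≤ N ∧ nrm (Ln ρ W ω x (-N) - x) ≤ N) := by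
    intro x hx
    constructor
    · have h := count_isPath hρ hW hn hx 0 N
      have := nrm_path_le h.1 (Nat.zero_le N) le_rfl
      simpa [Ln_zero] using this
    · have h := count_isPath_neg hρ hW hn hx 0 N
      have := nrm_path_le h.1 (Nat.zero_le N) le_rfl
      simpa [Ln_zero] using this
  have hcoord : ∀ x ∈ F, ∀ y : V, nrm (y - x) ≤ N → |y.1| ≤ 2 * ((q * m : ℕ) : ℤ) ∧
      |y.2| ≤ 2 * ((q * m : ℕ) : ℤ) := by
    intro x hx y hy
    obtain ⟨⟨a1, a2, a3, a4⟩, -⟩ := hF x hx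
    unfold nrm at hy
    simp only [Prod.fst_sub, Prod.snd_sub] at hy
    constructor
    · rw [abs_le]; omega
    · rw [abs_le]; omega
  have hmaps : ∀ x ∈ F, c x ∈ cells := by
    intro x hx
    have hxU := (hF x hx).2.1
    obtain ⟨d1, d2⟩ := hdist x hxU
    obtain ⟨e1, e2⟩ := hcoord x hx _ d1
    obtain ⟨e3, e4⟩ := hcoord x hx _ d2
    simp only [cells, c, Finset.mem_product]
    exact ⟨⟨count_div_mem hm e1, count_div_mem hm e2⟩, ⟨count_div_mem hm e3, count_div_mem hm e4⟩⟩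
  rw [← hcells]
  refine Finset.card_le_mul_card_image_of_maps_to hmaps _ ?_
  intro b _
  rcases (F.filter fun x => c x = b).eq_empty_or_nonempty with he | ⟨x, hx⟩
  · rw [he]; simp
  rw [Finset.mem_filter] at hx
  obtain ⟨hxF, hxb⟩ := hx
  have hsub : (F.filter fun x => c x = b) ⊆
      (Finset.Icc (-(k₁ : ℤ)) k₁).image (Ln ρ W ω x) := by
    intro y hy
    rw [Finset.mem_filter] at hy
    obtain ⟨hyF, hyb⟩ := hy
    obtain ⟨⟨a1, a2, a3, a4⟩, g1, g2, g3, g4, g5⟩ := hF x hxF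
    obtain ⟨⟨b1, b2, b3, b4⟩, f1, f2, f3, f4, f5⟩ := hF y hyF
    have hcc : c x = c y := by rw [hxb, hyb]
    simp only [c, Prod.mk.injEq] at hcc
    obtain ⟨⟨c1, c2⟩, c3, c4⟩ := hcc
    obtain ⟨k, hk⟩ := count_same_line hρ hW hn haθ ha hsc hN hN0 hm g1 f1 g2 g3 g4 f3 f4 c1 c2 c3 c4
    rw [Finset.mem_image]
    refine ⟨k, ?_, hk.symm⟩
    rw [Finset.mem_Icc]
    have hkk : k.natAbs ≤ k₁ := by
      by_cases hk0 : n₀ ≤ k.natAbs
      · apply hk₁'
        rw [hk] at f5 b1 b2 b3 b4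
        refine count_index hρ hW hn hL g1 g2 g5 f5 ?_ ?_ hk0
        · rw [Int.ediv_eq_zero_of_lt a1 a2, Int.ediv_eq_zero_of_lt b1 b2]
        · rw [Int.ediv_eq_zero_of_lt a3 a4, Int.ediv_eq_zero_of_lt b3 b4]
      · omega
    omega
  refine (Finset.card_le_card hsub).trans (Finset.card_image_le.trans ?_)
  rw [Int.card_Icc]
  omega

end det

/-! ### Probabilistic part -/

theorem count_measurableSet_good (hρ : ρ ≠ 0) (θ : ℝ≥0) (n₀ N m L : ℕ) (τ K : ℝ) (x : V) :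
    MeasurableSet {ω | CountGood ρ W θ n₀ N m L τ K x ω} := by
  have h : ∀ i : ℤ, MeasurableSet {ω | CountCen m τ (Ln ρ W ω x i) ω} := by
    intro i
    have e : {ω | CountCen m τ (Ln ρ W ω x i) ω} =
        ⋃ y : V, ({ω | Ln ρ W ω x i = y} ∩ {ω | CountCen m τ y ω}) := by
      ext ω
      simp
    rw [e]
    exact MeasurableSet.iUnion fun y =>
      ((measurable_Ln hρ x i) (MeasurableSet.singleton y)).inter (count_measurableSet_cen m τ y)
  exact (measurableSet_U hρ x).inter ((measurableSet_LG θ n₀ x).inter ((h N).inter ((h (-N)).inter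
    (count_measurableSet_cen L (K * L) x))))

theorem count_good_shift (hρ : ρ ≠ 0) (hW : Tendsto W atTop atTop) (θ : ℝ≥0) (n₀ N m L : ℕ)
    (τ K : ℝ) (x : V) (ω : Om) :
    CountGood ρ W θ n₀ N m L τ K x ω ↔ CountGood ρ W θ n₀ N m L τ K 0 (shift x ω) := by
  have e : x = 0 + x := (zero_add x).symm
  unfold CountGood
  conv_lhs => rw [e]
  rw [U_shift hρ hW, LG_shift, Ln_shift hρ hW, Ln_shift hρ hW, count_cen_shift, count_cen_shift,
    count_cen_shift]

theorem count_prob_good (hμ : MinSq μ) (hρ : ρ ≠ 0) (hW : Tendsto W atTop atTop) {C : ℝ}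
    (hC0 : 0 < C) (hC : ∀ x y : V, ∫ ω, T ω x y ∂(P μ) ≤ C * nrm (y - x)) {pr : ℝ}
    (hpr : (P μ).real {ω | (0 : V) ∈ U ρ W ω} = pr) {θ : ℝ≥0} {n₀ N m L : ℕ} {τ K : ℝ}
    (hm : 0 < m) (hL : 0 < L) (hτ : 0 < τ) (hK : 0 < K)
    (h1 : (P μ).real {ω | ¬ LG θ n₀ 0 ω} ≤ pr / 8) (h2 : 36 * C * m / τ ≤ pr / 8)
    (h3 : 36 * C / K ≤ pr / 8) :
    pr / 2 ≤ (P μ).real {ω | CountGood ρ W θ n₀ N m L τ K 0 ω} := by
  have hpr0 : 0 ≤ pr := by rw [← hpr]; exact measureReal_nonneg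
  have b1 : ∀ i : ℤ, (P μ).real {ω | (0 : V) ∈ U ρ W ω ∧ ¬ CountCen m τ (Ln ρ W ω 0 i) ω} ≤
      pr / 8 := by
    intro i
    have := count_mtp μ hρ hW (fun y ω => ¬ CountCen m τ y ω)
      (fun y => (count_measurableSet_cen m τ y).compl)
      (fun y v ω => not_congr (count_cen_shift m τ y v ω)) i
    have h5 := this.trans (count_prob_cen μ hμ hC0 hC hm hτ 0)
    exact ENNReal.toReal_le_of_le_ofReal (by positivity) (h5.trans (ENNReal.ofReal_le_ofReal h2))
  have b2 : (P μ).real {ω | ¬ CountCen L (K * L) 0 ω} ≤ pr / 8 := by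
    have hL' : (0 : ℝ) < L := by exact_mod_cast hL
    have h5 := count_prob_cen μ hμ hC0 hC hL (τ := K * L) (by positivity) 0
    have e : 36 * C * L / (K * L) = 36 * C / K := by
      rw [mul_div_mul_right _ _ hL'.ne']
    rw [e] at h5
    exact ENNReal.toReal_le_of_le_ofReal (by positivity) (h5.trans (ENNReal.ofReal_le_ofReal h3))
  have hsub : {ω | (0 : V) ∈ U ρ W ω} ⊆ {ω | CountGood ρ W θ n₀ N m L τ K 0 ω} ∪
      ({ω | ¬ LG θ n₀ 0 ω} ∪ ({ω | (0 : V) ∈ U ρ W ω ∧ ¬ CountCen m τ (Ln ρ W ω 0 N) ω} ∪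
      ({ω | (0 : V) ∈ U ρ W ω ∧ ¬ CountCen m τ (Ln ρ W ω 0 (-N)) ω} ∪
        {ω | ¬ CountCen L (K * L) 0 ω}))) := by
    intro ω hω
    simp only [Set.mem_union, Set.mem_ofPred_eq, CountGood] at hω ⊢
    tauto
  have h6 : pr ≤ (P μ).real {ω | CountGood ρ W θ n₀ N m L τ K 0 ω} + (pr / 8 + (pr / 8 +
      (pr / 8 + pr / 8))) := by
    rw [← hpr]
    refine (measureReal_mono hsub).trans ?_
    refine (measureReal_union_le _ _).trans ?_
    rw [hpr]
    gcongr
    refine (measureReal_union_le _ _).trans ?_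
    gcongr
    refine (measureReal_union_le _ _).trans ?_
    gcongr
    · exact b1 N
    refine (measureReal_union_le _ _).trans ?_
    gcongr
    exact b1 (-N)
  linarith

theorem count_U_null (hμ : MinSq μ) (hρ : ρ ≠ 0) (hW : Tendsto W atTop atTop) :
    (P μ).real {ω | (0 : V) ∈ U ρ W ω} = 0 := by
  classical
  by_contra hne
  set pr := (P μ).real {ω | (0 : V) ∈ U ρ W ω} with hpr
  have hpr0 : 0 < pr := lt_of_le_of_ne measureReal_nonneg (Ne.symm hne)
  obtain ⟨C, hC0, hC, -⟩ := exists_CT μ hμ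
  obtain ⟨a, θ, haθ, ha0, ha1, hθ⟩ := exists_a_theta μ
  have haθ' : (a : ℝ) < θ := by exact_mod_cast haθ
  have hθ0 : (0 : ℝ) < θ := lt_of_le_of_lt a.2 haθ'
  set δ : ℝ := (θ : ℝ) - a with hδ
  have hδ0 : 0 < δ := by rw [hδ]; linarith
  -- the constants
  obtain ⟨q, hq⟩ := exists_nat_gt (8 * (36 * C * 8) / (δ * pr))
  have hq0 : 0 < q := by
    have : (0 : ℝ) < q := lt_of_le_of_lt (by positivity) hq
    exact_mod_cast this
  set K : ℝ := 288 * C / pr with hK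
  have hK0 : 0 < K := by positivity
  have hLG := tendsto_LG μ hθ 0
  have hev : ∀ᶠ n₀ : ℕ in atTop, P μ {ω | ¬ LG θ n₀ 0 ω} ≤ ENNReal.ofReal (pr / 8) :=
    (hLG.eventually_lt_const (ENNReal.ofReal_pos.2 (by positivity))).mono fun _ h => h.le
  obtain ⟨n₀, hn₀⟩ := hev.exists
  have hn₀' : (P μ).real {ω | ¬ LG θ n₀ 0 ω} ≤ pr / 8 :=
    ENNReal.toReal_le_of_le_ofReal (by positivity) hn₀
  set c : ℝ := 16 * K / (7 * θ) with hc
  have hc0 : 0 < c := by positivity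
  set R : ℝ := (4 * q + 1) ^ 4 with hR
  have hR0 : 0 < R := by positivity
  obtain ⟨L, hLbig⟩ := exists_nat_gt ((2 * n₀ + 3 + 2 * c) * R * 2 / pr)
  have hL0' : (0 : ℝ) < L := lt_of_le_of_lt (by positivity) hLbig
  have hL0 : 0 < L := by exact_mod_cast hL0'
  set k₁ : ℕ := n₀ + ⌊c * L⌋₊ with hk₁
  set m : ℕ := n₀ + L with hm
  have hm0 : 0 < m := by omega
  have hqm : m ≤ q * m := Nat.le_mul_of_pos_left m hq0
  set τ : ℝ := δ / 8 * (q * m : ℕ) with hτ
  have hqmr : (0 : ℝ) < (q * m : ℕ) := by exact_mod_cast Nat.mul_pos hq0 hm0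
  have hτ0 : 0 < τ := by positivity
  have h2 : 36 * C * m / τ ≤ pr / 8 := by
    rw [div_le_iff₀ hτ0]
    rw [div_lt_iff₀ (by positivity)] at hq
    have hm' : (0 : ℝ) < m := by exact_mod_cast hm0
    have h5 : 8 * (36 * C * 8) * m ≤ (q : ℝ) * (δ * pr) * m := by
      gcongr
    have h6 : pr / 8 * τ = (q : ℝ) * (δ * pr) * m / 64 := by
      rw [hτ]; push_cast; ring
    linarith
  have h3 : 36 * C / K ≤ pr / 8 := by
    rw [hK]
    rw [div_div_eq_mul_div, div_le_iff₀ (by positivity)]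
    nlinarith
  have hG := count_prob_good (ρ := ρ) (W := W) (θ := θ) (n₀ := n₀) (N := q * m) (L := L) μ hμ hρ hW
    hC0 hC hpr.symm hm0 hL0 hτ0 hK0 hn₀' h2 h3
  -- the expected number of good points
  let Q : Finset V := Finset.Ico (0 : ℤ) L ×ˢ Finset.Ico (0 : ℤ) L
  have hQ : Q.card = L ^ 2 := by
    simp only [Q, Finset.card_product, Int.card_Ico]
    simp [pow_two]
  let g : V → Set Om := fun x => {ω | CountGood ρ W θ n₀ (q * m) m L τ K x ω}
  have hgm : ∀ x, MeasurableSet (g x) := fun x => count_measurableSet_good hρ θ n₀ (q * m) m L τ K x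
  have hgp : ∀ x, P μ (g x) = P μ (g 0) := by
    intro x
    have e : g x = shift x ⁻¹' (g 0) := by
      ext ω
      exact count_good_shift hρ hW θ n₀ (q * m) m L τ K x ω
    rw [e]
    exact (mp_shift μ x).measure_preimage (hgm 0).nullMeasurableSet
  have hcount : ∀ᵐ ω ∂(P μ), ∑ x ∈ Q, (g x).indicator (1 : Om → ℝ≥0∞) ω ≤
      (((2 * k₁ + 1) * (4 * q + 1) ^ 4 : ℕ) : ℝ≥0∞) := by
    have hae : ∀ᵐ ω ∂(P μ), ∀ e, a < ω e := by
      refine ae_edge μ ?_
      rw [ae_iff]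
      convert ha0 using 2
      ext s
      simp
    filter_upwards [ae_nice μ hρ hW, ae_noShortcut μ hρ hW ha0 ha1, hae] with ω hn hsc hpos
    have h6 : ∑ x ∈ Q, (g x).indicator (1 : Om → ℝ≥0∞) ω =
        ((Q.filter fun x => ω ∈ g x).card : ℝ≥0∞) := by
      rw [Finset.card_filter, Nat.cast_sum]
      refine Finset.sum_congr rfl fun x _ => ?_
      by_cases hx : ω ∈ g x
      · simp [hx]
      · simp [hx]
    rw [h6]
    have h7 : (Q.filter fun x => ω ∈ g x).card ≤ (2 * k₁ + 1) * (4 * q + 1) ^ 4 := by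
      refine count_card hρ hW hn haθ (fun e => (hpos e).le) hsc (m := m) (n₀ := n₀) (by omega) hq0
        hm0 hL0 (by omega) (K := K) (by omega) ?_ _ ?_
      · intro k hk
        have h8 : (k : ℝ) ≤ c * L := by
          rw [hc, div_mul_eq_mul_div, le_div_iff₀ (by positivity)]
          nlinarith
        have := Nat.le_floor h8
        omega
      · intro x hx
        rw [Finset.mem_filter] at hx
        obtain ⟨hxQ, hxg⟩ := hx
        simp only [Q, Finset.mem_product, Finset.mem_Ico] at hxQ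
        exact ⟨⟨hxQ.1.1, hxQ.1.2, hxQ.2.1, hxQ.2.2⟩, hxg⟩
    exact_mod_cast h7
  have hint : ((L ^ 2 : ℕ) : ℝ≥0∞) * P μ (g 0) ≤ (((2 * k₁ + 1) * (4 * q + 1) ^ 4 : ℕ) : ℝ≥0∞) := by
    calc ((L ^ 2 : ℕ) : ℝ≥0∞) * P μ (g 0) = ∑ x ∈ Q, P μ (g x) := by
          rw [Finset.sum_congr rfl fun x _ => hgp x, Finset.sum_const, hQ, nsmul_eq_mul]
      _ = ∫⁻ ω, ∑ x ∈ Q, (g x).indicator (1 : Om → ℝ≥0∞) ω ∂(P μ) := by
          rw [lintegral_finsetSum _ fun x _ => measurable_one.indicator (hgm x)]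
          refine Finset.sum_congr rfl fun x _ => ?_
          rw [lintegral_indicator_one (hgm x)]
      _ ≤ ∫⁻ _, (((2 * k₁ + 1) * (4 * q + 1) ^ 4 : ℕ) : ℝ≥0∞) ∂(P μ) := lintegral_mono_ae hcount
      _ = _ := by rw [lintegral_const, measure_univ, mul_one]
  have hreal : (L : ℝ) ^ 2 * (P μ).real (g 0) ≤ (2 * k₁ + 1) * (4 * q + 1) ^ 4 := by
    have := ENNReal.toReal_mono (ENNReal.natCast_ne_top _) hint
    rw [ENNReal.toReal_mul] at this
    simp only [ENNReal.toReal_natCast] at this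
    push_cast at this
    exact this
  have hk₁r : (k₁ : ℝ) ≤ n₀ + c * L := by
    rw [hk₁]; push_cast
    gcongr
    exact Nat.floor_le (by positivity)
  have hL1 : (1 : ℝ) ≤ L := by exact_mod_cast hL0
  rw [div_lt_iff₀ hpr0] at hLbig
  have f1 : (L : ℝ) ^ 2 * (pr / 2) ≤ (2 * (n₀ + c * L) + 1) * R := by
    calc (L : ℝ) ^ 2 * (pr / 2) ≤ (L : ℝ) ^ 2 * (P μ).real (g 0) := by gcongr
      _ ≤ (2 * (k₁ : ℝ) + 1) * (4 * (q : ℝ) + 1) ^ 4 := hreal
      _ ≤ (2 * (n₀ + c * L) + 1) * R := by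
          rw [hR]; gcongr
  have f2 : (2 * (n₀ + c * L) + 1) * R ≤ (2 * n₀ + 3 + 2 * c) * R * L := by
    have : 2 * ((n₀ : ℝ) + c * L) + 1 ≤ (2 * n₀ + 3 + 2 * c) * L := by nlinarith
    nlinarith
  have f3 : (2 * n₀ + 3 + 2 * c) * R * L < (L : ℝ) ^ 2 * (pr / 2) := by
    nlinarith
  linarith

theorem ae_no_lines (hμ : MinSq μ) (hρ : ρ ≠ 0) (hW : Tendsto W atTop atTop) :
    ∀ᵐ ω ∂(P μ), S ρ W ω = ∅ := by
  have h0 : ∀ᵐ ω ∂(P μ), (0 : V) ∉ U ρ W ω := by
    rw [ae_iff]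
    have := count_U_null (ρ := ρ) (W := W) μ hμ hρ hW
    rw [measureReal_eq_zero_iff] at this
    simpa using this
  filter_upwards [ae_all_shift μ h0, ae_nice μ hρ hW] with ω h hn
  by_contra hne
  obtain ⟨G, hG⟩ := Set.nonempty_iff_ne_empty.2 hne
  have h1 := hn.mem_U hG 0
  apply h (G 0)
  rw [← U_shift hρ hW, zero_add]
  exact h1

end FPP
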