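import Mathlib

/-!
# First-passage percolation on `ℤ²`: definitions

Vertices are `V = ℤ × ℤ`, edges are `E = V × Bool`: the edge `(v, false)` joins `v` and
`v + (1,0)`, the edge `(v, true)` joins `v` and `v + (0,1)`.  An environment is a function
`ω : E → ℝ≥0`.
-/

open MeasureTheory Filter Topology
open scoped NNReal ENNReal BoundedContinuousFunction

namespace FPP

/-- Vertices of the square lattice. -/
abbrev V := ℤ × ℤ

/-- Edges of the square lattice: `(v, false)` is the edge from `v` to `v + (1,0)`, and
`(v, true)` is the edge from `v` to `v + (0,1)`. -/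
abbrev E := V × Bool

/-- Environments: nonnegative edge weights, with the product topology and σ-algebra. -/
abbrev Om := E → ℝ≥0

/-- The four unit steps. -/
inductive Dir
  | r | l | u | d
  deriving DecidableEq, Fintype

/-- The vector of a unit step. -/
def vec : Dir → V
  | .r => (1, 0)
  | .l => (-1, 0)
  | .u => (0, 1)
  | .d => (0, -1)

/-- The opposite step. -/
def opp : Dir → Dir
  | .r => .l
  | .l => .r
  | .u => .d
  | .d => .u

/-- Nearest neighbours. -/
def Adj (x y : V) : Prop := ∃ s : Dir, y = x + vec s

/-- The edge joining two neighbouring vertices: its lower left endpoint is the componentwise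
minimum of the two vertices, and it is vertical iff the two vertices have the same abscissa. -/
def edge (x y : V) : E := (x ⊓ y, decide (x.1 = y.1))

/-- Total displacement of a list of steps. -/
def disp (l : List Dir) : V := (l.map vec).sum

/-- The weight `T(γ)` of the finite lattice path that starts at `x` and follows the steps `l`. -/
def wt (ω : Om) : V → List Dir → ℝ≥0
  | _, [] => 0
  | x, s :: l => ω (edge x (x + vec s)) + wt ω (x + vec s) l

/-- The passage time `T(x, y)`: infimum of the weights of the finite lattice paths from `x`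
to `y`. -/
noncomputable def T (ω : Om) (x y : V) : ℝ :=
  ⨅ l : {l : List Dir // x + disp l = y}, (wt ω x l.1 : ℝ)

/-- The shift `(σ_v ω)_e = ω_{e+v}`. -/
def shift (v : V) (ω : Om) : Om := fun e => ω (e.1 + v, e.2)

/-- Weight of the first `n` edges of a lattice path `p`. -/
noncomputable def pw (ω : Om) (p : ℕ → V) (n : ℕ) : ℝ :=
  ∑ k ∈ Finset.range n, (ω (edge (p k) (p (k + 1))) : ℝ)

/-- An infinite geodesic: a one-sided infinite self-avoiding nearest-neighbour path every finite
segment of which attains the passage time between its endpoints. -/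
structure IsGeodesicRay (ω : Om) (g : ℕ → V) : Prop where
  adj : ∀ k, Adj (g k) (g (k + 1))
  inj : Function.Injective g
  geo : ∀ m n, m ≤ n →
    ∑ k ∈ Finset.Ico m n, (ω (edge (g k) (g (k + 1))) : ℝ) = T ω (g m) (g n)

/-- The law of the environment. -/
noncomputable def P (μ : Measure ℝ≥0) : Measure Om := Measure.infinitePi (fun _ : E => μ)

/-- The moment assumption: the minimum of four independent weights is square integrable. -/
def MinSq (μ : Measure ℝ≥0) : Prop :=
  ∫⁻ x : Fin 4 → ℝ≥0, (⨅ i, (x i : ℝ≥0∞)) ^ 2 ∂(Measure.pi fun _ => μ) < ∞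

/-- `ν` is the weak limit of the empirical measures of the environment seen along `g`. -/
def IsWeakLimit (ω : Om) (g : ℕ → V) (ν : Measure Om) : Prop :=
  ∀ f : Om →ᵇ ℝ, Tendsto (fun n : ℕ => (∑ k ∈ Finset.range n, f (shift (g k) ω)) / n)
    atTop (𝓝 (∫ ω', f ω' ∂ν))

end FPP
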