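import Pool.Agent.helper96.FPP.Defs

/-!
# First-passage percolation on `ℤ²`: internal definitions shared by the modules
-/

open MeasureTheory Filter Topology
open scoped NNReal ENNReal BoundedContinuousFunction

namespace FPP

/-! ### Lattice -/

/-- `ℓ¹` norm. -/
def nrm (v : V) : ℕ := v.1.natAbs + v.2.natAbs

/-- The box `[-N, N]²`. -/
noncomputable def box (N : ℕ) : Finset V := Finset.Icc (-(N : ℤ), -(N : ℤ)) ((N : ℤ), (N : ℤ))

/-- The two endpoints of an edge. -/
def ends (e : E) : Set V := {e.1, e.1 + if e.2 then (0, 1) else (1, 0)}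

/-- `p 0, …, p n` is a self-avoiding nearest-neighbour path with `n` edges. -/
def IsPath (p : ℕ → V) (n : ℕ) : Prop :=
  (∀ k < n, Adj (p k) (p (k + 1))) ∧ Set.InjOn p (Set.Iic n)

/-- Number of edges of weight `< θ` among the first `n` edges of `p`. -/
noncomputable def lightc (ω : Om) (θ : ℝ≥0) (p : ℕ → V) (n : ℕ) : ℕ :=
  ((Finset.range n).filter fun k => ω (edge (p k) (p (k + 1))) < θ).card

/-- All self-avoiding paths from `x` with `n ≥ n₀` edges have at most `n/8` light edges. -/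
def LG (θ : ℝ≥0) (n₀ : ℕ) (x : V) (ω : Om) : Prop :=
  ∀ n, n₀ ≤ n → ∀ p : ℕ → V, p 0 = x → IsPath p n → 8 * lightc ω θ p n ≤ n

/-! ### Two environments -/

/-- Law of a pair of independent environments; `w (false, ·)` is the base environment,
`w (true, ·)` the other one. -/
noncomputable def P2 (μ : Measure ℝ≥0) : Measure (Bool × E → ℝ≥0) :=
  Measure.infinitePi (fun _ : Bool × E => μ)

/-- The base environment. -/
def base (w : Bool × E → ℝ≥0) : Om := fun e => w (false, e)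

/-- The other environment. -/
def other (w : Bool × E → ℝ≥0) : Om := fun e => w (true, e)

/-- The base environment, resampled on `A`. -/
def mix (A : Finset E) (w : Bool × E → ℝ≥0) : Om := fun e => w (decide (e ∈ A), e)

/-- Exchange the two environments on `A`. -/
def swp (A : Finset E) (w : Bool × E → ℝ≥0) : Bool × E → ℝ≥0 :=
  fun q => w (xor q.1 (decide (q.2 ∈ A)), q.2)

/-- Shift of a pair of environments. -/
def shift2 (v : V) (w : Bool × E → ℝ≥0) : Bool × E → ℝ≥0 :=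
  fun q => w (q.1, (q.2.1 + v, q.2.2))

/-! ### Passage times to half planes, gradient edges, lines -/

/-- The linear functional. -/
noncomputable def dot (ρ : ℝ × ℝ) (v : V) : ℝ := ρ.1 * v.1 + ρ.2 * v.2

/-- Passage time from `x` to the half plane `{z | t ≤ ρ · z}`. -/
noncomputable def u (ρ : ℝ × ℝ) (ω : Om) (t : ℝ) (x : V) : ℝ :=
  ⨅ z : {z : V // t ≤ dot ρ z}, T ω x z.1

/-- Deficit of the step `x → y` with respect to the half plane at level `t`. -/
noncomputable def dft (ρ : ℝ × ℝ) (ω : Om) (x y : V) (t : ℝ) : ℝ :=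
  ω (edge x y) + u ρ ω t y - u ρ ω t x

/-- `x → y` is a forward gradient step: the average deficit tends to `0`. -/
def FG (ρ : ℝ × ℝ) (W : ℕ → ℝ) (ω : Om) (x y : V) : Prop :=
  Tendsto (fun j => (∫ t in (0 : ℝ)..(W j), dft ρ ω x y t) / W j) atTop (𝓝 0)

/-- `x → y` is a double gradient step. -/
def DG (ρ : ℝ × ℝ) (W : ℕ → ℝ) (ω : Om) (x y : V) : Prop :=
  Adj x y ∧ FG ρ W ω x y ∧ FG (-ρ) W ω y x

/-- Bi-infinite paths all of whose steps are double gradient steps. -/
def S (ρ : ℝ × ℝ) (W : ℕ → ℝ) (ω : Om) : Set (ℤ → V) :=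
  {G | ∀ k, DG ρ W ω (G k) (G (k + 1))}

/-- Weight of `n` consecutive edges of a bi-infinite path. -/
noncomputable def lw (ω : Om) (G : ℤ → V) (s : ℤ) (n : ℕ) : ℝ :=
  ∑ i ∈ Finset.range n, (ω (edge (G (s + i)) (G (s + i + 1))) : ℝ)

open Classical in
/-- The next vertex after `x` on its double gradient line (first admissible direction; `x` itself
if there is none). -/
noncomputable def nxt (ρ : ℝ × ℝ) (W : ℕ → ℝ) (ω : Om) (x : V) : V :=
  if DG ρ W ω x (x + vec .r) then x + vec .r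
  else if DG ρ W ω x (x + vec .l) then x + vec .l
  else if DG ρ W ω x (x + vec .u) then x + vec .u
  else if DG ρ W ω x (x + vec .d) then x + vec .d else x

open Classical in
/-- The previous vertex. -/
noncomputable def prv (ρ : ℝ × ℝ) (W : ℕ → ℝ) (ω : Om) (x : V) : V :=
  if DG ρ W ω (x + vec .r) x then x + vec .r
  else if DG ρ W ω (x + vec .l) x then x + vec .l
  else if DG ρ W ω (x + vec .u) x then x + vec .u
  else if DG ρ W ω (x + vec .d) x then x + vec .d else x

/-- The line through `x`. -/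
noncomputable def Ln (ρ : ℝ × ℝ) (W : ℕ → ℝ) (ω : Om) (x : V) : ℤ → V
  | Int.ofNat n => (nxt ρ W ω)^[n] x
  | Int.negSucc n => (prv ρ W ω)^[n + 1] x

/-- Vertices that lie on a double gradient line. -/
def U (ρ : ℝ × ℝ) (W : ℕ → ℝ) (ω : Om) : Set V := {x | Ln ρ W ω x ∈ S ρ W ω}

/-- Typical environments. -/
structure Nice (ρ : ℝ × ℝ) (W : ℕ → ℝ) (ω : Om) : Prop where
  pos : ∀ e, 0 < ω e
  fin : ∀ (x : V) (R : ℝ), {y | T ω x y ≤ R}.Finite
  fuq : ∀ x (s s' : Dir), FG ρ W ω x (x + vec s) → FG ρ W ω x (x + vec s') → s = s'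
  buq : ∀ x (s s' : Dir), FG (-ρ) W ω x (x + vec s) → FG (-ρ) W ω x (x + vec s') → s = s'

/-! ### Time constant -/

/-- The properties of the time constant that are used. -/
structure TCProps (μ : Measure ℝ≥0) (tc : V → ℝ) : Prop where
  nonneg : ∀ v, 0 ≤ tc v
  add_le : ∀ v w, tc (v + w) ≤ tc v + tc w
  smul : ∀ (k : ℤ) v, tc (k • v) = |(k : ℝ)| * tc v
  upper : ∃ C : ℝ, 0 < C ∧ ∀ v, tc v ≤ C * nrm v
  lower : ∃ c : ℝ, 0 < c ∧ ∀ v, c * nrm v ≤ tc v
  conv : ∀ v (ε : ℝ), 0 < ε →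
    Tendsto (fun m : ℕ => P μ {ω | ε * m < |T ω 0 (m • v) - m * tc v|}) atTop (𝓝 0)

/-- `ρ` supports the time constant. -/
def Supp (tc : V → ℝ) (ρ : ℝ × ℝ) : Prop :=
  (∀ v, dot ρ v ≤ tc v) ∧ ∀ ε : ℝ, 0 < ε → ∃ v : V, v ≠ 0 ∧ tc v ≤ (1 + ε) * dot ρ v

/-- Outside a set of at most `η N` vertices, the passage times in the box are within `ε N` of the
time constant. -/
def GoodBox (tc : V → ℝ) (ε η : ℝ) (N : ℕ) (ω : Om) : Prop :=
  ∃ B : Finset V, (B.card : ℝ) ≤ η * N ∧ (0 : V) ∉ B ∧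
    ∀ x ∈ box N, ∀ y ∈ box N, x ∉ B → y ∉ B → |T ω x y - tc (y - x)| ≤ ε * N

/-- Number of fast blocks among the first `M` blocks of length `N` of the path `p`. -/
noncomputable def fastc (tc : V → ℝ) (ε : ℝ) (ω : Om) (p : ℕ → V) (N M : ℕ) : ℕ :=
  by
    classical
    exact ((Finset.range M).filter fun i =>
      (∑ k ∈ Finset.Ico (i * N) ((i + 1) * N), (ω (edge (p k) (p (k + 1))) : ℝ))
        < tc (p ((i + 1) * N) - p (i * N)) - ε * N).card

/-- Every self-avoiding path has few fast blocks of length `N`. -/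
def FewFast (tc : V → ℝ) (ε κ : ℝ) (N : ℕ) (ω : Om) : Prop :=
  ∀ x : V, ∃ M₀ : ℕ, ∀ M, M₀ ≤ M → ∀ p : ℕ → V, p 0 = x → IsPath p (M * N) →
    (fastc tc ε ω p N M : ℝ) ≤ κ * M

/-! ### Flows -/

/-- The block of `n` steps starting at time `k`. -/
def blk (s : ℕ → Dir) (k n : ℕ) : List Dir := (List.range n).map fun i => s (k + i)

/-- The limit block measures along a path. -/
structure IsBlockLimit (ω : Om) (g : ℕ → V) (s : ℕ → Dir) (F : Filter ℕ) (ν : Measure Om)
    (m : List Dir → Measure Om) : Prop where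
  nil : m [] = ν
  le : ∀ γ, m γ ≤ ν
  right : ∀ γ, m γ = ∑ a : Dir, m (γ ++ [a])
  left : ∀ γ, m γ = ∑ a : Dir, (m (a :: γ)).map (shift (vec a))
  lim : ∀ γ (h : Om →ᵇ ℝ), Tendsto (fun n : ℕ =>
    (∑ k ∈ Finset.range n, if blk s k γ.length = γ then h (shift (g k) ω) else 0) / n)
    F (𝓝 (∫ ω', h ω' ∂(m γ)))

end FPP
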