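import Pool.Agent.helper96.FPP.Walk
import Pool.Agent.helper96.FPP.Prob

/-!
# Module C (Peierls): self-avoiding paths have few light edges; linear growth of passage times
-/

open MeasureTheory Filter Topology
open scoped NNReal ENNReal BoundedContinuousFunction

namespace FPP

variable (μ : Measure ℝ≥0) [IsProbabilityMeasure μ]

/-- The path that follows a list of steps. -/
def peierlsPth (x : V) (l : List Dir) : ℕ → V := fun i => x + disp (l.take i)

theorem peierls_lightc_congr {ω : Om} {θ : ℝ≥0} {p q : ℕ → V} {n : ℕ}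
    (h : ∀ i ≤ n, p i = q i) : lightc ω θ p n = lightc ω θ q n := by
  unfold lightc
  congr 1
  refine Finset.filter_congr fun k hk => ?_
  rw [Finset.mem_range] at hk
  rw [h k hk.le, h (k + 1) hk]

theorem peierls_isPath_congr {p q : ℕ → V} {n : ℕ}
    (h : ∀ i ≤ n, p i = q i) (hp : IsPath p n) : IsPath q n := by
  refine ⟨fun k hk => ?_, fun i hi j hj hij => ?_⟩
  · rw [← h k hk.le, ← h (k + 1) hk]
    exact hp.1 k hk
  · rw [← h i hi, ← h j hj] at hij
    exact hp.2 hi hj hij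

theorem peierls_exists_fn {ω : Om} {p : ℕ → V} {n : ℕ} (h : IsPath p n) :
    ∃ s : Fin n → Dir, ∀ i ≤ n, p i = peierlsPth (p 0) (List.ofFn s) i := by
  obtain ⟨l, hl, h1, -⟩ := exists_list_of_path ω p n h.1
  subst hl
  refine ⟨l.get, fun i hi => ?_⟩
  rw [List.ofFn_get]
  exact (h1 i hi).symm

theorem peierls_LG_iff (θ : ℝ≥0) (n₀ : ℕ) (x : V) (ω : Om) :
    LG θ n₀ x ω ↔ ∀ n, n₀ ≤ n → ∀ s : Fin n → Dir, IsPath (peierlsPth x (List.ofFn s)) n →
      8 * lightc ω θ (peierlsPth x (List.ofFn s)) n ≤ n := by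
  constructor
  · intro h n hn s hs
    exact h n hn _ (by simp [peierlsPth, disp_nil]) hs
  · intro h n hn p hp hp'
    obtain ⟨s, hs⟩ := peierls_exists_fn (ω := ω) hp'
    subst hp
    rw [peierls_lightc_congr hs]
    exact h n hn s (peierls_isPath_congr hs hp')

theorem peierls_measurable_lightc (θ : ℝ≥0) (p : ℕ → V) (n : ℕ) :
    Measurable fun ω : Om => lightc ω θ p n := by
  have : (fun ω : Om => lightc ω θ p n) = fun ω : Om => ∑ k ∈ Finset.range n,
      if ω (edge (p k) (p (k + 1))) < θ then 1 else 0 := by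
    funext ω
    simp only [lightc, Finset.card_filter]
  rw [this]
  refine Finset.measurable_sum _ fun k _ => ?_
  refine Measurable.ite ?_ measurable_const measurable_const
  exact measurableSet_lt (measurable_pi_apply _) measurable_const

theorem measurableSet_LG (θ : ℝ≥0) (n₀ : ℕ) (x : V) : MeasurableSet {ω | LG θ n₀ x ω} := by
  have : {ω | LG θ n₀ x ω} = ⋂ (n : ℕ) (_ : n₀ ≤ n) (s : Fin n → Dir)
      (_ : IsPath (peierlsPth x (List.ofFn s)) n),
      {ω | 8 * lightc ω θ (peierlsPth x (List.ofFn s)) n ≤ n} := by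
    ext ω
    simp only [Set.mem_iInter, Set.mem_ofPred_eq]
    exact peierls_LG_iff θ n₀ x ω
  rw [this]
  refine MeasurableSet.iInter fun n => MeasurableSet.iInter fun _ => MeasurableSet.iInter fun s =>
    MeasurableSet.iInter fun _ => ?_
  exact measurableSet_le ((peierls_measurable_lightc θ _ n).const_mul 8) measurable_const

theorem LG_shift (θ : ℝ≥0) (n₀ : ℕ) (x v : V) (ω : Om) :
    LG θ n₀ (x + v) ω ↔ LG θ n₀ x (shift v ω) := by
  have key : ∀ (p : ℕ → V) (n : ℕ),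
      lightc ω θ (fun i => p i + v) n = lightc (shift v ω) θ p n := by
    intro p n
    unfold lightc
    congr 1
    refine Finset.filter_congr fun k _ => ?_
    rw [shift_edge]
  have key2 : ∀ (p : ℕ → V) (n : ℕ) (w : V), IsPath p n → IsPath (fun i => p i + w) n := by
    intro p n w hp
    refine ⟨fun k hk => adj_add_right.mpr (hp.1 k hk), fun i hi j hj hij => ?_⟩
    exact hp.2 hi hj (add_right_cancel hij)
  constructor
  · intro h n hn p hp hp'
    rw [← key]
    exact h n hn _ (by rw [hp]) (key2 p n v hp')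
  · intro h n hn p hp hp'
    have h1 := h n hn (fun i => p i + -v) (by rw [hp]; abel) (key2 p n (-v) hp')
    rw [← key] at h1
    have h2 : (fun i => (fun i => p i + -v) i + v) = p := by
      funext i; simp
    rwa [h2] at h1

/-- For a fixed self-avoiding path and a fixed set of its edges. -/
theorem peierls_fixed {θ : ℝ≥0} (hθ : μ (Set.Iio θ) ≤ (16⁻¹ : ℝ≥0∞) ^ 8) {p : ℕ → V} {n : ℕ}
    (hp : IsPath p n) {K : Finset ℕ} (hK : K ⊆ Finset.range n) (hc : n ≤ 8 * K.card) :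
    P μ {ω | ∀ k ∈ K, ω (edge (p k) (p (k + 1))) < θ} ≤ (16⁻¹ : ℝ≥0∞) ^ n := by
  classical
  have h1 : {ω : Om | ∀ k ∈ K, ω (edge (p k) (p (k + 1))) < θ} =
      {ω | ∀ e ∈ K.image (fun k => edge (p k) (p (k + 1))), ω e ∈ Set.Iio θ} := by
    ext ω
    simp only [Set.mem_ofPred_eq, Finset.mem_image, Set.mem_Iio]
    constructor
    · rintro h _ ⟨k, hk, rfl⟩
      exact h k hk
    · intro h k hk
      exact h _ ⟨k, hk, rfl⟩
  have hinj : Set.InjOn (fun k => edge (p k) (p (k + 1))) (K : Set ℕ) := by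
    refine hp.edge_injOn.mono fun k hk => ?_
    exact Finset.mem_range.mp (hK hk)
  rw [h1, P_pi μ _ (fun _ => Set.Iio θ) (fun _ => measurableSet_Iio), Finset.prod_const,
    Finset.card_image_of_injOn hinj]
  calc μ (Set.Iio θ) ^ K.card ≤ ((16⁻¹ : ℝ≥0∞) ^ 8) ^ K.card := by gcongr
    _ = (16⁻¹ : ℝ≥0∞) ^ (8 * K.card) := by rw [pow_mul]
    _ ≤ (16⁻¹ : ℝ≥0∞) ^ n :=
        pow_le_pow_right_of_le_one' (ENNReal.inv_le_one.mpr (by norm_num)) hc

/-- The bad event for paths with `n` edges. -/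
def peierlsBad (θ : ℝ≥0) (x : V) (n : ℕ) : Set Om :=
  {ω | ∃ s : Fin n → Dir, IsPath (peierlsPth x (List.ofFn s)) n ∧
    n < 8 * lightc ω θ (peierlsPth x (List.ofFn s)) n}

theorem peierls_bad_le {θ : ℝ≥0} (hθ : μ (Set.Iio θ) ≤ (16⁻¹ : ℝ≥0∞) ^ 8) (x : V) (n : ℕ) :
    P μ (peierlsBad θ x n) ≤ (2⁻¹ : ℝ≥0∞) ^ n := by
  classical
  have h1 : peierlsBad θ x n ⊆ ⋃ s ∈ (Finset.univ : Finset (Fin n → Dir)),
      ⋃ K ∈ (Finset.range n).powerset,
        {ω : Om | IsPath (peierlsPth x (List.ofFn s)) n ∧ n ≤ 8 * K.card ∧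
          ∀ k ∈ K, ω (edge (peierlsPth x (List.ofFn s) k)
            (peierlsPth x (List.ofFn s) (k + 1))) < θ} := by
    rintro ω ⟨s, hs, hn⟩
    simp only [Set.mem_iUnion]
    refine ⟨s, Finset.mem_univ _, (Finset.range n).filter fun k =>
      ω (edge (peierlsPth x (List.ofFn s) k) (peierlsPth x (List.ofFn s) (k + 1))) < θ,
      Finset.mem_powerset.mpr (Finset.filter_subset _ _), hs, ?_, ?_⟩
    · have := hn.le
      unfold lightc at this
      convert this
    · intro k hk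
      exact (Finset.mem_filter.mp hk).2
  refine (measure_mono h1).trans ((measure_biUnion_finset_le _ _).trans ?_)
  have h2 : ∀ s ∈ (Finset.univ : Finset (Fin n → Dir)),
      P μ (⋃ K ∈ (Finset.range n).powerset,
        {ω : Om | IsPath (peierlsPth x (List.ofFn s)) n ∧ n ≤ 8 * K.card ∧
          ∀ k ∈ K, ω (edge (peierlsPth x (List.ofFn s) k)
            (peierlsPth x (List.ofFn s) (k + 1))) < θ}) ≤ 2 ^ n * (16⁻¹ : ℝ≥0∞) ^ n := by
    intro s _
    refine (measure_biUnion_finset_le _ _).trans ?_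
    have h3 : ∀ K ∈ (Finset.range n).powerset,
        P μ {ω : Om | IsPath (peierlsPth x (List.ofFn s)) n ∧ n ≤ 8 * K.card ∧
          ∀ k ∈ K, ω (edge (peierlsPth x (List.ofFn s) k)
            (peierlsPth x (List.ofFn s) (k + 1))) < θ} ≤ (16⁻¹ : ℝ≥0∞) ^ n := by
      intro K hK
      by_cases hh : IsPath (peierlsPth x (List.ofFn s)) n ∧ n ≤ 8 * K.card
      · refine (measure_mono ?_).trans
          (peierls_fixed μ hθ hh.1 (Finset.mem_powerset.mp hK) hh.2)
        rintro ω ⟨-, -, h⟩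
        exact h
      · have : {ω : Om | IsPath (peierlsPth x (List.ofFn s)) n ∧ n ≤ 8 * K.card ∧
          ∀ k ∈ K, ω (edge (peierlsPth x (List.ofFn s) k)
            (peierlsPth x (List.ofFn s) (k + 1))) < θ} = ∅ := by
          ext ω
          simp only [Set.mem_ofPred_eq, Set.mem_empty_iff_false, iff_false]
          rintro ⟨h, h', -⟩
          exact hh ⟨h, h'⟩
        rw [this, measure_empty]
        exact zero_le
    refine (Finset.sum_le_sum h3).trans ?_
    rw [Finset.sum_const, Finset.card_powerset, Finset.card_range, nsmul_eq_mul]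
    push_cast
    exact le_rfl
  refine (Finset.sum_le_sum h2).trans ?_
  rw [Finset.sum_const, Finset.card_univ, Fintype.card_fun, Fintype.card_fin, nsmul_eq_mul]
  have h4 : Fintype.card Dir = 4 := rfl
  rw [h4]
  push_cast
  rw [← mul_pow, ← mul_pow]
  gcongr
  rw [show (16 : ℝ≥0∞) = 4 * 2 * 2 by norm_num, ENNReal.mul_inv (by norm_num) (by norm_num),
    ← mul_assoc, ← mul_assoc, ENNReal.mul_inv_cancel (by norm_num) (by norm_num), one_mul]

theorem peierls_not_LG_le {θ : ℝ≥0} (hθ : μ (Set.Iio θ) ≤ (16⁻¹ : ℝ≥0∞) ^ 8) (x : V) (n₀ : ℕ) :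
    P μ {ω | ¬ LG θ n₀ x ω} ≤ (2⁻¹ : ℝ≥0∞) ^ n₀ * 2 := by
  have h1 : {ω | ¬ LG θ n₀ x ω} ⊆ ⋃ j : ℕ, peierlsBad θ x (n₀ + j) := by
    intro ω hω
    simp only [Set.mem_ofPred_eq, peierls_LG_iff] at hω
    push Not at hω
    obtain ⟨n, hn, s, hs, hs'⟩ := hω
    obtain ⟨j, rfl⟩ := Nat.exists_eq_add_of_le hn
    exact Set.mem_iUnion.mpr ⟨j, s, hs, hs'⟩
  refine (measure_mono h1).trans ((measure_iUnion_le _).trans ?_)
  refine (ENNReal.tsum_le_tsum fun j => peierls_bad_le μ hθ x (n₀ + j)).trans ?_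
  simp only [pow_add]
  rw [ENNReal.tsum_mul_left, ENNReal.tsum_geometric]
  have : (1 - 2⁻¹ : ℝ≥0∞)⁻¹ = 2 := by
    rw [ENNReal.one_sub_inv_two, inv_inv]
  rw [this]

theorem tendsto_LG {θ : ℝ≥0} (hθ : μ (Set.Iio θ) ≤ (16⁻¹ : ℝ≥0∞) ^ 8) (x : V) :
    Tendsto (fun n₀ : ℕ => P μ {ω | ¬ LG θ n₀ x ω}) atTop (𝓝 0) := by
  have h1 : Tendsto (fun n₀ : ℕ => (2⁻¹ : ℝ≥0∞) ^ n₀ * 2) atTop (𝓝 0) := by
    have := ENNReal.Tendsto.mul_const (b := 2)
      (ENNReal.tendsto_pow_atTop_nhds_zero_of_lt_one (r := (2⁻¹ : ℝ≥0∞))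
        (ENNReal.inv_lt_one.mpr (by norm_num))) (Or.inr (by norm_num))
    simpa using this
  exact tendsto_of_tendsto_of_tendsto_of_le_of_le tendsto_const_nhds h1 (fun _ => zero_le)
    (fun n₀ => peierls_not_LG_le μ hθ x n₀)

/-- Peierls argument.  For a fixed self-avoiding path of length `n` and a fixed set of `k ≥ n/8`
of its edges, the probability that they are all light is `μ(Iio θ)^k ≤ 16^{-8k} ≤ 16^{-n}`; there
are at most `4^n` paths and `2^n` subsets; `8^n 16^{-n} = 2^{-n}` is summable. -/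
theorem ae_LG {θ : ℝ≥0} (hθ : μ (Set.Iio θ) ≤ (16⁻¹ : ℝ≥0∞) ^ 8) :
    ∀ᵐ ω ∂(P μ), ∀ x, ∃ n₀, LG θ n₀ x ω := by
  rw [ae_all_iff]
  intro x
  rw [ae_iff]
  refine le_antisymm ?_ zero_le
  refine ge_of_tendsto' (tendsto_LG μ hθ x) fun n₀ => measure_mono ?_
  intro ω hω
  simp only [Set.mem_ofPred_eq, not_exists] at hω
  exact hω n₀

theorem peierls_pw_ge (ω : Om) (θ : ℝ≥0) (p : ℕ → V) (n : ℕ) :
    (θ : ℝ) * (n - lightc ω θ p n) ≤ pw ω p n := by
  have h1 : ∀ k ∈ Finset.range n,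
      (θ : ℝ) * (1 - if ω (edge (p k) (p (k + 1))) < θ then 1 else 0) ≤
        (ω (edge (p k) (p (k + 1))) : ℝ) := by
    intro k _
    split_ifs with h
    · simp
    · push Not at h
      simpa using NNReal.coe_le_coe.mpr h
  have h2 := Finset.sum_le_sum h1
  rw [← Finset.mul_sum, Finset.sum_sub_distrib] at h2
  refine le_trans (le_of_eq ?_) h2
  unfold lightc
  rw [Finset.card_filter]
  simp

/-- Linear growth of passage times (a self-avoiding path from `x` to `y` has at least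
`nrm (y - x)` edges, at most `1/8` of them light). -/
theorem growth [NullSingletonClass μ] : ∃ c : ℝ, 0 < c ∧ ∀ᵐ ω ∂(P μ), ∀ x, ∃ n₀ : ℕ, ∀ y,
    n₀ ≤ nrm (y - x) → c * nrm (y - x) ≤ T ω x y := by
  obtain ⟨a, θ, haθ, -, -, hθ⟩ := exists_a_theta μ
  have hθ0 : (0 : ℝ) < θ := NNReal.coe_pos.mpr (lt_of_le_of_lt zero_le haθ)
  refine ⟨7 / 8 * θ, by positivity, ?_⟩
  filter_upwards [ae_LG μ hθ] with ω hω x
  obtain ⟨n₀, hn₀⟩ := hω x
  refine ⟨n₀, fun y hy => ?_⟩
  by_contra h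
  push Not at h
  obtain ⟨n, p, hp0, hpn, hp, hw⟩ := exists_path_lt h
  have h1 : nrm (y - x) ≤ n := by
    have := nrm_path_le hp.1 (Nat.zero_le n) le_rfl
    rw [hp0, hpn] at this
    simpa using this
  have h2 := hn₀ n (hy.trans h1) p hp0 hp
  have h3 := peierls_pw_ge ω θ p n
  have h4 : (8 : ℝ) * lightc ω θ p n ≤ n := by exact_mod_cast h2
  have h5 : (nrm (y - x) : ℝ) ≤ n := by exact_mod_cast h1
  nlinarith

theorem ae_finite_balls [NullSingletonClass μ] :
    ∀ᵐ ω ∂(P μ), ∀ (x : V) (R : ℝ), {y | T ω x y ≤ R}.Finite := by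
  obtain ⟨c, hc, h⟩ := growth μ
  filter_upwards [h] with ω hω x R
  obtain ⟨n₀, hn₀⟩ := hω x
  refine Set.Finite.subset ((box (max n₀ ⌈R / c⌉₊)).finite_toSet.image (fun z => z + x)) ?_
  intro y hy
  refine ⟨y - x, ?_, by simp⟩
  refine mem_box_of_nrm_le ?_
  by_cases h1 : n₀ ≤ nrm (y - x)
  · refine le_max_of_le_right ?_
    have h2 := (hn₀ y h1).trans hy
    have h3 : (nrm (y - x) : ℝ) ≤ R / c := by
      rw [le_div_iff₀ hc]; linarith
    exact_mod_cast h3.trans (Nat.le_ceil _)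
  · exact le_max_of_le_left (by omega)

end FPP
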