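import Pool.Agent.helper96.FPP.Moment
import Pool.Agent.helper96.FPP.Peierls

/-!
# Module F (Hub): uniform versions of the convergence to the time constant
-/

open MeasureTheory Filter Topology ProbabilityTheory
open scoped NNReal ENNReal BoundedContinuousFunction

namespace FPP

/-! ### Auxiliary facts -/

theorem hub_tc_lip {tc : V → ℝ} {D : ℝ} (hadd : ∀ v w, tc (v + w) ≤ tc v + tc w)
    (hD : ∀ v, tc v ≤ D * nrm v) (v w : V) : tc v ≤ tc w + D * nrm (v - w) := by
  have h1 := hadd (v - w) w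
  rw [sub_add_cancel] at h1
  linarith [hD (v - w)]

/-- Index of the hub of a vertex. -/
def hubk (m : ℕ) (x : V) : V := (x.1 / (m : ℤ), x.2 / (m : ℤ))

theorem hub_zero (m : ℕ) : hubk m 0 = 0 := by
  simp [hubk]

theorem hub_nrm_le {m : ℕ} (hm : 0 < m) (x : V) : nrm (m • hubk m x - x) ≤ 2 * m := by
  have hm' : (0 : ℤ) < m := by exact_mod_cast hm
  have h1 := Int.emod_add_mul_ediv x.1 m
  have h2 := Int.emod_add_mul_ediv x.2 m
  have h3 := Int.emod_nonneg x.1 hm'.ne'
  have h4 := Int.emod_nonneg x.2 hm'.ne'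
  have h5 := Int.emod_lt_of_pos x.1 hm'
  have h6 := Int.emod_lt_of_pos x.2 hm'
  have e1 : (m • hubk m x - x).1 = -(x.1 % m) := by
    have : (m • hubk m x - x).1 = (m : ℤ) * (x.1 / m) - x.1 := by
      simp [hubk, Prod.smul_mk]
    linarith
  have e2 : (m • hubk m x - x).2 = -(x.2 % m) := by
    have : (m • hubk m x - x).2 = (m : ℤ) * (x.2 / m) - x.2 := by
      simp [hubk, Prod.smul_mk]
    linarith
  simp only [nrm, e1, e2]
  omega

theorem hub_mem_box {m N K : ℕ} (hm : 0 < m) (hK : N ≤ K * m) {x : V} (hx : x ∈ box N) :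
    hubk m x ∈ box K := by
  have hm' : (0 : ℤ) < m := by exact_mod_cast hm
  have hK' : (N : ℤ) ≤ K * m := by exact_mod_cast hK
  rw [mem_box] at hx ⊢
  obtain ⟨hx1, hx2⟩ := hx
  rw [abs_le] at hx1 hx2
  simp only [hubk]
  rw [abs_le, abs_le]
  refine ⟨⟨?_, ?_⟩, ⟨?_, ?_⟩⟩
  · rw [Int.le_ediv_iff_mul_le hm']; nlinarith [hx1.1]
  · exact Int.ediv_le_of_le_mul hm' (by nlinarith [hx1.2])
  · rw [Int.le_ediv_iff_mul_le hm']; nlinarith [hx2.1]
  · exact Int.ediv_le_of_le_mul hm' (by nlinarith [hx2.2])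

theorem hub_T_abs (ω : Om) (x y x' y' : V) :
    |T ω x y - T ω x' y'| ≤ T ω x x' + T ω y y' := by
  rw [abs_le]
  have h1 := T_triangle ω x x' y
  have h2 := T_triangle ω x' y' y
  have h3 := T_triangle ω x' x y'
  have h4 := T_triangle ω x y y'
  rw [T_comm ω y' y] at h2
  rw [T_comm ω x' x] at h3
  constructor <;> linarith

theorem hub_markov {Ω ι : Type*} [MeasurableSpace Ω] (Q : Measure Ω) (s : Finset ι)
    (A : ι → Set Ω) (hA : ∀ i ∈ s, MeasurableSet (A i)) (a : ℝ≥0∞) (ha : ∀ i ∈ s, Q (A i) ≤ a)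
    {t : ℝ} (ht : 0 < t) [∀ ω, DecidablePred fun i => ω ∈ A i] :
    Q {ω | t < ((s.filter fun i => ω ∈ A i).card : ℝ)} ≤ s.card * a / ENNReal.ofReal t := by
  have hmeas : Measurable fun ω => ∑ i ∈ s, (A i).indicator (fun _ => (1 : ℝ≥0∞)) ω :=
    Finset.measurable_sum _ fun i hi => measurable_const.indicator (hA i hi)
  have h1 := mul_meas_ge_le_lintegral (μ := Q) hmeas (ENNReal.ofReal t)
  have h2 : ∫⁻ ω, ∑ i ∈ s, (A i).indicator (fun _ => (1 : ℝ≥0∞)) ω ∂Q ≤ s.card * a := by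
    rw [lintegral_finsetSum _ fun i hi => measurable_const.indicator (hA i hi)]
    calc ∑ i ∈ s, ∫⁻ ω, (A i).indicator (fun _ => (1 : ℝ≥0∞)) ω ∂Q
        ≤ ∑ i ∈ s, a := Finset.sum_le_sum fun i hi => by
          rw [lintegral_indicator_const (hA i hi), one_mul]; exact ha i hi
      _ = s.card * a := by rw [Finset.sum_const, nsmul_eq_mul]
  have h3 : {ω | t < ((s.filter fun i => ω ∈ A i).card : ℝ)} ⊆
      {ω | ENNReal.ofReal t ≤ ∑ i ∈ s, (A i).indicator (fun _ => (1 : ℝ≥0∞)) ω} := by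
    intro ω hω
    simp only [Set.mem_ofPred_eq] at hω ⊢
    have h4 : ∑ i ∈ s, (A i).indicator (fun _ => (1 : ℝ≥0∞)) ω
        = ((s.filter fun i => ω ∈ A i).card : ℝ≥0∞) := by
      rw [Finset.card_filter, Nat.cast_sum]
      refine Finset.sum_congr rfl fun i _ => ?_
      by_cases hi : ω ∈ A i <;> simp [hi]
    rw [h4]
    calc ENNReal.ofReal t ≤ ENNReal.ofReal ((s.filter fun i => ω ∈ A i).card : ℝ) :=
          ENNReal.ofReal_le_ofReal hω.le
      _ = _ := by rw [ENNReal.ofReal_natCast]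
  have ht' : ENNReal.ofReal t ≠ 0 := by simpa using ht
  rw [ENNReal.le_div_iff_mul_le (Or.inl ht') (Or.inl ENNReal.ofReal_ne_top), mul_comm]
  exact (mul_le_mul_right (measure_mono h3) _).trans (h1.trans h2)

variable (μ : Measure ℝ≥0) [IsProbabilityMeasure μ] [NullSingletonClass μ] {tc : V → ℝ}

omit [NullSingletonClass μ] in
theorem hub_pair_tendsto (h : TCProps μ tc) (k k' : V) {ε : ℝ} (hε : 0 < ε) :
    Tendsto (fun m : ℕ => P μ {ω | ε * m < |T ω (m • k) (m • k') - m * tc (k' - k)|})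
      atTop (𝓝 0) := by
  have h1 := h.conv (k' - k) ε hε
  refine h1.congr fun m => ?_
  have h2 : {ω | ε * m < |T ω (m • k) (m • k') - m * tc (k' - k)|} =
      shift (m • k) ⁻¹' {ω | ε * m < |T ω 0 (m • (k' - k)) - m * tc (k' - k)|} := by
    ext ω
    have h3 := T_shift ω (m • k) 0 (m • (k' - k))
    rw [zero_add, ← smul_add, sub_add_cancel] at h3
    simp only [Set.mem_ofPred_eq, Set.mem_preimage, h3]
  rw [h2, (mp_shift μ (m • k)).measure_preimage]
  exact (measurableSet_lt measurable_const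
    (continuous_abs.measurable.comp ((measurable_T _ _).sub_const _))).nullMeasurableSet

omit [NullSingletonClass μ] in
theorem hub_hubs_tendsto (h : TCProps μ tc) (K : ℕ) {ε : ℝ} (hε : 0 < ε) :
    Tendsto (fun m : ℕ => P μ {ω | ∃ k ∈ box K, ∃ k' ∈ box K,
      ε * m < |T ω (m • k) (m • k') - m * tc (k' - k)|}) atTop (𝓝 0) := by
  have h1 : Tendsto (fun m : ℕ => ∑ k ∈ box K, ∑ k' ∈ box K,
      P μ {ω | ε * m < |T ω (m • k) (m • k') - m * tc (k' - k)|}) atTop
      (𝓝 (∑ k ∈ box K, ∑ k' ∈ box K, 0)) :=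
    tendsto_finsetSum _ fun k _ => tendsto_finsetSum _ fun k' _ => hub_pair_tendsto μ h k k' hε
  simp only [Finset.sum_const_zero] at h1
  refine tendsto_of_tendsto_of_tendsto_of_le_of_le tendsto_const_nhds h1 (fun _ => zero_le)
    fun m => ?_
  have h2 : {ω | ∃ k ∈ box K, ∃ k' ∈ box K,
      ε * m < |T ω (m • k) (m • k') - m * tc (k' - k)|} =
      ⋃ k ∈ box K, ⋃ k' ∈ box K, {ω | ε * m < |T ω (m • k) (m • k') - m * tc (k' - k)|} := by
    ext ω; simp
  show P μ _ ≤ _
  rw [h2]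
  exact (measure_biUnion_finset_le _ _).trans
    (Finset.sum_le_sum fun k _ => measure_biUnion_finset_le _ _)

/-- Hub lemma. -/
theorem tendsto_goodBox (hμ : MinSq μ) (h : TCProps μ tc) {ε η : ℝ} (hε : 0 < ε) (hη : 0 < η) :
    Tendsto (fun N : ℕ => P μ {ω | ¬ GoodBox tc ε η N ω}) atTop (𝓝 0) := by
  classical
  rw [ENNReal.tendsto_nhds_zero]
  intro δ hδ
  obtain ⟨C, hC, -, hCT⟩ := exists_CT μ hμ
  obtain ⟨D, hD, hup⟩ := h.upper
  obtain ⟨δ', hδ', hδ'δ⟩ : ∃ δ' : ℝ, 0 < δ' ∧ ENNReal.ofReal δ' ≤ δ / 2 := by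
    rcases eq_or_ne δ ∞ with rfl | hδt
    · exact ⟨1, one_pos, by simp [ENNReal.top_div_of_ne_top]⟩
    · refine ⟨(δ / 2).toReal, ENNReal.toReal_pos ?_ ?_, ?_⟩
      · exact (ENNReal.half_pos hδ.ne').ne'
      · exact (ENNReal.div_lt_top hδt (by norm_num)).ne
      · rw [ENNReal.ofReal_toReal (ENNReal.div_lt_top hδt (by norm_num)).ne]
  set ζ := min 1 (min (ε / (16 * C)) (min (ε / (32 * D)) (δ' * (ε ^ 2 * η) / (1152 * C)))) with hζd
  have hζ : 0 < ζ := by
    rw [hζd]; positivity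
  have hζ1 : ζ ≤ 1 := min_le_left _ _
  have hζ2 : ζ ≤ ε / (16 * C) := (min_le_right _ _).trans (min_le_left _ _)
  have hζ3 : ζ ≤ ε / (32 * D) := (min_le_right _ _).trans ((min_le_right _ _).trans (min_le_left _ _))
  have hζ4 : ζ ≤ δ' * (ε ^ 2 * η) / (1152 * C) :=
    (min_le_right _ _).trans ((min_le_right _ _).trans (min_le_right _ _))
  rw [le_div_iff₀ (by positivity)] at hζ2 hζ3 hζ4
  set K := ⌈2 / ζ⌉₊ with hKd
  have hH := hub_hubs_tendsto μ h K (ε := ε / 8) (by positivity)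
  have hm : Tendsto (fun N : ℕ => ⌊ζ * N⌋₊) atTop atTop :=
    tendsto_nat_floor_atTop.comp (tendsto_natCast_atTop_atTop.const_mul_atTop hζ)
  have hH' := (ENNReal.tendsto_nhds_zero.1 (hH.comp hm)) (δ / 2) (ENNReal.half_pos hδ.ne')
  filter_upwards [hH', eventually_ge_atTop 1, eventually_ge_atTop K] with N hN hN1 hNK
  set m := ⌊ζ * N⌋₊ with hmd
  have hN0 : (1 : ℝ) ≤ N := by exact_mod_cast hN1
  have hζN : 2 ≤ ζ * N := by
    have h1 : 2 / ζ ≤ N := (Nat.le_ceil _).trans (by exact_mod_cast hNK)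
    rw [div_le_iff₀ hζ] at h1
    linarith
  have hm1 : (m : ℝ) ≤ ζ * N := Nat.floor_le (by positivity)
  have hm2 : ζ * N - 1 < m := Nat.sub_one_lt_floor _
  have hmpos : 0 < m := by
    have : (0 : ℝ) < m := by linarith
    exact_mod_cast this
  have hNKm : N ≤ K * m := by
    have h1 : 2 / ζ ≤ K := Nat.le_ceil _
    have h2 : ζ * N / 2 ≤ m := by linarith
    have h3 : (N : ℝ) ≤ K * m := by
      calc (N : ℝ) = (2 / ζ) * (ζ * N / 2) := by field_simp
        _ ≤ K * m := mul_le_mul h1 h2 (by positivity) (by positivity)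
    exact_mod_cast h3
  set A : V → Set Om := fun x => {ω | ε * N / 8 < T ω x (m • hubk m x)} with hA
  set E1 : Set Om := {ω | η * N < (((box N).filter fun x => ω ∈ A x).card : ℝ)} with hE1
  set E2 : Set Om := {ω | ∃ k ∈ box K, ∃ k' ∈ box K,
      ε / 8 * m < |T ω (m • k) (m • k') - m * tc (k' - k)|} with hE2
  have hsub : {ω | ¬ GoodBox tc ε η N ω} ⊆ E1 ∪ E2 := by
    intro ω hω
    by_contra hcon
    rw [Set.mem_union, not_or] at hcon
    obtain ⟨hc1, hc2⟩ := hcon
    apply hω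
    refine ⟨(box N).filter fun x => ω ∈ A x, ?_, ?_, ?_⟩
    · by_contra hlt
      exact hc1 (not_le.1 hlt)
    · rw [Finset.mem_filter, not_and]
      intro _ h0
      simp only [hA, Set.mem_ofPred_eq, hub_zero, smul_zero, T_self] at h0
      have : 0 < ε * N / 8 := by positivity
      linarith
    · intro x hx y hy hxB hyB
      have hx' : T ω x (m • hubk m x) ≤ ε * N / 8 := by
        by_contra hlt
        exact hxB (Finset.mem_filter.2 ⟨hx, not_le.1 hlt⟩)
      have hy' : T ω y (m • hubk m y) ≤ ε * N / 8 := by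
        by_contra hlt
        exact hyB (Finset.mem_filter.2 ⟨hy, not_le.1 hlt⟩)
      have hk := hub_mem_box hmpos hNKm hx
      have hk' := hub_mem_box hmpos hNKm hy
      have h3 : |T ω (m • hubk m x) (m • hubk m y) - m * tc (hubk m y - hubk m x)|
          ≤ ε / 8 * m := by
        by_contra hlt
        exact hc2 ⟨_, hk, _, hk', not_le.1 hlt⟩
      have h4 := hub_T_abs ω x y (m • hubk m x) (m • hubk m y)
      have h5 : (m : ℝ) * tc (hubk m y - hubk m x) = tc (m • hubk m y - m • hubk m x) := by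
        have := h.smul m (hubk m y - hubk m x)
        rw [← smul_sub, ← natCast_zsmul, this]
        simp
      rw [h5] at h3
      have h6 : (nrm (m • hubk m x - x) : ℝ) ≤ 2 * m := by exact_mod_cast hub_nrm_le hmpos x
      have h7 : (nrm (m • hubk m y - y) : ℝ) ≤ 2 * m := by exact_mod_cast hub_nrm_le hmpos y
      have h8 : (nrm ((m • hubk m y - m • hubk m x) - (y - x)) : ℝ) ≤ 4 * m := by
        have e1 : (m • hubk m y - m • hubk m x) - (y - x)
            = (m • hubk m y - y) + -(m • hubk m x - x) := by abel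
        have e2 := nrm_add_le (m • hubk m y - y) (-(m • hubk m x - x))
        rw [nrm_neg] at e2
        rw [e1]
        have e3 : (nrm ((m • hubk m y - y) + -(m • hubk m x - x)) : ℝ)
            ≤ nrm (m • hubk m y - y) + nrm (m • hubk m x - x) := by exact_mod_cast e2
        linarith
      have h9 := hub_tc_lip h.add_le hup (m • hubk m y - m • hubk m x) (y - x)
      have h10 := hub_tc_lip h.add_le hup (y - x) (m • hubk m y - m • hubk m x)
      rw [← nrm_neg, neg_sub] at h10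
      have h11 : D * nrm ((m • hubk m y - m • hubk m x) - (y - x)) ≤ ε * N / 8 := by
        calc D * nrm ((m • hubk m y - m • hubk m x) - (y - x)) ≤ D * (4 * m) :=
              mul_le_mul_of_nonneg_left h8 hD.le
          _ ≤ D * (4 * (ζ * N)) := by gcongr
          _ = ζ * (32 * D) * N / 8 := by ring
          _ ≤ ε * N / 8 := by gcongr
      have h12 : ε / 8 * m ≤ ε * N / 8 := by
        have : (m : ℝ) ≤ N := hm1.trans (by nlinarith)
        calc ε / 8 * m ≤ ε / 8 * N := by gcongr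
          _ = ε * N / 8 := by ring
      rw [abs_le] at h3 h4 ⊢
      have h13 : 0 < ε * N := by positivity
      constructor <;> linarith [h3.1, h3.2, h4.1, h4.2]
  have hP1 : P μ E1 ≤ δ / 2 := by
    have hAm : ∀ x ∈ box N, MeasurableSet (A x) := fun x _ =>
      measurableSet_lt measurable_const (measurable_T _ _)
    have hs : 0 < ε * N / 8 := by positivity
    have hAP : ∀ x ∈ box N, P μ (A x) ≤ ENNReal.ofReal (128 * C * ζ / (ε ^ 2 * N)) := by
      intro x _
      have h6 : (nrm (m • hubk m x - x) : ℝ) ≤ 2 * m := by exact_mod_cast hub_nrm_le hmpos x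
      have h7 : C * nrm (m • hubk m x - x) ≤ C * (2 * (ζ * N)) := by
        gcongr
        linarith
      refine (hCT x (m • hubk m x) (ε * N / 8) hs ?_).trans (ENNReal.ofReal_le_ofReal ?_)
      · calc C * nrm (m • hubk m x - x) ≤ C * (2 * (ζ * N)) := h7
          _ = ζ * (16 * C) * N / 8 := by ring
          _ ≤ ε * N / 8 := by gcongr
      · calc C * nrm (m • hubk m x - x) / (ε * N / 8) ^ 2
            ≤ C * (2 * (ζ * N)) / (ε * N / 8) ^ 2 := by gcongr
          _ = 128 * C * ζ / (ε ^ 2 * N) := by field_simp; ring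
    refine (hub_markov (P μ) (box N) A hAm _ hAP (t := η * N) (by positivity)).trans
      (le_trans ?_ hδ'δ)
    rw [← ENNReal.ofReal_natCast, ← ENNReal.ofReal_mul (by positivity),
      ← ENNReal.ofReal_div_of_pos (by positivity)]
    refine ENNReal.ofReal_le_ofReal ?_
    rw [card_box]
    push_cast
    have hN2 : (2 * (N : ℝ) + 1) ^ 2 ≤ 9 * N ^ 2 := by nlinarith
    calc (2 * (N : ℝ) + 1) ^ 2 * (128 * C * ζ / (ε ^ 2 * N)) / (η * N)
        ≤ (9 * N ^ 2) * (128 * C * ζ / (ε ^ 2 * N)) / (η * N) := by gcongr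
      _ = ζ * (1152 * C) / (ε ^ 2 * η) := by field_simp; ring
      _ ≤ δ' * (ε ^ 2 * η) / (ε ^ 2 * η) := by gcongr
      _ = δ' := by field_simp
  calc P μ {ω | ¬ GoodBox tc ε η N ω} ≤ P μ (E1 ∪ E2) := measure_mono hsub
    _ ≤ P μ E1 + P μ E2 := measure_union_le _ _
    _ ≤ δ / 2 + δ / 2 := add_le_add hP1 hN
    _ = δ := ENNReal.add_halves δ

theorem hub_box_add {N M : ℕ} {x y : V} (hx : x ∈ box N) (h : nrm (y - x) ≤ M) :
    y ∈ box (N + M) := by
  rw [mem_box] at hx ⊢
  simp only [nrm, Prod.fst_sub, Prod.snd_sub] at h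
  rw [abs_le, abs_le] at hx ⊢
  push_cast
  omega

/-- Deterministic part of the uniform lower bound. -/
theorem hub_LB {tc : V → ℝ} {D : ℝ} (hadd : ∀ v w, tc (v + w) ≤ tc v + tc w)
    (hup : ∀ v, tc v ≤ D * nrm v) (hD : 0 < D) {ε : ℝ} (hε : 0 < ε) {N : ℕ} (hN2 : 2 ≤ N)
    (hND : 8 * D ≤ ε * N) {ω : Om}
    (hω : GoodBox tc (ε / 16) (min (ε / (32 * D)) (1 / 8)) (2 * N) ω) {x y : V} (hx : x ∈ box N)
    (hy : y ∈ box N) : tc (y - x) - ε * N ≤ T ω x y := by
  classical
  by_contra hlt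
  rw [not_le] at hlt
  obtain ⟨B, hB, -, hBT⟩ := hω
  obtain ⟨n, p, hp0, hpn, hp, hpw⟩ := exists_path_lt hlt
  have hN0 : (2 : ℝ) ≤ N := by exact_mod_cast hN2
  set n0 := B.card + 1 with hn0
  set η' := min (ε / (32 * D)) (1 / 8) with hη'
  have hη1 : η' ≤ ε / (32 * D) := min_le_left _ _
  have hη2 : η' ≤ 1 / 8 := min_le_right _ _
  rw [le_div_iff₀ (by positivity)] at hη1
  push_cast at hB hBT
  have hn0r : (n0 : ℝ) ≤ 2 * η' * N + 1 := by
    rw [hn0]; push_cast; linarith
  have hDn0 : D * (2 * n0) ≤ ε * N / 8 + ε * N / 4 := by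
    calc D * (2 * n0) ≤ D * (2 * (2 * η' * N + 1)) := by gcongr
      _ = η' * (32 * D) * N / 8 + 2 * D := by ring
      _ ≤ ε * N / 8 + ε * N / 4 := by
        have : η' * (32 * D) * N ≤ ε * N := by gcongr
        linarith
  have hεN : 0 < ε * N := by positivity
  have hadj : ∀ k < n, Adj (p k) (p (k + 1)) := hp.1
  rcases lt_or_ge n (2 * n0) with hcase | hcase
  · have h1 : nrm (y - x) ≤ n := by
      have := nrm_path_le hadj (Nat.zero_le n) le_rfl
      rwa [hp0, hpn, Nat.sub_zero] at this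
    have h2 : (nrm (y - x) : ℝ) ≤ 2 * n0 := by
      have : nrm (y - x) ≤ 2 * n0 := by omega
      exact_mod_cast this
    have h3 := hup (y - x)
    have h4 : D * nrm (y - x) ≤ D * (2 * n0) := by gcongr
    have h5 := pw_nonneg ω p n
    linarith
  · have hinj : Set.InjOn p (Set.Iic n) := hp.2
    obtain ⟨i, hi, hiB⟩ : ∃ i < n0, p i ∉ B := by
      have hcard : ((Finset.range n0).image p).card = n0 := by
        rw [Finset.card_image_of_injOn, Finset.card_range]
        intro a ha b hb hab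
        have ha' := Finset.mem_coe.1 ha
        have hb' := Finset.mem_coe.1 hb
        rw [Finset.mem_range] at ha' hb'
        exact hinj (Set.mem_Iic.2 (by omega)) (Set.mem_Iic.2 (by omega)) hab
      obtain ⟨z, hz, hzB⟩ := Finset.exists_mem_notMem_of_card_lt_card
        (s := B) (t := (Finset.range n0).image p) (by omega)
      obtain ⟨i, hi, rfl⟩ := Finset.mem_image.1 hz
      exact ⟨i, Finset.mem_range.1 hi, hzB⟩
    obtain ⟨j, hj, hjB⟩ : ∃ j < n0, p (n - j) ∉ B := by
      have hcard : ((Finset.range n0).image fun j => p (n - j)).card = n0 := by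
        rw [Finset.card_image_of_injOn, Finset.card_range]
        intro a ha b hb hab
        have ha' := Finset.mem_coe.1 ha
        have hb' := Finset.mem_coe.1 hb
        rw [Finset.mem_range] at ha' hb'
        have := hinj (Set.mem_Iic.2 (Nat.sub_le n a)) (Set.mem_Iic.2 (Nat.sub_le n b)) hab
        omega
      obtain ⟨z, hz, hzB⟩ := Finset.exists_mem_notMem_of_card_lt_card
        (s := B) (t := (Finset.range n0).image fun j => p (n - j)) (by omega)
      obtain ⟨i, hi, rfl⟩ := Finset.mem_image.1 hz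
      exact ⟨i, Finset.mem_range.1 hi, hzB⟩
    have hn0N : n0 ≤ N := by
      have : (n0 : ℝ) ≤ N := by
        have : 2 * η' * N ≤ 2 * (1 / 8) * N := by gcongr
        linarith
      exact_mod_cast this
    have hi2 : nrm (p i - x) ≤ i := by
      have := nrm_path_le hadj (Nat.zero_le i) (by omega : i ≤ n)
      rwa [hp0, Nat.sub_zero] at this
    have hj2 : nrm (y - p (n - j)) ≤ j := by
      have := nrm_path_le hadj (Nat.sub_le n j) le_rfl
      rw [hpn] at this
      omega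
    have hbi : p i ∈ box (2 * N) := by
      have := hub_box_add hx (hi2.trans (by omega : i ≤ N))
      rwa [← two_mul] at this
    have hbj : p (n - j) ∈ box (2 * N) := by
      have h1 : nrm (p (n - j) - y) ≤ N := by
        rw [← nrm_neg, neg_sub]; omega
      have := hub_box_add hy h1
      rwa [← two_mul] at this
    have hG := hBT _ hbi _ hbj hiB hjB
    have hTw : T ω (p i) (p (n - j)) ≤ pw ω p n := by
      have e1 : n = i + ((n - j - i) + j) := by omega
      have e2 : pw ω p n = pw ω p i + (pw ω (fun l => p (i + l)) (n - j - i)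
          + pw ω (fun l => p (i + (n - j - i + l))) j) := by
        conv_lhs => rw [e1]
        rw [pw_add, pw_add]
      have h1 := T_le_pw ω (p := fun l => p (i + l)) (n := n - j - i)
        (fun k hk => hadj (i + k) (by omega))
      have e3 : i + (n - j - i) = n - j := by omega
      simp only [add_zero, e3] at h1
      have h2 := pw_nonneg ω p i
      have h3 := pw_nonneg ω (fun l => p (i + (n - j - i + l))) j
      linarith
    have hlip := hub_tc_lip hadd hup (y - x) (p (n - j) - p i)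
    have hnr : (nrm ((y - x) - (p (n - j) - p i)) : ℝ) ≤ 2 * n0 := by
      have e1 : (y - x) - (p (n - j) - p i) = (y - p (n - j)) + (p i - x) := by abel
      have e2 := nrm_add_le (y - p (n - j)) (p i - x)
      have : nrm ((y - x) - (p (n - j) - p i)) ≤ 2 * n0 := by
        rw [e1]; omega
      exact_mod_cast this
    have h5 : D * nrm ((y - x) - (p (n - j) - p i)) ≤ D * (2 * n0) := by gcongr
    rw [abs_le] at hG
    have := hG.1
    linarith

/-- Uniform lower bound in boxes. -/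
theorem tendsto_LB (hμ : MinSq μ) (h : TCProps μ tc) {ε : ℝ} (hε : 0 < ε) :
    Tendsto (fun N : ℕ => P μ {ω | ∃ x ∈ box N, ∃ y ∈ box N, T ω x y < tc (y - x) - ε * N})
      atTop (𝓝 0) := by
  obtain ⟨D, hD, hup⟩ := h.upper
  have h1 := tendsto_goodBox μ hμ h (ε := ε / 16) (η := min (ε / (32 * D)) (1 / 8))
    (by positivity) (by positivity)
  have h2 : Tendsto (fun N : ℕ => 2 * N) atTop atTop :=
    tendsto_id.const_mul_atTop' (by norm_num)
  have h3 := h1.comp h2
  have h4 : ∀ᶠ N : ℕ in atTop, 8 * D ≤ ε * N :=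
    (tendsto_natCast_atTop_atTop.const_mul_atTop hε).eventually_ge_atTop (8 * D)
  refine tendsto_of_tendsto_of_tendsto_of_le_of_le' tendsto_const_nhds h3
    (Eventually.of_forall fun _ => zero_le) ?_
  filter_upwards [h4, eventually_ge_atTop 2] with N hN hN2
  refine measure_mono ?_
  rintro ω ⟨x, hx, y, hy, hlt⟩ hG
  exact absurd (hub_LB h.add_le hup hD hε hN2 hN hG hx hy) (not_le.2 hlt)

theorem hub_frequently {Ω : Type*} [MeasurableSpace Ω] {Q : Measure Ω} {A : ℕ → Set Ω}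
    (hA : Tendsto (fun n => Q (A n)) atTop (𝓝 0)) : ∀ᵐ ω ∂Q, ∃ᶠ n in atTop, ω ∉ A n := by
  have h1 : ∀ n0 : ℕ, ∀ᵐ ω ∂Q, ∃ n ≥ n0, ω ∉ A n := by
    intro n0
    rw [ae_iff]
    refine le_antisymm (ge_of_tendsto hA ?_) zero_le
    filter_upwards [eventually_ge_atTop n0] with n hn
    refine measure_mono fun ω hω => ?_
    by_contra hcon
    exact hω ⟨n, hn, hcon⟩
  rw [← ae_all_iff] at h1
  filter_upwards [h1] with ω hω
  rw [frequently_atTop]
  exact hω

theorem hub_geodesic {ω : Om} {g : ℕ → V} (hg : IsGeodesicRay ω g) {R : ℕ}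
    (hR : nrm (g 0) ≤ R) (B : Finset V) (hB : B.card < R) :
    ∃ k, g k ∈ box (2 * R) ∧ g k ∉ B ∧ R ≤ k + nrm (g 0) := by
  classical
  have hex : ∃ n, g n ∉ box (2 * R) := by
    by_contra hcon
    push Not at hcon
    exact Set.infinite_of_injective_forall_mem hg.inj (s := (box (2 * R) : Set V)) hcon
      (Finset.finite_toSet _)
  have hn2 : g (Nat.find hex) ∉ box (2 * R) := Nat.find_spec hex
  have hlt : ∀ n < Nat.find hex, g n ∈ box (2 * R) := fun n hn => not_not.1 (Nat.find_min hex hn)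
  set n2 := Nat.find hex
  have hpath : ∀ i j, i ≤ j → nrm (g j - g i) ≤ j - i := fun i j hij =>
    nrm_path_le (p := g) (n := j) (fun k _ => hg.adj k) hij le_rfl
  have hbig : 2 * R < nrm (g n2) := by
    by_contra hcon
    exact hn2 (mem_box_of_nrm_le (not_lt.1 hcon))
  have h1 : nrm (g n2) ≤ n2 + nrm (g 0) := by
    have e1 := nrm_add_le (g n2 - g 0) (g 0)
    rw [sub_add_cancel] at e1
    have e2 := hpath 0 n2 (Nat.zero_le _)
    omega
  have hcard : ((Finset.range R).image fun i => g (n2 - 1 - i)).card = R := by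
    rw [Finset.card_image_of_injOn, Finset.card_range]
    intro a ha b hb hab
    have ha' := Finset.mem_coe.1 ha
    have hb' := Finset.mem_coe.1 hb
    rw [Finset.mem_range] at ha' hb'
    have := hg.inj hab
    omega
  obtain ⟨z, hz, hzB⟩ := Finset.exists_mem_notMem_of_card_lt_card
    (s := B) (t := (Finset.range R).image fun i => g (n2 - 1 - i)) (by omega)
  obtain ⟨i, hi, rfl⟩ := Finset.mem_image.1 hz
  rw [Finset.mem_range] at hi
  refine ⟨n2 - 1 - i, hlt _ (by omega), hzB, ?_⟩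
  have e1 := hpath (n2 - 1 - i) n2 (by omega)
  have e2 := nrm_add_le (g n2 - g (n2 - 1 - i)) (g (n2 - 1 - i))
  rw [sub_add_cancel] at e2
  have e3 := hpath 0 (n2 - 1 - i) (Nat.zero_le _)
  have e4 := nrm_add_le (g (n2 - 1 - i) - g 0) (g 0)
  rw [sub_add_cancel] at e4
  omega

/-- Along every infinite geodesic, the passage time is infinitely often close to the time
constant. -/
theorem ae_geodesic_UB (hμ : MinSq μ) (h : TCProps μ tc) :
    ∀ᵐ ω ∂(P μ), ∀ g, IsGeodesicRay ω g → ∀ ε : ℝ, 0 < ε →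
      ∃ᶠ n : ℕ in atTop, T ω (g 0) (g n) ≤ tc (g n - g 0) + ε * n := by
  obtain ⟨D, hD, hup⟩ := h.upper
  have h2 : Tendsto (fun N : ℕ => 2 * N) atTop atTop :=
    tendsto_id.const_mul_atTop' (by norm_num)
  have h3 : ∀ j : ℕ, ∀ᵐ ω ∂(P μ), ∃ᶠ R : ℕ in atTop,
      ω ∉ {ω | ¬ GoodBox tc (1 / ((j : ℝ) + 1)) (1 / 8) (2 * R) ω} := fun j =>
    hub_frequently ((tendsto_goodBox μ hμ h (ε := 1 / ((j : ℝ) + 1)) (η := 1 / 8)
      (by positivity) (by norm_num)).comp h2)
  rw [← ae_all_iff] at h3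
  filter_upwards [h3] with ω hω g hg ε hε
  obtain ⟨j, hj⟩ := exists_nat_one_div_lt (by positivity : 0 < ε / 4)
  set ε' : ℝ := 1 / ((j : ℝ) + 1) with hε'
  have hε'0 : 0 < ε' := by positivity
  rw [frequently_atTop]
  intro a
  -- the constant
  set c0 : ℝ := T ω (g 0) 0 + D * nrm (g 0) + 2 * ε' * nrm (g 0) with hc0
  have hc0n : 0 ≤ c0 := by
    have := T_nonneg ω (g 0) 0
    positivity
  obtain ⟨R0, hR0⟩ := exists_nat_ge (c0 * 2 / ε)
  obtain ⟨R, hR, hRG⟩ := (frequently_atTop.1 (hω j)) (a + nrm (g 0) + R0 + 1 + nrm (g 0))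
  have hRG' : GoodBox tc ε' (1 / 8) (2 * R) ω := not_not.1 hRG
  obtain ⟨B, hB, hB0, hBT⟩ := hRG'
  push_cast at hB hBT
  have hR1 : (1 : ℝ) ≤ R := by
    have : 1 ≤ R := by omega
    exact_mod_cast this
  have hBR : B.card < R := by
    have : (B.card : ℝ) < R := by linarith
    exact_mod_cast this
  obtain ⟨k, hk, hkB, hRk⟩ := hub_geodesic hg (by omega) B hBR
  refine ⟨k, by omega, ?_⟩
  have h0 : (0 : V) ∈ box (2 * R) := mem_box_of_nrm_le (by rw [nrm_zero]; omega)
  have h4 := hBT 0 h0 (g k) hk hB0 hkB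
  rw [sub_zero, abs_le] at h4
  have h5 := T_triangle ω (g 0) 0 (g k)
  have h6 := hub_tc_lip h.add_le hup (g k) (g k - g 0)
  rw [sub_sub_cancel] at h6
  have h7 : (R : ℝ) ≤ k + nrm (g 0) := by exact_mod_cast hRk
  have h8 : c0 * 2 / ε ≤ k := by
    have : (R0 : ℝ) ≤ k := by
      have : R0 ≤ k := by omega
      exact_mod_cast this
    linarith
  rw [div_le_iff₀ hε] at h8
  have h9 : ε' * (2 * R) ≤ ε' * (2 * (k + nrm (g 0))) := by gcongr
  have h10 : ε' * (2 * k) ≤ ε / 4 * (2 * k) := by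
    have : ε' ≤ ε / 4 := hj.le
    gcongr
  have h11 := h4.2
  nlinarith

theorem hub_growth : ∃ c : ℝ, 0 < c ∧
    Tendsto (fun M : ℕ => P μ {ω | ∃ y, M ≤ nrm y ∧ T ω 0 y < c * nrm y}) atTop (𝓝 0) := by
  obtain ⟨c, hc, hgr⟩ := growth μ
  refine ⟨c, hc, ?_⟩
  set G : ℕ → Set Om := fun M => {ω | ∃ y, M ≤ nrm y ∧ T ω 0 y < c * nrm y} with hG
  have hmeas : ∀ M, MeasurableSet (G M) := by
    intro M
    have h1 : G M = ⋃ y : V, ⋃ (_ : M ≤ nrm y), {ω | T ω 0 y < c * nrm y} := by
      ext ω; simp [hG]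
    rw [h1]
    exact MeasurableSet.iUnion fun y => MeasurableSet.iUnion fun _ =>
      measurableSet_lt (measurable_T _ _) measurable_const
  have hanti : Antitone G := by
    intro M M' hMM' ω hω
    obtain ⟨y, hy, hlt⟩ := hω
    exact ⟨y, hMM'.trans hy, hlt⟩
  have hlim := tendsto_measure_iInter_atTop (μ := P μ) (fun M => (hmeas M).nullMeasurableSet)
    hanti ⟨0, measure_ne_top _ _⟩
  have hzero : P μ (⋂ M, G M) = 0 := by
    have : ∀ᵐ ω ∂(P μ), ω ∉ ⋂ M, G M := by
      filter_upwards [hgr] with ω hω hmem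
      obtain ⟨n0, hn0⟩ := hω 0
      obtain ⟨y, hy, hlt⟩ := Set.mem_iInter.1 hmem n0
      have := hn0 y (by rwa [sub_zero])
      rw [sub_zero] at this
      linarith
    rw [ae_iff] at this
    refine measure_mono_null ?_ this
    intro ω hω
    simpa using hω
  rw [hzero] at hlim
  exact hlim

/-- Passage times to half planes. -/
theorem tendsto_halfplane (hμ : MinSq μ) (h : TCProps μ tc) {ρ : ℝ × ℝ} (hρ : Supp tc ρ) {ε : ℝ}
    (hε : 0 < ε) :
    Tendsto (fun W : ℝ => P μ {ω | ε < |u ρ ω W 0 / W - 1|}) atTop (𝓝 0) := by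
  obtain ⟨hρ1, hρ2⟩ := hρ
  obtain ⟨v, hv0, hv⟩ := hρ2 (ε / 3) (by positivity)
  obtain ⟨c, hc, hlow⟩ := h.lower
  have hnv : (1 : ℝ) ≤ nrm v := by exact_mod_cast nrm_pos hv0
  set b := dot ρ v with hb
  have hbpos : 0 < b := by
    have h1 := hlow v
    have h2 : 0 < (1 + ε / 3) * b := by
      calc 0 < c * nrm v := by positivity
        _ ≤ tc v := h1
        _ ≤ _ := hv
    exact (pos_iff_pos_of_mul_pos h2).1 (by positivity)
  have hρ0 : ρ ≠ 0 := by
    rintro rfl
    simp [hb, dot] at hbpos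
  -- upper part
  have hm : Tendsto (fun W : ℝ => ⌈W / b⌉₊) atTop atTop :=
    tendsto_nat_ceil_atTop.comp (tendsto_id.atTop_div_const hbpos)
  have hA := (h.conv v (ε / 3 * b) (by positivity)).comp hm
  -- lower part
  obtain ⟨c0, hc0, hG⟩ := hub_growth μ
  have hM : Tendsto (fun W : ℝ => ⌈W / c0⌉₊) atTop atTop :=
    tendsto_nat_ceil_atTop.comp (tendsto_id.atTop_div_const hc0)
  have hG' := hG.comp hM
  have hL := (tendsto_LB μ hμ h (ε := ε * c0 / 2) (by positivity)).comp hM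
  have hsum := (hA.add hG').add hL
  simp only [add_zero] at hsum
  refine tendsto_of_tendsto_of_tendsto_of_le_of_le' tendsto_const_nhds hsum
    (Eventually.of_forall fun _ => zero_le) ?_
  filter_upwards [eventually_gt_atTop 0, eventually_ge_atTop c0,
    eventually_ge_atTop (3 * (b * (1 + 2 * (ε / 3))) / ε)] with W hW0 hWc hWb
  rw [div_le_iff₀ hε] at hWb
  refine le_trans (measure_mono ?_) ((measure_union_le _ _).trans
    (add_le_add_left (measure_union_le _ _) _))
  intro ω hω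
  by_contra hcon
  rw [Set.mem_union, Set.mem_union, not_or, not_or] at hcon
  obtain ⟨⟨hc1, hc2⟩, hc3⟩ := hcon
  simp only [Set.mem_ofPred_eq, not_lt] at hc1
  have hup : u ρ ω W 0 ≤ (1 + ε) * W := by
    set m := ⌈W / b⌉₊ with hmd
    have hm1 : W / b ≤ m := Nat.le_ceil _
    have hm2 : (m : ℝ) < W / b + 1 := Nat.ceil_lt_add_one (by positivity)
    rw [div_le_iff₀ hbpos] at hm1
    have hm3 : (m : ℝ) * b < W + b := by
      calc (m : ℝ) * b < (W / b + 1) * b := by gcongr
        _ = W + b := by field_simp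
    have hz : W ≤ dot ρ (m • v) := by
      rw [← natCast_zsmul, dot_smul]
      simpa using hm1
    have h1 := u_le ω 0 hz
    have h2 := (abs_le.1 hc1).2
    have h3 : (m : ℝ) * tc v ≤ m * ((1 + ε / 3) * b) := by gcongr
    have h4 : T ω 0 (m • v) ≤ (m * b) * (1 + 2 * (ε / 3)) := by
      have : (ε / 3 * b) * m + m * ((1 + ε / 3) * b) = (m * b) * (1 + 2 * (ε / 3)) := by ring
      linarith
    have h5 : (m * b) * (1 + 2 * (ε / 3)) ≤ (W + b) * (1 + 2 * (ε / 3)) := by gcongr
    nlinarith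
  have hlo : (1 - ε) * W ≤ u ρ ω W 0 := by
    set M := ⌈W / c0⌉₊ with hMd
    have hM1 : W / c0 ≤ M := Nat.le_ceil _
    have hM2 : (M : ℝ) < W / c0 + 1 := Nat.ceil_lt_add_one (by positivity)
    rw [div_le_iff₀ hc0] at hM1
    refine le_u hρ0 fun z hz => ?_
    rcases le_or_gt M (nrm z) with hcase | hcase
    · have h1 : c0 * nrm z ≤ T ω 0 z := by
        by_contra hlt
        exact hc2 ⟨z, hcase, not_le.1 hlt⟩
      have h2 : (M : ℝ) ≤ nrm z := by exact_mod_cast hcase
      have h3 : c0 * M ≤ c0 * nrm z := by gcongr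
      nlinarith
    · have h1 : tc (z - 0) - ε * c0 / 2 * M ≤ T ω 0 z := by
        by_contra hlt
        exact hc3 ⟨0, mem_box_of_nrm_le (by rw [nrm_zero]; omega), z,
          mem_box_of_nrm_le hcase.le, not_le.1 hlt⟩
      rw [sub_zero] at h1
      have h2 := hρ1 z
      have h3 : ε * c0 / 2 * M ≤ ε * W := by
        calc ε * c0 / 2 * M ≤ ε * c0 / 2 * (W / c0 + 1) := by gcongr
          _ = ε * (W + c0) / 2 := by field_simp
          _ ≤ ε * (W + W) / 2 := by gcongr
          _ = ε * W := by ring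
      linarith
  have h5 : |u ρ ω W 0 / W - 1| ≤ ε := by
    rw [abs_le]
    constructor
    · rw [neg_le_sub_iff_le_add, ← sub_le_iff_le_add, le_div_iff₀ hW0]
      exact hlo
    · rw [sub_le_iff_le_add, div_le_iff₀ hW0, add_comm ε 1]
      exact hup
  exact absurd hω (not_lt.2 h5)

end FPP
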