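import Pool.Agent.helper96.FPP.BK
import Pool.Agent.helper96.FPP.Hub

/-!
# Module G2 (Fast): self-avoiding paths have few fast blocks
-/

open MeasureTheory Filter Topology
open scoped NNReal ENNReal BoundedContinuousFunction

namespace FPP

/-- The cell of side `N` containing a vertex. -/
def fastCell (N : ℕ) (z : V) : V := (z.1 / N, z.2 / N)

/-- The lower left corner of a cell. -/
def fastCorner (N : ℕ) (c : V) : V := (N * c.1, N * c.2)

theorem fast_cell_mem {N : ℕ} (hN : 0 < N) (z : V) :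
    0 ≤ (z - fastCorner N (fastCell N z)).1 ∧ (z - fastCorner N (fastCell N z)).1 < N ∧
      0 ≤ (z - fastCorner N (fastCell N z)).2 ∧ (z - fastCorner N (fastCell N z)).2 < N := by
  have hN' : (0 : ℤ) < N := by exact_mod_cast hN
  have h1 := Int.emod_nonneg z.1 hN'.ne'
  have h2 := Int.emod_lt_of_pos z.1 hN'
  have h3 := Int.emod_nonneg z.2 hN'.ne'
  have h4 := Int.emod_lt_of_pos z.2 hN'
  have e1 := Int.emod_def z.1 N
  have e2 := Int.emod_def z.2 N
  simp only [fastCorner, fastCell, Prod.fst_sub, Prod.snd_sub]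
  refine ⟨?_, ?_, ?_, ?_⟩ <;> omega

/-- The possible moves of the cell when one moves by at most `N`. -/
abbrev FastD : Type := {v : V // v ∈ Finset.Icc ((-1 : ℤ), (-1 : ℤ)) ((1 : ℤ), (1 : ℤ))}

theorem fast_card_D : Fintype.card FastD = 9 := by
  rw [Fintype.card_coe]
  decide

theorem fast_cell_step {N : ℕ} (hN : 0 < N) {z z' : V} (h : nrm (z' - z) ≤ N) :
    fastCell N z' - fastCell N z ∈ Finset.Icc ((-1 : ℤ), (-1 : ℤ)) ((1 : ℤ), (1 : ℤ)) := by
  have hN' : (0 : ℤ) < N := by exact_mod_cast hN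
  simp only [nrm, Prod.fst_sub, Prod.snd_sub] at h
  have key : ∀ a b : ℤ, (b - a).natAbs ≤ N → -1 ≤ b / N - a / N ∧ b / N - a / N ≤ 1 := by
    intro a b hab
    have h1 := Int.emod_nonneg a hN'.ne'
    have h2 := Int.emod_lt_of_pos a hN'
    have h3 := Int.emod_nonneg b hN'.ne'
    have h4 := Int.emod_lt_of_pos b hN'
    have e1 := Int.emod_def a N
    have e2 := Int.emod_def b N
    have hle : b - a ≤ N ∧ -(N : ℤ) ≤ b - a := by omega
    have e3 : b - a = (b % N - a % N) + N * (b / N - a / N) := by rw [e1, e2]; ring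
    constructor
    · by_contra hcon
      have : b / N - a / N ≤ -2 := by omega
      nlinarith
    · by_contra hcon
      have : 2 ≤ b / N - a / N := by omega
      nlinarith
  rw [Finset.mem_Icc, Prod.le_def, Prod.le_def]
  simp only [fastCell, Prod.fst_sub, Prod.snd_sub]
  obtain ⟨a1, a2⟩ := key z.1 z'.1 (by omega)
  obtain ⟨b1, b2⟩ := key z.2 z'.2 (by omega)
  exact ⟨⟨a1, b1⟩, ⟨a2, b2⟩⟩

/-- Edge set of the first `N` edges of a path. -/
def fastEdges (p : ℕ → V) (N : ℕ) : Finset E :=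
  (Finset.range N).image fun k => edge (p k) (p (k + 1))

/-- Pairs (edge set, threshold) of the self-avoiding paths with `N` edges starting in the cell
`c`. -/
def fastSet (tc : V → ℝ) (ε : ℝ) (N : ℕ) (c : V) : Set (Finset E × ℝ) :=
  {A | ∃ p : ℕ → V, IsPath p N ∧ fastCell N (p 0) = c ∧
    A = (fastEdges p N, tc (p N - p 0) - ε * N)}

theorem fast_finite (tc : V → ℝ) (ε : ℝ) {N : ℕ} (hN : 0 < N) (c : V) :
    (fastSet tc ε N c).Finite := by
  classical
  have hcell : {z : V | fastCell N z = c}.Finite := by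
    refine ((Finset.image (fun v => v + fastCorner N c) (box N)).finite_toSet).subset ?_
    rintro z rfl
    obtain ⟨h1, h2, h3, h4⟩ := fast_cell_mem hN z
    refine Finset.mem_coe.2 (Finset.mem_image.2 ⟨z - fastCorner N (fastCell N z), ?_, by simp⟩)
    rw [mem_box, abs_le, abs_le]
    omega
  -- the vertices within distance `N + 1` of the cell
  have hbig : (Set.image2 (fun z v => z + v) {z : V | fastCell N z = c}
      (box (N + 1) : Set V)).Finite := hcell.image2 _ (Finset.finite_toSet _)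
  set B := Set.image2 (fun z v => z + v) {z : V | fastCell N z = c} (box (N + 1) : Set V)
    with hB
  have hE : (B ×ˢ (Set.univ : Set Bool)).Finite := hbig.prod Set.finite_univ
  have hP : ((hE.toFinset.powerset : Set (Finset E)) ×ˢ
      ((fun v => tc v - ε * N) '' (box N : Set V))).Finite :=
    (Finset.finite_toSet _).prod ((Finset.finite_toSet _).image _)
  refine hP.subset ?_
  rintro A ⟨p, hp, hc, rfl⟩
  refine Set.mk_mem_prod ?_ ?_
  · refine Finset.mem_coe.2 (Finset.mem_powerset.2 fun e he => ?_)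
    obtain ⟨k, hk, rfl⟩ := Finset.mem_image.1 he
    have hk' := Finset.mem_range.1 hk
    rw [Set.Finite.mem_toFinset]
    refine Set.mk_mem_prod ?_ (Set.mem_univ _)
    refine ⟨p 0, hc, (edge (p k) (p (k + 1))).1 - p 0, ?_, by simp [edge]⟩
    have h1 := nrm_path_le hp.1 (Nat.zero_le k) hk'.le
    have h2 := nrm_path_le hp.1 (Nat.zero_le (k + 1)) hk'
    rw [Finset.mem_coe, mem_box, abs_le, abs_le]
    simp only [edge, nrm, Prod.fst_sub, Prod.snd_sub, Prod.fst_inf, Prod.snd_inf] at h1 h2 ⊢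
    push_cast
    omega
  · refine ⟨p N - p 0, ?_, rfl⟩
    have h1 := nrm_path_le hp.1 (Nat.zero_le N) le_rfl
    exact Finset.mem_coe.2 (mem_box_of_nrm_le (by simpa using h1))

/-- The finite family. -/
noncomputable def fastF (tc : V → ℝ) (ε : ℝ) {N : ℕ} (hN : 0 < N) (c : V) :
    Finset (Finset E × ℝ) := (fast_finite tc ε hN c).toFinset

theorem fast_mem_F {tc : V → ℝ} {ε : ℝ} {N : ℕ} (hN : 0 < N) {c : V} {A : Finset E × ℝ} :
    A ∈ fastF tc ε hN c ↔ A ∈ fastSet tc ε N c := by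
  simp [fastF]

theorem fast_sum_edges (ω : Om) {p : ℕ → V} {N : ℕ} (h : IsPath p N) :
    ∑ e ∈ fastEdges p N, (ω e : ℝ) = pw ω p N := by
  unfold fastEdges pw
  rw [Finset.sum_image]
  intro i hi j hj hij
  exact h.edge_injOn (by simpa using hi) (by simpa using hj) hij

/-- The lower deviation event. -/
def fastLB (tc : V → ℝ) (ε : ℝ) (N : ℕ) : Set Om :=
  {ω | ∃ x ∈ box (2 * N), ∃ y ∈ box (2 * N), T ω x y < tc (y - x) - ε / 2 * (2 * N : ℕ)}

variable (μ : Measure ℝ≥0) [IsProbabilityMeasure μ]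

theorem fast_cell_le (tc : V → ℝ) (ε : ℝ) {N : ℕ} (hN : 0 < N) (c : V) :
    P μ {ω | ∃ A ∈ fastF tc ε hN c, (∑ e ∈ A.1, (ω e : ℝ)) < A.2} ≤ P μ (fastLB tc ε N) := by
  refine le_trans (measure_mono ?_) ((mp_shift μ (fastCorner N c)).measure_preimage_le _)
  rintro ω ⟨A, hA, hlt⟩
  rw [fast_mem_F] at hA
  obtain ⟨p, hp, hc, rfl⟩ := hA
  obtain ⟨b1, b2, b3, b4⟩ := fast_cell_mem hN (p 0)
  rw [hc] at b1 b2 b3 b4
  have h1 := nrm_path_le hp.1 (Nat.zero_le N) le_rfl
  refine ⟨p 0 - fastCorner N c, ?_, p N - fastCorner N c, ?_, ?_⟩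
  · rw [mem_box, abs_le, abs_le]
    push_cast
    omega
  · rw [mem_box, abs_le, abs_le]
    simp only [nrm, Prod.fst_sub, Prod.snd_sub] at h1 b1 b2 b3 b4 ⊢
    push_cast
    omega
  · rw [← T_shift, sub_add_cancel, sub_add_cancel, sub_sub_sub_cancel_right]
    refine lt_of_le_of_lt (T_le_pw ω hp.1) ?_
    rw [← fast_sum_edges ω hp]
    refine lt_of_lt_of_eq hlt ?_
    push_cast
    ring

/-- The sequence of cells coded by a sequence of moves. -/
def fastSeq (N : ℕ) (x : V) {M : ℕ} (d : Fin M → FastD) (i : ℕ) : V :=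
  fastCell N x + ∑ j ∈ Finset.range i, if h : j < M then (d ⟨j, h⟩ : V) else 0

/-- Disjoint fast blocks in prescribed cells. -/
def fastEv (tc : V → ℝ) (ε : ℝ) {N : ℕ} (hN : 0 < N) (x : V) {M : ℕ} (d : Fin M → FastD)
    (I : Finset ℕ) : Set Om :=
  {ω | ∃ A : I → Finset E × ℝ, (∀ i : I, A i ∈ fastF tc ε hN (fastSeq N x d i)) ∧
    (∀ i j : I, i ≠ j → Disjoint (A i).1 (A j).1) ∧
    ∀ i : I, (∑ e ∈ (A i).1, (ω e : ℝ)) < (A i).2}

theorem fast_ev_le (tc : V → ℝ) (ε : ℝ) {N : ℕ} (hN : 0 < N) (x : V) {M : ℕ}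
    (d : Fin M → FastD) (I : Finset ℕ) :
    P μ (fastEv tc ε hN x d I) ≤ (P μ (fastLB tc ε N)) ^ I.card := by
  refine (bk μ (fun i : I => fastF tc ε hN (fastSeq N x d i))).trans ?_
  refine (Finset.prod_le_prod' fun i _ => fast_cell_le μ tc ε hN _).trans ?_
  rw [Finset.prod_const, Finset.card_univ, Fintype.card_coe]

/-- The bad event. -/
def fastBad (tc : V → ℝ) (ε κ : ℝ) (N : ℕ) (x : V) (M : ℕ) : Set Om :=
  {ω | ∃ p : ℕ → V, p 0 = x ∧ IsPath p (M * N) ∧ κ * M < fastc tc ε ω p N M}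

theorem fast_bad_subset (tc : V → ℝ) (ε κ : ℝ) {N : ℕ} (hN : 0 < N) (x : V) (M : ℕ) :
    fastBad tc ε κ N x M ⊆ ⋃ d : Fin M → FastD,
      ⋃ I ∈ (Finset.range M).powerset.filter (fun I => κ * M < I.card),
        fastEv tc ε hN x d I := by
  classical
  rintro ω ⟨p, hx, hp, hbad⟩
  have hle : ∀ {i}, i < M → i * N + N ≤ M * N := by
    intro i hi
    calc i * N + N = (i + 1) * N := by ring
      _ ≤ M * N := Nat.mul_le_mul_right _ hi
  have hstep : ∀ j, j < M → fastCell N (p ((j + 1) * N)) - fastCell N (p (j * N)) ∈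
      Finset.Icc ((-1 : ℤ), (-1 : ℤ)) ((1 : ℤ), (1 : ℤ)) := by
    intro j hj
    refine fast_cell_step hN ?_
    have h1 := nrm_path_le hp.1 (show j * N ≤ (j + 1) * N by
      exact Nat.mul_le_mul_right _ (Nat.le_succ j)) (Nat.mul_le_mul_right _ hj)
    refine h1.trans (le_of_eq ?_)
    rw [Nat.add_mul, one_mul, Nat.add_sub_cancel_left]
  set d : Fin M → FastD := fun j => ⟨fastCell N (p ((j + 1) * N)) - fastCell N (p (j * N)),
    hstep j j.2⟩ with hd
  have hseq : ∀ i, i ≤ M → fastSeq N x d i = fastCell N (p (i * N)) := by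
    intro i hi
    have : ∑ j ∈ Finset.range i, (if h : j < M then ((d ⟨j, h⟩ : FastD) : V) else 0) =
        ∑ j ∈ Finset.range i, (fastCell N (p ((j + 1) * N)) - fastCell N (p (j * N))) := by
      refine Finset.sum_congr rfl fun j hj => ?_
      have hj' : j < M := lt_of_lt_of_le (Finset.mem_range.1 hj) hi
      rw [dif_pos hj']
    unfold fastSeq
    rw [this, Finset.sum_range_sub (fun j => fastCell N (p (j * N)))]
    simp [hx]
  -- the blocks
  have hblock : ∀ i, i < M → IsPath (fun k => p (i * N + k)) N := fun i hi => hp.sub (hle hi)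
  set I : Finset ℕ := (Finset.range M).filter fun i =>
      (∑ k ∈ Finset.Ico (i * N) ((i + 1) * N), (ω (edge (p k) (p (k + 1))) : ℝ))
        < tc (p ((i + 1) * N) - p (i * N)) - ε * N with hI
  have hIM : ∀ i ∈ I, i < M := fun i hi => Finset.mem_range.1 (Finset.mem_filter.1 hi).1
  have hcard : fastc tc ε ω p N M = I.card := by
    unfold fastc
    rw [hI]
  refine Set.mem_iUnion.2 ⟨d, Set.mem_iUnion₂.2 ⟨I, ?_, ?_⟩⟩
  · rw [Finset.mem_filter, Finset.mem_powerset]
    refine ⟨Finset.filter_subset _ _, ?_⟩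
    rw [← hcard]
    exact hbad
  · refine ⟨fun i => (fastEdges (fun k => p (i * N + k)) N,
      tc (p (i * N + N) - p (i * N + 0)) - ε * N), fun i => ?_, fun i j hij => ?_, fun i => ?_⟩
    · rw [fast_mem_F]
      exact ⟨fun k => p (i * N + k), hblock i (hIM i i.2), by
        rw [hseq i (hIM i i.2).le]; simp, rfl⟩
    · -- disjointness
      rw [Finset.disjoint_left]
      intro e he he'
      simp only [fastEdges, Finset.mem_image, Finset.mem_range] at he he'
      obtain ⟨k, hk, hke⟩ := he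
      obtain ⟨k', hk', hke'⟩ := he'
      have hi := hle (hIM i i.2)
      have hj := hle (hIM j j.2)
      have heq : (i : ℕ) * N + k = j * N + k' := by
        refine hp.edge_injOn (show (i : ℕ) * N + k < M * N by omega)
          (show (j : ℕ) * N + k' < M * N by omega) ?_
        show edge (p (i * N + k)) (p (i * N + k + 1)) = edge (p (j * N + k')) (p (j * N + k' + 1))
        rw [add_assoc, add_assoc, hke, hke']
      have hne : (i : ℕ) ≠ j := fun h => hij (Subtype.ext h)
      rcases lt_or_gt_of_ne hne with hlt | hlt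
      · have : ((i : ℕ) + 1) * N ≤ j * N := Nat.mul_le_mul_right _ hlt
        have e : ((i : ℕ) + 1) * N = i * N + N := by ring
        omega
      · have : ((j : ℕ) + 1) * N ≤ i * N := Nat.mul_le_mul_right _ hlt
        have e : ((j : ℕ) + 1) * N = j * N + N := by ring
        omega
    · have hi := (Finset.mem_filter.1 i.2).2
      show ∑ e ∈ fastEdges (fun k => p (i * N + k)) N, (ω e : ℝ) < _
      rw [fast_sum_edges ω (hblock i (hIM i i.2))]
      rw [Finset.sum_Ico_eq_sum_range] at hi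
      have e1 : ((i : ℕ) + 1) * N - i * N = N := by rw [Nat.add_mul, one_mul, Nat.add_sub_cancel_left]
      have e2 : ((i : ℕ) + 1) * N = i * N + N := by ring
      rw [e1, e2] at hi
      unfold pw
      simpa [add_assoc] using hi

theorem fast_bad_le (tc : V → ℝ) (ε : ℝ) {κ : ℝ} {N : ℕ} (hN : 0 < N) (x : V) (M : ℕ) {K : ℕ}
    (hK : 1 ≤ K * κ) (hq : P μ (fastLB tc ε N) ≤ (36⁻¹ : ℝ≥0∞) ^ K) :
    P μ (fastBad tc ε κ N x M) ≤ (2⁻¹ : ℝ≥0∞) ^ M := by
  classical
  refine (measure_mono (fast_bad_subset tc ε κ hN x M)).trans ?_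
  refine (measure_iUnion_fintype_le _ _).trans ?_
  have hI : ∀ d : Fin M → FastD, P μ (⋃ I ∈ (Finset.range M).powerset.filter
      (fun I => κ * M < I.card), fastEv tc ε hN x d I) ≤ 2 ^ M * (36⁻¹ : ℝ≥0∞) ^ M := by
    intro d
    refine (measure_biUnion_finset_le _ _).trans ?_
    have hterm : ∀ I ∈ (Finset.range M).powerset.filter (fun I => κ * M < I.card),
        P μ (fastEv tc ε hN x d I) ≤ (36⁻¹ : ℝ≥0∞) ^ M := by
      intro I hI
      have hc := (Finset.mem_filter.1 hI).2
      have hM : M ≤ K * I.card := by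
        have hK0 : (0 : ℝ) ≤ K := Nat.cast_nonneg K
        have : (M : ℝ) ≤ K * I.card := by
          calc (M : ℝ) = 1 * M := by ring
            _ ≤ K * κ * M := by gcongr
            _ = K * (κ * M) := by ring
            _ ≤ K * I.card := by gcongr
        exact_mod_cast this
      refine (fast_ev_le μ tc ε hN x d I).trans ?_
      calc (P μ (fastLB tc ε N)) ^ I.card ≤ ((36⁻¹ : ℝ≥0∞) ^ K) ^ I.card := by gcongr
        _ = (36⁻¹ : ℝ≥0∞) ^ (K * I.card) := by rw [← pow_mul]
        _ ≤ (36⁻¹ : ℝ≥0∞) ^ M := by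
            refine pow_le_pow_right_of_le_one' ?_ hM
            simp
    refine (Finset.sum_le_card_nsmul _ _ _ hterm).trans ?_
    rw [nsmul_eq_mul]
    gcongr
    refine le_trans (Nat.cast_le.2 (Finset.card_filter_le _ _)) ?_
    rw [Finset.card_powerset, Finset.card_range]
    push_cast
    exact le_rfl
  refine (Finset.sum_le_card_nsmul _ _ _ fun d _ => hI d).trans ?_
  rw [Finset.card_univ, Fintype.card_fun, Fintype.card_fin, fast_card_D, nsmul_eq_mul]
  push_cast
  rw [← mul_assoc, ← mul_pow, ← mul_pow]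
  refine le_of_eq ?_
  congr 1
  rw [← ENNReal.toReal_eq_toReal_iff' (by finiteness) (by finiteness)]
  norm_num

variable [NullSingletonClass μ] {tc : V → ℝ}

/-- Few fast blocks.  Let `p_N` be the probability that some self-avoiding path with `N` edges
starting in the cell `[0,N)²` is fast (weight `< tc (displacement) - ε N`); `p_N → 0` by
`tendsto_LB` (the path lies in `box (2N)`).  For a self-avoiding path with `M N` edges started at
`x`, the sequence of cells containing the block starts takes at most `9^M` values, the set of fast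
blocks at most `2^M` values, the blocks are edge-disjoint, so by `bk` and shift invariance the
probability that there are more than `κ M` fast blocks is at most `18^M p_N^{κ M}`, summable in `M`
when `18 p_N^κ < 1`. -/
theorem ae_fewFast (hμ : MinSq μ) (h : TCProps μ tc) {ε κ : ℝ} (hε : 0 < ε) (hκ : 0 < κ) :
    ∃ N₀ : ℕ, ∀ N, N₀ ≤ N → ∀ᵐ ω ∂(P μ), FewFast tc ε κ N ω := by
  obtain ⟨K, hK⟩ := exists_nat_ge (1 / κ)
  have hK' : 1 ≤ K * κ := by
    rw [div_le_iff₀ hκ] at hK
    exact hK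
  have hlim : Tendsto (fun N : ℕ => P μ (fastLB tc ε N)) atTop (𝓝 0) := by
    have h1 := tendsto_LB μ hμ h (ε := ε / 2) (by positivity)
    have h2 : Tendsto (fun N : ℕ => 2 * N) atTop atTop :=
      tendsto_atTop_mono (fun n => show n ≤ 2 * n by omega) tendsto_id
    exact h1.comp h2
  have hpos : (0 : ℝ≥0∞) < (36⁻¹ : ℝ≥0∞) ^ K := by
    refine ENNReal.pow_pos ?_ K
    simp
  obtain ⟨N₁, hN₁⟩ := eventually_atTop.1 (hlim.eventually (gt_mem_nhds hpos))
  refine ⟨max N₁ 1, fun N hN => ?_⟩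
  have hN0 : 0 < N := lt_of_lt_of_le one_pos ((le_max_right _ _).trans hN)
  have hq : P μ (fastLB tc ε N) ≤ (36⁻¹ : ℝ≥0∞) ^ K := (hN₁ N ((le_max_left _ _).trans hN)).le
  unfold FewFast
  rw [ae_all_iff]
  intro x
  have hsum : (∑' M, P μ (fastBad tc ε κ N x M)) ≠ ∞ := by
    refine ne_top_of_le_ne_top ?_ (ENNReal.tsum_le_tsum fun M =>
      fast_bad_le μ tc ε hN0 x M hK' hq)
    rw [ENNReal.tsum_geometric]
    have : (1 : ℝ≥0∞) - 2⁻¹ ≠ 0 := by
      rw [ENNReal.one_sub_inv_two]
      simp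
    exact ENNReal.inv_ne_top.2 this
  filter_upwards [ae_eventually_notMem hsum] with ω hω
  obtain ⟨M₀, hM₀⟩ := eventually_atTop.1 hω
  refine ⟨M₀, fun M hM p hpx hp => ?_⟩
  by_contra hcon
  exact hM₀ M hM ⟨p, hpx, hp, not_le.1 hcon⟩

end FPP
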