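import Pool.Agent.helper96.FPP.Grad

/-!
# Module N (FlowLines): a balanced stationary flow produces double gradient lines
-/

open MeasureTheory Filter Topology
open scoped NNReal ENNReal BoundedContinuousFunction

namespace FPP

/-! ### Truncated averages -/

/-- Integral of the truncated passage times from `0` to half planes, with a shift of the level. -/
noncomputable def flH (ρ : ℝ × ℝ) (w : ℝ) (ω : Om) (c : ℝ) : ℝ :=
  ∫ t in (0 : ℝ)..w, min (u ρ ω (t + c) 0) (2 * w)

/-- Truncated average deficit of the step `0 → vec a`. -/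
noncomputable def flD (ρ : ℝ × ℝ) (w : ℝ) (ω : Om) (a : Dir) : ℝ :=
  (∫ t in (0 : ℝ)..w, ((ω (edge 0 (vec a)) : ℝ) + min (u ρ ω t (vec a)) (2 * w)
    - min (u ρ ω t 0) (2 * w))) / w

theorem fl_mono {ρ : ℝ × ℝ} (hρ : ρ ≠ 0) (w : ℝ) (ω : Om) (x : V) (c : ℝ) :
    Monotone fun t : ℝ => min (u ρ ω (t + c) x) (2 * w) := by
  intro s t hst
  exact min_le_min_right _ (u_mono_t hρ ω x (by linarith))

theorem fl_ii {ρ : ℝ × ℝ} (hρ : ρ ≠ 0) (w : ℝ) (ω : Om) (x : V) (c a b : ℝ) :
    IntervalIntegrable (fun t : ℝ => min (u ρ ω (t + c) x) (2 * w)) volume a b :=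
  (fl_mono hρ w ω x c).intervalIntegrable

theorem fl_ii' {ρ : ℝ × ℝ} (hρ : ρ ≠ 0) (w : ℝ) (ω : Om) (x : V) (a b : ℝ) :
    IntervalIntegrable (fun t : ℝ => min (u ρ ω t x) (2 * w)) volume a b := by
  simpa using fl_ii hρ w ω x 0 a b

theorem flD_nonneg {ρ : ℝ × ℝ} (hρ : ρ ≠ 0) {w : ℝ} (hw : 0 < w) (ω : Om) (a : Dir) :
    0 ≤ flD ρ w ω a := by
  refine div_nonneg ?_ hw.le
  refine intervalIntegral.integral_nonneg hw.le fun t _ => ?_
  have hadj : Adj 0 (vec a) := ⟨a, by simp⟩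
  have h1 := u_triangle hρ ω t 0 (vec a)
  have h2 := T_le_edge ω hadj
  have h3 : (0 : ℝ) ≤ ω (edge 0 (vec a)) := NNReal.coe_nonneg _
  rcases min_cases (u ρ ω t (vec a)) (2 * w) with ⟨h, _⟩ | ⟨h, _⟩
  · have := min_le_left (u ρ ω t 0) (2 * w)
    rw [h]; linarith
  · have := min_le_right (u ρ ω t 0) (2 * w)
    rw [h]; linarith

theorem flD_eq {ρ : ℝ × ℝ} (hρ : ρ ≠ 0) {w : ℝ} (hw : 0 < w) (ω : Om) (a : Dir) :
    flD ρ w ω a = ω (edge 0 (vec a)) +
      (flH ρ w (shift (vec a) ω) (-dot ρ (vec a)) - flH ρ w ω 0) / w := by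
  have h1 : ∀ t, u ρ ω t (vec a) = u ρ (shift (vec a) ω) (t + -dot ρ (vec a)) 0 := by
    intro t
    have := u_shift ρ ω t 0 (vec a)
    rw [zero_add] at this
    rw [this, sub_eq_add_neg]
  unfold flD flH
  have h2 : (∫ t in (0 : ℝ)..w, ((ω (edge 0 (vec a)) : ℝ) + min (u ρ ω t (vec a)) (2 * w)
    - min (u ρ ω t 0) (2 * w))) =
    (∫ t in (0 : ℝ)..w, (ω (edge 0 (vec a)) : ℝ)) +
      (∫ t in (0 : ℝ)..w, min (u ρ (shift (vec a) ω) (t + -dot ρ (vec a)) 0) (2 * w)) -
      ∫ t in (0 : ℝ)..w, min (u ρ ω (t + 0) 0) (2 * w) := by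
    rw [← intervalIntegral.integral_add, ← intervalIntegral.integral_sub]
    · simp only [h1, add_zero]
    · exact (intervalIntegrable_const).add (fl_ii hρ w _ 0 _ _ _)
    · exact fl_ii hρ w _ 0 _ _ _
    · exact intervalIntegrable_const
    · exact fl_ii hρ w _ 0 _ _ _
  rw [h2, intervalIntegral.integral_const]
  simp only [sub_zero, smul_eq_mul]
  field_simp
  ring

theorem flH_abs_le {ρ : ℝ × ℝ} {w : ℝ} (hw : 0 < w) (ω : Om) (c : ℝ) :
    |flH ρ w ω c| ≤ 2 * w * w := by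
  have := intervalIntegral.norm_integral_le_of_norm_le_const (a := (0 : ℝ)) (b := w)
    (C := 2 * w) (f := fun t => min (u ρ ω (t + c) 0) (2 * w)) (fun t _ => by
      rw [Real.norm_eq_abs, abs_of_nonneg (le_min (u_nonneg _ _ _ _) (by positivity))]
      exact min_le_right _ _)
  rw [Real.norm_eq_abs, sub_zero, abs_of_pos hw] at this
  exact this

theorem flH_sub {ρ : ℝ × ℝ} (hρ : ρ ≠ 0) (w : ℝ) (ω : Om) (c : ℝ) :
    flH ρ w ω c - flH ρ w ω 0 = (∫ t in w..(w + c), min (u ρ ω t 0) (2 * w)) -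
      ∫ t in (0 : ℝ)..c, min (u ρ ω t 0) (2 * w) := by
  unfold flH
  have h1 := intervalIntegral.integral_comp_add_right (a := 0) (b := w)
    (fun t => min (u ρ ω t 0) (2 * w)) c
  have h2 := intervalIntegral.integral_comp_add_right (a := 0) (b := w)
    (fun t => min (u ρ ω t 0) (2 * w)) 0
  rw [h1, h2]
  simp only [add_zero, zero_add]
  rw [intervalIntegral.integral_interval_sub_interval_comm (fl_ii' hρ w ω 0 _ _)
    (fl_ii' hρ w ω 0 _ _) (fl_ii' hρ w ω 0 _ _), intervalIntegral.integral_symm w,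
    intervalIntegral.integral_symm 0 c]
  ring

theorem flR_abs_le {ρ : ℝ × ℝ} (hρ : ρ ≠ 0) {w : ℝ} (hw : 0 < w) (ω : Om) (c : ℝ) :
    |(flH ρ w ω c - flH ρ w ω 0) / w| ≤ 4 * |c| := by
  have hb : ∀ a b : ℝ, |∫ t in a..b, min (u ρ ω t 0) (2 * w)| ≤ 2 * w * |b - a| := by
    intro a b
    have := intervalIntegral.norm_integral_le_of_norm_le_const (a := a) (b := b)
      (C := 2 * w) (f := fun t => min (u ρ ω t 0) (2 * w)) (fun t _ => by
        rw [Real.norm_eq_abs, abs_of_nonneg (le_min (u_nonneg _ _ _ _) (by positivity))]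
        exact min_le_right _ _)
    exact this
  rw [flH_sub hρ, abs_div, abs_of_pos hw, div_le_iff₀ hw]
  have h1 := hb w (w + c)
  have h2 := hb 0 c
  rw [add_sub_cancel_left] at h1
  rw [sub_zero] at h2
  calc _ ≤ _ := abs_sub _ _
    _ ≤ 4 * |c| * w := by linarith

theorem flR_sub_le {ρ : ℝ × ℝ} (hρ : ρ ≠ 0) {w : ℝ} (hw : 0 < w) (ω : Om) (c : ℝ) :
    |(flH ρ w ω c - flH ρ w ω 0) / w - c| ≤ |c| * (u ρ ω |c| 0 / w +
      (|u ρ ω (w + |c|) 0 / w - 1| + |u ρ ω (w - |c|) 0 / w - 1|)) := by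
  have h1 : |∫ t in (0 : ℝ)..c, min (u ρ ω t 0) (2 * w)| ≤ u ρ ω |c| 0 * |c| := by
    have := intervalIntegral.norm_integral_le_of_norm_le_const (a := 0) (b := c)
      (C := u ρ ω |c| 0) (f := fun t => min (u ρ ω t 0) (2 * w)) (fun t ht => by
        rw [Real.norm_eq_abs, abs_of_nonneg (le_min (u_nonneg _ _ _ _) (by positivity))]
        refine (min_le_left _ _).trans (u_mono_t hρ ω 0 ?_)
        rcases le_total 0 c with hc | hc
        · rw [Set.uIoc_of_le hc] at ht
          exact ht.2.trans (le_abs_self _)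
        · rw [Set.uIoc_of_ge hc] at ht
          exact ht.2.trans (abs_nonneg _))
    rwa [sub_zero] at this
  have hproj : ∀ x : ℝ, |min x (2 * w) - w| ≤ |x - w| := by
    intro x
    rcases min_cases x (2 * w) with ⟨h, _⟩ | ⟨h, h'⟩
    · rw [h]
    · rw [h, abs_of_nonneg (by linarith), abs_of_nonneg (by linarith)]
      linarith
  set m : ℝ := |u ρ ω (w + |c|) 0 - w| + |u ρ ω (w - |c|) 0 - w| with hm
  have h2 : |∫ t in w..(w + c), (min (u ρ ω t 0) (2 * w) - w)| ≤ m * |c| := by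
    have := intervalIntegral.norm_integral_le_of_norm_le_const (a := w) (b := w + c)
      (C := m) (f := fun t => min (u ρ ω t 0) (2 * w) - w) (fun t ht => by
        rw [Real.norm_eq_abs]
        refine (hproj _).trans ?_
        have hl : w - |c| ≤ t := by
          rcases le_total 0 c with hc | hc
          · rw [Set.uIoc_of_le (by linarith)] at ht
            have := abs_nonneg c
            linarith [ht.1]
          · rw [Set.uIoc_of_ge (by linarith)] at ht
            rw [abs_of_nonpos hc]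
            linarith [ht.1]
        have hr : t ≤ w + |c| := by
          rcases le_total 0 c with hc | hc
          · rw [Set.uIoc_of_le (by linarith)] at ht
            rw [abs_of_nonneg hc]
            linarith [ht.2]
          · rw [Set.uIoc_of_ge (by linarith)] at ht
            have := abs_nonneg c
            linarith [ht.2]
        have h3 := u_mono_t hρ ω 0 hl
        have h4 := u_mono_t hρ ω 0 hr
        simp only at h3 h4
        have h5 := le_abs_self (u ρ ω (w + |c|) 0 - w)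
        have h6 := neg_abs_le (u ρ ω (w - |c|) 0 - w)
        have h7 := abs_nonneg (u ρ ω (w + |c|) 0 - w)
        have h8 := abs_nonneg (u ρ ω (w - |c|) 0 - w)
        rw [abs_le]
        constructor <;> linarith)
    rwa [add_sub_cancel_left] at this
  have h3 : (∫ t in w..(w + c), min (u ρ ω t 0) (2 * w)) =
      (∫ t in w..(w + c), (min (u ρ ω t 0) (2 * w) - w)) + c * w := by
    rw [intervalIntegral.integral_sub (fl_ii' hρ w ω 0 _ _)
      intervalIntegrable_const, intervalIntegral.integral_const]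
    simp
  have h4 : (flH ρ w ω c - flH ρ w ω 0) / w - c =
      ((∫ t in w..(w + c), (min (u ρ ω t 0) (2 * w) - w)) -
        ∫ t in (0 : ℝ)..c, min (u ρ ω t 0) (2 * w)) / w := by
    rw [flH_sub hρ, h3]
    field_simp
    ring
  rw [h4, abs_div, abs_of_pos hw, div_le_iff₀ hw]
  have h5 : |u ρ ω (w + |c|) 0 / w - 1| = |u ρ ω (w + |c|) 0 - w| / w := by
    rw [← abs_of_pos hw, ← abs_div, abs_of_pos hw, sub_div, div_self hw.ne']
  have h6 : |u ρ ω (w - |c|) 0 / w - 1| = |u ρ ω (w - |c|) 0 - w| / w := by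
    rw [← abs_of_pos hw, ← abs_div, abs_of_pos hw, sub_div, div_self hw.ne']
  rw [h5, h6]
  have h7 : |c| * (u ρ ω |c| 0 / w + (|u ρ ω (w + |c|) 0 - w| / w + |u ρ ω (w - |c|) 0 - w| / w)) * w
      = u ρ ω |c| 0 * |c| + m * |c| := by
    rw [hm]
    field_simp
  rw [h7]
  exact (abs_sub _ _).trans (by linarith)

theorem flH_meas {ρ : ℝ × ℝ} (hρ : ρ ≠ 0) (w c : ℝ) : Measurable fun ω => flH ρ w ω c := by
  have hm : Measurable fun q : Om × ℝ => min (u ρ q.1 (q.2 + c) 0) (2 * w) := by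
    have h1 : Measurable fun q : Om × ℝ => (q.2 + c, q.1) := by fun_prop
    exact ((measurable_u hρ 0).comp h1).min measurable_const
  unfold flH
  simp only [intervalIntegral]
  refine Measurable.sub ?_ ?_
  · exact (hm.stronglyMeasurable.integral_prod_right
      (ν := volume.restrict (Set.Ioc 0 w))).measurable
  · exact (hm.stronglyMeasurable.integral_prod_right
      (ν := volume.restrict (Set.Ioc w 0))).measurable

/-! ### Flows -/

section flow

variable {κ : Measure Om} {k : Dir → Measure Om}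

theorem fl_le (hk : κ = ∑ a : Dir, k a) (a : Dir) : k a ≤ κ := by
  rw [hk]
  exact Finset.single_le_sum (f := k) (fun i _ => Measure.zero_le _) (Finset.mem_univ a)

theorem fl_map_le (hk' : κ = ∑ a : Dir, (k a).map (shift (vec a))) (a : Dir) :
    (k a).map (shift (vec a)) ≤ κ := by
  rw [hk']
  exact Finset.single_le_sum (f := fun a : Dir => (k a).map (shift (vec a)))
    (fun i _ => Measure.zero_le _) (Finset.mem_univ a)

theorem fl_ae (hk : κ = ∑ a : Dir, k a) {Q : Om → Prop} (h : ∀ᵐ ω ∂κ, Q ω) (a : Dir) :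
    ∀ᵐ ω ∂(k a), Q ω := ae_mono (fl_le hk a) h

theorem fl_ae' (hk' : κ = ∑ a : Dir, (k a).map (shift (vec a))) {Q : Om → Prop}
    (h : ∀ᵐ ω ∂κ, Q ω) (a : Dir) : ∀ᵐ ω ∂(k a), Q (shift (vec a) ω) :=
  ae_of_ae_map (measurable_shift (vec a)).aemeasurable (ae_mono (fl_map_le hk' a) h)

theorem fl_limit {ρ : ℝ × ℝ} (hρ : ρ ≠ 0) [IsFiniteMeasure κ] (hk : κ = ∑ a : Dir, k a)
    (hk' : κ = ∑ a : Dir, (k a).map (shift (vec a)))
    (hint : ∀ a : Dir, Integrable (fun ω : Om => (ω (edge 0 (vec a)) : ℝ)) (k a))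
    (hbal : ∑ a : Dir, ∫ ω, ((ω (edge 0 (vec a)) : ℝ) - dot ρ (vec a)) ∂(k a) = 0)
    {W : ℕ → ℝ} (hW : Tendsto W atTop atTop)
    (hconv : ∀ᵐ ω ∂κ, ∀ a : Dir,
      Tendsto (fun j => u ρ ω (W j + dot ρ (vec a)) 0 / W j) atTop (𝓝 1)) :
    Tendsto (fun j => ∑ a, ∫ ω, flD ρ (W j) ω a ∂(k a)) atTop (𝓝 0) := by
  have hfin : ∀ a, IsFiniteMeasure (k a) := fun a => isFiniteMeasure_of_le κ (fl_le hk a)
  have hfin' : ∀ a, IsFiniteMeasure ((k a).map (shift (vec a))) := fun a =>
    isFiniteMeasure_of_le κ (fl_map_le hk' a)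
  have hWpos : ∀ᶠ j in atTop, 0 < W j := hW.eventually (eventually_gt_atTop 0)
  -- integrability of bounded functions
  have hHint : ∀ (j : ℕ) (c : ℝ), 0 < W j → ∀ (m : Measure Om) [IsFiniteMeasure m],
      Integrable (fun ω => flH ρ (W j) ω c) m := by
    intro j c hj m _
    refine Integrable.of_bound (flH_meas hρ _ c).aestronglyMeasurable (2 * W j * W j) ?_
    filter_upwards with ω
    exact flH_abs_le hj ω c
  -- the limit of the shifted terms
  have hlim : ∀ a : Dir, Tendsto (fun j => ∫ ω, (flH ρ (W j) (shift (vec a) ω) (-dot ρ (vec a)) -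
      flH ρ (W j) (shift (vec a) ω) 0) / W j ∂(k a)) atTop
      (𝓝 (∫ ω, (-dot ρ (vec a)) ∂(k a))) := by
    intro a
    refine tendsto_integral_filter_of_norm_le_const ?_ ⟨4 * |-dot ρ (vec a)|, ?_⟩ ?_
    · filter_upwards with j
      exact ((((flH_meas hρ _ _).sub (flH_meas hρ _ _)).div_const _).comp
        (measurable_shift (vec a))).aestronglyMeasurable
    · filter_upwards [hWpos] with j hj
      filter_upwards with ω
      exact flR_abs_le hρ hj _ _
    · filter_upwards [fl_ae' hk' hconv a] with ω hω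
      have h1 : Tendsto (fun j => u ρ (shift (vec a) ω) (W j + |-dot ρ (vec a)|) 0 / W j) atTop
          (𝓝 1) := by
        rcases le_total 0 (dot ρ (vec a)) with h | h
        · rw [abs_neg, abs_of_nonneg h]
          exact hω a
        · rw [abs_neg, abs_of_nonpos h, ← dot_neg, ← vec_opp]
          exact hω (opp a)
      have h2 : Tendsto (fun j => u ρ (shift (vec a) ω) (W j - |-dot ρ (vec a)|) 0 / W j) atTop
          (𝓝 1) := by
        rcases le_total 0 (dot ρ (vec a)) with h | h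
        · rw [abs_neg, abs_of_nonneg h]
          have := hω (opp a)
          simp only [vec_opp, dot_neg] at this
          exact this
        · rw [abs_neg, abs_of_nonpos h]
          simp only [sub_neg_eq_add]
          exact hω a
      have h3 : Tendsto (fun j => u ρ (shift (vec a) ω) |-dot ρ (vec a)| 0 / W j) atTop (𝓝 0) :=
        tendsto_const_nhds.div_atTop hW
      have h4 : Tendsto (fun j => |-dot ρ (vec a)| * (u ρ (shift (vec a) ω) |-dot ρ (vec a)| 0 / W j
          + (|u ρ (shift (vec a) ω) (W j + |-dot ρ (vec a)|) 0 / W j - 1| +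
            |u ρ (shift (vec a) ω) (W j - |-dot ρ (vec a)|) 0 / W j - 1|))) atTop (𝓝 0) := by
        have h5 := (h1.sub_const 1).abs
        have h6 := (h2.sub_const 1).abs
        simpa using (h3.add (h5.add h6)).const_mul |-dot ρ (vec a)|
      rw [tendsto_iff_norm_sub_tendsto_zero]
      refine squeeze_zero' ?_ ?_ h4
      · filter_upwards with j
        exact norm_nonneg _
      · filter_upwards [hWpos] with j hj
        exact flR_sub_le hρ hj _ _
  -- the formula
  have hform : ∀ᶠ j in atTop, ∑ a, ((∫ ω, (ω (edge 0 (vec a)) : ℝ) ∂(k a)) +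
      ∫ ω, (flH ρ (W j) (shift (vec a) ω) (-dot ρ (vec a)) -
      flH ρ (W j) (shift (vec a) ω) 0) / W j ∂(k a)) = ∑ a, ∫ ω, flD ρ (W j) ω a ∂(k a) := by
    filter_upwards [hWpos] with j hj
    have e1 : ∀ a : Dir, ∫ ω, flD ρ (W j) ω a ∂(k a) = (∫ ω, (ω (edge 0 (vec a)) : ℝ) ∂(k a)) +
        ((∫ ω, flH ρ (W j) (shift (vec a) ω) (-dot ρ (vec a)) ∂(k a)) -
          ∫ ω, flH ρ (W j) ω 0 ∂(k a)) / W j := by
      intro a
      have hi1 : Integrable (fun ω => flH ρ (W j) (shift (vec a) ω) (-dot ρ (vec a))) (k a) :=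
        (integrable_map_measure (flH_meas hρ _ _).aestronglyMeasurable
          (measurable_shift (vec a)).aemeasurable).1 (hHint j _ hj _)
      rw [← integral_sub hi1 (hHint j _ hj _), ← integral_div, ← integral_add (hint a)]
      · exact integral_congr_ae (by filter_upwards with ω using flD_eq hρ hj ω a)
      · exact (hi1.sub (hHint j _ hj _)).div_const _
    have e2 : ∀ a : Dir, ∫ ω, (flH ρ (W j) (shift (vec a) ω) (-dot ρ (vec a)) -
        flH ρ (W j) (shift (vec a) ω) 0) / W j ∂(k a) =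
        ((∫ ω, flH ρ (W j) (shift (vec a) ω) (-dot ρ (vec a)) ∂(k a)) -
          ∫ ω, flH ρ (W j) (shift (vec a) ω) 0 ∂(k a)) / W j := by
      intro a
      have hi1 : ∀ c, Integrable (fun ω => flH ρ (W j) (shift (vec a) ω) c) (k a) := fun c =>
        (integrable_map_measure (flH_meas hρ _ _).aestronglyMeasurable
          (measurable_shift (vec a)).aemeasurable).1 (hHint j _ hj _)
      rw [← integral_sub (hi1 _) (hi1 _), ← integral_div]
    have e3 : ∑ a : Dir, ∫ ω, flH ρ (W j) ω 0 ∂(k a) =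
        ∑ a : Dir, ∫ ω, flH ρ (W j) (shift (vec a) ω) 0 ∂(k a) := by
      have e4 : ∫ ω, flH ρ (W j) ω 0 ∂κ = ∑ a : Dir, ∫ ω, flH ρ (W j) ω 0 ∂(k a) := by
        conv_lhs => rw [hk]
        exact integral_finsetSum_measure fun a _ => hHint j _ hj _
      have e5 : ∫ ω, flH ρ (W j) ω 0 ∂κ =
          ∑ a : Dir, ∫ ω, flH ρ (W j) (shift (vec a) ω) 0 ∂(k a) := by
        conv_lhs => rw [hk']
        rw [integral_finsetSum_measure fun a _ => hHint j _ hj _]
        refine Finset.sum_congr rfl fun a _ => ?_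
        rw [integral_map (measurable_shift (vec a)).aemeasurable
          (flH_meas hρ _ _).aestronglyMeasurable]
      rw [← e4, e5]
    simp only [e1, e2, Finset.sum_add_distrib, ← Finset.sum_div, Finset.sum_sub_distrib, e3]
  refine Tendsto.congr' hform ?_
  have h5 : Tendsto (fun j => ∑ a, ((∫ ω, (ω (edge 0 (vec a)) : ℝ) ∂(k a)) +
      ∫ ω, (flH ρ (W j) (shift (vec a) ω) (-dot ρ (vec a)) -
      flH ρ (W j) (shift (vec a) ω) 0) / W j ∂(k a))) atTop
      (𝓝 (∑ a, ((∫ ω, (ω (edge 0 (vec a)) : ℝ) ∂(k a)) + ∫ ω, (-dot ρ (vec a)) ∂(k a)))) :=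
    tendsto_finsetSum _ fun a _ => (hlim a).const_add _
  have h6 : ∑ a, ((∫ ω, (ω (edge 0 (vec a)) : ℝ) ∂(k a)) + ∫ ω, (-dot ρ (vec a)) ∂(k a)) = 0 := by
    rw [← hbal]
    refine Finset.sum_congr rfl fun a _ => ?_
    rw [← integral_add (hint a) (integrable_const _)]
    simp only [sub_eq_add_neg]
  rwa [h6] at h5

end flow

/-! ### Extraction of subsequences -/

theorem fl_subseq {X : Type*} [MeasurableSpace X] {ι : Type*} [Fintype ι] (m : ι → Measure X)
    (f : ι → ℕ → X → ℝ) (hnn : ∀ᶠ j in atTop, ∀ i x, 0 ≤ f i j x)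
    (hint : ∀ᶠ j in atTop, ∀ i, Integrable (f i j) (m i))
    (hlim : Tendsto (fun j => ∑ i, ∫ x, f i j x ∂(m i)) atTop (𝓝 0)) :
    ∃ φ : ℕ → ℕ, StrictMono φ ∧ ∀ i, ∀ᵐ x ∂(m i), Tendsto (fun j => f i (φ j) x) atTop (𝓝 0) := by
  have h1 : ∀ n : ℕ, ∀ᶠ j in atTop, (∀ i x, 0 ≤ f i j x) ∧ (∀ i, Integrable (f i j) (m i)) ∧
      ∑ i, ∫ x, f i j x ∂(m i) ≤ (1 / 2 : ℝ) ^ n := by
    intro n
    have : ∀ᶠ j in atTop, ∑ i, ∫ x, f i j x ∂(m i) < (1 / 2 : ℝ) ^ n :=
      hlim.eventually (gt_mem_nhds (by positivity))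
    filter_upwards [hnn, hint, this] with j ha hb hc using ⟨ha, hb, hc.le⟩
  obtain ⟨φ, hφ, h2⟩ := extraction_forall_of_eventually h1
  refine ⟨φ, hφ, fun i => ?_⟩
  have h3 : ∀ n, ∫⁻ x, ENNReal.ofReal (f i (φ n) x) ∂(m i) ≤ ENNReal.ofReal ((1 / 2 : ℝ) ^ n) := by
    intro n
    obtain ⟨ha, hb, hc⟩ := h2 n
    rw [← ofReal_integral_eq_lintegral_ofReal (hb i) (by filter_upwards with x using ha i x)]
    refine ENNReal.ofReal_le_ofReal (le_trans ?_ hc)
    exact Finset.single_le_sum (f := fun i => ∫ x, f i (φ n) x ∂(m i))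
      (fun i _ => integral_nonneg (ha i)) (Finset.mem_univ i)
  have h4 : ∫⁻ x, ∑' n, ENNReal.ofReal (f i (φ n) x) ∂(m i) ≠ ∞ := by
    rw [lintegral_tsum fun n => ((h2 n).2.1 i).aestronglyMeasurable.aemeasurable.ennreal_ofReal]
    refine ne_top_of_le_ne_top ?_ (ENNReal.tsum_le_tsum h3)
    rw [← ENNReal.ofReal_tsum_of_nonneg (fun n => by positivity)
      (summable_geometric_of_lt_one (by norm_num) (by norm_num))]
    exact ENNReal.ofReal_ne_top
  have h5 : AEMeasurable (fun x => ∑' n, ENNReal.ofReal (f i (φ n) x)) (m i) :=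
    AEMeasurable.tsum fun n =>
      ((h2 n).2.1 i).aestronglyMeasurable.aemeasurable.ennreal_ofReal
  filter_upwards [ae_lt_top' h5 h4] with x hx
  have h6 := ENNReal.tendsto_atTop_zero_of_tsum_ne_top hx.ne
  have h7 := (ENNReal.tendsto_toReal ENNReal.zero_ne_top).comp h6
  refine h7.congr fun n => ?_
  simp only [Function.comp]
  exact ENNReal.toReal_ofReal ((h2 n).1 i x)

theorem fl_prob {X : Type*} [MeasurableSpace X] {ι : Type*} [Finite ι] (Q : Measure X)
    (f : ι → ℝ → X → ℝ)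
    (hf : ∀ i (ε : ℝ), 0 < ε → Tendsto (fun w : ℝ => Q {x | ε < |f i w x|}) atTop (𝓝 0)) :
    ∃ W : ℕ → ℝ, Tendsto W atTop atTop ∧
      ∀ᵐ x ∂Q, ∀ i, Tendsto (fun j => f i (W j) x) atTop (𝓝 0) := by
  have h1 : ∀ j : ℕ, ∃ w : ℝ, (j : ℝ) ≤ w ∧
      ∀ i, Q {x | 1 / ((j : ℝ) + 1) < |f i w x|} ≤ (1 / 2 : ℝ≥0∞) ^ j := by
    intro j
    have h2 : ∀ i, ∀ᶠ w : ℝ in atTop,
        Q {x | 1 / ((j : ℝ) + 1) < |f i w x|} ≤ (1 / 2 : ℝ≥0∞) ^ j := by
      intro i
      have := (hf i (1 / ((j : ℝ) + 1)) (by positivity)).eventually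
        (gt_mem_nhds (show (0 : ℝ≥0∞) < (1 / 2 : ℝ≥0∞) ^ j by
          apply ENNReal.pow_pos; simp))
      exact this.mono fun w hw => hw.le
    exact ((eventually_ge_atTop (j : ℝ)).and (eventually_all.2 h2)).exists
  choose W hW1 hW2 using h1
  refine ⟨W, tendsto_atTop_mono hW1 tendsto_natCast_atTop_atTop, ?_⟩
  rw [ae_all_iff]
  intro i
  have h3 : ∑' j : ℕ, Q {x | 1 / ((j : ℝ) + 1) < |f i (W j) x|} ≠ ∞ := by
    refine ne_top_of_le_ne_top ?_ (ENNReal.tsum_le_tsum fun j => hW2 j i)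
    rw [ENNReal.tsum_geometric]
    simp
  filter_upwards [ae_eventually_notMem h3] with x hx
  rw [tendsto_zero_iff_norm_tendsto_zero]
  refine squeeze_zero' (by filter_upwards with j using norm_nonneg _) ?_
    tendsto_one_div_add_atTop_nhds_zero_nat
  filter_upwards [hx] with j hj
  simp only [not_lt] at hj
  exact hj

theorem fl_FG {ρ : ℝ × ℝ} (hρ : ρ ≠ 0) {W : ℕ → ℝ} (hW : Tendsto W atTop atTop) {ω : Om}
    {a : Dir} (h0 : Tendsto (fun j => u ρ ω (W j) 0 / W j) atTop (𝓝 1))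
    (hD : Tendsto (fun j => flD ρ (W j) ω a) atTop (𝓝 0)) : FG ρ W ω 0 (vec a) := by
  unfold FG
  refine Tendsto.congr' ?_ hD
  filter_upwards [hW.eventually (eventually_gt_atTop 0),
    hW.eventually (eventually_ge_atTop (2 * (ω (edge 0 (vec a)) : ℝ))),
    h0.eventually (gt_mem_nhds (show (1 : ℝ) < 3 / 2 by norm_num))] with j h1 h2 h3
  unfold flD
  congr 1
  refine intervalIntegral.integral_congr fun t ht => ?_
  rw [Set.uIcc_of_le h1.le] at ht
  have h4 : u ρ ω t 0 ≤ u ρ ω (W j) 0 := u_mono_t hρ ω 0 ht.2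
  rw [div_lt_iff₀ h1] at h3
  have hadj : Adj 0 (vec a) := ⟨a, by simp⟩
  have h5 := u_triangle hρ ω t (vec a) 0
  have h6 := T_le_edge ω hadj
  rw [T_comm] at h6
  simp only [dft]
  rw [min_eq_left (by linarith), min_eq_left (by linarith)]

/-! ### Construction of the lines -/

section lines

variable {κ : Measure Om} {k : Dir → Measure Om}

/-- Environments from which one can do `n` steps forward and backward. -/
def flQ (R : Om → Dir → Prop) : ℕ → Om → Prop
  | 0, _ => True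
  | n + 1, ω => flQ R n ω ∧ (∃ a, R ω a ∧ flQ R n (shift (vec a) ω)) ∧
      ∃ a, R (shift (-vec a) ω) a ∧ flQ R n (shift (-vec a) ω)

theorem flQ_mono {R : Om → Dir → Prop} {ω : Om} : ∀ {m n : ℕ}, m ≤ n → flQ R n ω → flQ R m ω := by
  intro m n h
  induction n, h using Nat.le_induction with
  | base => exact id
  | succ n _ ih => exact fun h => ih h.1

theorem fl_shift_neg (v : V) (ω : Om) : shift (-v) (shift v ω) = ω := by
  rw [shift_shift, neg_add_cancel, shift_zero]

theorem fl_shift_neg' (v : V) (ω : Om) : shift v (shift (-v) ω) = ω := by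
  rw [shift_shift, add_neg_cancel, shift_zero]

/-- The shift as a measurable equivalence. -/
noncomputable def flShift (v : V) : Om ≃ᵐ Om where
  toFun := shift v
  invFun := shift (-v)
  left_inv := fl_shift_neg v
  right_inv := fl_shift_neg' v
  measurable_toFun := measurable_shift v
  measurable_invFun := measurable_shift (-v)

theorem fl_aeQ (hk : κ = ∑ a : Dir, k a) (hk' : κ = ∑ a : Dir, (k a).map (shift (vec a)))
    {R : Om → Dir → Prop} (hR : ∀ a, ∀ᵐ ω ∂(k a), R ω a) (n : ℕ) : ∀ᵐ ω ∂κ, flQ R n ω := by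
  have hκ : ∀ {Q : Om → Prop}, (∀ a, ∀ᵐ ω ∂(k a), Q ω) → ∀ᵐ ω ∂κ, Q ω := by
    intro Q hQ
    rw [hk, ae_iff, Measure.coe_finsetSum, Finset.sum_apply]
    exact Finset.sum_eq_zero fun a _ => ae_iff.1 (hQ a)
  have hκ' : ∀ {Q : Om → Prop}, (∀ a, ∀ᵐ ω ∂(k a), Q (shift (vec a) ω)) → ∀ᵐ ω ∂κ, Q ω := by
    intro Q hQ
    rw [hk', ae_iff, Measure.coe_finsetSum, Finset.sum_apply]
    refine Finset.sum_eq_zero fun a _ => ?_
    have := (flShift (vec a)).map_apply (μ := k a) {ω | ¬ Q ω}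
    have h2 : (k a).map (shift (vec a)) {ω | ¬ Q ω} = k a (shift (vec a) ⁻¹' {ω | ¬ Q ω}) := this
    rw [h2]
    exact ae_iff.1 (hQ a)
  induction n with
  | zero => exact Eventually.of_forall fun _ => trivial
  | succ n ih =>
    have h1 : ∀ᵐ ω ∂κ, ∃ a, R ω a ∧ flQ R n (shift (vec a) ω) := by
      refine hκ fun a => ?_
      filter_upwards [hR a, fl_ae' hk' ih a] with ω h1 h2 using ⟨a, h1, h2⟩
    have h2 : ∀ᵐ ω ∂κ, ∃ a, R (shift (-vec a) ω) a ∧ flQ R n (shift (-vec a) ω) := by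
      refine hκ' fun a => ?_
      filter_upwards [hR a, fl_ae hk ih a] with ω h1 h2
      refine ⟨a, ?_, ?_⟩ <;> rw [fl_shift_neg] <;> assumption
    filter_upwards [ih, h1, h2] with ω h3 h4 h5 using ⟨h3, h4, h5⟩

theorem flQ_next {R : Om → Dir → Prop} {ω : Om} (h : ∀ n, flQ R n ω) :
    ∃ a, R ω a ∧ ∀ n, flQ R n (shift (vec a) ω) := by
  by_contra hcon
  push Not at hcon
  have h1 : ∀ a, ∃ n, R ω a → ¬ flQ R n (shift (vec a) ω) := by
    intro a
    by_cases hRa : R ω a
    · obtain ⟨n, hn⟩ := hcon a hRa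
      exact ⟨n, fun _ => hn⟩
    · exact ⟨0, fun h => absurd h hRa⟩
  choose N hN using h1
  obtain ⟨-, ⟨a, ha, ha'⟩, -⟩ := h (Finset.univ.sup N + 1)
  exact hN a ha (flQ_mono (Finset.le_sup (Finset.mem_univ a)) ha')

theorem flQ_prev {R : Om → Dir → Prop} {ω : Om} (h : ∀ n, flQ R n ω) :
    ∃ a, R (shift (-vec a) ω) a ∧ ∀ n, flQ R n (shift (-vec a) ω) := by
  by_contra hcon
  push Not at hcon
  have h1 : ∀ a, ∃ n, R (shift (-vec a) ω) a → ¬ flQ R n (shift (-vec a) ω) := by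
    intro a
    by_cases hRa : R (shift (-vec a) ω) a
    · obtain ⟨n, hn⟩ := hcon a hRa
      exact ⟨n, fun _ => hn⟩
    · exact ⟨0, fun h => absurd h hRa⟩
  choose N hN using h1
  obtain ⟨-, -, ⟨a, ha, ha'⟩⟩ := h (Finset.univ.sup N + 1)
  exact hN a ha (flQ_mono (Finset.le_sup (Finset.mem_univ a)) ha')

theorem fl_path {R : Om → Dir → Prop} {ω : Om} (h : ∀ n, flQ R n ω) :
    ∃ G : ℤ → V, ∀ k, ∃ a, G (k + 1) = G k + vec a ∧ R (shift (G k) ω) a := by
  classical
  let X := {x : V // ∀ n, flQ R n (shift x ω)}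
  have hn : ∀ x : X, ∃ y : X, ∃ a, y.1 = x.1 + vec a ∧ R (shift x.1 ω) a := by
    intro x
    obtain ⟨a, h1, h2⟩ := flQ_next x.2
    refine ⟨⟨x.1 + vec a, ?_⟩, a, rfl, h1⟩
    intro n
    have := h2 n
    rwa [shift_shift, add_comm] at this
  have hp : ∀ x : X, ∃ y : X, ∃ a, x.1 = y.1 + vec a ∧ R (shift y.1 ω) a := by
    intro x
    obtain ⟨a, h1, h2⟩ := flQ_prev x.2
    have e : shift (-vec a) (shift x.1 ω) = shift (x.1 - vec a) ω := by
      rw [shift_shift]; congr 1; abel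
    rw [e] at h1 h2
    exact ⟨⟨x.1 - vec a, h2⟩, a, by simp, h1⟩
  choose nx hnx using hn
  choose pr hpr using hp
  let x0 : X := ⟨0, by rw [shift_zero]; exact h⟩
  let G : ℤ → V := fun k => match k with
    | Int.ofNat n => (nx^[n] x0).1
    | Int.negSucc n => (pr^[n + 1] x0).1
  refine ⟨G, fun k => ?_⟩
  match k with
  | Int.ofNat n =>
    have h1 : G (Int.ofNat n + 1) = (nx (nx^[n] x0)).1 := by
      show G (Int.ofNat (n + 1)) = _
      show (nx^[n + 1] x0).1 = _
      rw [Function.iterate_succ_apply']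
    obtain ⟨a, h2, h3⟩ := hnx (nx^[n] x0)
    exact ⟨a, by rw [h1, h2], h3⟩
  | Int.negSucc 0 =>
    have h1 : G (Int.negSucc 0 + 1) = x0.1 := rfl
    obtain ⟨a, h2, h3⟩ := hpr x0
    exact ⟨a, by rw [h1, h2]; rfl, h3⟩
  | Int.negSucc (n + 1) =>
    have h1 : G (Int.negSucc (n + 1) + 1) = (pr^[n + 1] x0).1 := rfl
    have h4 : G (Int.negSucc (n + 1)) = (pr (pr^[n + 1] x0)).1 := by
      show (pr^[n + 1 + 1] x0).1 = _
      rw [Function.iterate_succ_apply']
    obtain ⟨a, h2, h3⟩ := hpr (pr^[n + 1] x0)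
    exact ⟨a, by rw [h1, h4, h2], by rw [h4]; exact h3⟩

end lines

/-- From the balance identity to forward gradient steps, after extraction of a subsequence. -/
theorem fl_FG_ae {κ : Measure Om} {k : Dir → Measure Om} {ρ : ℝ × ℝ} (hρ : ρ ≠ 0)
    [IsFiniteMeasure κ] (hk : κ = ∑ a : Dir, k a)
    (hk' : κ = ∑ a : Dir, (k a).map (shift (vec a)))
    (hint : ∀ a : Dir, Integrable (fun ω : Om => (ω (edge 0 (vec a)) : ℝ)) (k a))
    (hbal : ∑ a : Dir, ∫ ω, ((ω (edge 0 (vec a)) : ℝ) - dot ρ (vec a)) ∂(k a) = 0)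
    {W : ℕ → ℝ} (hW : Tendsto W atTop atTop)
    (hconv : ∀ᵐ ω ∂κ, ∀ a : Dir,
      Tendsto (fun j => u ρ ω (W j + dot ρ (vec a)) 0 / W j) atTop (𝓝 1))
    (hconv0 : ∀ᵐ ω ∂κ, Tendsto (fun j => u ρ ω (W j) 0 / W j) atTop (𝓝 1)) :
    ∃ φ : ℕ → ℕ, StrictMono φ ∧ ∀ ψ : ℕ → ℕ, StrictMono ψ → ∀ a, ∀ᵐ ω ∂(k a),
      FG ρ (fun j => W (φ (ψ j))) ω 0 (vec a) := by
  have hfin : ∀ a, IsFiniteMeasure (k a) := fun a => isFiniteMeasure_of_le κ (fl_le hk a)
  have hWpos : ∀ᶠ j in atTop, 0 < W j := hW.eventually (eventually_gt_atTop 0)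
  obtain ⟨φ, hφ, h1⟩ := fl_subseq k (fun a j ω => flD ρ (W j) ω a)
    (by filter_upwards [hWpos] with j hj a ω using flD_nonneg hρ hj ω a)
    (by
      filter_upwards [hWpos] with j hj a
      have hi1 : Integrable (fun ω => flH ρ (W j) (shift (vec a) ω) (-dot ρ (vec a))) (k a) := by
        refine Integrable.of_bound ((flH_meas hρ _ _).comp
          (measurable_shift (vec a))).aestronglyMeasurable (2 * W j * W j) ?_
        filter_upwards with ω
        exact flH_abs_le hj _ _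
      have hi2 : Integrable (fun ω => flH ρ (W j) ω 0) (k a) := by
        refine Integrable.of_bound (flH_meas hρ _ _).aestronglyMeasurable (2 * W j * W j) ?_
        filter_upwards with ω
        exact flH_abs_le hj _ _
      refine ((hint a).add ((hi1.sub hi2).div_const (W j))).congr ?_
      filter_upwards with ω
      exact (flD_eq hρ hj ω a).symm)
    (fl_limit hρ hk hk' hint hbal hW hconv)
  refine ⟨φ, hφ, fun ψ hψ a => ?_⟩
  have ht : Tendsto (fun j => φ (ψ j)) atTop atTop :=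
    (hφ.tendsto_atTop).comp hψ.tendsto_atTop
  filter_upwards [h1 a, fl_ae hk hconv0 a] with ω h2 h3
  exact fl_FG hρ (hW.comp ht) (h3.comp ht) (h2.comp hψ.tendsto_atTop)

theorem fl_opp_opp (a : Dir) : opp (opp a) = a := by cases a <;> rfl

/-- The involution `opp` as an equivalence. -/
def flOpp : Dir ≃ Dir where
  toFun := opp
  invFun := opp
  left_inv := fl_opp_opp
  right_inv := fl_opp_opp

theorem exists_lines (μ : Measure ℝ≥0) [IsProbabilityMeasure μ] {ρ : ℝ × ℝ} (hρ : ρ ≠ 0)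
    (hG1 : ∀ ε : ℝ, 0 < ε →
      Tendsto (fun W : ℝ => P μ {ω | ε < |u ρ ω W 0 / W - 1|}) atTop (𝓝 0))
    (hG2 : ∀ ε : ℝ, 0 < ε →
      Tendsto (fun W : ℝ => P μ {ω | ε < |u (-ρ) ω W 0 / W - 1|}) atTop (𝓝 0))
    (κ : Measure Om) [IsFiniteMeasure κ] (k : Dir → Measure Om) (hk : κ = ∑ a : Dir, k a)
    (hk' : κ = ∑ a : Dir, (k a).map (shift (vec a))) (hac : κ ≪ P μ) (hne : κ ≠ 0)
    (hint : ∀ a : Dir, Integrable (fun ω : Om => (ω (edge 0 (vec a)) : ℝ)) (k a))
    (hbal : ∑ a : Dir, ∫ ω, ((ω (edge 0 (vec a)) : ℝ) - dot ρ (vec a)) ∂(k a) = 0) :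
    ∃ W : ℕ → ℝ, Tendsto W atTop atTop ∧ ¬ (∀ᵐ ω ∂(P μ), S ρ W ω = ∅) := by
  classical
  have hρ' : -ρ ≠ 0 := neg_ne_zero.2 hρ
  -- the reversed flow
  let k' : Dir → Measure Om := fun b => (k (opp b)).map (shift (vec (opp b)))
  have hκ1 : κ = ∑ b : Dir, k' b := by
    rw [hk']
    exact (flOpp.sum_comp fun a => (k a).map (shift (vec a))).symm
  have hκ2 : κ = ∑ b : Dir, (k' b).map (shift (vec b)) := by
    have h1 : ∀ b, (k' b).map (shift (vec b)) = k (opp b) := by
      intro b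
      simp only [k']
      rw [Measure.map_map (measurable_shift _) (measurable_shift _)]
      have : shift (vec b) ∘ shift (vec (opp b)) = id := by
        funext ω
        simp only [Function.comp, id]
        rw [vec_opp, fl_shift_neg']
      rw [this, Measure.map_id]
    simp only [h1]
    conv_lhs => rw [hk]
    exact (flOpp.sum_comp fun a => k a).symm
  have hedge : ∀ (a : Dir) (ω : Om),
      shift (vec a) ω (edge 0 (vec (opp a))) = ω (edge 0 (vec a)) := by
    intro a ω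
    rw [shift_edge, vec_opp, zero_add, neg_add_cancel, edge_comm]
  have hme : ∀ b : Dir, Measurable fun ω : Om => (ω (edge 0 (vec b)) : ℝ) := by
    intro b
    fun_prop
  have hint' : ∀ b : Dir, Integrable (fun ω : Om => (ω (edge 0 (vec b)) : ℝ)) (k' b) := by
    intro b
    simp only [k']
    rw [integrable_map_measure (hme b).aestronglyMeasurable (measurable_shift _).aemeasurable]
    refine (hint (opp b)).congr ?_
    filter_upwards with ω
    simp only [Function.comp]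
    have := hedge (opp b) ω
    rw [fl_opp_opp] at this
    rw [this]
  have hbal' : ∑ b : Dir, ∫ ω, ((ω (edge 0 (vec b)) : ℝ) - dot (-ρ) (vec b)) ∂(k' b) = 0 := by
    have h1 : ∀ b : Dir, ∫ ω, ((ω (edge 0 (vec b)) : ℝ) - dot (-ρ) (vec b)) ∂(k' b) =
        ∫ ω, ((ω (edge 0 (vec (opp b))) : ℝ) - dot ρ (vec (opp b))) ∂(k (opp b)) := by
      intro b
      have hm : Measurable fun ω : Om => (ω (edge 0 (vec b)) : ℝ) - dot (-ρ) (vec b) :=
        (hme b).sub measurable_const
      simp only [k']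
      rw [integral_map (measurable_shift _).aemeasurable hm.aestronglyMeasurable]
      refine integral_congr_ae ?_
      filter_upwards with ω
      have := hedge (opp b) ω
      rw [fl_opp_opp] at this
      rw [this, vec_opp, dot_neg, dot_neg_left]
    rw [← hbal]
    simp only [h1]
    exact flOpp.sum_comp fun a => ∫ ω, ((ω (edge 0 (vec a)) : ℝ) - dot ρ (vec a)) ∂(k a)
  -- the sequence of levels
  let r : Bool → ℝ × ℝ := fun b => if b then -ρ else ρ
  let c : Bool → Option Dir → ℝ := fun b o => o.elim 0 fun a => dot (r b) (vec a)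
  obtain ⟨W, hW, hWae⟩ := fl_prob (P μ)
    (fun (i : Bool × Option Dir) w ω => u (r i.1) ω (w + c i.1 i.2) 0 / (w + c i.1 i.2) - 1) (by
      rintro ⟨b, o⟩ ε hε
      have ht : Tendsto (fun w : ℝ => w + c b o) atTop atTop :=
        tendsto_atTop_add_const_right _ _ tendsto_id
      cases b with
      | false => exact (hG1 ε hε).comp ht
      | true => exact (hG2 ε hε).comp ht)
  have hconv : ∀ᵐ ω ∂κ, ∀ (b : Bool) (o : Option Dir),
      Tendsto (fun j => u (r b) ω (W j + c b o) 0 / W j) atTop (𝓝 1) := by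
    filter_upwards [hac.ae_le hWae] with ω hω b o
    have h1 := (hω (b, o)).add_const 1
    simp only [sub_add_cancel, zero_add] at h1
    have h2 : Tendsto (fun j => (W j + c b o) / W j) atTop (𝓝 1) := by
      have h3 : Tendsto (fun j => 1 + c b o / W j) atTop (𝓝 (1 + 0)) :=
        (tendsto_const_nhds.div_atTop hW).const_add _
      rw [add_zero] at h3
      refine h3.congr' ?_
      filter_upwards [hW.eventually (eventually_gt_atTop 0)] with j hj
      field_simp
    have h4 := h1.mul h2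
    rw [one_mul] at h4
    refine h4.congr' ?_
    filter_upwards [hW.eventually (eventually_gt_atTop 0),
      hW.eventually (eventually_gt_atTop (-c b o))] with j hj hj'
    have : W j + c b o ≠ 0 := by linarith
    field_simp
  -- first extraction
  obtain ⟨φ, hφ, h1⟩ := fl_FG_ae hρ hk hk' hint hbal hW
    (by filter_upwards [hconv] with ω hω a using hω false (some a))
    (by
      filter_upwards [hconv] with ω hω
      have := hω false none
      simpa [c, r] using this)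
  -- second extraction
  have hWφ : Tendsto (fun j => W (φ j)) atTop atTop := hW.comp hφ.tendsto_atTop
  obtain ⟨φ', hφ', h2⟩ := fl_FG_ae hρ' hκ1 hκ2 hint' hbal' hWφ
    (by
      filter_upwards [hconv] with ω hω a
      exact (hω true (some a)).comp hφ.tendsto_atTop)
    (by
      filter_upwards [hconv] with ω hω
      have := (hω true none).comp hφ.tendsto_atTop
      simpa [c, r, Function.comp_def] using this)
  let W' : ℕ → ℝ := fun j => W (φ (φ' j))
  have hW' : Tendsto W' atTop atTop := hWφ.comp hφ'.tendsto_atTop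
  refine ⟨W', hW', fun hS => ?_⟩
  have hDG : ∀ a, ∀ᵐ ω ∂(k a), DG ρ W' ω 0 (vec a) := by
    intro a
    have h3 := h1 φ' hφ' a
    have h4 := h2 id strictMono_id (opp a)
    simp only [k', fl_opp_opp] at h4
    have h5 := ae_of_ae_map (measurable_shift (vec a)).aemeasurable h4
    filter_upwards [h3, h5] with ω h6 h7
    have hadj : Adj 0 (vec a) := ⟨a, by simp⟩
    refine ⟨hadj, h6, ?_⟩
    have h8 := (FG_shift hρ' hW' ω (x := 0) (y := vec (opp a)) ⟨opp a, by simp⟩ (vec a)).2 h7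
    rwa [zero_add, vec_opp, neg_add_cancel] at h8
  have hQ : ∀ᵐ ω ∂κ, ∀ n, flQ (fun ω a => DG ρ W' ω 0 (vec a)) n ω := by
    rw [ae_all_iff]
    exact fl_aeQ hk hk' hDG
  have hex : ∃ᵐ ω ∂κ, S ρ W' ω = ∅ ∧ ∀ n, flQ (fun ω a => DG ρ W' ω 0 (vec a)) n ω := by
    have : (ae κ).NeBot := ae_neBot.2 hne
    have hS' : ∀ᵐ ω ∂κ, S ρ W' ω = ∅ := hac.ae_le hS
    exact (hS'.and hQ).frequently
  obtain ⟨ω, hω1, hω2⟩ := hex.exists
  obtain ⟨G, hG⟩ := fl_path hω2
  have hGS : G ∈ S ρ W' ω := by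
    intro j
    obtain ⟨a, h3, h4⟩ := hG j
    have h5 := (DG_shift hρ hW' ω 0 (vec a) (G j)).2 h4
    rwa [zero_add, add_comm, ← h3] at h5
  rw [hω1] at hGS
  exact hGS

end FPP
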