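import Pool.Agent.helper96.FPP.Moment
import Pool.Agent.helper96.FPP.Peierls

/-!
# Module E (TimeConst): the time constant
-/

open MeasureTheory Filter Topology ProbabilityTheory
open scoped NNReal ENNReal BoundedContinuousFunction

namespace FPP

section Means

variable (μ : Measure ℝ≥0) [IsProbabilityMeasure μ]

/-- Mean passage times along a ray. -/
noncomputable def tcA (v : V) (m : ℕ) : ℝ := ∫ ω, T ω 0 (m • v) ∂(P μ)

theorem tc_integrable (hμ : MinSq μ) (x y : V) : Integrable (fun ω => T ω x y) (P μ) :=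
  (memLp_T μ hμ x y).integrable (by norm_num)

theorem tc_integral_comp_shift {f : Om → ℝ} (hf : Measurable f) (v : V) :
    ∫ ω, f (shift v ω) ∂(P μ) = ∫ ω, f ω ∂(P μ) := by
  conv_rhs => rw [← (mp_shift μ v).map_eq]
  rw [integral_map (measurable_shift v).aemeasurable hf.aestronglyMeasurable]

theorem tc_integral_shift (x y v : V) :
    ∫ ω, T ω (x + v) (y + v) ∂(P μ) = ∫ ω, T ω x y ∂(P μ) := by
  simp_rw [T_shift]
  exact tc_integral_comp_shift μ (measurable_T x y) v

omit [IsProbabilityMeasure μ] in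
theorem tcA_nonneg (v : V) (m : ℕ) : 0 ≤ tcA μ v m :=
  integral_nonneg fun ω => T_nonneg ω _ _

omit [IsProbabilityMeasure μ] in
theorem tcA_zero (v : V) : tcA μ v 0 = 0 := by
  simp [tcA, T_self]

/-- `E T(0, z + w) ≤ E T(0, z) + E T(0, w)`. -/
theorem tc_mean_add (hμ : MinSq μ) (z w : V) :
    ∫ ω, T ω 0 (z + w) ∂(P μ) ≤ ∫ ω, T ω 0 z ∂(P μ) + ∫ ω, T ω 0 w ∂(P μ) := by
  have h1 : ∫ ω, T ω 0 (z + w) ∂(P μ) ≤ ∫ ω, (T ω 0 z + T ω (0 + z) (w + z)) ∂(P μ) := by
    refine integral_mono (tc_integrable μ hμ _ _)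
      ((tc_integrable μ hμ _ _).add (tc_integrable μ hμ _ _)) fun ω => ?_
    have := T_triangle ω 0 z (z + w)
    simpa [add_comm] using this
  rw [integral_add (tc_integrable μ hμ _ _) (tc_integrable μ hμ _ _), tc_integral_shift] at h1
  exact h1

theorem tcA_subadditive (hμ : MinSq μ) (v : V) : Subadditive (tcA μ v) := by
  intro m n
  have := tc_mean_add μ hμ (m • v) (n • v)
  rw [← add_smul] at this
  exact this

theorem tc_exists_lim (hμ : MinSq μ) (v : V) :
    ∃ t : ℝ, Tendsto (fun m : ℕ => tcA μ v m / m) atTop (𝓝 t) := by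
  refine ⟨_, (tcA_subadditive μ hμ v).tendsto_lim ⟨0, ?_⟩⟩
  rintro _ ⟨m, rfl⟩
  exact div_nonneg (tcA_nonneg μ v m) (Nat.cast_nonneg m)

theorem tcA_neg (v : V) (m : ℕ) : tcA μ (-v) m = tcA μ v m := by
  have h := tc_integral_shift μ 0 (m • (-v)) (m • v)
  simp only [zero_add, smul_neg, neg_add_cancel] at h
  unfold tcA
  rw [smul_neg, ← h]
  simp_rw [T_comm _ (m • v) 0]

omit [IsProbabilityMeasure μ] in
theorem tcA_nsmul (v : V) (k m : ℕ) : tcA μ (k • v) m = tcA μ v (m * k) := by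
  unfold tcA; rw [mul_smul]

theorem TR_anti {R R' : ℕ} (hR : R ≤ R') (ω : Om) {x y : V} (h : nrm (y - x) ≤ R) :
    TR R' ω x y ≤ TR R ω x y := by
  have hne : Nonempty {l : List Dir // l.length ≤ R ∧ x + disp l = y} := by
    obtain ⟨l, hl, hl'⟩ := exists_walk (y - x)
    exact ⟨⟨l, by omega, by rw [hl]; abel⟩⟩
  unfold TR
  refine le_ciInf fun l => ?_
  exact ciInf_le (f := fun l : {l : List Dir // l.length ≤ R' ∧ x + disp l = y} =>
    (wt ω x l.1 : ℝ)) ⟨0, by rintro _ ⟨l, rfl⟩; exact NNReal.coe_nonneg _⟩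
    ⟨l.1, l.2.1.trans hR, l.2.2⟩

/-! ### Elementary properties of the limit -/

variable {μ} in
omit [IsProbabilityMeasure μ] in
theorem tc_nsmul {tc : V → ℝ}
    (h : ∀ v, Tendsto (fun m : ℕ => tcA μ v m / m) atTop (𝓝 (tc v))) (k : ℕ) (v : V) :
    tc (k • v) = k * tc v := by
  rcases Nat.eq_zero_or_pos k with rfl | hk
  · have h0 : Tendsto (fun m : ℕ => tcA μ (0 • v) m / m) atTop (𝓝 0) := by
      simp [tcA, T_self]
    simpa using tendsto_nhds_unique (h (0 • v)) h0
  · have h1 : Tendsto (fun m : ℕ => tcA μ v (m * k) / ((m * k : ℕ) : ℝ)) atTop (𝓝 (tc v)) :=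
      (h v).comp (tendsto_id.atTop_mul_const' hk)
    have h2 := h1.const_mul (k : ℝ)
    refine tendsto_nhds_unique (h (k • v)) (h2.congr' ?_)
    filter_upwards [eventually_gt_atTop 0] with m hm
    have hk' : (k : ℝ) ≠ 0 := by positivity
    have hm' : (m : ℝ) ≠ 0 := by positivity
    rw [tcA_nsmul]
    push_cast
    field_simp

variable {μ} in
theorem tc_neg {tc : V → ℝ}
    (h : ∀ v, Tendsto (fun m : ℕ => tcA μ v m / m) atTop (𝓝 (tc v))) (v : V) :
    tc (-v) = tc v := by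
  refine tendsto_nhds_unique (h (-v)) ?_
  simp_rw [tcA_neg]
  exact h v

variable {μ} in
theorem tc_smul {tc : V → ℝ}
    (h : ∀ v, Tendsto (fun m : ℕ => tcA μ v m / m) atTop (𝓝 (tc v))) (k : ℤ) (v : V) :
    tc (k • v) = |(k : ℝ)| * tc v := by
  obtain ⟨n, rfl | rfl⟩ := k.eq_nat_or_neg
  · rw [natCast_zsmul, tc_nsmul h]
    simp
  · rw [neg_smul, tc_neg h, natCast_zsmul, tc_nsmul h]
    simp

variable {μ} in
omit [IsProbabilityMeasure μ] in
theorem tc_nonneg {tc : V → ℝ}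
    (h : ∀ v, Tendsto (fun m : ℕ => tcA μ v m / m) atTop (𝓝 (tc v))) (v : V) : 0 ≤ tc v :=
  ge_of_tendsto' (h v) fun m => div_nonneg (tcA_nonneg μ v m) (Nat.cast_nonneg m)

variable {μ} in
theorem tc_add_le (hμ : MinSq μ) {tc : V → ℝ}
    (h : ∀ v, Tendsto (fun m : ℕ => tcA μ v m / m) atTop (𝓝 (tc v))) (v w : V) :
    tc (v + w) ≤ tc v + tc w := by
  refine le_of_tendsto_of_tendsto' (h (v + w)) ((h v).add (h w)) fun m => ?_
  rw [← add_div]
  refine div_le_div_of_nonneg_right ?_ (Nat.cast_nonneg m)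
  have := tc_mean_add μ hμ (m • v) (m • w)
  rw [← smul_add] at this
  exact this

theorem nrm_nsmul (k : ℕ) (v : V) : nrm (k • v) = k * nrm v := by
  have := nrm_smul (k : ℤ) v
  rwa [natCast_zsmul, Int.natAbs_natCast] at this

variable {μ} in
theorem tc_upper (hμ : MinSq μ) {tc : V → ℝ}
    (h : ∀ v, Tendsto (fun m : ℕ => tcA μ v m / m) atTop (𝓝 (tc v))) :
    ∃ C : ℝ, 0 < C ∧ ∀ v, tc v ≤ C * nrm v := by
  obtain ⟨C, hC, h1, -⟩ := exists_CT μ hμ
  refine ⟨C, hC, fun v => le_of_tendsto (h v) ?_⟩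
  filter_upwards [eventually_gt_atTop 0] with m hm
  have hm' : (0 : ℝ) < m := by positivity
  rw [div_le_iff₀ hm']
  have := h1 0 (m • v)
  rw [sub_zero, nrm_nsmul] at this
  push_cast at this
  calc tcA μ v m ≤ C * (m * nrm v) := this
    _ = C * nrm v * m := by ring

variable {μ} in
theorem tc_lower [NullSingletonClass μ] (hμ : MinSq μ) {tc : V → ℝ}
    (h : ∀ v, Tendsto (fun m : ℕ => tcA μ v m / m) atTop (𝓝 (tc v))) :
    ∃ c : ℝ, 0 < c ∧ ∀ v, c * nrm v ≤ tc v := by
  obtain ⟨c, hc, hg⟩ := growth μ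
  refine ⟨c, hc, fun v => ?_⟩
  rcases eq_or_ne v 0 with rfl | hv
  · rw [nrm_zero]
    simpa using tc_nonneg h 0
  have hnv : 0 < nrm v := nrm_pos hv
  have hF : ∫⁻ ω, ENNReal.ofReal (c * nrm v) ∂(P μ) ≤
      ∫⁻ ω, liminf (fun m : ℕ => ENNReal.ofReal (T ω 0 (m • v) / m)) atTop ∂(P μ) := by
    refine lintegral_mono_ae ?_
    filter_upwards [hg] with ω hω
    obtain ⟨n₀, hn₀⟩ := hω 0
    refine le_liminf_of_le (by isBoundedDefault) ?_
    filter_upwards [eventually_ge_atTop n₀, eventually_gt_atTop 0] with m hm hm0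
    have hm' : (0 : ℝ) < m := by positivity
    refine ENNReal.ofReal_le_ofReal ?_
    rw [le_div_iff₀ hm']
    have := hn₀ (m • v) (by rw [sub_zero, nrm_nsmul]; nlinarith)
    rw [sub_zero, nrm_nsmul] at this
    push_cast at this
    calc c * nrm v * m = c * (m * nrm v) := by ring
      _ ≤ _ := this
  have h2 : ∫⁻ ω, liminf (fun m : ℕ => ENNReal.ofReal (T ω 0 (m • v) / m)) atTop ∂(P μ) ≤
      liminf (fun m : ℕ => ∫⁻ ω, ENNReal.ofReal (T ω 0 (m • v) / m) ∂(P μ)) atTop := by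
    refine lintegral_liminf_le fun m => ?_
    exact ENNReal.measurable_ofReal.comp ((measurable_T 0 (m • v)).div_const _)
  have h3 : ∀ m : ℕ, ∫⁻ ω, ENNReal.ofReal (T ω 0 (m • v) / m) ∂(P μ) =
      ENNReal.ofReal (tcA μ v m / m) := by
    intro m
    rw [tcA, ← integral_div, ofReal_integral_eq_lintegral_ofReal]
    · exact (tc_integrable μ hμ _ _).div_const _
    · exact Eventually.of_forall fun ω => div_nonneg (T_nonneg _ _ _) (Nat.cast_nonneg m)
  simp_rw [h3] at h2
  have h4 : liminf (fun m : ℕ => ENNReal.ofReal (tcA μ v m / m)) atTop = ENNReal.ofReal (tc v) :=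
    ((ENNReal.continuous_ofReal.tendsto _).comp (h v)).liminf_eq
  rw [h4] at h2
  have h5 := hF.trans h2
  rw [lintegral_const, measure_univ, mul_one] at h5
  exact (ENNReal.ofReal_le_ofReal_iff (tc_nonneg h v)).mp h5

/-! ### Upper bound in mean -/

/-- The edges near `z`. -/
noncomputable def tcEdges (R : ℕ) (z : V) : Finset E :=
  ((box (R + 1)).image fun w => w + z) ×ˢ Finset.univ

theorem mem_tcEdges_of {R : ℕ} {z : V} {e : E} (h : nrm (e.1 - z) ≤ R + 1) :
    e ∈ tcEdges R z := by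
  unfold tcEdges
  rw [Finset.mem_product, Finset.mem_image]
  exact ⟨⟨e.1 - z, mem_box_of_nrm_le h, by abel⟩, Finset.mem_univ _⟩

theorem tcEdges_disjoint {R : ℕ} {z w : V} (h : 4 * (R + 1) < nrm (w - z)) :
    Disjoint (tcEdges R z) (tcEdges R w) := by
  rw [Finset.disjoint_left]
  intro e h1 h2
  unfold tcEdges at h1 h2
  rw [Finset.mem_product, Finset.mem_image] at h1 h2
  obtain ⟨⟨a, ha, ha'⟩, -⟩ := h1
  obtain ⟨⟨b, hb, hb'⟩, -⟩ := h2
  have e1 : w - z = a + (-b) := by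
    have : a + z = b + w := by rw [ha', hb']
    have h3 : w = a + z - b := by rw [this]; abel
    rw [h3]; abel
  rw [e1] at h
  have h3 := nrm_add_le a (-b)
  rw [nrm_neg] at h3
  have h4 := nrm_le_of_mem_box ha
  have h5 := nrm_le_of_mem_box hb
  omega

theorem tc_T_le_sum (ω : Om) (R : ℕ) (z : V) (hR : nrm z ≤ R) (m : ℕ) :
    T ω 0 (m • z) ≤ ∑ i ∈ Finset.range m, TR R ω (i • z) ((i + 1) • z) := by
  induction m with
  | zero => simp [T_self]
  | succ m ih =>
    rw [Finset.sum_range_succ]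
    have h1 := T_triangle ω 0 (m • z) ((m + 1) • z)
    have h2 := T_le_TR (R := R) ω (x := m • z) (y := (m + 1) • z) (by
      rw [add_smul, one_smul, add_sub_cancel_left]; exact hR)
    linarith

variable {μ} in
theorem tc_pos_part (hμ : MinSq μ) {tc : V → ℝ}
    (h : ∀ v, Tendsto (fun m : ℕ => tcA μ v m / m) atTop (𝓝 (tc v))) {v : V} (hv : v ≠ 0)
    {δ : ℝ} (hδ : 0 < δ) :
    ∀ᶠ n : ℕ in atTop,
      ∫ ω, max (T ω 0 (n • v) - n * (tc v + 3 * δ)) 0 ∂(P μ) ≤ 3 * δ * n := by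
  obtain ⟨k, hk0, hk⟩ : ∃ k : ℕ, 0 < k ∧ tcA μ v k ≤ k * (tc v + δ) := by
    have h1 : ∀ᶠ m : ℕ in atTop, tcA μ v m / m < tc v + δ :=
      (h v).eventually_lt_const (by linarith)
    obtain ⟨k, hk1, hk2⟩ := (h1.and (eventually_gt_atTop 0)).exists
    refine ⟨k, hk2, ?_⟩
    have hk' : (0 : ℝ) < k := by positivity
    rw [div_lt_iff₀ hk'] at hk1
    linarith
  have hkR : (0 : ℝ) < k := by positivity
  set z : V := k • v with hz
  have hz0 : 0 < nrm z := by
    rw [hz, nrm_nsmul]; exact Nat.mul_pos hk0 (nrm_pos hv)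
  set L : ℕ := 9 * nrm z with hL
  -- choose the truncation
  obtain ⟨R, hRL, hR⟩ : ∃ R : ℕ, L ≤ R ∧ ∫ ω, TR R ω 0 z ∂(P μ) ≤ tcA μ v k + k * δ := by
    have hlim : Tendsto (fun R : ℕ => ∫ ω, TR R ω 0 z ∂(P μ)) atTop
        (𝓝 (∫ ω, T ω 0 z ∂(P μ))) := by
      refine tendsto_integral_filter_of_dominated_convergence (fun ω => TR L ω 0 z) ?_ ?_ ?_ ?_
      · exact Eventually.of_forall fun R => (measurable_TR R 0 z).aestronglyMeasurable
      · filter_upwards [eventually_ge_atTop L] with R hR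
        refine Eventually.of_forall fun ω => ?_
        rw [Real.norm_of_nonneg (TR_nonneg _ _ _ _)]
        exact TR_anti hR ω (by rw [sub_zero]; omega)
      · exact (memLp_TR μ hμ (by rw [sub_zero])).integrable (by norm_num)
      · exact Eventually.of_forall fun ω => tendsto_TR ω 0 z
    have h1 : ∀ᶠ R : ℕ in atTop, ∫ ω, TR R ω 0 z ∂(P μ) < ∫ ω, T ω 0 z ∂(P μ) + k * δ :=
      hlim.eventually_lt_const (by nlinarith)
    obtain ⟨R, h2, h3⟩ := (h1.and (eventually_ge_atTop L)).exists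
    exact ⟨R, h3, h2.le⟩
  set x0 : ℝ := ∫ ω, TR R ω 0 z ∂(P μ) with hx0
  set B : ℝ := ∫ ω, (TR R ω 0 z) ^ 2 ∂(P μ) with hB
  set X : ℕ → Om → ℝ := fun i ω => TR R ω (i • z) ((i + 1) • z) with hX
  have hXs : ∀ i ω, X i ω = TR R (shift (i • z) ω) 0 z := by
    intro i ω
    rw [← TR_shift, zero_add, hX]
    simp only [add_smul, one_smul, add_comm]
  have hXL : ∀ i, MemLp (X i) 2 (P μ) := by
    intro i
    refine memLp_TR μ hμ ?_
    rw [add_smul, one_smul, add_sub_cancel_left]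
    exact hRL
  have hXm : ∀ i, ∫ ω, X i ω ∂(P μ) = x0 := by
    intro i
    simp_rw [hXs]
    exact tc_integral_comp_shift μ (measurable_TR R 0 z) _
  have hXB : ∀ i, ∫ ω, (X i ω) ^ 2 ∂(P μ) ≤ B := by
    intro i
    simp_rw [hXs]
    exact (tc_integral_comp_shift μ ((measurable_TR R 0 z).pow_const 2) _).le
  have hXi : ∀ i j, i + (4 * R + 5) ≤ j → IndepFun (X i) (X j) (P μ) := by
    intro i j hij
    refine indepFun_of_disjoint μ (measurable_TR _ _ _) (measurable_TR _ _ _)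
      (tcEdges R (i • z)) (tcEdges R (j • z)) ?_ ?_ ?_
    · refine tcEdges_disjoint ?_
      have : j • z - i • z = (j - i) • z := by
        rw [← Nat.sub_add_cancel (show i ≤ j by omega), add_smul]
        simp
      rw [this, nrm_nsmul]
      have : j - i ≤ (j - i) * nrm z := Nat.le_mul_of_pos_right _ hz0
      omega
    · intro ω ω' hω
      exact TR_local R _ _ fun e he => hω e (mem_tcEdges_of he)
    · intro ω ω' hω
      exact TR_local R _ _ fun e he => hω e (mem_tcEdges_of he)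
  have hvar := var_sum_le X B (4 * R + 5) hXL hXB hXi
  set K : ℝ := (2 * ((4 * R + 5 : ℕ) : ℝ) + 1) * B with hK
  have hB0 : 0 ≤ B := integral_nonneg fun ω => sq_nonneg _
  have hK0 : 0 ≤ K := by positivity
  obtain ⟨C, hC, hCm, -⟩ := exists_CT μ hμ
  have htc0 : 0 ≤ tc v := tc_nonneg h v
  have hlarge : ∀ᶠ n : ℕ in atTop, K / (2 * δ) + C * (k * nrm v) ≤ δ * n := by
    have := (tendsto_natCast_atTop_atTop (R := ℝ)).const_mul_atTop hδ
    exact this.eventually_ge_atTop _
  filter_upwards [hlarge, eventually_gt_atTop 0] with n hn hn0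
  have hnR : (0 : ℝ) < n := by positivity
  set m : ℕ := n / k with hm
  set s : ℕ := n % k with hs
  have hdiv : m * k + s = n := by rw [hm, hs, mul_comm]; exact Nat.div_add_mod n k
  have hsk : s < k := Nat.mod_lt _ hk0
  have hmkn : (m : ℝ) * k ≤ n := by
    have : m * k ≤ n := by omega
    exact_mod_cast this
  have hmn : (m : ℝ) ≤ n := by
    have : m ≤ n := Nat.div_le_self _ _
    exact_mod_cast this
  have hnv : n • v = m • z + s • v := by
    rw [hz, ← mul_smul, ← add_smul, hdiv]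
  -- the error of the truncated sum
  set Y : Om → ℝ := fun ω => ∑ i ∈ Finset.range m, X i ω - ∑ i ∈ Finset.range m,
    ∫ ω', X i ω' ∂(P μ) with hY
  have hYL : MemLp Y 2 (P μ) :=
    (memLp_finsetSum _ fun i _ => hXL i).sub (memLp_const _)
  have hpt : ∀ ω, max (T ω 0 (n • v) - n * (tc v + 3 * δ)) 0 ≤
      (Y ω) ^ 2 / (2 * δ * n) + δ * n / 2 + T ω (m • z) (m • z + s • v) := by
    intro ω
    have h1 : T ω 0 (n • v) ≤ ∑ i ∈ Finset.range m, X i ω + T ω (m • z) (m • z + s • v) := by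
      rw [hnv]
      refine (T_triangle ω 0 (m • z) _).trans ?_
      gcongr
      exact tc_T_le_sum ω R z (by omega) m
    have h2 : Y ω = ∑ i ∈ Finset.range m, X i ω - m * x0 := by
      simp only [hY, hXm, Finset.sum_const, Finset.card_range, nsmul_eq_mul]
    have h3 : (m : ℝ) * x0 ≤ n * (tc v + 3 * δ) := by
      have a1 : x0 ≤ k * (tc v + 2 * δ) := by nlinarith
      calc (m : ℝ) * x0 ≤ m * (k * (tc v + 2 * δ)) := by gcongr
        _ = (m * k) * (tc v + 2 * δ) := by ring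
        _ ≤ n * (tc v + 2 * δ) := by gcongr
        _ ≤ n * (tc v + 3 * δ) := by gcongr; linarith
    have h4 : Y ω ≤ (Y ω) ^ 2 / (2 * δ * n) + δ * n / 2 := by
      rw [← sub_nonneg]
      have : (Y ω) ^ 2 / (2 * δ * n) + δ * n / 2 - Y ω = (Y ω - δ * n) ^ 2 / (2 * δ * n) := by
        field_simp
        ring
      rw [this]
      positivity
    have h5 : 0 ≤ T ω (m • z) (m • z + s • v) := T_nonneg _ _ _
    refine max_le ?_ (by positivity)
    linarith
  have hint1 : Integrable (fun ω => (Y ω) ^ 2) (P μ) := hYL.integrable_sq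
  have hint2 : Integrable (fun ω => (Y ω) ^ 2 / (2 * δ * n) + δ * n / 2) (P μ) :=
    (hint1.div_const _).add (integrable_const _)
  have hint3 := tc_integrable μ hμ (m • z) (m • z + s • v)
  calc ∫ ω, max (T ω 0 (n • v) - n * (tc v + 3 * δ)) 0 ∂(P μ)
      ≤ ∫ ω, ((Y ω) ^ 2 / (2 * δ * n) + δ * n / 2 + T ω (m • z) (m • z + s • v)) ∂(P μ) := by
        refine integral_mono ?_ (hint2.add hint3) hpt
        exact ((tc_integrable μ hμ _ _).sub (integrable_const _)).pos_part
    _ = (∫ ω, (Y ω) ^ 2 ∂(P μ)) / (2 * δ * n) + δ * n / 2 +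
        ∫ ω, T ω (m • z) (m • z + s • v) ∂(P μ) := by
        rw [integral_add hint2 hint3, integral_add (hint1.div_const _) (integrable_const _),
          integral_div]
        simp
    _ ≤ K / (2 * δ) + δ * n / 2 + C * (k * nrm v) := by
        have b1 : (∫ ω, (Y ω) ^ 2 ∂(P μ)) / (2 * δ * n) ≤ K / (2 * δ) := by
          rw [div_le_div_iff₀ (by positivity) (by positivity)]
          have := hvar m
          calc (∫ ω, (Y ω) ^ 2 ∂(P μ)) * (2 * δ) ≤ (K * m) * (2 * δ) := by gcongr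
            _ ≤ (K * n) * (2 * δ) := by gcongr
            _ = K * (2 * δ * n) := by ring
        have b2 : ∫ ω, T ω (m • z) (m • z + s • v) ∂(P μ) ≤ C * (k * nrm v) := by
          refine (hCm _ _).trans ?_
          rw [add_sub_cancel_left, nrm_nsmul]
          push_cast
          gcongr
        linarith
    _ ≤ 3 * δ * n := by nlinarith

variable {μ} in
theorem tc_conv (hμ : MinSq μ) {tc : V → ℝ}
    (h : ∀ v, Tendsto (fun m : ℕ => tcA μ v m / m) atTop (𝓝 (tc v))) (v : V) {ε : ℝ}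
    (hε : 0 < ε) :
    Tendsto (fun m : ℕ => P μ {ω | ε * m < |T ω 0 (m • v) - m * tc v|}) atTop (𝓝 0) := by
  rcases eq_or_ne v 0 with rfl | hv
  · have h0 : tc 0 = 0 := by simpa using tc_nsmul h 0 0
    have : ∀ m : ℕ, {ω : Om | ε * m < |T ω 0 (m • (0 : V)) - m * tc 0|} = ∅ := by
      intro m
      refine Set.eq_empty_of_forall_notMem fun ω hω => ?_
      simp only [Set.mem_ofPred_eq, smul_zero, T_self, h0, mul_zero, sub_zero, abs_zero] at hω
      exact absurd hω (not_lt.mpr (by positivity))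
    simp only [this, measure_empty]
    exact tendsto_const_nhds
  rw [ENNReal.tendsto_nhds_zero]
  intro η hη
  rcases eq_or_ne η ∞ with rfl | hη'
  · exact Eventually.of_forall fun _ => le_top
  have hηR : 0 < η.toReal := ENNReal.toReal_pos hη.ne' hη'
  set δ : ℝ := ε * η.toReal / 13 with hδd
  have hδ : 0 < δ := by positivity
  have h1 : ∀ᶠ m : ℕ in atTop, tc v - δ < tcA μ v m / m :=
    (h v).eventually_const_lt (by linarith)
  filter_upwards [tc_pos_part hμ h hv hδ, h1, eventually_gt_atTop 0] with n hn1 hn2 hn0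
  have hnR : (0 : ℝ) < n := by positivity
  rw [lt_div_iff₀ hnR] at hn2
  have hI : Integrable (fun ω => T ω 0 (n • v) - n * tc v) (P μ) :=
    (tc_integrable μ hμ _ _).sub (integrable_const _)
  have hIm : ∫ ω, (T ω 0 (n • v) - n * tc v) ∂(P μ) = tcA μ v n - n * tc v := by
    rw [integral_sub (tc_integrable μ hμ _ _) (integrable_const _)]
    simp [tcA]
  have hI2 : Integrable (fun ω => max (T ω 0 (n • v) - n * (tc v + 3 * δ)) 0) (P μ) :=
    ((tc_integrable μ hμ _ _).sub (integrable_const _)).pos_part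
  have habs : ∫ ω, |T ω 0 (n • v) - n * tc v| ∂(P μ) ≤ 13 * δ * n := by
    have hpt : ∀ ω, |T ω 0 (n • v) - n * tc v| ≤
        2 * max (T ω 0 (n • v) - n * (tc v + 3 * δ)) 0 + 6 * δ * n -
          (T ω 0 (n • v) - n * tc v) := by
      intro ω
      have a1 := le_max_left (T ω 0 (n • v) - n * (tc v + 3 * δ)) 0
      have a2 := le_max_right (T ω 0 (n • v) - n * (tc v + 3 * δ)) 0
      have a3 : 0 < δ * n := by positivity
      rcases abs_cases (T ω 0 (n • v) - n * tc v) with ⟨h1, h2⟩ | ⟨h1, h2⟩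
      · rw [h1]; nlinarith
      · rw [h1]; nlinarith
    have hJ1 : Integrable (fun ω => 2 * max (T ω 0 (n • v) - n * (tc v + 3 * δ)) 0
        + 6 * δ * n) (P μ) := (hI2.const_mul 2).add (integrable_const _)
    have hJ : Integrable (fun ω => 2 * max (T ω 0 (n • v) - n * (tc v + 3 * δ)) 0
        + 6 * δ * n - (T ω 0 (n • v) - n * tc v)) (P μ) := hJ1.sub hI
    refine (integral_mono hI.abs hJ hpt).trans ?_
    rw [integral_sub hJ1 hI, integral_add (hI2.const_mul 2) (integrable_const _),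
      integral_const_mul, hIm]
    simp only [integral_const, probReal_univ, smul_eq_mul, one_mul]
    nlinarith
  have hM := mul_meas_ge_le_integral_of_nonneg
    (Eventually.of_forall fun ω => abs_nonneg (T ω 0 (n • v) - n * tc v)) hI.abs (ε * n)
  have hM2 : (P μ).real {ω | ε * n ≤ |T ω 0 (n • v) - n * tc v|} ≤ η.toReal := by
    have h13 : 13 * δ * n = ε * n * η.toReal := by rw [hδd]; ring
    have : ε * n * (P μ).real {ω | ε * n ≤ |T ω 0 (n • v) - n * tc v|} ≤
        ε * n * η.toReal := by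
      rw [← h13]; exact hM.trans habs
    exact le_of_mul_le_mul_left this (by positivity)
  calc P μ {ω | ε * n < |T ω 0 (n • v) - n * tc v|}
      ≤ P μ {ω | ε * n ≤ |T ω 0 (n • v) - n * tc v|} :=
        measure_mono fun ω hω => by
          simp only [Set.mem_ofPred_eq] at hω ⊢
          exact hω.le
    _ = ENNReal.ofReal ((P μ).real {ω | ε * n ≤ |T ω 0 (n • v) - n * tc v|}) := by
        rw [ofReal_measureReal]
    _ ≤ ENNReal.ofReal η.toReal := ENNReal.ofReal_le_ofReal hM2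
    _ = η := ENNReal.ofReal_toReal hη'

end Means

variable (μ : Measure ℝ≥0) [IsProbabilityMeasure μ] [NullSingletonClass μ]

/-- The time constant exists.  `tc v = lim E T(0, m v) / m` (Fekete, `Subadditive.tendsto_lim`).
Convergence in probability: for fixed `k` and `R` large, `T(0, m k v) ≤ ∑_{i<m} X_i` with
`X_i = TR R (i k v) ((i+1) k v)`, which are square integrable, stationary and finite-range, so
`∑ X_i / m → E X_0 ≤ k (tc v + δ)` in `L²` by `var_sum_le`; hence `E (T(0, n v)/n - tc v)^+ → 0`,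
and since `E T(0, n v)/n → tc v` also `E (T(0, n v)/n - tc v)^- → 0`. -/
theorem exists_tc (hμ : MinSq μ) : ∃ tc : V → ℝ, TCProps μ tc := by
  choose tc h using tc_exists_lim μ hμ
  exact ⟨tc, tc_nonneg h, tc_add_le hμ h, tc_smul h, tc_upper hμ h, tc_lower hμ h,
    fun v ε hε => tc_conv hμ h v hε⟩

/-- Supporting functionals (two-dimensional Hahn-Banach by hand: choose `ρ · q = tc q` and
`ρ · q^⊥ = β` with `β` between the sup of the lower and the inf of the upper constraints). -/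
theorem exists_support {tc : V → ℝ} (h : TCProps μ tc) {q : V} (hq : q ≠ 0) :
    ∃ ρ : ℝ × ℝ, (∀ v, dot ρ v ≤ tc v) ∧ dot ρ q = tc q := by
  obtain ⟨p, hp⟩ : ∃ p : V, p = (-q.2, q.1) := ⟨_, rfl⟩
  obtain ⟨Q, hQ⟩ : ∃ Q : ℤ, Q = q.1 ^ 2 + q.2 ^ 2 := ⟨_, rfl⟩
  have hQ0 : 0 < Q := by
    rw [hQ]
    by_contra hcon
    push Not at hcon
    have h1 : q.1 ^ 2 = 0 := le_antisymm (by nlinarith [sq_nonneg q.2]) (sq_nonneg _)
    have h2 : q.2 ^ 2 = 0 := le_antisymm (by nlinarith [sq_nonneg q.1]) (sq_nonneg _)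
    exact hq (Prod.ext (pow_eq_zero_iff two_ne_zero |>.1 h1) (pow_eq_zero_iff two_ne_zero |>.1 h2))
  have hQR : (0 : ℝ) < Q := by exact_mod_cast hQ0
  have hq0 := h.nonneg q
  have key : ∀ a b a' b' : ℤ, 0 < b → 0 < b' →
      (a * tc q - tc (a • q - b • p)) / b ≤ (tc (a' • q + b' • p) - a' * tc q) / b' := by
    intro a b a' b' hb hb'
    have hbR : (0 : ℝ) < b := by exact_mod_cast hb
    have hbR' : (0 : ℝ) < b' := by exact_mod_cast hb'
    rw [div_le_div_iff₀ hbR hbR']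
    have e : b' • (a • q - b • p) + b • (a' • q + b' • p) = (a * b' + a' * b) • q := by
      ext <;> simp <;> ring
    have h1 := h.add_le (b' • (a • q - b • p)) (b • (a' • q + b' • p))
    rw [e, h.smul, h.smul, h.smul, abs_of_pos hbR, abs_of_pos hbR'] at h1
    have h2 := le_abs_self ((a * b' + a' * b : ℤ) : ℝ)
    have h3 := mul_le_mul_of_nonneg_right h2 hq0
    push_cast at h1 h3
    nlinarith
  obtain ⟨A, hA⟩ : ∃ A : Set ℝ, A = {x | ∃ a b : ℤ, 0 < b ∧
    x = (a * tc q - tc (a • q - b • p)) / b} := ⟨_, rfl⟩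
  obtain ⟨β, hβ⟩ : ∃ β : ℝ, β = sSup A := ⟨_, rfl⟩
  have hAn : A.Nonempty := ⟨_, by rw [hA]; exact ⟨0, 1, one_pos, rfl⟩⟩
  have hAb : ∀ a' b' : ℤ, 0 < b' → (tc (a' • q + b' • p) - a' * tc q) / b' ∈ upperBounds A := by
    intro a' b' hb' x hx
    rw [hA] at hx
    obtain ⟨a, b, hb, rfl⟩ := hx
    exact key a b a' b' hb hb'
  have hlow : ∀ a b : ℤ, 0 < b → (a * tc q - tc (a • q - b • p)) / b ≤ β := by
    intro a b hb
    rw [hβ]
    exact le_csSup ⟨_, hAb 0 1 one_pos⟩ (by rw [hA]; exact ⟨a, b, hb, rfl⟩)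
  have hup : ∀ a b : ℤ, 0 < b → β ≤ (tc (a • q + b • p) - a * tc q) / b := by
    intro a b hb
    rw [hβ]
    exact csSup_le hAn (hAb a b hb)
  have comb : ∀ a b : ℤ, a * tc q + b * β ≤ tc (a • q + b • p) := by
    intro a b
    rcases lt_trichotomy b 0 with hb | rfl | hb
    · have hb' : 0 < -b := by omega
      have hbR : (0 : ℝ) < ((-b : ℤ) : ℝ) := by exact_mod_cast hb'
      have h1 := hlow a (-b) hb'
      rw [div_le_iff₀ hbR] at h1
      have e : a • q - (-b) • p = a • q + b • p := by simp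
      rw [e] at h1
      push_cast at h1
      linarith
    · have h1 := h.smul a q
      have h2 := mul_le_mul_of_nonneg_right (le_abs_self (a : ℝ)) hq0
      simp only [zero_smul, add_zero, Int.cast_zero, zero_mul]
      rw [h1]
      exact h2
    · have hbR : (0 : ℝ) < b := by exact_mod_cast hb
      have h1 := hup a b hb
      rw [le_div_iff₀ hbR] at h1
      linarith
  refine ⟨((tc q * q.1 - β * q.2) / Q, (tc q * q.2 + β * q.1) / Q), ?_, ?_⟩
  · intro v
    have e : (v.1 * q.1 + v.2 * q.2) • q + (-v.1 * q.2 + v.2 * q.1) • p = Q • v := by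
      rw [hp, hQ]
      ext <;> simp <;> ring
    have h1 := comb (v.1 * q.1 + v.2 * q.2) (-v.1 * q.2 + v.2 * q.1)
    rw [e, h.smul, abs_of_pos hQR] at h1
    have h2 : dot ((tc q * q.1 - β * q.2) / Q, (tc q * q.2 + β * q.1) / Q) v =
        (((v.1 * q.1 + v.2 * q.2 : ℤ) : ℝ) * tc q + ((-v.1 * q.2 + v.2 * q.1 : ℤ) : ℝ) * β) / Q := by
      simp only [dot]
      push_cast
      field_simp
      ring
    rw [h2, div_le_iff₀ hQR]
    linarith
  · have hQR' : (Q : ℝ) = (q.1 : ℝ) ^ 2 + (q.2 : ℝ) ^ 2 := by rw [hQ]; push_cast; ring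
    have h2 : dot ((tc q * q.1 - β * q.2) / Q, (tc q * q.2 + β * q.1) / Q) q =
        (tc q * ((q.1 : ℝ) ^ 2 + (q.2 : ℝ) ^ 2)) / Q := by
      simp only [dot]
      field_simp
      ring
    rw [h2, ← hQR', mul_div_assoc, div_self hQR.ne', mul_one]

end FPP
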