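import Pool.Agent.helper96.FPP.Count
import Pool.Agent.helper96.FPP.Fast
import Pool.Agent.helper96.FPP.TimeConst
import Pool.Agent.helper96.FPP.Balance
import Pool.Agent.helper96.FPP.FlowLines

/-!
# Module O (Final)
-/

open MeasureTheory Filter Topology
open scoped NNReal ENNReal BoundedContinuousFunction

namespace FPP

theorem fastc_mono (tc : V → ℝ) {ε ε' : ℝ} (h : ε' ≤ ε) (ω : Om) (p : ℕ → V) (N M : ℕ) :
    fastc tc ε ω p N M ≤ fastc tc ε' ω p N M := by
  classical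
  unfold fastc
  refine Finset.card_le_card fun i hi => ?_
  simp only [Finset.mem_filter] at hi ⊢
  refine ⟨hi.1, lt_of_lt_of_le hi.2 ?_⟩
  have : ε' * (N : ℝ) ≤ ε * N := mul_le_mul_of_nonneg_right h (Nat.cast_nonneg N)
  linarith

theorem FewFast.mono {tc : V → ℝ} {ε ε' κ κ' : ℝ} (hε : ε' ≤ ε) (hκ : κ' ≤ κ) {N : ℕ} {ω : Om}
    (h : FewFast tc ε' κ' N ω) : FewFast tc ε κ N ω := by
  intro x
  obtain ⟨M₀, hM₀⟩ := h x
  refine ⟨M₀, fun M hM p hp0 hp => ?_⟩
  have h1 := hM₀ M hM p hp0 hp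
  have h2 : (fastc tc ε ω p N M : ℝ) ≤ fastc tc ε' ω p N M := by
    exact_mod_cast fastc_mono tc hε ω p N M
  have h3 : κ' * (M : ℝ) ≤ κ * M := mul_le_mul_of_nonneg_right hκ (Nat.cast_nonneg M)
  linarith

theorem continuous_dot (v : V) : Continuous fun ρ : ℝ × ℝ => dot ρ v := by
  unfold dot
  fun_prop

theorem abs_dot_sub_le (ρ ρ' : ℝ × ℝ) (v : V) :
    |dot ρ v - dot ρ' v| ≤ (|ρ.1 - ρ'.1| + |ρ.2 - ρ'.2|) * nrm v := by
  have h := abs_dot_le (ρ - ρ') v
  have e : dot (ρ - ρ') v = dot ρ v - dot ρ' v := by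
    simp only [dot, Prod.fst_sub, Prod.snd_sub]; ring
  rw [e] at h
  exact h

theorem nrm_ray_le {ω : Om} {g : ℕ → V} (hg : IsGeodesicRay ω g) (n : ℕ) :
    nrm (g n - g 0) ≤ n := by
  have := nrm_path_le (p := g) (n := n) (fun k _ => hg.adj k) (Nat.zero_le n) le_rfl
  simpa using this

theorem main (μ : Measure ℝ≥0) [IsProbabilityMeasure μ] (hc : ∀ s, μ {s} = 0) (hμ : MinSq μ) :
    ∀ᵐ ω ∂(P μ), ∀ g, IsGeodesicRay ω g → ∀ ν : Measure Om, IsProbabilityMeasure ν →
      IsWeakLimit ω g ν → ν ⟂ₘ P μ := by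
  have : NullSingletonClass μ := ⟨hc⟩
  obtain ⟨tc, htc⟩ := exists_tc μ hμ
  obtain ⟨C, hC0, hC⟩ := htc.upper
  obtain ⟨c, hc0, hclow⟩ := htc.lower
  -- few fast blocks for all scales
  have hff : ∀ j : ℕ, ∃ N : ℕ, 0 < N ∧
      ∀ᵐ ω ∂(P μ), FewFast tc (1 / ((j : ℝ) + 1)) (1 / ((j : ℝ) + 1)) N ω := by
    intro j
    obtain ⟨N₀, hN₀⟩ := ae_fewFast μ hμ htc (ε := 1 / ((j : ℝ) + 1)) (κ := 1 / ((j : ℝ) + 1))
      (by positivity) (by positivity)
    exact ⟨N₀ + 1, Nat.succ_pos _, hN₀ (N₀ + 1) (Nat.le_succ _)⟩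
  choose N hN0 hN using hff
  have hN' := ae_all_iff.mpr hN
  filter_upwards [ae_geodesic_UB μ hμ htc, hN'] with ω hUB hFF g hg ν hν hlim
  by_contra hsing
  -- few fast blocks
  have hfew : ∀ ε κ : ℝ, 0 < ε → 0 < κ → ∃ N : ℕ, 0 < N ∧ FewFast tc ε κ N ω := by
    intro ε κ hε hκ
    obtain ⟨j, hj⟩ := exists_nat_one_div_lt (lt_min hε hκ)
    exact ⟨N j, hN0 j, (hFF j).mono (hj.le.trans (min_le_left _ _))
      (hj.le.trans (min_le_right _ _))⟩
  -- good subsequence
  obtain ⟨φ, hφ, hφ'⟩ := Filter.extraction_forall_of_frequently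
    (P := fun i n : ℕ => T ω (g 0) (g n) ≤ tc (g n - g 0) + 1 / ((i : ℝ) + 1) * n)
    (fun i => hUB g hg _ (by positivity))
  -- supporting functionals
  have htc0 : tc 0 = 0 := by
    have := htc.smul 0 0
    simpa using this
  have hsup : ∀ n, ∃ ρ : ℝ × ℝ, (∀ v, dot ρ v ≤ tc v) ∧
      dot ρ (g n - g 0) = tc (g n - g 0) := by
    intro n
    by_cases h0 : g n - g 0 = 0
    · obtain ⟨ρ, h1, _⟩ := exists_support μ htc (q := (1, 0)) (by simp)
      exact ⟨ρ, h1, by rw [h0, dot_zero, htc0]⟩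
    · exact exists_support μ htc h0
  choose ρs hρs1 hρs2 using hsup
  have hbd : ∀ n, ρs n ∈ (Set.Icc (-C) C ×ˢ Set.Icc (-C) C : Set (ℝ × ℝ)) := by
    intro n
    have a1 := (hρs1 n (1, 0)).trans (hC (1, 0))
    have a2 := (hρs1 n (-1, 0)).trans (hC (-1, 0))
    have a3 := (hρs1 n (0, 1)).trans (hC (0, 1))
    have a4 := (hρs1 n (0, -1)).trans (hC (0, -1))
    simp [dot, nrm] at a1 a2 a3 a4
    exact ⟨⟨by linarith, a1⟩, ⟨by linarith, a3⟩⟩
  have hcpt : IsCompact (Set.Icc (-C) C ×ˢ Set.Icc (-C) C : Set (ℝ × ℝ)) :=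
    isCompact_Icc.prod isCompact_Icc
  set F₀ : Ultrafilter ℕ := hyperfilter ℕ with hF₀
  have hF₀top : (F₀ : Filter ℕ) ≤ atTop := by
    rw [← Nat.cofinite_eq_atTop]; exact hyperfilter_le_cofinite
  obtain ⟨ρ, -, hρlim'⟩ := hcpt.ultrafilter_le_nhds (F₀.map fun i => ρs (φ i))
    (by
      rw [Filter.le_principal_iff, Ultrafilter.mem_coe, Ultrafilter.mem_map]
      exact Filter.univ_mem' fun i => hbd (φ i))
  have hρlim : Tendsto (fun i => ρs (φ i)) F₀ (𝓝 ρ) := hρlim'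
  have hdiff : Tendsto (fun i => |(ρs (φ i)).1 - ρ.1| + |(ρs (φ i)).2 - ρ.2|) F₀ (𝓝 0) := by
    have h1 : Tendsto (fun i => (ρs (φ i)).1) F₀ (𝓝 ρ.1) :=
      (continuous_fst.tendsto ρ).comp hρlim
    have h2 : Tendsto (fun i => (ρs (φ i)).2) F₀ (𝓝 ρ.2) :=
      (continuous_snd.tendsto ρ).comp hρlim
    have := ((h1.sub_const ρ.1).abs).add ((h2.sub_const ρ.2).abs)
    simpa using this
  have hone : Tendsto (fun i : ℕ => 1 / ((i : ℝ) + 1)) F₀ (𝓝 0) :=
    tendsto_one_div_add_atTop_nhds_zero_nat.mono_left hF₀top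
  have hρle : ∀ v, dot ρ v ≤ tc v := by
    intro v
    have h1 : Tendsto (fun i => dot (ρs (φ i)) v) F₀ (𝓝 (dot ρ v)) :=
      ((continuous_dot v).tendsto ρ).comp hρlim
    exact le_of_tendsto h1 (Eventually.of_forall fun i => hρs1 (φ i) v)
  have hne : ∀ i : ℕ, 1 ≤ i → g (φ i) - g 0 ≠ 0 := by
    intro i hi h0
    have h1 : φ i = 0 := hg.inj (sub_eq_zero.mp h0)
    have h2 : i ≤ φ i := hφ.id_le i
    omega
  have hSupp : Supp tc ρ := by
    refine ⟨hρle, fun ε hε => ?_⟩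
    have hδ : 0 < c * (ε / (1 + ε)) := by positivity
    have h1 := hdiff.eventually (gt_mem_nhds hδ)
    have h2 : ∀ᶠ i : ℕ in F₀, 1 ≤ i := hF₀top (eventually_ge_atTop 1)
    obtain ⟨i, hi1, hi2⟩ := (h1.and h2).exists
    refine ⟨g (φ i) - g 0, hne i hi2, ?_⟩
    set v := g (φ i) - g 0 with hv
    have a1 := abs_dot_sub_le (ρs (φ i)) ρ v
    have a2 := (abs_le.mp a1).2
    rw [hρs2] at a2
    have a3 := hclow v
    have hn : (0 : ℝ) ≤ nrm v := Nat.cast_nonneg _
    have a4 : (|(ρs (φ i)).1 - ρ.1| + |(ρs (φ i)).2 - ρ.2|) * nrm v ≤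
        c * (ε / (1 + ε)) * nrm v := mul_le_mul_of_nonneg_right hi1.le hn
    have a5 : c * (ε / (1 + ε)) * nrm v ≤ ε / (1 + ε) * tc v := by
      have : 0 ≤ ε / (1 + ε) := by positivity
      nlinarith [mul_le_mul_of_nonneg_left a3 this]
    have a6 : tc v - dot ρ v ≤ ε / (1 + ε) * tc v := by linarith
    have a7 : tc v - ε / (1 + ε) * tc v = tc v / (1 + ε) := by field_simp; ring
    have a8 : tc v / (1 + ε) ≤ dot ρ v := by linarith
    rw [div_le_iff₀ (by positivity)] at a8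
    linarith
  have hρ0 : ρ ≠ 0 := by
    rintro rfl
    obtain ⟨v, hv, hv'⟩ := hSupp.2 1 one_pos
    have h1 : dot (0 : ℝ × ℝ) v = 0 := by simp [dot]
    rw [h1, mul_zero] at hv'
    have h2 := hclow v
    have h3 : (0 : ℝ) < nrm v := by exact_mod_cast nrm_pos hv
    nlinarith
  -- the ultrafilter
  set F : Ultrafilter ℕ := F₀.map φ with hF
  have hFtop : (F : Filter ℕ) ≤ atTop := by
    have : Tendsto φ F₀ atTop := hφ.tendsto_atTop.mono_left hF₀top
    exact this
  have hlimF : ∀ ε : ℝ, 0 < ε → ∀ᶠ n : ℕ in F, T ω (g 0) (g n) - dot ρ (g n - g 0) ≤ ε * n := by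
    intro ε hε
    have h1 := hdiff.eventually (gt_mem_nhds (half_pos hε))
    have h2 := hone.eventually (gt_mem_nhds (half_pos hε))
    show ∀ᶠ n : ℕ in Filter.map φ F₀, T ω (g 0) (g n) - dot ρ (g n - g 0) ≤ ε * n
    rw [Filter.eventually_map]
    filter_upwards [h1, h2] with i hi1 hi2
    have a1 := hφ' i
    have a2 := abs_dot_sub_le (ρs (φ i)) ρ (g (φ i) - g 0)
    have a3 := (abs_le.mp a2).2
    rw [hρs2] at a3
    have a4 : ((nrm (g (φ i) - g 0) : ℕ) : ℝ) ≤ φ i := by exact_mod_cast nrm_ray_le hg (φ i)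
    have hd0 : 0 ≤ |(ρs (φ i)).1 - ρ.1| + |(ρs (φ i)).2 - ρ.2| := by positivity
    have a5 := mul_le_mul_of_nonneg_left a4 hd0
    have hφ0 : (0 : ℝ) ≤ φ i := Nat.cast_nonneg _
    have a6 := mul_le_mul_of_nonneg_right hi1.le hφ0
    have a7 := mul_le_mul_of_nonneg_right hi2.le hφ0
    linarith
  -- steps and block limits
  choose s hs using hg.adj
  obtain ⟨m, hm⟩ := exists_blockLimit ω g s hs ν hlim F hFtop
  -- the shift invariant set
  obtain ⟨s₀, hs₀, hs₀1, hs₀2⟩ := Measure.mutuallySingular_singularPart ν (P μ)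
  set Z : Set Om := ⋂ v : V, shift v ⁻¹' s₀ with hZdef
  have hZ : MeasurableSet Z := MeasurableSet.iInter fun v => measurable_shift v hs₀
  have hZinv : ∀ v ω', shift v ω' ∈ Z ↔ ω' ∈ Z := by
    intro v ω'
    simp only [hZdef, Set.mem_iInter, Set.mem_preimage]
    constructor
    · intro h w
      have := h (w - v)
      rwa [shift_shift, sub_add_cancel] at this
    · intro h w
      rw [shift_shift]
      exact h _
  have hZsub : Z ⊆ s₀ := by
    intro ω' h
    have := Set.mem_iInter.mp h 0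
    rwa [Set.mem_preimage, shift_zero] at this
  have hZP : P μ Zᶜ = 0 := by
    rw [hZdef, Set.compl_iInter]
    refine measure_iUnion_null fun v => ?_
    rw [← Set.preimage_compl, (mp_shift μ v).measure_preimage hs₀.compl.nullMeasurableSet]
    exact hs₀2
  have hac : ν.restrict Z ≪ P μ := by
    refine Measure.AbsolutelyContinuous.mk fun A hA hA0 => ?_
    rw [Measure.restrict_apply hA]
    have h1 : ν = ν.singularPart (P μ) + (P μ).withDensity (ν.rnDeriv (P μ)) :=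
      Measure.haveLebesgueDecomposition_add ν (P μ)
    rw [h1, Measure.add_apply]
    have h2 : ν.singularPart (P μ) (A ∩ Z) = 0 :=
      measure_mono_null (Set.inter_subset_right.trans hZsub) hs₀1
    have h3 : (P μ).withDensity (ν.rnDeriv (P μ)) (A ∩ Z) = 0 :=
      withDensity_absolutelyContinuous _ _ (measure_mono_null Set.inter_subset_left hA0)
    rw [h2, h3, add_zero]
  have hne0 : ν.restrict Z ≠ 0 := by
    intro h0
    apply hsing
    refine ⟨Z, hZ, ?_, hZP⟩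
    have : ν.restrict Z Set.univ = 0 := by rw [h0]; rfl
    simpa using this
  have hbal := balance ⟨C, hC⟩ hρle hg hs hFtop hm hlimF hfew hZ hZinv
  have hrestr : ∀ (f : Dir → Measure Om), (∑ a : Dir, f a).restrict Z =
      ∑ a : Dir, (f a).restrict Z := by
    intro f
    ext A hA
    rw [Measure.restrict_apply hA, Measure.finsetSum_apply, Measure.finsetSum_apply]
    exact Finset.sum_congr rfl fun a _ => (Measure.restrict_apply hA).symm
  have hk : ν.restrict Z = ∑ a : Dir, (m [a]).restrict Z := by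
    have h1 := hm.right []
    rw [hm.nil] at h1
    rw [← hrestr, h1]
    rfl
  have hk' : ν.restrict Z = ∑ a : Dir, ((m [a]).restrict Z).map (shift (vec a)) := by
    have h1 := hm.left []
    rw [hm.nil] at h1
    conv_lhs => rw [h1]
    rw [hrestr]
    refine Finset.sum_congr rfl fun a _ => ?_
    rw [Measure.restrict_map (measurable_shift _) hZ]
    congr 2
    ext ω'
    exact hZinv _ _
  obtain ⟨W, hW, hW'⟩ := exists_lines μ hρ0
    (fun ε hε => tendsto_halfplane μ hμ htc hSupp hε)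
    (fun ε hε => tendsto_halfplane μ hμ htc (ρ := -ρ) (by
      refine ⟨fun v => ?_, fun ε hε => ?_⟩
      · rw [dot_neg_left, ← dot_neg]
        refine (hρle _).trans (le_of_eq ?_)
        have := htc.smul (-1) v
        simpa using this
      · obtain ⟨v, hv, hv'⟩ := hSupp.2 ε hε
        refine ⟨-v, neg_ne_zero.mpr hv, ?_⟩
        rw [dot_neg_left, dot_neg, neg_neg]
        have := htc.smul (-1) v
        simp only [neg_smul, one_smul] at this
        rw [this]
        simpa using hv') hε)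
    (ν.restrict Z) (fun a => (m [a]).restrict Z) hk hk' hac hne0
    (fun a => (hbal.1 a).restrict) hbal.2
  exact hW' (ae_no_lines μ hμ hρ0 hW)

end FPP
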