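import Mathlib

/-!
# Module L (Riesz): positive functionals dominated by a measure
-/

open MeasureTheory Filter Topology
open scoped NNReal ENNReal BoundedContinuousFunction

namespace FPP

/-- An integrable function whose integral against every nonnegative bounded continuous function
is nonnegative is nonnegative almost everywhere. -/
theorem riesz_nonneg {X : Type*} [TopologicalSpace X] [TopologicalSpace.PseudoMetrizableSpace X]
    [MeasurableSpace X] [BorelSpace X] (ν : Measure X) [IsFiniteMeasure ν] {φ : X → ℝ}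
    (hφ : Integrable φ ν) (h : ∀ f : X →ᵇ ℝ, 0 ≤ f → 0 ≤ ∫ x, φ x * f x ∂ν) :
    0 ≤ᵐ[ν] φ := by
  have hcl : ∀ F : Set X, IsClosed F → 0 ≤ ∫ x in F, φ x ∂ν := by
    intro F hF
    have h1 : Tendsto (fun n => ∫ x, φ x * (hF.apprSeq n x : ℝ) ∂ν) atTop
        (𝓝 (∫ x, F.indicator φ x ∂ν)) := by
      refine tendsto_integral_of_dominated_convergence (fun x => |φ x|) ?_ hφ.abs ?_ ?_
      · intro n
        refine hφ.aestronglyMeasurable.mul ?_
        have : Continuous fun x => (hF.apprSeq n x : ℝ) := by fun_prop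
        exact this.aestronglyMeasurable
      · intro n
        refine Eventually.of_forall fun x => ?_
        have h1 : (hF.apprSeq n x : ℝ) ≤ 1 := by
          exact_mod_cast HasOuterApproxClosed.apprSeq_apply_le_one hF n x
        have h0 : 0 ≤ (hF.apprSeq n x : ℝ) := NNReal.coe_nonneg _
        rw [Real.norm_eq_abs, abs_mul, abs_of_nonneg h0]
        exact mul_le_of_le_one_right (abs_nonneg _) h1
      · refine Eventually.of_forall fun x => ?_
        have h1 := tendsto_pi_nhds.mp (HasOuterApproxClosed.tendsto_apprSeq hF) x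
        have h2 : Tendsto (fun n => (hF.apprSeq n x : ℝ)) atTop
            (𝓝 ((F.indicator (fun _ => (1 : ℝ≥0)) x : ℝ≥0) : ℝ)) :=
          (NNReal.tendsto_coe.mpr h1)
        have h3 := h2.const_mul (φ x)
        have h4 : F.indicator φ x = φ x * ((F.indicator (fun _ => (1 : ℝ≥0)) x : ℝ≥0) : ℝ) := by
          by_cases hx : x ∈ F <;> simp [hx]
        rw [h4]
        exact h3
    rw [integral_indicator hF.measurableSet] at h1
    refine ge_of_tendsto' h1 fun n => ?_
    let f : X →ᵇ ℝ := BoundedContinuousFunction.ofNormedAddCommGroup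
      (fun x => (hF.apprSeq n x : ℝ)) (by fun_prop) 1 (fun x => by
        rw [Real.norm_eq_abs, abs_of_nonneg (NNReal.coe_nonneg _)]
        exact_mod_cast HasOuterApproxClosed.apprSeq_apply_le_one hF n x)
    exact h f fun x => NNReal.coe_nonneg _
  refine ae_nonneg_of_forall_setIntegral_nonneg hφ fun s hs _ => ?_
  by_contra hneg
  push Not at hneg
  set ε : ℝ := -∫ x in s, φ x ∂ν with hε
  have hεpos : 0 < ε := by rw [hε]; linarith
  let κ : Measure X := ν.withDensity fun x => ‖φ x‖ₑ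
  have : IsFiniteMeasure κ := isFiniteMeasure_withDensity hφ.2.ne
  have hε' : ENNReal.ofReal (ε / 2) ≠ 0 := by
    rw [Ne, ENNReal.ofReal_eq_zero, not_le]; linarith
  obtain ⟨F, hFs, hF, hlt⟩ := hs.exists_isClosed_sdiff_lt (μ := κ) (measure_ne_top κ s) hε'
  have hd : MeasurableSet (s \ F) := hs.diff hF.measurableSet
  have e1 : κ (s \ F) = ∫⁻ x in s \ F, ‖φ x‖ₑ ∂ν := withDensity_apply _ hd
  have e2 : ∫ x in s, φ x ∂ν = (∫ x in F, φ x ∂ν) + ∫ x in s \ F, φ x ∂ν := by
    rw [← setIntegral_union Set.disjoint_sdiff_right hd hφ.integrableOn hφ.integrableOn,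
      Set.union_sdiff_cancel hFs]
  have e3 : ‖∫ x in s \ F, φ x ∂ν‖ₑ ≤ κ (s \ F) := by
    rw [e1]; exact enorm_integral_le_lintegral_enorm _
  have e4 : ‖∫ x in s \ F, φ x ∂ν‖ₑ < ENNReal.ofReal (ε / 2) := lt_of_le_of_lt e3 hlt
  have e5 : ‖∫ x in s \ F, φ x ∂ν‖ < ε / 2 := by
    rw [← ofReal_norm] at e4
    exact (ENNReal.ofReal_lt_ofReal_iff (by linarith)).mp e4
  have e6 := (abs_lt.mp (by simpa [Real.norm_eq_abs] using e5)).1
  have e7 := hcl F hF
  linarith

/-- A positive linear functional on bounded continuous functions that is dominated by the integral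
with respect to a finite measure `ν` is the integral with respect to a measure `m ≤ ν`.
(Extend it to `L²(ν)` by density of bounded continuous functions and represent it by
`InnerProductSpace.toDual`.) -/
theorem exists_measure_of_le {X : Type*} [TopologicalSpace X] [PolishSpace X]
    [MeasurableSpace X] [BorelSpace X] (ν : Measure X) [IsFiniteMeasure ν]
    (Λ : (X →ᵇ ℝ) → ℝ) (hadd : ∀ f g, Λ (f + g) = Λ f + Λ g)
    (hsmul : ∀ (c : ℝ) f, Λ (c • f) = c * Λ f) (hpos : ∀ f, 0 ≤ f → 0 ≤ Λ f)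
    (hle : ∀ f, 0 ≤ f → Λ f ≤ ∫ x, f x ∂ν) :
    ∃ m : Measure X, m ≤ ν ∧ ∀ f : X →ᵇ ℝ, Λ f = ∫ x, f x ∂m := by
  classical
  let L : (X →ᵇ ℝ) →ₗ[ℝ] ℝ :=
    { toFun := Λ
      map_add' := hadd
      map_smul' := fun c f => by simpa using hsmul c f }
  have hL : ∀ f, L f = Λ f := fun f => rfl
  have hint : ∀ f : X →ᵇ ℝ, Integrable (fun x => f x) ν := fun f => f.integrable ν
  -- `|Λ f| ≤ ∫ |f| dν`
  have habs : ∀ f : X →ᵇ ℝ, |Λ f| ≤ ∫ x, |f x| ∂ν := by
    intro f
    have h1 : (0 : X →ᵇ ℝ) ≤ |f| - f := fun x => by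
      simpa using le_abs_self (f x)
    have h2 : (0 : X →ᵇ ℝ) ≤ |f| + f := fun x => by
      have := neg_abs_le (f x)
      simp; linarith
    have h3 := hpos _ h1
    have h4 := hpos _ h2
    rw [← hL, map_sub] at h3
    rw [← hL, map_add] at h4
    have h5 := hle |f| (fun x => by simp)
    have h6 : ∫ x, (|f| : X →ᵇ ℝ) x ∂ν = ∫ x, |f x| ∂ν := rfl
    rw [h6] at h5
    rw [hL, hL] at h3 h4
    rw [abs_le]
    constructor <;> linarith
  let J : (X →ᵇ ℝ) →L[ℝ] Lp ℝ 2 ν := BoundedContinuousFunction.toLp (E := ℝ) 2 ν ℝ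
  have hJ : ∀ f : X →ᵇ ℝ, J f =ᵐ[ν] f := fun f => BoundedContinuousFunction.coeFn_toLp 2 ν ℝ f
  -- bound in terms of the `L²` norm
  obtain ⟨C, hC⟩ : ∃ C : ℝ, ∀ f : X →ᵇ ℝ, |Λ f| ≤ C * ‖J f‖ := by
    refine ⟨(ν.real Set.univ) ^ ((1 : ℝ) / 1 - 1 / 2), fun f => (habs f).trans ?_⟩
    have h1 : eLpNorm (fun x => f x) 1 ν ≤ eLpNorm (fun x => f x) 2 ν *
        ν Set.univ ^ ((1 : ℝ) / (1 : ℝ≥0∞).toReal - 1 / (2 : ℝ≥0∞).toReal) :=
      eLpNorm_le_eLpNorm_mul_rpow_measure_univ (by norm_num) (hint f).aestronglyMeasurable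
    have h2 : ∫ x, |f x| ∂ν = (eLpNorm (fun x => f x) 1 ν).toReal := by
      rw [eLpNorm_one_eq_lintegral_enorm]
      exact integral_norm_eq_lintegral_enorm (hint f).aestronglyMeasurable
    have h3 : ‖J f‖ = (eLpNorm (fun x => f x) 2 ν).toReal := by
      rw [Lp.norm_def]
      rw [eLpNorm_congr_ae (hJ f)]
    have h4 : eLpNorm (fun x => f x) 2 ν ≠ ∞ := by
      rw [← eLpNorm_congr_ae (hJ f)]
      exact Lp.eLpNorm_ne_top _
    rw [h2, h3]
    have h5 : eLpNorm (fun x => f x) 2 ν *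
        ν Set.univ ^ ((1 : ℝ) / (1 : ℝ≥0∞).toReal - 1 / (2 : ℝ≥0∞).toReal) ≠ ∞ := by
      refine ENNReal.mul_ne_top h4 (ENNReal.rpow_ne_top_of_nonneg ?_ (measure_ne_top _ _))
      norm_num
    have h6 := ENNReal.toReal_mono h5 h1
    refine h6.trans (le_of_eq ?_)
    rw [ENNReal.toReal_mul, mul_comm, ← ENNReal.toReal_rpow]
    simp [Measure.real]
  have hker : ∀ f, J f = 0 → Λ f = 0 := by
    intro f hf
    have := hC f
    rw [hf, norm_zero, mul_zero] at this
    exact abs_eq_zero.mp (le_antisymm this (abs_nonneg _))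
  -- functional on the range
  let R : Submodule ℝ (Lp ℝ 2 ν) := LinearMap.range (J : (X →ᵇ ℝ) →ₗ[ℝ] Lp ℝ 2 ν)
  have hR : ∀ y : R, ∃ f : X →ᵇ ℝ, J f = y.1 := fun y => y.2
  choose pre hpre using hR
  have hΛpre : ∀ (y : R) (f : X →ᵇ ℝ), J f = y.1 → Λ (pre y) = Λ f := by
    intro y f hf
    have h1 : J (pre y - f) = 0 := by rw [map_sub, hpre, hf, sub_self]
    have h2 := hker _ h1
    rw [← hL, map_sub] at h2
    exact sub_eq_zero.mp h2
  let g0 : R →ₗ[ℝ] ℝ :=
    { toFun := fun y => Λ (pre y)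
      map_add' := fun y z => by
        rw [← hadd]
        exact hΛpre _ _ (by rw [map_add, hpre, hpre]; rfl)
      map_smul' := fun c y => by
        simp only [RingHom.id_apply, smul_eq_mul]
        rw [← hsmul]
        exact hΛpre _ _ (by rw [map_smul, hpre]; rfl) }
  let g1 : StrongDual ℝ R := g0.mkContinuous C fun y => by
    have := hC (pre y)
    rw [hpre] at this
    exact this
  obtain ⟨g, hg, _⟩ := exists_extension_norm_eq (𝕜 := ℝ) R g1
  have hg' : ∀ f : X →ᵇ ℝ, g (J f) = Λ f := by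
    intro f
    have h1 := hg ⟨J f, ⟨f, rfl⟩⟩
    rw [h1]
    exact hΛpre _ _ rfl
  let φ : Lp ℝ 2 ν := (InnerProductSpace.toDual ℝ (Lp ℝ 2 ν)).symm g
  have hφmem : MemLp φ 2 ν := Lp.memLp φ
  have hφint : Integrable φ ν := hφmem.integrable (by norm_num)
  have hφ : ∀ f : X →ᵇ ℝ, Λ f = ∫ x, φ x * f x ∂ν := by
    intro f
    rw [← hg', ← InnerProductSpace.toDual_symm_apply (𝕜 := ℝ), L2.inner_def]
    refine integral_congr_ae ?_
    filter_upwards [hJ f] with x hx
    rw [hx]
    simp [φ, mul_comm]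
  have h0 : 0 ≤ᵐ[ν] φ := riesz_nonneg ν hφint fun f hf => by
    rw [← hφ]; exact hpos f hf
  have h1 : 0 ≤ᵐ[ν] fun x => 1 - φ x := by
    refine riesz_nonneg ν ((integrable_const 1).sub hφint) fun f hf => ?_
    have e1 : ∫ x, (1 - φ x) * f x ∂ν = ∫ x, f x ∂ν - ∫ x, φ x * f x ∂ν := by
      rw [← integral_sub (hint f)]
      · refine integral_congr_ae (Eventually.of_forall fun x => ?_)
        simp only; ring
      · have := hφint.mul_bdd (c := ‖f‖) f.continuous.aestronglyMeasurable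
          (Eventually.of_forall fun x => f.norm_coe_le_norm x)
        exact this
    rw [e1, ← hφ]
    have := hle f hf
    linarith
  refine ⟨ν.withDensity fun x => ENNReal.ofReal (φ x), ?_, fun f => ?_⟩
  · calc ν.withDensity (fun x => ENNReal.ofReal (φ x)) ≤ ν.withDensity (fun _ => 1) := by
          refine withDensity_mono ?_
          filter_upwards [h1] with x hx
          have hx' : φ x ≤ 1 := by simpa using hx
          rw [← ENNReal.ofReal_one]
          exact ENNReal.ofReal_le_ofReal hx'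
      _ = ν := withDensity_one
  · rw [hφ, integral_withDensity_eq_integral_toReal_smul₀]
    · refine integral_congr_ae ?_
      filter_upwards [h0] with x hx
      rw [ENNReal.toReal_ofReal hx, smul_eq_mul]
    · exact hφint.aestronglyMeasurable.aemeasurable.ennreal_ofReal
    · exact Eventually.of_forall fun x => ENNReal.ofReal_lt_top

end FPP
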