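import Pool.Agent.helper96.FPP.Walk
import Pool.Agent.helper96.FPP.Riesz

/-!
# Module M1 (Flow): block limits along a path
-/

open MeasureTheory Filter Topology
open scoped NNReal ENNReal BoundedContinuousFunction

namespace FPP

/-! ### Blocks -/

theorem flow_blk_length (s : ℕ → Dir) (k n : ℕ) : (blk s k n).length = n := by simp [blk]

theorem flow_blk_zero (s : ℕ → Dir) (k : ℕ) : blk s k 0 = [] := by simp [blk]

theorem flow_blk_succ (s : ℕ → Dir) (k n : ℕ) : blk s k (n + 1) = blk s k n ++ [s (k + n)] := by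
  simp [blk, List.range_succ]

theorem flow_blk_succ' (s : ℕ → Dir) (k n : ℕ) : blk s k (n + 1) = s k :: blk s (k + 1) n := by
  simp only [blk, List.range_succ_eq_map, List.map_cons, List.map_map, add_zero]
  congr 1
  refine List.map_congr_left fun i _ => ?_
  simp only [Function.comp_apply]
  congr 1
  omega

/-- The average along the path of `h` over the times at which the block `γ` starts. -/
noncomputable def flowAvg (ω : Om) (g : ℕ → V) (s : ℕ → Dir) (γ : List Dir) (h : Om → ℝ)
    (n : ℕ) : ℝ :=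
  (∑ k ∈ Finset.range n, if blk s k γ.length = γ then h (shift (g k) ω) else 0) / n

theorem flowAvg_abs_le (ω : Om) (g : ℕ → V) (s : ℕ → Dir) (γ : List Dir) (h : Om →ᵇ ℝ) (n : ℕ) :
    |flowAvg ω g s γ h n| ≤ ‖h‖ := by
  unfold flowAvg
  rcases Nat.eq_zero_or_pos n with rfl | hn
  · simp
  · have hn' : (0 : ℝ) < n := by exact_mod_cast hn
    rw [abs_div, abs_of_pos hn', div_le_iff₀ hn']
    calc |∑ k ∈ Finset.range n, if blk s k γ.length = γ then h (shift (g k) ω) else 0|
        ≤ ∑ k ∈ Finset.range n, |if blk s k γ.length = γ then h (shift (g k) ω) else 0| :=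
          Finset.abs_sum_le_sum_abs _ _
      _ ≤ ∑ _k ∈ Finset.range n, ‖h‖ := by
          refine Finset.sum_le_sum fun k _ => ?_
          split_ifs
          · exact h.norm_coe_le_norm _
          · simp
      _ = ‖h‖ * n := by simp [mul_comm]

theorem flowAvg_add (ω : Om) (g : ℕ → V) (s : ℕ → Dir) (γ : List Dir) (h h' : Om → ℝ) (n : ℕ) :
    flowAvg ω g s γ (h + h') n = flowAvg ω g s γ h n + flowAvg ω g s γ h' n := by
  unfold flowAvg
  rw [← add_div, ← Finset.sum_add_distrib]
  congr 1
  refine Finset.sum_congr rfl fun k _ => ?_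
  split_ifs <;> simp

theorem flowAvg_smul (ω : Om) (g : ℕ → V) (s : ℕ → Dir) (γ : List Dir) (c : ℝ) (h : Om → ℝ)
    (n : ℕ) : flowAvg ω g s γ (c • h) n = c * flowAvg ω g s γ h n := by
  unfold flowAvg
  rw [← mul_div_assoc, Finset.mul_sum]
  congr 1
  refine Finset.sum_congr rfl fun k _ => ?_
  split_ifs <;> simp

theorem flowAvg_nonneg (ω : Om) (g : ℕ → V) (s : ℕ → Dir) (γ : List Dir) {h : Om → ℝ}
    (hh : 0 ≤ h) (n : ℕ) : 0 ≤ flowAvg ω g s γ h n := by
  unfold flowAvg
  refine div_nonneg (Finset.sum_nonneg fun k _ => ?_) (Nat.cast_nonneg n)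
  split_ifs
  · exact hh _
  · exact le_rfl

theorem flowAvg_le (ω : Om) (g : ℕ → V) (s : ℕ → Dir) (γ : List Dir) {h : Om → ℝ}
    (hh : 0 ≤ h) (n : ℕ) : flowAvg ω g s γ h n ≤ flowAvg ω g s [] h n := by
  unfold flowAvg
  refine div_le_div_of_nonneg_right (Finset.sum_le_sum fun k _ => ?_) (Nat.cast_nonneg n)
  rw [List.length_nil, flow_blk_zero, if_pos rfl]
  split_ifs
  · exact le_rfl
  · exact hh _

theorem flowAvg_nil (ω : Om) (g : ℕ → V) (s : ℕ → Dir) (h : Om → ℝ) (n : ℕ) :
    flowAvg ω g s [] h n = (∑ k ∈ Finset.range n, h (shift (g k) ω)) / n := by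
  unfold flowAvg
  simp [flow_blk_zero]

theorem flowAvg_right (ω : Om) (g : ℕ → V) (s : ℕ → Dir) (γ : List Dir) (h : Om → ℝ) (n : ℕ) :
    flowAvg ω g s γ h n = ∑ a : Dir, flowAvg ω g s (γ ++ [a]) h n := by
  unfold flowAvg
  rw [← Finset.sum_div, Finset.sum_comm]
  congr 1
  refine Finset.sum_congr rfl fun k _ => ?_
  rw [Finset.sum_eq_single (s (k + γ.length))]
  · have e : (γ ++ [s (k + γ.length)]).length = γ.length + 1 := by simp
    rw [e, flow_blk_succ]
    by_cases hb : blk s k γ.length = γ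
    · rw [if_pos hb, if_pos (by rw [hb])]
    · rw [if_neg hb, if_neg]
      intro h2
      exact hb (List.append_cancel_right h2)
  · intro b _ hb
    have e : (γ ++ [b]).length = γ.length + 1 := by simp
    rw [e, flow_blk_succ, if_neg]
    intro h2
    have h3 := List.append_inj_right h2 (by rw [flow_blk_length])
    simp only [List.cons.injEq, and_true] at h3
    exact hb h3.symm
  · intro h; exact absurd (Finset.mem_univ _) h

theorem flowAvg_left (ω : Om) (g : ℕ → V) (s : ℕ → Dir)
    (hs : ∀ k, g (k + 1) = g k + vec (s k)) (γ : List Dir) (h : Om → ℝ) (n : ℕ) :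
    (∑ a : Dir, flowAvg ω g s (a :: γ) (fun ω' => h (shift (vec a) ω')) n) =
      (∑ k ∈ Finset.range n,
        if blk s (k + 1) γ.length = γ then h (shift (g (k + 1)) ω) else 0) / n := by
  unfold flowAvg
  rw [← Finset.sum_div, Finset.sum_comm]
  congr 1
  refine Finset.sum_congr rfl fun k _ => ?_
  rw [Finset.sum_eq_single (s k)]
  · have e : (s k :: γ).length = γ.length + 1 := by simp
    simp only
    rw [e, flow_blk_succ', shift_shift, hs k, add_comm (g k)]
    by_cases hb : blk s (k + 1) γ.length = γ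
    · rw [if_pos (by rw [hb]), if_pos hb]
    · rw [if_neg hb, if_neg]
      intro h2
      exact hb (List.cons_injective h2)
  · intro b _ hb
    have e : (b :: γ).length = γ.length + 1 := by simp
    rw [e, flow_blk_succ', if_neg]
    intro h2
    have h3 := (List.cons.inj h2).1
    exact hb h3.symm
  · intro h; exact absurd (Finset.mem_univ _) h

/-- Shifting the time by one does not change the limit of the averages. -/
theorem flowAvg_left_sub (ω : Om) (g : ℕ → V) (s : ℕ → Dir) (hs : ∀ k, g (k + 1) = g k + vec (s k))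
    (γ : List Dir) (h : Om →ᵇ ℝ) (n : ℕ) :
    |(∑ a : Dir, flowAvg ω g s (a :: γ) (fun ω' => h (shift (vec a) ω')) n) -
      flowAvg ω g s γ h n| ≤ 2 * ‖h‖ / n := by
  rw [flowAvg_left ω g s hs γ h n]
  unfold flowAvg
  rw [← sub_div, ← Finset.sum_sub_distrib]
  have e := Finset.sum_range_sub
    (fun k => if blk s k γ.length = γ then h (shift (g k) ω) else 0) n
  rw [e, abs_div, abs_of_nonneg (Nat.cast_nonneg n : (0 : ℝ) ≤ n)]
  refine div_le_div_of_nonneg_right ?_ (Nat.cast_nonneg n)
  have key : ∀ k, |if blk s k γ.length = γ then h (shift (g k) ω) else 0| ≤ ‖h‖ := by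
    intro k
    split_ifs
    · exact h.norm_coe_le_norm _
    · simp
  have h1 := key n
  have h2 := key 0
  have h3 := abs_sub (if blk s n γ.length = γ then h (shift (g n) ω) else 0)
    (if blk s 0 γ.length = γ then h (shift (g 0) ω) else 0)
  linarith

/-- Existence of the limit block measures along an ultrafilter. -/
theorem exists_blockLimit (ω : Om) (g : ℕ → V) (s : ℕ → Dir) (hs : ∀ k, g (k + 1) = g k + vec (s k))
    (ν : Measure Om) [IsProbabilityMeasure ν] (hν : IsWeakLimit ω g ν) (F : Ultrafilter ℕ)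
    (hF : (F : Filter ℕ) ≤ atTop) : ∃ m, IsBlockLimit ω g s F ν m := by
  have hex : ∀ (γ : List Dir) (h : Om →ᵇ ℝ), ∃ l : ℝ,
      Tendsto (flowAvg ω g s γ h) (F : Filter ℕ) (𝓝 l) := by
    intro γ h
    have hc : IsCompact (Set.Icc (-‖h‖) ‖h‖) := isCompact_Icc
    have hm : Set.Icc (-‖h‖) ‖h‖ ∈ F.map (flowAvg ω g s γ h) := by
      rw [Ultrafilter.mem_map]
      refine Filter.mem_of_superset Filter.univ_mem fun n _ => ?_
      exact abs_le.mp (flowAvg_abs_le ω g s γ h n)
    obtain ⟨l, _, hl⟩ := hc.ultrafilter_le_nhds' _ hm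
    exact ⟨l, hl⟩
  choose Λ hΛ using hex
  have hνF : ∀ h : Om →ᵇ ℝ, Tendsto (flowAvg ω g s [] h) (F : Filter ℕ) (𝓝 (∫ ω', h ω' ∂ν)) := by
    intro h
    refine Tendsto.congr (fun n => (flowAvg_nil ω g s h n).symm) ((hν h).mono_left hF)
  have hadd : ∀ γ (f f' : Om →ᵇ ℝ), Λ γ (f + f') = Λ γ f + Λ γ f' := by
    intro γ f f'
    refine tendsto_nhds_unique (hΛ γ (f + f')) ?_
    refine Tendsto.congr (fun n => ?_) ((hΛ γ f).add (hΛ γ f'))
    exact (flowAvg_add ω g s γ f f' n).symm
  have hsmul : ∀ γ (c : ℝ) (f : Om →ᵇ ℝ), Λ γ (c • f) = c * Λ γ f := by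
    intro γ c f
    refine tendsto_nhds_unique (hΛ γ (c • f)) ?_
    refine Tendsto.congr (fun n => ?_) ((hΛ γ f).const_mul c)
    exact (flowAvg_smul ω g s γ c f n).symm
  have hpos : ∀ γ (f : Om →ᵇ ℝ), 0 ≤ f → 0 ≤ Λ γ f := by
    intro γ f hf
    exact ge_of_tendsto' (hΛ γ f) fun n => flowAvg_nonneg ω g s γ (fun x => hf x) n
  have hle : ∀ γ (f : Om →ᵇ ℝ), 0 ≤ f → Λ γ f ≤ ∫ x, f x ∂ν := by
    intro γ f hf
    exact le_of_tendsto_of_tendsto' (hΛ γ f) (hνF f) fun n =>
      flowAvg_le ω g s γ (fun x => hf x) n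
  have hm := fun γ => exists_measure_of_le ν (Λ γ) (hadd γ) (hsmul γ) (hpos γ) (hle γ)
  choose m hmle hmΛ using hm
  have hfin : ∀ γ, IsFiniteMeasure (m γ) := fun γ => isFiniteMeasure_of_le ν (hmle γ)
  refine ⟨m, ?_, hmle, ?_, ?_, ?_⟩
  · refine ext_of_forall_integral_eq_of_IsFiniteMeasure fun f => ?_
    rw [← hmΛ]
    exact tendsto_nhds_unique (hΛ [] f) (hνF f)
  · intro γ
    refine ext_of_forall_integral_eq_of_IsFiniteMeasure fun f => ?_
    rw [integral_finsetSum_measure (fun a _ => f.integrable _)]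
    simp only [← hmΛ]
    refine tendsto_nhds_unique (hΛ γ f) ?_
    refine Tendsto.congr (fun n => (flowAvg_right ω g s γ f n).symm) ?_
    exact tendsto_finsetSum _ fun a _ => hΛ (γ ++ [a]) f
  · intro γ
    have hfin' : ∀ a : Dir, IsFiniteMeasure ((m (a :: γ)).map (shift (vec a))) := fun a =>
      Measure.isFiniteMeasure_map _ _
    refine ext_of_forall_integral_eq_of_IsFiniteMeasure fun f => ?_
    rw [integral_finsetSum_measure (fun a _ => f.integrable _)]
    have e1 : ∀ a : Dir, ∫ x, f x ∂((m (a :: γ)).map (shift (vec a))) =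
        Λ (a :: γ) (f.compContinuous ⟨shift (vec a), continuous_shift (vec a)⟩) := by
      intro a
      rw [hmΛ, integral_map (measurable_shift _).aemeasurable
        f.continuous.aestronglyMeasurable]
      rfl
    simp only [e1]
    rw [← hmΛ]
    refine tendsto_nhds_unique (hΛ γ f) ?_
    have e2 := tendsto_finsetSum (Finset.univ : Finset Dir) fun a _ =>
      hΛ (a :: γ) (f.compContinuous ⟨shift (vec a), continuous_shift (vec a)⟩)
    have e3 : Tendsto (fun n : ℕ =>
        (∑ a : Dir, flowAvg ω g s (a :: γ) (fun ω' => f (shift (vec a) ω')) n) -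
          flowAvg ω g s γ f n) (F : Filter ℕ) (𝓝 0) := by
      have h1 : Tendsto (fun n : ℕ => 2 * ‖f‖ / (n : ℝ)) atTop (𝓝 0) :=
        tendsto_const_div_atTop_nhds_zero_nat _
      exact squeeze_zero_norm (fun n => flowAvg_left_sub ω g s hs γ f n) (h1.mono_left hF)
    have e4 := Tendsto.sub e2 e3
    rw [sub_zero] at e4
    refine Tendsto.congr (fun n => ?_) e4
    have e5 : ∀ a : Dir, flowAvg ω g s (a :: γ)
        (f.compContinuous ⟨shift (vec a), continuous_shift (vec a)⟩) n =
        flowAvg ω g s (a :: γ) (fun ω' => f (shift (vec a) ω')) n := fun a => rfl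
    simp only [e5]
    ring
  · intro γ h
    rw [← hmΛ]
    exact hΛ γ h

theorem flow_take_ofFn_cons {N : ℕ} (γ : Fin N → Dir) (b : Dir) (i : ℕ) :
    (List.ofFn (Fin.cons b γ : Fin (N + 1) → Dir)).take (i + 1) =
      b :: (List.ofFn γ).take i := by
  rw [List.ofFn_cons, List.take_succ_cons]

/-- Marginals of the block measures: the step number `i` of the block and the environment seen
from its starting point. -/
theorem IsBlockLimit.marginal {ω : Om} {g : ℕ → V} {s : ℕ → Dir} {F : Filter ℕ} {ν : Measure Om}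
    {m : List Dir → Measure Om} (h : IsBlockLimit ω g s F ν m) (N i : ℕ) (hi : i < N) (a : Dir) :
    m [a] = ∑ γ : Fin N → Dir, if γ ⟨i, hi⟩ = a then
      (m (List.ofFn γ)).map (shift (disp ((List.ofFn γ).take i))) else 0 := by
  -- iterate `right`
  have hright : ∀ (n : ℕ) (l : List Dir), m l = ∑ γ : Fin n → Dir, m (l ++ List.ofFn γ) := by
    intro n
    induction n with
    | zero => intro l; simp
    | succ n ih =>
      intro l
      rw [ih l, ← (Fin.snocEquiv (fun _ : Fin (n + 1) => Dir)).sum_comp, Fintype.sum_prod_type,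
        Finset.sum_comm]
      refine Finset.sum_congr rfl fun γ _ => ?_
      rw [h.right (l ++ List.ofFn γ)]
      refine Finset.sum_congr rfl fun b _ => ?_
      congr 1
      rw [List.append_assoc]
      congr 1
      have e0 : (Fin.snocEquiv (fun _ : Fin (n + 1) => Dir)) (b, γ) =
        (Fin.snoc γ b : Fin (n + 1) → Dir) := rfl
      rw [e0, List.ofFn_succ']
      simp
  induction i generalizing N with
  | zero =>
    obtain ⟨N, rfl⟩ : ∃ M, N = M + 1 := ⟨N - 1, by omega⟩
    have hid : (shift (disp ([] : List Dir))) = id := by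
      funext ω'; rw [disp_nil, shift_zero]; rfl
    simp only [List.take_zero, hid, Measure.map_id]
    rw [hright N [a], ← (Fin.consEquiv (fun _ : Fin (N + 1) => Dir)).sum_comp,
      Fintype.sum_prod_type]
    rw [Finset.sum_eq_single a]
    · refine Finset.sum_congr rfl fun γ _ => ?_
      simp [Fin.consEquiv]
    · intro b _ hb
      refine Finset.sum_eq_zero fun γ _ => ?_
      rw [if_neg]
      simpa [Fin.consEquiv] using hb
    · intro h; exact absurd (Finset.mem_univ _) h
  | succ i ih =>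
    obtain ⟨N, rfl⟩ : ∃ M, N = M + 1 := ⟨N - 1, by omega⟩
    rw [ih N (by omega), ← (Fin.consEquiv (fun _ : Fin (N + 1) => Dir)).sum_comp,
      Fintype.sum_prod_type, Finset.sum_comm]
    refine Finset.sum_congr rfl fun γ _ => ?_
    have e1 : ∀ b : Dir, (Fin.consEquiv (fun _ : Fin (N + 1) => Dir)) (b, γ) =
        (Fin.cons b γ : Fin (N + 1) → Dir) := fun b => rfl
    simp only [e1]
    have e2 : ∀ b : Dir, (Fin.cons b γ : Fin (N + 1) → Dir) ⟨i + 1, hi⟩ = γ ⟨i, by omega⟩ :=
      fun b => rfl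
    simp only [e2]
    by_cases hγ : γ ⟨i, by omega⟩ = a
    · simp only [if_pos hγ]
      rw [h.left (List.ofFn γ)]
      rw [Measure.map_finset_sum]
      · refine Finset.sum_congr rfl fun b _ => ?_
        rw [Measure.map_map (measurable_shift _) (measurable_shift _)]
        rw [flow_take_ofFn_cons, disp_cons, List.ofFn_cons]
        congr 1
        funext ω'
        simp only [Function.comp_apply]
        rw [shift_shift, add_comm]
      · exact (measurable_shift _).aemeasurable
    · simp only [if_neg hγ]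
      simp

end FPP
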