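import Pool.Agent.helper96.FPP.Walk
import Pool.Agent.helper96.FPP.Prob

/-!
# Module H (Grad): gradient steps
-/

open MeasureTheory Filter Topology
open scoped NNReal ENNReal BoundedContinuousFunction

namespace FPP

variable {ρ : ℝ × ℝ} {W : ℕ → ℝ}

/-! ### Averages -/

/-- Squeeze for averages. -/
theorem avg_squeeze (hW : Tendsto W atTop atTop) {f g : ℝ → ℝ} (hf0 : ∀ t, 0 ≤ f t)
    (hf : ∀ a b, IntervalIntegrable f volume a b) (hg : ∀ a b, IntervalIntegrable g volume a b)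
    {K : ℝ} (hfg : ∀ t, f t ≤ K * g t)
    (h : Tendsto (fun j => (∫ t in (0 : ℝ)..(W j), g t) / W j) atTop (𝓝 0)) :
    Tendsto (fun j => (∫ t in (0 : ℝ)..(W j), f t) / W j) atTop (𝓝 0) := by
  have h' : Tendsto (fun j => K * ((∫ t in (0 : ℝ)..(W j), g t) / W j)) atTop (𝓝 0) := by
    simpa using h.const_mul K
  refine tendsto_of_tendsto_of_tendsto_of_le_of_le' tendsto_const_nhds h' ?_ ?_
  · filter_upwards [hW.eventually_gt_atTop 0] with j hj
    exact div_nonneg (intervalIntegral.integral_nonneg hj.le fun t _ => hf0 t) hj.le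
  · filter_upwards [hW.eventually_gt_atTop 0] with j hj
    rw [← mul_div_assoc, ← intervalIntegral.integral_const_mul]
    refine div_le_div_of_nonneg_right ?_ hj.le
    exact intervalIntegral.integral_mono hj.le (hf _ _) ((hg _ _).const_mul K) hfg

/-- A constant lower bound survives averaging. -/
theorem le_of_avg (hW : Tendsto W atTop atTop) {f : ℝ → ℝ} {c l : ℝ}
    (hf : ∀ a b, IntervalIntegrable f volume a b) (hc : ∀ t, c ≤ f t)
    (h : Tendsto (fun j => (∫ t in (0 : ℝ)..(W j), f t) / W j) atTop (𝓝 l)) : c ≤ l := by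
  refine ge_of_tendsto h ?_
  filter_upwards [hW.eventually_gt_atTop 0] with j hj
  rw [le_div_iff₀ hj]
  have := intervalIntegral.integral_mono (μ := volume) hj.le
    (f := fun _ => c) intervalIntegrable_const (hf _ _) hc
  simpa [mul_comm] using this

/-- Shifting the averaging window. -/
theorem avg_shift (hW : Tendsto W atTop atTop) {f : ℝ → ℝ} {K : ℝ}
    (hf : ∀ a b, IntervalIntegrable f volume a b) (hK : ∀ t, |f t| ≤ K) (c : ℝ) :
    Tendsto (fun j => (∫ t in (0 : ℝ)..(W j), f (t - c)) / W j -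
      (∫ t in (0 : ℝ)..(W j), f t) / W j) atTop (𝓝 0) := by
  have h1 : ∀ j, (∫ t in (0 : ℝ)..(W j), f (t - c)) - (∫ t in (0 : ℝ)..(W j), f t)
      = (∫ t in (0 - c)..0, f t) - ∫ t in (W j - c)..(W j), f t := by
    intro j
    rw [intervalIntegral.integral_comp_sub_right]
    have e1 := intervalIntegral.integral_add_adjacent_intervals (hf (0 - c) 0) (hf 0 (W j))
    have e2 := intervalIntegral.integral_add_adjacent_intervals (hf (0 - c) (W j - c))
      (hf (W j - c) (W j))
    linarith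
  have h2 : ∀ a, |∫ t in (a - c)..a, f t| ≤ K * |c| := by
    intro a
    have := intervalIntegral.norm_integral_le_of_norm_le_const (a := a - c) (b := a) (f := f)
      (C := K) (fun t _ => by simpa using hK t)
    simpa using this
  have h3 : Tendsto (fun j => 2 * (K * |c|) / W j) atTop (𝓝 0) := hW.const_div_atTop _
  refine squeeze_zero_norm' ?_ h3
  filter_upwards [hW.eventually_gt_atTop 0] with j hj
  rw [← sub_div, h1, norm_div, Real.norm_eq_abs, Real.norm_eq_abs, abs_of_pos hj]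
  refine div_le_div_of_nonneg_right ?_ hj.le
  have := abs_sub (∫ t in (0 - c)..0, f t) (∫ t in (W j - c)..(W j), f t)
  linarith [h2 0, h2 (W j)]

/-! ### Deficits along paths -/

/-- The sum of the deficits along a path telescopes. -/
theorem sum_dft (ω : Om) (G : ℤ → V) (s : ℤ) (n : ℕ) (t : ℝ) :
    ∑ i ∈ Finset.range n, dft ρ ω (G (s + i)) (G (s + i + 1)) t
      = lw ω G s n + u ρ ω t (G (s + n)) - u ρ ω t (G s) := by
  induction n with
  | zero => simp [lw]
  | succ n ih =>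
    rw [Finset.sum_range_succ, ih]
    unfold lw dft
    rw [Finset.sum_range_succ]
    push_cast
    rw [← add_assoc]
    ring

theorem lw_zero (ω : Om) (G : ℤ → V) (s : ℤ) : lw ω G s 0 = 0 := by simp [lw]

theorem lw_succ (ω : Om) (G : ℤ → V) (s : ℤ) (n : ℕ) :
    lw ω G s (n + 1) = lw ω G s n + ω (edge (G (s + n)) (G (s + n + 1))) := by
  simp [lw, Finset.sum_range_succ]

theorem lw_nonneg (ω : Om) (G : ℤ → V) (s : ℤ) (n : ℕ) : 0 ≤ lw ω G s n :=
  Finset.sum_nonneg fun _ _ => NNReal.coe_nonneg _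

theorem lw_mono (ω : Om) (G : ℤ → V) (s : ℤ) {m n : ℕ} (h : m ≤ n) : lw ω G s m ≤ lw ω G s n := by
  refine Finset.sum_le_sum_of_subset_of_nonneg ?_ fun _ _ _ => NNReal.coe_nonneg _
  exact Finset.range_mono h

theorem T_le_lw (ω : Om) {G : ℤ → V} (hadj : ∀ k, Adj (G k) (G (k + 1))) (s : ℤ) (n : ℕ) :
    T ω (G s) (G (s + n)) ≤ lw ω G s n := by
  have h := T_le_pw ω (p := fun i : ℕ => G (s + i)) (n := n) (fun k _ => by
    have := hadj (s + k)
    push_cast
    rwa [add_assoc] at this)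
  simp only [Nat.cast_zero, add_zero] at h
  refine h.trans (le_of_eq ?_)
  unfold pw lw
  refine Finset.sum_congr rfl fun i _ => ?_
  push_cast
  rw [add_assoc]

theorem tendsto_sum_dft (hρ : ρ ≠ 0) {ω : Om} {G : ℤ → V}
    (hG : ∀ k, FG ρ W ω (G k) (G (k + 1))) (s : ℤ) (n : ℕ) :
    Tendsto (fun j => (∫ t in (0 : ℝ)..(W j),
      ∑ i ∈ Finset.range n, dft ρ ω (G (s + i)) (G (s + i + 1)) t) / W j) atTop (𝓝 0) := by
  have : (fun j => (∫ t in (0 : ℝ)..(W j),
      ∑ i ∈ Finset.range n, dft ρ ω (G (s + i)) (G (s + i + 1)) t) / W j) =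
      fun j => ∑ i ∈ Finset.range n,
        (∫ t in (0 : ℝ)..(W j), dft ρ ω (G (s + i)) (G (s + i + 1)) t) / W j := by
    funext j
    rw [intervalIntegral.integral_finsetSum fun i _ => intervalIntegrable_dft hρ ω _ _ _ _,
      Finset.sum_div]
  rw [this]
  have h := tendsto_finsetSum (Finset.range n) fun i _ => hG (s + i)
  simpa using h

theorem intervalIntegrable_sum_dft (hρ : ρ ≠ 0) (ω : Om) (G : ℤ → V) (s : ℤ) (n : ℕ) (a b : ℝ) :
    IntervalIntegrable (fun t => ∑ i ∈ Finset.range n, dft ρ ω (G (s + i)) (G (s + i + 1)) t)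
      volume a b := by
  have := IntervalIntegrable.sum (μ := volume) (a := a) (b := b) (Finset.range n)
    (f := fun (i : ℕ) t => dft ρ ω (G (s + i)) (G (s + i + 1)) t)
    (fun i _ => intervalIntegrable_dft hρ ω _ _ _ _)
  have e : (∑ i ∈ Finset.range n, fun t => dft ρ ω (G (s + i)) (G (s + i + 1)) t) =
      fun t => ∑ i ∈ Finset.range n, dft ρ ω (G (s + i)) (G (s + i + 1)) t := by
    funext t
    simp
  rw [e] at this
  exact this

/-- Segments of forward gradient paths are geodesic. -/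
theorem FG_geod (hρ : ρ ≠ 0) (hW : Tendsto W atTop atTop) {ω : Om} {G : ℤ → V}
    (hadj : ∀ k, Adj (G k) (G (k + 1))) (hG : ∀ k, FG ρ W ω (G k) (G (k + 1))) (s : ℤ) (n : ℕ) :
    T ω (G s) (G (s + n)) = lw ω G s n := by
  refine le_antisymm (T_le_lw ω hadj s n) ?_
  have h := le_of_avg hW (c := lw ω G s n - T ω (G s) (G (s + n)))
    (fun a b => intervalIntegrable_sum_dft hρ ω G s n a b) (fun t => by
      rw [sum_dft]
      have := u_triangle hρ ω t (G s) (G (s + n))
      linarith) (tendsto_sum_dft hρ hG s n)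
  linarith

theorem FG_edge (hρ : ρ ≠ 0) (hW : Tendsto W atTop atTop) {ω : Om} {x y : V}
    (hG : FG ρ W ω x y) : (ω (edge x y) : ℝ) ≤ T ω x y := by
  have h := le_of_avg hW (c := ω (edge x y) - T ω x y)
    (fun a b => intervalIntegrable_dft hρ ω x y a b) (fun t => by
      unfold dft
      have := u_triangle hρ ω t x y
      linarith) hG
  linarith

theorem S_geod (hρ : ρ ≠ 0) (hW : Tendsto W atTop atTop) {ω : Om} {G : ℤ → V}
    (hG : G ∈ S ρ W ω) (s : ℤ) (n : ℕ) : T ω (G s) (G (s + n)) = lw ω G s n :=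
  FG_geod hρ hW (fun k => (hG k).1) (fun k => (hG k).2.1) s n

theorem S_inj (hρ : ρ ≠ 0) (hW : Tendsto W atTop atTop) {ω : Om} (hpos : ∀ e, 0 < ω e) {G : ℤ → V}
    (hG : G ∈ S ρ W ω) : Function.Injective G := by
  have key : ∀ (s : ℤ) (n : ℕ), G s ≠ G (s + (n + 1 : ℕ)) := by
    intro s n h
    have h1 := S_geod hρ hW hG s (n + 1)
    rw [← h, T_self, lw_succ] at h1
    have h2 := lw_nonneg ω G s n
    have h3 : (0 : ℝ) < ω (edge (G (s + n)) (G (s + n + 1))) := hpos _
    linarith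
  intro i j hij
  by_contra hne
  rcases lt_or_gt_of_ne hne with h | h
  · have e : i + (((j - i - 1).toNat + 1 : ℕ) : ℤ) = j := by omega
    exact key i (j - i - 1).toNat (by rw [e]; exact hij)
  · have e : j + (((i - j - 1).toNat + 1 : ℕ) : ℤ) = i := by omega
    exact key j (i - j - 1).toNat (by rw [e]; exact hij.symm)

/-! ### Raising edges off the path -/

theorem exists_far {ω : Om} (hfin : ∀ (x : V) (R : ℝ), {y | T ω x y ≤ R}.Finite) {G : ℤ → V}
    (hinj : Function.Injective G) (k : ℤ) (R : ℝ) :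
    ∃ n : ℕ, 0 < n ∧ R < T ω (G k) (G (k + n)) := by
  by_contra hcon
  push Not at hcon
  have h2 : Set.Finite (Set.range fun n : ℕ => G (k + (n + 1 : ℕ))) := by
    refine (hfin (G k) R).subset ?_
    rintro _ ⟨n, rfl⟩
    exact hcon (n + 1) (Nat.succ_pos n)
  have h3 : Function.Injective fun n : ℕ => G (k + (n + 1 : ℕ)) := by
    intro a b hab
    have := hinj hab
    push_cast at this
    omega
  exact Set.infinite_range_of_injective h3 h2

theorem FG_raise (hρ : ρ ≠ 0) (hW : Tendsto W atTop atTop) {ω ω' : Om}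
    (hfin : ∀ (x : V) (R : ℝ), {y | T ω x y ≤ R}.Finite) {G : ℤ → V}
    (hinj : Function.Injective G)
    (hadj : ∀ k, Adj (G k) (G (k + 1))) (hG : ∀ k, FG ρ W ω (G k) (G (k + 1)))
    (A : Finset E) (hle : ω ≤ ω') (hA : ∀ e ∉ A, ω' e = ω e)
    (hoff : ∀ e ∈ A, ∀ k, edge (G k) (G (k + 1)) ≠ e) (k : ℤ) :
    FG ρ W ω' (G k) (G (k + 1)) := by
  obtain ⟨n, hn, hfar⟩ := exists_far hfin hinj k (∑ e ∈ A, T ω (G k) e.1 + 1)
  have hfar' : ∀ e ∈ A, T ω (G k) e.1 + 1 < T ω (G k) (G (k + n)) := by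
    intro e he
    have := Finset.single_le_sum (f := fun e : E => T ω (G k) e.1)
      (fun e _ => T_nonneg _ _ _) he
    linarith
  have hedge : ∀ i : ℤ, ω' (edge (G i) (G (i + 1))) = ω (edge (G i) (G (i + 1))) := by
    intro i
    refine hA _ fun h => ?_
    exact hoff _ h i rfl
  have hlw : lw ω' G k n = lw ω G k n := by
    unfold lw
    refine Finset.sum_congr rfl fun i _ => ?_
    rw [hedge]
  set D : ℝ → ℝ := fun t => ∑ i ∈ Finset.range n, dft ρ ω (G (k + i)) (G (k + i + 1)) t with hD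
  have hD0 : ∀ t, 0 ≤ D t := fun t => Finset.sum_nonneg fun i _ => dft_nonneg hρ ω (hadj _) t
  have hgeo := FG_geod hρ hW hadj hG k n
  have hu : ∀ t, D t < 1 → u ρ ω' t (G (k + n)) ≤ u ρ ω t (G (k + n)) := by
    intro t ht
    by_contra hcon
    push Not at hcon
    have h1 : u ρ ω t (G (k + n)) < min (u ρ ω' t (G (k + n))) (u ρ ω t (G (k + n)) + 1) :=
      lt_min hcon (by linarith)
    rcases u_split hρ (A := (A : Set E)) (fun e he => hA e he) h1 with h2 | ⟨e, he, h2⟩
    · exact absurd h2 (not_lt.mpr (min_le_left _ _))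
    · have h3 := h2 e.1 (by simp [ends])
      have h4 := lt_of_lt_of_le h3 (min_le_right _ _)
      have h5 := hfar' e he
      have h6 := u_triangle hρ ω t (G k) e.1
      have h7 := T_triangle ω (G k) e.1 (G (k + n))
      rw [T_comm ω e.1] at h7
      have h8 : D t = lw ω G k n + u ρ ω t (G (k + n)) - u ρ ω t (G k) := sum_dft ω G k n t
      rw [← hgeo] at h8
      linarith
  have hbound : ∀ t, dft ρ ω' (G k) (G (k + 1)) t ≤
      (1 + 2 * ω (edge (G k) (G (k + 1)))) * D t := by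
    intro t
    have hω0 : (0 : ℝ) ≤ ω (edge (G k) (G (k + 1))) := NNReal.coe_nonneg _
    by_cases ht : D t < 1
    · have h1 : dft ρ ω' (G k) (G (k + 1)) t ≤
          ∑ i ∈ Finset.range n, dft ρ ω' (G (k + i)) (G (k + i + 1)) t := by
        have := Finset.single_le_sum (f := fun i : ℕ => dft ρ ω' (G (k + i)) (G (k + i + 1)) t)
          (fun i _ => dft_nonneg hρ ω' (hadj _) t) (Finset.mem_range.mpr hn)
        simpa using this
      rw [sum_dft, hlw] at h1
      have h2 := hu t ht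
      have h3 := u_mono hρ hle t (G k)
      have h4 : D t = lw ω G k n + u ρ ω t (G (k + n)) - u ρ ω t (G k) := sum_dft ω G k n t
      have h5 : dft ρ ω' (G k) (G (k + 1)) t ≤ D t := by linarith
      nlinarith [mul_nonneg hω0 (hD0 t)]
    · push Not at ht
      have h1 := dft_le hρ ω' (hadj k) t
      rw [hedge] at h1
      nlinarith [mul_le_mul_of_nonneg_left ht hω0]
  exact avg_squeeze hW (fun t => dft_nonneg hρ ω' (hadj k) t)
    (fun a b => intervalIntegrable_dft hρ ω' _ _ a b)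
    (fun a b => intervalIntegrable_sum_dft hρ ω G k n a b) hbound (tendsto_sum_dft hρ hG k n)

/-- The reversed path. -/
theorem S_reverse {ω : Om} {G : ℤ → V} (hG : G ∈ S ρ W ω) :
    (∀ k, Adj (G (-k)) (G (-(k + 1)))) ∧ (∀ k, FG (-ρ) W ω (G (-k)) (G (-(k + 1)))) := by
  have e : ∀ k : ℤ, -(k + 1) + 1 = -k := fun k => by ring
  refine ⟨fun k => ?_, fun k => ?_⟩
  · have := (hG (-(k + 1))).1
    rw [e] at this
    exact adj_symm this
  · have := (hG (-(k + 1))).2.2
    rw [e] at this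
    exact this

theorem S_raise (hρ : ρ ≠ 0) (hW : Tendsto W atTop atTop) {ω ω' : Om} (hpos : ∀ e, 0 < ω e)
    (hfin : ∀ (x : V) (R : ℝ), {y | T ω x y ≤ R}.Finite) {G : ℤ → V} (hG : G ∈ S ρ W ω)
    (A : Finset E) (hle : ω ≤ ω') (hA : ∀ e ∉ A, ω' e = ω e)
    (hoff : ∀ e ∈ A, ∀ k, edge (G k) (G (k + 1)) ≠ e) : G ∈ S ρ W ω' := by
  have hinj := S_inj hρ hW hpos hG
  intro k
  refine ⟨(hG k).1, FG_raise hρ hW hfin hinj (fun k => (hG k).1) (fun k => (hG k).2.1) A hle hA
    hoff k, ?_⟩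
  obtain ⟨h1, h2⟩ := S_reverse hG
  have h3 := FG_raise (G := fun k => G (-k)) (neg_ne_zero.mpr hρ) hW hfin
    (fun a b hab => neg_injective (hinj hab)) h1 h2 A hle hA (fun e he k => by
      have := hoff e he (-(k + 1))
      rw [edge_comm] at this
      have e1 : -(k + 1) + 1 = -k := by ring
      rw [e1] at this
      exact this) (-(k + 1))
  have e2 : -(-(k + 1)) = k + 1 := by ring
  have e3 : -(-(k + 1) + 1) = k := by ring
  simp only [e2, e3] at h3
  exact h3

/-! ### Lowering edges on the path -/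

theorem T_le_T_add {ω ω' : Om} (A : Finset E) (hle : ω' ≤ ω) (hA : ∀ e ∉ A, ω' e = ω e)
    (x y : V) : T ω x y ≤ T ω' x y + ∑ e ∈ A, ((ω e : ℝ) - ω' e) := by
  classical
  by_contra hcon
  push Not at hcon
  have h1 : T ω' x y < T ω x y - ∑ e ∈ A, ((ω e : ℝ) - ω' e) := by linarith
  obtain ⟨n, p, hp0, hpn, hp, hlt⟩ := exists_path_lt h1
  have h2 := T_le_pw ω hp.1
  rw [hp0, hpn] at h2
  have h3 : pw ω p n - pw ω' p n ≤ ∑ e ∈ A, ((ω e : ℝ) - ω' e) := by
    unfold pw
    rw [← Finset.sum_sub_distrib]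
    have hinj : Set.InjOn (fun k => edge (p k) (p (k + 1))) (Finset.range n : Set ℕ) := by
      intro a ha b hb hab
      exact hp.edge_injOn (by simpa using ha) (by simpa using hb) hab
    rw [← Finset.sum_image (f := fun e => (ω e : ℝ) - ω' e) hinj]
    have h4 : ∑ e ∈ (Finset.range n).image (fun k => edge (p k) (p (k + 1))),
        ((ω e : ℝ) - ω' e) = ∑ e ∈ ((Finset.range n).image
          (fun k => edge (p k) (p (k + 1)))) ∩ A, ((ω e : ℝ) - ω' e) := by
      symm
      refine Finset.sum_subset Finset.inter_subset_left fun e he he' => ?_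
      have : e ∉ A := fun h => he' (Finset.mem_inter.mpr ⟨he, h⟩)
      rw [hA e this, sub_self]
    rw [h4]
    refine Finset.sum_le_sum_of_subset_of_nonneg Finset.inter_subset_right fun e _ _ => ?_
    have : (ω' e : ℝ) ≤ ω e := NNReal.coe_le_coe.mpr (hle e)
    linarith
  linarith

theorem u_le_u_add (hρ : ρ ≠ 0) {ω ω' : Om} (A : Finset E) (hle : ω' ≤ ω)
    (hA : ∀ e ∉ A, ω' e = ω e) (t : ℝ) (x : V) :
    u ρ ω t x ≤ u ρ ω' t x + ∑ e ∈ A, ((ω e : ℝ) - ω' e) := by
  have : u ρ ω t x - ∑ e ∈ A, ((ω e : ℝ) - ω' e) ≤ u ρ ω' t x := by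
    refine le_u hρ fun z hz => ?_
    have h1 := u_le ω x hz
    have h2 := T_le_T_add A hle hA x z
    linarith
  linarith

theorem sum_le_lw_sub {ω ω' : Om} {G : ℤ → V} (A : Finset E) (hle : ω' ≤ ω) (s : ℤ) (n : ℕ)
    (hon : ∀ e ∈ A, ∃ i : ℕ, i < n ∧ edge (G (s + i)) (G (s + i + 1)) = e) :
    ∑ e ∈ A, ((ω e : ℝ) - ω' e) ≤ lw ω G s n - lw ω' G s n := by
  classical
  choose! i hi he using hon
  unfold lw
  rw [← Finset.sum_sub_distrib]
  have hinj : Set.InjOn i (A : Set E) := by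
    intro a ha b hb hab
    rw [← he a ha, ← he b hb, hab]
  calc ∑ e ∈ A, ((ω e : ℝ) - ω' e)
      = ∑ e ∈ A, ((ω (edge (G (s + i e)) (G (s + i e + 1))) : ℝ) -
          ω' (edge (G (s + i e)) (G (s + i e + 1)))) :=
        Finset.sum_congr rfl fun e hea => by rw [he e hea]
    _ = ∑ j ∈ A.image i, ((ω (edge (G (s + j)) (G (s + j + 1))) : ℝ) -
          ω' (edge (G (s + j)) (G (s + j + 1)))) := by rw [Finset.sum_image hinj]
    _ ≤ _ := by
        refine Finset.sum_le_sum_of_subset_of_nonneg ?_ fun j _ _ => ?_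
        · intro j hj
          obtain ⟨e, hea, rfl⟩ := Finset.mem_image.mp hj
          exact Finset.mem_range.mpr (hi e hea)
        · have : (ω' (edge (G (s + j)) (G (s + j + 1))) : ℝ) ≤
            ω (edge (G (s + j)) (G (s + j + 1))) := NNReal.coe_le_coe.mpr (hle _)
          linarith

theorem FG_lower (hρ : ρ ≠ 0) (hW : Tendsto W atTop atTop) {ω ω' : Om} {G : ℤ → V}
    (hadj : ∀ k, Adj (G k) (G (k + 1))) (hG : ∀ k, FG ρ W ω (G k) (G (k + 1)))
    (A : Finset E) (hle : ω' ≤ ω) (hA : ∀ e ∉ A, ω' e = ω e)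
    (hon : ∀ e ∈ A, ∃ k, edge (G k) (G (k + 1)) = e) (k : ℤ) :
    FG ρ W ω' (G k) (G (k + 1)) := by
  choose! κ hκ using hon
  set B : ℕ := A.sup fun e => (κ e - k).natAbs with hB
  have hB' : ∀ e ∈ A, (κ e - k).natAbs ≤ B := fun e he =>
    Finset.le_sup (f := fun e => (κ e - k).natAbs) he
  set s : ℤ := k - B with hs
  set n : ℕ := 2 * B + 1 with hn
  have hon' : ∀ e ∈ A, ∃ i : ℕ, i < n ∧ edge (G (s + i)) (G (s + i + 1)) = e := by
    intro e he
    have h1 := hB' e he
    refine ⟨(κ e - s).toNat, by omega, ?_⟩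
    have e1 : s + ((κ e - s).toNat : ℤ) = κ e := by omega
    rw [e1]
    exact hκ e he
  have hsum := sum_le_lw_sub A hle s n hon'
  have hbound : ∀ t, dft ρ ω' (G k) (G (k + 1)) t ≤
      1 * ∑ i ∈ Finset.range n, dft ρ ω (G (s + i)) (G (s + i + 1)) t := by
    intro t
    have h1 : dft ρ ω' (G k) (G (k + 1)) t ≤
        ∑ i ∈ Finset.range n, dft ρ ω' (G (s + i)) (G (s + i + 1)) t := by
      have := Finset.single_le_sum (f := fun i : ℕ => dft ρ ω' (G (s + i)) (G (s + i + 1)) t)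
        (fun i _ => dft_nonneg hρ ω' (hadj _) t) (Finset.mem_range.mpr (show B < n by omega))
      have e1 : s + (B : ℤ) = k := by omega
      simpa [e1] using this
    rw [sum_dft] at h1 ⊢
    have h2 := u_le_u_add hρ A hle hA t (G s)
    have h3 := u_mono hρ hle t (G (s + n))
    linarith
  exact avg_squeeze hW (fun t => dft_nonneg hρ ω' (hadj k) t)
    (fun a b => intervalIntegrable_dft hρ ω' _ _ a b)
    (fun a b => intervalIntegrable_sum_dft hρ ω G s n a b) hbound (tendsto_sum_dft hρ hG s n)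

theorem S_lower (hρ : ρ ≠ 0) (hW : Tendsto W atTop atTop) {ω ω' : Om} {G : ℤ → V}
    (hG : G ∈ S ρ W ω) (A : Finset E) (hle : ω' ≤ ω) (hA : ∀ e ∉ A, ω' e = ω e)
    (hon : ∀ e ∈ A, ∃ k, edge (G k) (G (k + 1)) = e) : G ∈ S ρ W ω' := by
  intro k
  refine ⟨(hG k).1, FG_lower hρ hW (fun k => (hG k).1) (fun k => (hG k).2.1) A hle hA hon k, ?_⟩
  obtain ⟨h1, h2⟩ := S_reverse hG
  have h3 := FG_lower (G := fun k => G (-k)) (neg_ne_zero.mpr hρ) hW h1 h2 A hle hA
    (fun e he => by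
      obtain ⟨j, hj⟩ := hon e he
      refine ⟨-(j + 1), ?_⟩
      have e1 : -(-(j + 1)) = j + 1 := by ring
      have e2 : -(-(j + 1) + 1) = j := by ring
      simp only [e1, e2]
      rw [edge_comm]
      exact hj) (-(k + 1))
  have e2 : -(-(k + 1)) = k + 1 := by ring
  have e3 : -(-(k + 1) + 1) = k := by ring
  simp only [e2, e3] at h3
  exact h3

/-! ### Two forward gradient steps from the same vertex -/

theorem u_eq_of_dft_lt (hρ : ρ ≠ 0) {ω ω' : Om} {x y : V} {e₁ : E} (hx : x ∈ ends e₁)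
    (hA : ∀ e, e ≠ e₁ → ω' e = ω e) (hT : (ω (edge x y) : ℝ) ≤ T ω x y) {t : ℝ}
    (ht : dft ρ ω x y t < 2 * ω (edge x y)) : u ρ ω' t y ≤ u ρ ω t y := by
  by_contra hcon
  push Not at hcon
  have h1 : u ρ ω t y < min (u ρ ω' t y) (T ω y x + u ρ ω t x) := by
    refine lt_min hcon ?_
    rw [T_comm]
    unfold dft at ht
    linarith
  rcases u_split hρ (A := {e₁}) (ω' := ω') (fun e he => hA e (by simpa using he)) h1 with
    h2 | ⟨e, he, h2⟩
  · exact absurd h2 (not_lt.mpr (min_le_left _ _))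
  · rw [Set.mem_singleton_iff] at he
    subst he
    exact absurd (h2 x hx) (not_lt.mpr (min_le_right _ _))

theorem FG_two_aux (hρ : ρ ≠ 0) (hW : Tendsto W atTop atTop) {ω ω' : Om} (hpos : ∀ e, 0 < ω e)
    {x : V} {s s' : Dir} (hs : s ≠ s')
    (hagree : ∀ e, e ≠ edge x (x + vec s) → ω e = ω' e)
    (h1 : FG ρ W ω x (x + vec s)) (h2 : FG ρ W ω x (x + vec s'))
    (h1' : FG ρ W ω' x (x + vec s)) (h2' : FG ρ W ω' x (x + vec s'))
    (hlt : ω (edge x (x + vec s)) < ω' (edge x (x + vec s))) : False := by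
  set y₁ := x + vec s with hy₁
  set y₂ := x + vec s' with hy₂
  have hne : edge x y₂ ≠ edge x y₁ := by
    intro h
    rcases edge_eq_edge (adj_vec x s') (adj_vec x s) h with ⟨_, h⟩ | ⟨h, _⟩
    · exact hs (vec_inj (add_left_cancel h)).symm
    · exact adj_ne (adj_vec x s) h
  have hle : ω ≤ ω' := by
    intro e
    by_cases he : e = edge x y₁
    · rw [he]; exact hlt.le
    · exact (hagree e he).le
  have hx : x ∈ ends (edge x y₁) := by rw [ends_edge (adj_vec x s)]; simp
  have hA : ∀ e, e ≠ edge x y₁ → ω' e = ω e := fun e he => (hagree e he).symm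
  have hu1 : ∀ t, dft ρ ω x y₁ t < 2 * ω (edge x y₁) → u ρ ω' t y₁ = u ρ ω t y₁ := fun t ht =>
    le_antisymm (u_eq_of_dft_lt hρ hx hA (FG_edge hρ hW h1) ht) (u_mono hρ hle t y₁)
  have hu2 : ∀ t, dft ρ ω x y₂ t < 2 * ω (edge x y₂) → u ρ ω' t y₂ = u ρ ω t y₂ := fun t ht =>
    le_antisymm (u_eq_of_dft_lt hρ hx hA (FG_edge hρ hW h2) ht) (u_mono hρ hle t y₂)
  have p1 : (0 : ℝ) < ω (edge x y₁) := hpos _
  have p2 : (0 : ℝ) < ω (edge x y₂) := hpos _
  set K : ℝ := T ω' y₁ y₂ + T ω y₁ y₂ with hK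
  have hK0 : 0 ≤ K := add_nonneg (T_nonneg _ _ _) (T_nonneg _ _ _)
  set f : ℝ → ℝ := fun t => |(dft ρ ω' x y₁ t - dft ρ ω' x y₂ t) -
    (dft ρ ω x y₁ t - dft ρ ω x y₂ t) - (ω' (edge x y₁) - ω (edge x y₁))| with hf
  have hfint : ∀ a b, IntervalIntegrable f volume a b := by
    intro a b
    have i1 := intervalIntegrable_dft hρ ω' x y₁ a b
    have i2 := intervalIntegrable_dft hρ ω' x y₂ a b
    have i3 := intervalIntegrable_dft hρ ω x y₁ a b
    have i4 := intervalIntegrable_dft hρ ω x y₂ a b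
    exact (((i1.sub i2).sub (i3.sub i4)).sub intervalIntegrable_const).abs
  set g : ℝ → ℝ := fun t => dft ρ ω x y₁ t * (1 / (2 * ω (edge x y₁))) +
    dft ρ ω x y₂ t * (1 / (2 * ω (edge x y₂))) with hg
  have hgint : ∀ a b, IntervalIntegrable g volume a b := by
    intro a b
    exact ((intervalIntegrable_dft hρ ω x y₁ a b).mul_const _).add
      ((intervalIntegrable_dft hρ ω x y₂ a b).mul_const _)
  have hfg : ∀ t, f t ≤ K * g t := by
    intro t
    have d1 := dft_nonneg hρ ω (adj_vec x s) t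
    have d2 := dft_nonneg hρ ω (adj_vec x s') t
    rw [← hy₁] at d1
    rw [← hy₂] at d2
    have g1 : 0 ≤ dft ρ ω x y₁ t * (1 / (2 * ω (edge x y₁))) := by positivity
    have g2 : 0 ≤ dft ρ ω x y₂ t * (1 / (2 * ω (edge x y₂))) := by positivity
    have hfeq : f t = |(u ρ ω' t y₁ - u ρ ω' t y₂) - (u ρ ω t y₁ - u ρ ω t y₂)| := by
      simp only [hf]
      congr 1
      unfold dft
      rw [hA _ hne]
      ring
    have hfK : f t ≤ K := by
      rw [hfeq]
      have a1 := u_triangle hρ ω' t y₁ y₂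
      have a2 := u_triangle hρ ω' t y₂ y₁
      have a3 := u_triangle hρ ω t y₁ y₂
      have a4 := u_triangle hρ ω t y₂ y₁
      rw [T_comm] at a2 a4
      rw [abs_le]
      constructor <;> linarith
    by_cases ht1 : dft ρ ω x y₁ t < 2 * ω (edge x y₁)
    · by_cases ht2 : dft ρ ω x y₂ t < 2 * ω (edge x y₂)
      · rw [hfeq, hu1 t ht1, hu2 t ht2, sub_self, abs_zero]
        exact mul_nonneg hK0 (add_nonneg g1 g2)
      · push Not at ht2
        have : 1 ≤ dft ρ ω x y₂ t * (1 / (2 * ω (edge x y₂))) := by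
          rw [mul_one_div, le_div_iff₀ (by positivity)]; linarith
        calc f t ≤ K * 1 := by linarith
          _ ≤ K * g t := mul_le_mul_of_nonneg_left (by simp only [hg]; linarith) hK0
    · push Not at ht1
      have : 1 ≤ dft ρ ω x y₁ t * (1 / (2 * ω (edge x y₁))) := by
        rw [mul_one_div, le_div_iff₀ (by positivity)]; linarith
      calc f t ≤ K * 1 := by linarith
        _ ≤ K * g t := mul_le_mul_of_nonneg_left (by simp only [hg]; linarith) hK0
  have hglim : Tendsto (fun j => (∫ t in (0 : ℝ)..(W j), g t) / W j) atTop (𝓝 0) := by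
    have e : (fun j => (∫ t in (0 : ℝ)..(W j), g t) / W j) = fun j =>
        (∫ t in (0 : ℝ)..(W j), dft ρ ω x y₁ t) / W j * (1 / (2 * ω (edge x y₁))) +
        (∫ t in (0 : ℝ)..(W j), dft ρ ω x y₂ t) / W j * (1 / (2 * ω (edge x y₂))) := by
      funext j
      simp only [hg]
      rw [intervalIntegral.integral_add ((intervalIntegrable_dft hρ ω x y₁ _ _).mul_const _)
        ((intervalIntegrable_dft hρ ω x y₂ _ _).mul_const _),
        intervalIntegral.integral_mul_const, intervalIntegral.integral_mul_const]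
      ring
    rw [e]
    have := (h1.mul_const (1 / (2 * (ω (edge x y₁) : ℝ)))).add
      (h2.mul_const (1 / (2 * (ω (edge x y₂) : ℝ))))
    simpa using this
  have hflim := avg_squeeze hW (fun t => abs_nonneg _) hfint hgint hfg hglim
  -- the average of the signed quantity tends to `-(ω' e₁ - ω e₁)`
  have hlim2 : Tendsto (fun j => (∫ t in (0 : ℝ)..(W j), f t +
      ((dft ρ ω' x y₁ t - dft ρ ω' x y₂ t) - (dft ρ ω x y₁ t - dft ρ ω x y₂ t))) / W j)
      atTop (𝓝 0) := by
    have e : (fun j => (∫ t in (0 : ℝ)..(W j), f t +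
      ((dft ρ ω' x y₁ t - dft ρ ω' x y₂ t) - (dft ρ ω x y₁ t - dft ρ ω x y₂ t))) / W j) = fun j =>
        (∫ t in (0 : ℝ)..(W j), f t) / W j +
        (((∫ t in (0 : ℝ)..(W j), dft ρ ω' x y₁ t) / W j -
          (∫ t in (0 : ℝ)..(W j), dft ρ ω' x y₂ t) / W j) -
        ((∫ t in (0 : ℝ)..(W j), dft ρ ω x y₁ t) / W j -
          (∫ t in (0 : ℝ)..(W j), dft ρ ω x y₂ t) / W j)) := by
      funext j
      have i1 := intervalIntegrable_dft hρ ω' x y₁ 0 (W j)
      have i2 := intervalIntegrable_dft hρ ω' x y₂ 0 (W j)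
      have i3 := intervalIntegrable_dft hρ ω x y₁ 0 (W j)
      have i4 := intervalIntegrable_dft hρ ω x y₂ 0 (W j)
      rw [intervalIntegral.integral_add (hfint _ _) ((i1.sub i2).sub (i3.sub i4)),
        intervalIntegral.integral_sub (i1.sub i2) (i3.sub i4),
        intervalIntegral.integral_sub i1 i2, intervalIntegral.integral_sub i3 i4]
      ring
    rw [e]
    have := hflim.add ((h1'.sub h2').sub (h1.sub h2))
    simpa using this
  have hfin := le_of_avg hW (c := (ω' (edge x y₁) : ℝ) - ω (edge x y₁)) (fun a b =>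
    (hfint a b).add ((((intervalIntegrable_dft hρ ω' x y₁ a b).sub
      (intervalIntegrable_dft hρ ω' x y₂ a b)).sub ((intervalIntegrable_dft hρ ω x y₁ a b).sub
      (intervalIntegrable_dft hρ ω x y₂ a b))))) (fun t => by
    have := neg_abs_le ((dft ρ ω' x y₁ t - dft ρ ω' x y₂ t) -
      (dft ρ ω x y₁ t - dft ρ ω x y₂ t) - (ω' (edge x y₁) - ω (edge x y₁)))
    simp only [hf]
    linarith) hlim2
  have hlt' : (ω (edge x y₁) : ℝ) < ω' (edge x y₁) := NNReal.coe_lt_coe.mpr hlt
  linarith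

/-- If `ω, ω'` agree except at the edge `{x, x + vec s}` and in both environments there are
forward gradient steps from `x` in the two distinct directions `s, s'`, then `ω = ω'`. -/
theorem FG_two (hρ : ρ ≠ 0) (hW : Tendsto W atTop atTop) {ω ω' : Om} (hpos : ∀ e, 0 < ω e)
    (hpos' : ∀ e, 0 < ω' e) {x : V} {s s' : Dir} (hs : s ≠ s')
    (hagree : ∀ e, e ≠ edge x (x + vec s) → ω e = ω' e)
    (h1 : FG ρ W ω x (x + vec s)) (h2 : FG ρ W ω x (x + vec s'))
    (h1' : FG ρ W ω' x (x + vec s)) (h2' : FG ρ W ω' x (x + vec s')) :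
    ω (edge x (x + vec s)) = ω' (edge x (x + vec s)) := by
  rcases lt_trichotomy (ω (edge x (x + vec s))) (ω' (edge x (x + vec s))) with h | h | h
  · exact (FG_two_aux hρ hW hpos hs hagree h1 h2 h1' h2' h).elim
  · exact h
  · exact (FG_two_aux hρ hW hpos' hs (fun e he => (hagree e he).symm) h1' h2' h1 h2 h).elim

/-! ### Measurability -/

theorem measurable_dft (hρ : ρ ≠ 0) (x y : V) :
    Measurable fun q : Om × ℝ => dft ρ q.1 x y q.2 := by
  unfold dft
  have h : ∀ z : V, Measurable fun q : Om × ℝ => u ρ q.1 q.2 z := fun z =>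
    (measurable_u hρ z).comp measurable_swap
  have h0 : Measurable fun q : Om × ℝ => ((q.1 (edge x y) : ℝ≥0) : ℝ) :=
    (Measurable.comp (g := fun ω : Om => ω (edge x y)) (measurable_pi_apply _)
      measurable_fst).coe_nnreal_real
  exact (h0.add (h y)).sub (h x)

theorem measurable_integral_dft (hρ : ρ ≠ 0) (x y : V) (w : ℝ) :
    Measurable fun ω : Om => ∫ t in (0 : ℝ)..w, dft ρ ω x y t := by
  unfold intervalIntegral
  have h : StronglyMeasurable fun q : Om × ℝ => dft ρ q.1 x y q.2 :=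
    (measurable_dft hρ x y).stronglyMeasurable
  exact (h.integral_prod_right' (ν := volume.restrict (Set.Ioc 0 w))).measurable.sub
    (h.integral_prod_right' (ν := volume.restrict (Set.Ioc w 0))).measurable

theorem measurableSet_FG (hρ : ρ ≠ 0) (x y : V) : MeasurableSet {ω | FG ρ W ω x y} := by
  unfold FG
  exact measurableSet_tendsto (𝓝 (0 : ℝ)) fun j => (measurable_integral_dft hρ x y (W j)).div_const _

theorem measurableSet_DG (hρ : ρ ≠ 0) (x y : V) : MeasurableSet {ω | DG ρ W ω x y} := by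
  unfold DG
  exact (MeasurableSet.const _).inter ((measurableSet_FG hρ x y).inter
    (measurableSet_FG (neg_ne_zero.mpr hρ) y x))

/-! ### Shift covariance -/

theorem dft_shift (ρ : ℝ × ℝ) (ω : Om) (x y v : V) (t : ℝ) :
    dft ρ ω (x + v) (y + v) t = dft ρ (shift v ω) x y (t - dot ρ v) := by
  unfold dft
  rw [u_shift, u_shift, shift_edge]

theorem FG_shift (hρ : ρ ≠ 0) (hW : Tendsto W atTop atTop) (ω : Om) {x y : V} (h : Adj x y)
    (v : V) : FG ρ W ω (x + v) (y + v) ↔ FG ρ W (shift v ω) x y := by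
  have key := avg_shift hW (f := fun t => dft ρ (shift v ω) x y t)
    (K := 2 * (shift v ω (edge x y) : ℝ))
    (fun a b => intervalIntegrable_dft hρ _ x y a b) (fun t => by
      rw [abs_of_nonneg (dft_nonneg hρ _ h t)]
      exact dft_le hρ _ h t) (dot ρ v)
  have e : (fun j => (∫ t in (0 : ℝ)..(W j), dft ρ ω (x + v) (y + v) t) / W j) = fun j =>
      ((∫ t in (0 : ℝ)..(W j), dft ρ (shift v ω) x y (t - dot ρ v)) / W j -
        (∫ t in (0 : ℝ)..(W j), dft ρ (shift v ω) x y t) / W j) +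
        (∫ t in (0 : ℝ)..(W j), dft ρ (shift v ω) x y t) / W j := by
    funext j
    simp only [dft_shift]
    ring
  constructor
  · intro hF
    unfold FG at hF ⊢
    rw [e] at hF
    have := hF.sub key
    simpa using this
  · intro hF
    unfold FG at hF ⊢
    rw [e]
    have := key.add hF
    simpa using this

theorem DG_shift (hρ : ρ ≠ 0) (hW : Tendsto W atTop atTop) (ω : Om) (x y v : V) :
    DG ρ W ω (x + v) (y + v) ↔ DG ρ W (shift v ω) x y := by
  unfold DG
  rw [adj_add_right]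
  constructor
  · rintro ⟨h, h1, h2⟩
    exact ⟨h, (FG_shift hρ hW ω h v).mp h1,
      (FG_shift (neg_ne_zero.mpr hρ) hW ω (adj_symm h) v).mp h2⟩
  · rintro ⟨h, h1, h2⟩
    exact ⟨h, (FG_shift hρ hW ω h v).mpr h1,
      (FG_shift (neg_ne_zero.mpr hρ) hW ω (adj_symm h) v).mpr h2⟩

variable (μ : Measure ℝ≥0) [IsProbabilityMeasure μ] [NullSingletonClass μ]

theorem ae_FG_unique (hρ : ρ ≠ 0) (hW : Tendsto W atTop atTop) :
    ∀ᵐ ω ∂(P μ), ∀ x (s s' : Dir), FG ρ W ω x (x + vec s) → FG ρ W ω x (x + vec s') → s = s' := by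
  have hpos : ∀ᵐ ω ∂(P μ), ∀ e, 0 < ω e := by
    refine ae_edge μ (p := fun s => 0 < s) ?_
    rw [ae_iff]
    have : {s : ℝ≥0 | ¬ 0 < s} = {0} := by
      ext s; simp
    rw [this]
    exact measure_singleton _
  rw [ae_all_iff]; intro x
  rw [ae_all_iff]; intro s
  rw [ae_all_iff]; intro s'
  by_cases hs : s = s'
  · exact Eventually.of_forall fun ω _ _ => hs
  have hnull : P μ {ω | (∀ e, 0 < ω e) ∧ FG ρ W ω x (x + vec s) ∧ FG ρ W ω x (x + vec s')} = 0 := by
    refine null_section μ (edge x (x + vec s)) ?_ ?_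
    · have hm : MeasurableSet {ω : Om | ∀ e, 0 < ω e} := by
        have : {ω : Om | ∀ e, 0 < ω e} = ⋂ e, {ω | 0 < ω e} := by ext; simp
        rw [this]
        exact MeasurableSet.iInter fun e =>
          measurableSet_lt measurable_const (measurable_pi_apply e)
      exact hm.inter ((measurableSet_FG hρ _ _).inter (measurableSet_FG hρ _ _))
    · rintro ω ⟨h1, h2, h3⟩ ω' ⟨h1', h2', h3'⟩ hag
      exact FG_two hρ hW h1 h1' hs hag h2 h3 h2' h3'
  have := measure_eq_zero_iff_ae_notMem.mp hnull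
  filter_upwards [this, hpos] with ω h1 h2 h3 h4
  exact (h1 ⟨h2, h3, h4⟩).elim

end FPP
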