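import Pool.Agent.helper96.FPP.Lines

/-!
# Module J (Killers): lines do not interact
-/

open MeasureTheory Filter Topology
open scoped NNReal ENNReal BoundedContinuousFunction

namespace FPP

variable {ρ : ℝ × ℝ} {W : ℕ → ℝ}

/-! ### Measurability tools -/

private theorem meas_comp {Ω α β : Type*} [MeasurableSpace Ω] [MeasurableSpace α] [Countable α]
    [MeasurableSingletonClass α] [MeasurableSpace β] {X : Ω → α} (hX : Measurable X)
    {f : α → Ω → β} (hf : ∀ a, Measurable (f a)) : Measurable fun w => f (X w) w :=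
  (measurable_from_prod_countable_right (f := fun q : α × Ω => f q.1 q.2) hf).comp
    (hX.prodMk measurable_id)

private theorem meas_set_comp {Ω α : Type*} [MeasurableSpace Ω] [MeasurableSpace α] [Countable α]
    [MeasurableSingletonClass α] {X : Ω → α} (hX : Measurable X)
    {p : α → Ω → Prop} (hp : ∀ a, MeasurableSet {w | p a w}) : MeasurableSet {w | p (X w) w} :=
  measurableSet_setOfPred.mpr (meas_comp (f := p) hX fun a => measurableSet_setOfPred.mp (hp a))

/-! ### Geodesic and non geodesic bi-infinite paths -/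

/-- Some segment of `H` is not geodesic. -/
private def NG (ω : Om) (H : ℤ → V) : Prop := ∃ (i : ℤ) (n : ℕ), T ω (H i) (H (i + n)) ≠ lw ω H i n

private theorem lw_add (ω : Om) (G : ℤ → V) (c i : ℤ) (n : ℕ) :
    lw ω (fun k => G (k + c)) i n = lw ω G (i + c) n := by
  unfold lw
  refine Finset.sum_congr rfl fun j _ => ?_
  have h1 : i + (j : ℤ) + c = i + c + j := by ring
  have h2 : i + (j : ℤ) + 1 + c = i + c + j + 1 := by ring
  simp only [h1, h2]

private theorem NG.of_shift {ω : Om} {G : ℤ → V} {c : ℤ} (h : NG ω fun k => G (k + c)) :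
    NG ω G := by
  obtain ⟨i, n, h⟩ := h
  refine ⟨i + c, n, ?_⟩
  rw [lw_add] at h
  have h1 : i + (n : ℤ) + c = i + c + n := by ring
  simpa only [h1] using h

private theorem NG_shift {ω : Om} {G : ℤ → V} (c : ℤ) : (NG ω fun k => G (k + c)) ↔ NG ω G := by
  refine ⟨NG.of_shift, fun h => ?_⟩
  refine NG.of_shift (c := -c) ?_
  simpa using h

private theorem killers_T_le_lw {ω : Om} {H : ℤ → V} (hadj : ∀ k, Adj (H k) (H (k + 1))) (i : ℤ) (n : ℕ) :
    T ω (H i) (H (i + n)) ≤ lw ω H i n := by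
  have h := T_le_pw ω (p := fun k : ℕ => H (i + k)) (n := n) (fun k _ => by
    have := hadj (i + k)
    simpa [add_assoc] using this)
  have h2 : pw ω (fun k : ℕ => H (i + k)) n = lw ω H i n := by
    unfold pw lw
    refine Finset.sum_congr rfl fun j _ => ?_
    simp [add_assoc]
  rw [h2] at h
  simpa using h

private theorem lw_congr {ω ω' : Om} {H : ℤ → V} (h : ∀ k, ω (edge (H k) (H (k + 1))) =
    ω' (edge (H k) (H (k + 1)))) (i : ℤ) (n : ℕ) : lw ω H i n = lw ω' H i n := by
  unfold lw
  exact Finset.sum_congr rfl fun j _ => by rw [h]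

/-- A path that is vertex-disjoint from `G` does not use the edges of `G`. -/
private theorem avoid {G H : ℤ → V} (hG : ∀ k, Adj (G k) (G (k + 1)))
    (hH : ∀ k, Adj (H k) (H (k + 1))) (hd : ∀ i j, G i ≠ H j) {e : E}
    (he : ∃ k, edge (G k) (G (k + 1)) = e) (k : ℤ) : edge (H k) (H (k + 1)) ≠ e := by
  rintro rfl
  obtain ⟨j, hj⟩ := he
  rcases edge_eq_edge (hG j) (hH k) hj with h | h
  · exact hd _ _ h.1
  · exact hd _ _ h.1

/-! ### The edges of a walk -/

/-- The edges of a walk. -/
private def pe : V → List Dir → List E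
  | _, [] => []
  | x, s :: l => edge x (x + vec s) :: pe (x + vec s) l

private theorem wt_congr {ω ω' : Om} : ∀ (l : List Dir) (x : V), (∀ e ∈ pe x l, ω e = ω' e) →
    wt ω x l = wt ω' x l
  | [], _, _ => rfl
  | s :: l, x, h => by
    simp only [wt]
    rw [h _ (by simp [pe]), wt_congr l (x + vec s) fun e he => h e (by simp [pe, he])]

/-! ### Translates of finite edge sets -/

/-- Translate of a finite set of edges. -/
private def tr (v : V) (A : Finset E) : Finset E := A.image fun e => (e.1 + v, e.2)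

private theorem mem_tr {v : V} {A : Finset E} {e : E} : (e.1 + v, e.2) ∈ tr v A ↔ e ∈ A := by
  constructor
  · intro h
    obtain ⟨e', he', h⟩ := Finset.mem_image.mp h
    have h1 : e'.1 = e.1 := by simpa using congrArg Prod.fst h
    have h2 : e'.2 = e.2 := by simpa using congrArg Prod.snd h
    have : e' = e := Prod.ext h1 h2
    rwa [← this]
  · intro h
    exact Finset.mem_image_of_mem _ h

private theorem tr_zero (A : Finset E) : tr 0 A = A := by
  ext e
  have := mem_tr (v := 0) (A := A) (e := e)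
  simpa using this

private theorem tr_tr (v w : V) (A : Finset E) : tr v (tr w A) = tr (w + v) A := by
  unfold tr
  rw [Finset.image_image]
  congr 1
  funext e
  simp [add_assoc]

private theorem forall_tr {v : V} {A : Finset E} {p : E → Prop} :
    (∀ e ∈ tr v A, p e) ↔ ∀ e ∈ A, p (e.1 + v, e.2) := by
  unfold tr
  exact Finset.forall_mem_image

/-! ### Killers -/

/-- `A` kills `x`. -/
private def KO (ρ : ℝ × ℝ) (W : ℕ → ℝ) (A : Finset E) (x : V) (w : Bool × E → ℝ≥0) : Prop :=
  (∀ e ∈ A, base w e ≤ other w e) ∧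
  (∃ z, z ∈ U ρ W (base w) ∧ Ln ρ W (base w) z ∈ S ρ W (mix A w) ∧
     ∀ e ∈ A, ∃ k : ℤ, edge (Ln ρ W (base w) z k) (Ln ρ W (base w) z (k + 1)) = e) ∧
  x ∈ U ρ W (mix A w) ∧ NG (base w) (Ln ρ W (mix A w) x)

/-- Typical pairs of environments. -/
private def GoodW (ρ : ℝ × ℝ) (W : ℕ → ℝ) (w : Bool × E → ℝ≥0) : Prop :=
  Nice ρ W (base w) ∧ ∀ A, Nice ρ W (mix A w)

private theorem S_adj {ω : Om} {G : ℤ → V} (hG : G ∈ S ρ W ω) (k : ℤ) : Adj (G k) (G (k + 1)) :=
  (hG k).1

private theorem base_of_notMem {A : Finset E} {w : Bool × E → ℝ≥0} {e : E} (he : e ∉ A) :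
    mix A w e = base w e := by simp [mix, base, he]

private theorem other_of_mem {A : Finset E} {w : Bool × E → ℝ≥0} {e : E} (he : e ∈ A) :
    mix A w e = other w e := by simp [mix, other, he]

private theorem not_NG (hρ : ρ ≠ 0) (hW : Tendsto W atTop atTop) {ω : Om} {G : ℤ → V}
    (hG : G ∈ S ρ W ω) : ¬ NG ω G := by
  rintro ⟨i, n, h⟩
  exact h (S_geod hρ hW hG i n)

/-- If two lines of the mixed environment meet, and one is a line of the base environment, the
other is geodesic in the base environment. -/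
private theorem not_NG_of_common (hρ : ρ ≠ 0) (hW : Tendsto W atTop atTop) {ω ω' : Om}
    (hn : Nice ρ W ω') {G H : ℤ → V} (hG : G ∈ S ρ W ω) (hG' : G ∈ S ρ W ω') (hH : H ∈ S ρ W ω')
    {i j : ℤ} (hij : G i = H j) : ¬ NG ω H := by
  have h : H = fun k => G (k + (i - j)) := by
    funext k
    have := hn.eq_of_common hG' hH hij (k - j)
    have h1 : i + (k - j) = k + (i - j) := by ring
    have h2 : j + (k - j) = k := by ring
    rw [h1, h2] at this
    exact this.symm
  rw [h, NG_shift]
  exact not_NG hρ hW hG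

/-- Raising from `mix A` to `mix (A ∪ B)` keeps the lines off `B`. -/
private theorem S_mix_union (hρ : ρ ≠ 0) (hW : Tendsto W atTop atTop) {w : Bool × E → ℝ≥0}
    (hw : GoodW ρ W w) {A B : Finset E} (hB : ∀ e ∈ B, base w e ≤ other w e) {H : ℤ → V}
    (hH : H ∈ S ρ W (mix A w)) (hoff : ∀ e ∈ B, ∀ k, edge (H k) (H (k + 1)) ≠ e) :
    H ∈ S ρ W (mix (A ∪ B) w) := by
  refine S_raise hρ hW (hw.2 A).pos (hw.2 A).fin hH B ?_ ?_ hoff
  · intro e
    by_cases hA : e ∈ A
    · rw [other_of_mem hA, other_of_mem (Finset.mem_union_left _ hA)]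
    · rw [base_of_notMem hA]
      by_cases hB' : e ∈ B
      · rw [other_of_mem (Finset.mem_union_right _ hB')]
        exact hB e hB'
      · rw [base_of_notMem (by simp [hA, hB'])]
  · intro e he
    by_cases hA : e ∈ A
    · rw [other_of_mem hA, other_of_mem (Finset.mem_union_left _ hA)]
    · rw [base_of_notMem hA, base_of_notMem (by simp [hA, he])]

/-- Raising from the base environment to `mix A` keeps the lines off `A`. -/
private theorem S_mix (hρ : ρ ≠ 0) (hW : Tendsto W atTop atTop) {w : Bool × E → ℝ≥0}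
    (hw : GoodW ρ W w) {A : Finset E} (hA : ∀ e ∈ A, base w e ≤ other w e) {H : ℤ → V}
    (hH : H ∈ S ρ W (base w)) (hoff : ∀ e ∈ A, ∀ k, edge (H k) (H (k + 1)) ≠ e) :
    H ∈ S ρ W (mix A w) := by
  refine S_raise hρ hW hw.1.pos hw.1.fin hH A ?_ ?_ hoff
  · intro e
    by_cases h : e ∈ A
    · rw [other_of_mem h]; exact hA e h
    · rw [base_of_notMem h]
  · intro e he
    rw [base_of_notMem he]

/-- The line through a vertex killed by `A₁` avoids every edge of every `A₂` that kills
something. -/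
private theorem killed_avoids (hρ : ρ ≠ 0) (hW : Tendsto W atTop atTop) {w : Bool × E → ℝ≥0}
    (hw : GoodW ρ W w) {A B : Finset E} {x y : V} (h1 : KO ρ W A x w) (h2 : KO ρ W B y w) :
    ∀ e ∈ B, ∀ k, edge (Ln ρ W (mix A w) x k) (Ln ρ W (mix A w) x (k + 1)) ≠ e := by
  obtain ⟨hA, ⟨z1, hz1, hS1, he1⟩, hx, hNG⟩ := h1
  obtain ⟨hB, ⟨z2, hz2, hS2, he2⟩, -, -⟩ := h2
  set G1 := Ln ρ W (base w) z1 with hG1
  set G2 := Ln ρ W (base w) z2 with hG2
  set H := Ln ρ W (mix A w) x with hH
  have hHS : H ∈ S ρ W (mix A w) := hx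
  have hG1S : G1 ∈ S ρ W (base w) := hz1
  have hG2S : G2 ∈ S ρ W (base w) := hz2
  -- `H` is disjoint from `G1`
  have hd1 : ∀ i j, G1 i ≠ H j := fun i j hij =>
    not_NG_of_common hρ hW (hw.2 A) hG1S hS1 hHS hij hNG
  -- `H` is disjoint from `G2`
  have hd2 : ∀ i j, G2 i ≠ H j := by
    by_cases hc : ∃ i j, G1 i = G2 j
    · obtain ⟨i, j, hij⟩ := hc
      intro i' j' h
      have := hw.1.eq_of_common hG1S hG2S hij (i' - j)
      have h2 : j + (i' - j) = i' := by ring
      rw [h2] at this
      exact hd1 _ _ (this.trans h)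
    · push Not at hc
      have hG2S' : G2 ∈ S ρ W (mix A w) :=
        S_mix hρ hW hw hA hG2S fun e he k => avoid (S_adj hG1S) (S_adj hG2S) hc (he1 e he) k
      intro i j hij
      exact not_NG_of_common hρ hW (hw.2 A) hG2S hG2S' hHS hij hNG
  intro e he k
  exact avoid (S_adj hG2S) (S_adj hHS) hd2 (he2 e he) k

/-- All the sets that kill `x` give the same line through `x`. -/
private theorem killed_line_eq (hρ : ρ ≠ 0) (hW : Tendsto W atTop atTop) {w : Bool × E → ℝ≥0}
    (hw : GoodW ρ W w) {A B : Finset E} {x : V} (h1 : KO ρ W A x w) (h2 : KO ρ W B x w) :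
    Ln ρ W (mix A w) x = Ln ρ W (mix B w) x := by
  have hH1 : Ln ρ W (mix A w) x ∈ S ρ W (mix (A ∪ B) w) :=
    S_mix_union hρ hW hw h2.1 h1.2.2.1 (killed_avoids hρ hW hw h1 h2)
  have hH2 : Ln ρ W (mix B w) x ∈ S ρ W (mix (A ∪ B) w) := by
    rw [Finset.union_comm]
    exact S_mix_union hρ hW hw h1.1 h2.2.2.1 (killed_avoids hρ hW hw h2 h1)
  funext k
  have e1 := (hw.2 (A ∪ B)).line_eq hH1 0 k
  have e2 := (hw.2 (A ∪ B)).line_eq hH2 0 k
  rw [Ln_zero, zero_add] at e1 e2
  rw [← e1, ← e2]

/-- If `A` kills `x`, it kills all the vertices of the line through `x`. -/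
private theorem killed_along {w : Bool × E → ℝ≥0}
    (hw : GoodW ρ W w) {A : Finset E} {x : V} (h : KO ρ W A x w) (k : ℤ) :
    KO ρ W A (Ln ρ W (mix A w) x k) w := by
  obtain ⟨h1, h2, h3, h4⟩ := h
  have hS : Ln ρ W (mix A w) x ∈ S ρ W (mix A w) := h3
  refine ⟨h1, h2, (hw.2 A).mem_U hS k, ?_⟩
  have : Ln ρ W (mix A w) (Ln ρ W (mix A w) x k) = fun j => Ln ρ W (mix A w) x (j + k) := by
    funext j
    rw [(hw.2 A).line_eq hS k j, add_comm]
  rw [this, NG_shift]
  exact h4

private theorem killers_same (hρ : ρ ≠ 0) (hW : Tendsto W atTop atTop) {w : Bool × E → ℝ≥0}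
    (hw : GoodW ρ W w) {A B : Finset E} {x : V} (h : KO ρ W A x w) (k : ℤ) :
    KO ρ W B (Ln ρ W (mix A w) x k) w ↔ KO ρ W B x w := by
  constructor
  · intro hB
    have hA := killed_along hw h k
    have heq := killed_line_eq hρ hW hw hA hB
    have := killed_along hw hB (-k)
    rw [← heq, (hw.2 A).line_eq h.2.2.1 k (-k), add_neg_cancel, Ln_zero] at this
    exact this
  · intro hB
    rw [killed_line_eq hρ hW hw h hB]
    exact killed_along hw hB k

/-- Only finitely many translates of `A` kill `x`. -/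
private theorem killers_finite (hρ : ρ ≠ 0) (hW : Tendsto W atTop atTop) {w : Bool × E → ℝ≥0}
    (hw : GoodW ρ W w) (A : Finset E) (x : V) : {v | KO ρ W (tr v A) x w}.Finite := by
  by_cases hne : ∃ v, KO ρ W (tr v A) x w
  swap
  · convert Set.finite_empty
    ext v
    simp only [Set.mem_ofPred_eq, Set.mem_empty_iff_false, iff_false]
    exact fun h => hne ⟨v, h⟩
  obtain ⟨v₁, h₁⟩ := hne
  set H := Ln ρ W (mix (tr v₁ A) w) x with hH
  obtain ⟨i, n, hNG⟩ := h₁.2.2.2
  have hadj : ∀ k, Adj (H k) (H (k + 1)) := fun k => S_adj h₁.2.2.1 k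
  have hlt : T (base w) (H i) (H (i + n)) < lw (base w) H i n :=
    lt_of_le_of_ne (killers_T_le_lw hadj i n) hNG
  obtain ⟨l, hl, hwt⟩ := exists_wt_lt hlt
  have key : ∀ v, KO ρ W (tr v A) x w → ∃ e ∈ pe (H i) l, e ∈ tr v A := by
    intro v hv
    by_contra hcon
    push Not at hcon
    have heq : Ln ρ W (mix (tr v A) w) x = H := killed_line_eq hρ hW hw hv h₁
    have hS : H ∈ S ρ W (mix (tr v A) w) := by rw [← heq]; exact hv.2.2.1
    have havoid := killed_avoids hρ hW hw h₁ hv
    have hlw : lw (mix (tr v A) w) H i n = lw (base w) H i n :=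
      lw_congr (fun k => base_of_notMem fun hmem => havoid _ hmem k rfl) i n
    have hgeo := S_geod hρ hW hS i n
    have hle : T (mix (tr v A) w) (H i) (H (i + n)) ≤ wt (mix (tr v A) w) (H i) l := by
      have := T_le_wt (mix (tr v A) w) (H i) l
      rwa [hl] at this
    have hwt' : wt (mix (tr v A) w) (H i) l = wt (base w) (H i) l :=
      wt_congr l (H i) fun e he => base_of_notMem (hcon e he)
    rw [hwt', hgeo, hlw] at hle
    exact absurd hwt (not_lt.mpr hle)
  have hfin : (⋃ e ∈ {e | e ∈ pe (H i) l}, ⋃ e₀ ∈ (A : Set E), {e.1 - e₀.1} : Set V).Finite := by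
    refine Set.Finite.biUnion (List.finite_toSet _) fun e _ => ?_
    exact Set.Finite.biUnion A.finite_toSet fun e₀ _ => Set.finite_singleton _
  refine hfin.subset fun v hv => ?_
  obtain ⟨e, he, he'⟩ := key v hv
  obtain ⟨e₀, he₀, h0⟩ := Finset.mem_image.mp he'
  simp only [Set.mem_iUnion]
  refine ⟨e, he, e₀, he₀, ?_⟩
  rw [Set.mem_singleton_iff, ← h0]
  simp

/-! ### Shift covariance -/

private theorem base_shift2 (v : V) (w : Bool × E → ℝ≥0) :
    base (shift2 v w) = shift v (base w) := rfl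

private theorem other_shift2 (v : V) (w : Bool × E → ℝ≥0) :
    other (shift2 v w) = shift v (other w) := rfl

private theorem mix_shift2 (v : V) (A : Finset E) (w : Bool × E → ℝ≥0) :
    mix A (shift2 v w) = shift v (mix (tr v A) w) := by
  funext e
  simp only [mix, shift2, shift]
  rw [decide_eq_decide.mpr (mem_tr (v := v) (A := A) (e := e))]

private theorem S_shift (hρ : ρ ≠ 0) (hW : Tendsto W atTop atTop) (v : V) (ω : Om) (G : ℤ → V) :
    (fun k => G k + v) ∈ S ρ W ω ↔ G ∈ S ρ W (shift v ω) :=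
  forall_congr' fun k => DG_shift hρ hW ω (G k) (G (k + 1)) v

private theorem lw_shift (v : V) (ω : Om) (G : ℤ → V) (i : ℤ) (n : ℕ) :
    lw ω (fun k => G k + v) i n = lw (shift v ω) G i n := by
  unfold lw
  refine Finset.sum_congr rfl fun j _ => ?_
  rw [shift_edge]

private theorem NG_shiftEnv (v : V) (ω : Om) (G : ℤ → V) :
    NG ω (fun k => G k + v) ↔ NG (shift v ω) G := by
  unfold NG
  simp only [lw_shift, T_shift]

private theorem KO_shift (hρ : ρ ≠ 0) (hW : Tendsto W atTop atTop) (v : V) (A : Finset E) (x : V)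
    (w : Bool × E → ℝ≥0) : KO ρ W (tr v A) (x + v) w ↔ KO ρ W A x (shift2 v w) := by
  unfold KO
  rw [base_shift2, other_shift2, mix_shift2]
  refine and_congr ?_ (and_congr ?_ (and_congr ?_ ?_))
  · rw [forall_tr]; rfl
  · constructor
    · rintro ⟨z, hz, h1, h2⟩
      have hzv : z = (z - v) + v := by abel
      rw [hzv] at hz h1 h2
      refine ⟨z - v, (U_shift hρ hW _ _ _).mp hz, ?_, ?_⟩
      · rw [← S_shift hρ hW]
        have : Ln ρ W (base w) (z - v + v) =
            fun k => Ln ρ W (shift v (base w)) (z - v) k + v := by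
          funext k; exact Ln_shift hρ hW _ _ _ _
        rw [← this]; exact h1
      · rw [forall_tr] at h2
        intro e he
        obtain ⟨k, hk⟩ := h2 e he
        refine ⟨k, ?_⟩
        rw [Ln_shift hρ hW, Ln_shift hρ hW, edge_add_right] at hk
        exact Prod.ext (by simpa using congrArg Prod.fst hk) (by simpa using congrArg Prod.snd hk)
    · rintro ⟨z, hz, h1, h2⟩
      refine ⟨z + v, (U_shift hρ hW _ _ _).mpr hz, ?_, ?_⟩
      · rw [← S_shift hρ hW] at h1
        have : Ln ρ W (base w) (z + v) =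
            fun k => Ln ρ W (shift v (base w)) z k + v := by
          funext k; exact Ln_shift hρ hW _ _ _ _
        rw [this]; exact h1
      · rw [forall_tr]
        intro e he
        obtain ⟨k, hk⟩ := h2 e he
        refine ⟨k, ?_⟩
        rw [Ln_shift hρ hW, Ln_shift hρ hW, edge_add_right, hk]
  · exact U_shift hρ hW _ _ _
  · have : Ln ρ W (mix (tr v A) w) (x + v) =
        fun k => Ln ρ W (shift v (mix (tr v A) w)) x k + v := by
      funext k; exact Ln_shift hρ hW _ _ _ _
    rw [this, NG_shiftEnv]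

/-! ### Measurability of the killing event -/

private theorem measurable_base : Measurable (base : (Bool × E → ℝ≥0) → Om) :=
  measurable_pi_lambda _ fun e => measurable_pi_apply (false, e)

private theorem measurable_other : Measurable (other : (Bool × E → ℝ≥0) → Om) :=
  measurable_pi_lambda _ fun e => measurable_pi_apply (true, e)

private theorem measurable_mix (A : Finset E) : Measurable (mix A) :=
  measurable_pi_lambda _ fun e => measurable_pi_apply (decide (e ∈ A), e)

private theorem meas_edge {Ω : Type*} [MeasurableSpace Ω] {f : Ω → Om} (hf : Measurable f)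
    {X : Ω → E} (hX : Measurable X) : Measurable fun w => f w (X w) :=
  meas_comp (f := fun e w => f w e) hX fun e => (measurable_pi_apply e).comp hf

private theorem measurable_edge {Ω : Type*} [MeasurableSpace Ω] {X Y : Ω → V} (hX : Measurable X)
    (hY : Measurable Y) : Measurable fun w => edge (X w) (Y w) :=
  (Measurable.of_discrete (f := fun q : V × V => edge q.1 q.2)).comp (hX.prodMk hY)

private theorem measurableSet_NG {Ω : Type*} [MeasurableSpace Ω] {f : Ω → Om} (hf : Measurable f)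
    {H : Ω → ℤ → V} (hH : ∀ k, Measurable fun w => H w k) :
    MeasurableSet {w | NG (f w) (H w)} := by
  have h1 : {w | NG (f w) (H w)} = ⋃ (i : ℤ) (n : ℕ),
      {w | T (f w) (H w i) (H w (i + n)) = lw (f w) (H w) i n}ᶜ := by
    ext w
    simp [NG]
  rw [h1]
  refine MeasurableSet.iUnion fun i => MeasurableSet.iUnion fun n => MeasurableSet.compl ?_
  refine measurableSet_eq_fun ?_ ?_
  · have : Measurable fun w => (H w i, H w (i + n)) := (hH i).prodMk (hH (i + n))
    exact meas_comp (f := fun (q : V × V) w => T (f w) q.1 q.2) this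
      fun q => (measurable_T q.1 q.2).comp hf
  · unfold lw
    refine Finset.measurable_sum _ fun j _ => ?_
    exact measurable_coe_nnreal_real.comp (meas_edge hf (measurable_edge (hH _) (hH _)))

private theorem measurableSet_S (hρ : ρ ≠ 0) {Ω : Type*} [MeasurableSpace Ω] {f : Ω → Om}
    (hf : Measurable f) {H : Ω → ℤ → V} (hH : ∀ k, Measurable fun w => H w k) :
    MeasurableSet {w | H w ∈ S ρ W (f w)} := by
  have h1 : {w | H w ∈ S ρ W (f w)} = ⋂ k : ℤ, {w | DG ρ W (f w) (H w k) (H w (k + 1))} := by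
    ext w
    simp [S]
  rw [h1]
  refine MeasurableSet.iInter fun k => ?_
  have : Measurable fun w => (H w k, H w (k + 1)) := (hH k).prodMk (hH (k + 1))
  exact meas_set_comp (p := fun (q : V × V) w => DG ρ W (f w) q.1 q.2) this
    fun q => (measurableSet_DG hρ q.1 q.2).preimage hf

private theorem measurableSet_KO (hρ : ρ ≠ 0) (A : Finset E) (x : V) :
    MeasurableSet {w | KO ρ W A x w} := by
  have h1 : {w | KO ρ W A x w} =
      (⋂ e ∈ A, {w | base w e ≤ other w e}) ∩
      ((⋃ z : V, ({w | z ∈ U ρ W (base w)} ∩ ({w | Ln ρ W (base w) z ∈ S ρ W (mix A w)} ∩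
        ⋂ e ∈ A, ⋃ k : ℤ, {w | edge (Ln ρ W (base w) z k) (Ln ρ W (base w) z (k + 1)) = e}))) ∩
      ({w | x ∈ U ρ W (mix A w)} ∩ {w | NG (base w) (Ln ρ W (mix A w) x)})) := by
    ext w
    simp [KO]
  rw [h1]
  have hL : ∀ z k, Measurable fun w : Bool × E → ℝ≥0 => Ln ρ W (base w) z k :=
    fun z k => (measurable_Ln hρ z k).comp measurable_base
  have hL' : ∀ z k, Measurable fun w : Bool × E → ℝ≥0 => Ln ρ W (mix A w) z k :=
    fun z k => (measurable_Ln hρ z k).comp (measurable_mix A)
  refine MeasurableSet.inter ?_ (MeasurableSet.inter ?_ (MeasurableSet.inter ?_ ?_))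
  · exact Finset.measurableSet_biInter _ fun e _ => measurableSet_le
      ((measurable_pi_apply e).comp measurable_base) ((measurable_pi_apply e).comp measurable_other)
  · refine MeasurableSet.iUnion fun z => MeasurableSet.inter ?_ (MeasurableSet.inter ?_ ?_)
    · exact (measurableSet_U hρ z).preimage measurable_base
    · exact measurableSet_S hρ (measurable_mix A) (hL z)
    · refine Finset.measurableSet_biInter _ fun e _ => MeasurableSet.iUnion fun k => ?_
      exact measurable_edge (hL z k) (hL z (k + 1)) (measurableSet_singleton e)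
  · exact (measurableSet_U hρ x).preimage (measurable_mix A)
  · exact measurableSet_NG measurable_base (hL' x)

/-! ### Mass transport: nobody is killed -/

open Classical in
/-- Indicator of the killing event. -/
private noncomputable def ki (ρ : ℝ × ℝ) (W : ℕ → ℝ) (A : Finset E) (x v : V)
    (w : Bool × E → ℝ≥0) : ℝ≥0∞ := if KO ρ W (tr v A) x w then 1 else 0

private theorem measurable_ki (hρ : ρ ≠ 0) (A : Finset E) (x v : V) :
    Measurable (ki ρ W A x v) := by
  unfold ki
  exact Measurable.ite (measurableSet_KO hρ (tr v A) x) measurable_const measurable_const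

private theorem ki_shift (hρ : ρ ≠ 0) (hW : Tendsto W atTop atTop) (A : Finset E) (x y v : V)
    (w : Bool × E → ℝ≥0) : ki ρ W A (x + v) (y + v) w = ki ρ W A x y (shift2 v w) := by
  unfold ki
  rw [← tr_tr v y A]
  classical exact if_congr (KO_shift hρ hW v (tr y A) x w) rfl rfl

/-- Number of killers of `x` among the translates of `A`. -/
private noncomputable def nk (ρ : ℝ × ℝ) (W : ℕ → ℝ) (A : Finset E) (x : V)
    (w : Bool × E → ℝ≥0) : ℝ≥0∞ := ∑' v, ki ρ W A x v w

private theorem measurable_nk (hρ : ρ ≠ 0) (A : Finset E) (x : V) :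
    Measurable (nk ρ W A x) := by
  unfold nk
  exact Measurable.tsum fun v => measurable_ki hρ A x v

private theorem nk_shift (hρ : ρ ≠ 0) (hW : Tendsto W atTop atTop) (A : Finset E) (x v : V)
    (w : Bool × E → ℝ≥0) : nk ρ W A (x + v) w = nk ρ W A x (shift2 v w) := by
  unfold nk
  rw [← (Equiv.addRight v).tsum_eq]
  exact tsum_congr fun y => ki_shift hρ hW A x y v w

variable (μ : Measure ℝ≥0) [IsProbabilityMeasure μ]

private theorem ae_goodW [NullSingletonClass μ] (hρ : ρ ≠ 0) (hW : Tendsto W atTop atTop) :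
    ∀ᵐ w ∂(P2 μ), GoodW ρ W w := by
  have h := ae_nice (ρ := ρ) (W := W) μ hρ hW
  have h1 : ∀ᵐ w ∂(P2 μ), Nice ρ W (base w) := (mp_base μ).quasiMeasurePreserving.ae h
  have h2 : ∀ᵐ w ∂(P2 μ), ∀ A : Finset E, Nice ρ W (mix A w) :=
    ae_all_iff.mpr fun A => (mp_mix μ A).quasiMeasurePreserving.ae h
  filter_upwards [h1, h2] with w a b using ⟨a, b⟩

private theorem nk_ne_top (hρ : ρ ≠ 0) (hW : Tendsto W atTop atTop) {w : Bool × E → ℝ≥0}
    (hw : GoodW ρ W w) (A : Finset E) (x : V) : nk ρ W A x w ≠ ∞ := by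
  classical
  have hfin := killers_finite hρ hW hw A x
  unfold nk
  rw [tsum_eq_sum (s := hfin.toFinset)]
  · refine (ENNReal.sum_lt_top.mpr fun v _ => ?_).ne
    unfold ki
    split_ifs
    · exact ENNReal.one_lt_top
    · exact ENNReal.zero_lt_top
  · intro v hv
    have : ¬ KO ρ W (tr v A) x w := fun h => hv (hfin.mem_toFinset.mpr h)
    unfold ki
    rw [if_neg this]

private theorem nk_along (hρ : ρ ≠ 0) (hW : Tendsto W atTop atTop) {w : Bool × E → ℝ≥0}
    (hw : GoodW ρ W w) {A B : Finset E} {x : V} (h : KO ρ W B x w) (k : ℤ) :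
    nk ρ W A (Ln ρ W (mix B w) x k) w = nk ρ W A x w := by
  unfold nk ki
  classical exact tsum_congr fun v => if_congr (killers_same hρ hW hw h k) rfl rfl

private theorem ae_not_killed [NullSingletonClass μ] (hρ : ρ ≠ 0) (hW : Tendsto W atTop atTop)
    (A : Finset E) : ∀ᵐ w ∂(P2 μ), ∀ x, ¬ KO ρ W A x w := by
  have hmt := mtp (Q := P2 μ) shift2 (mp_shift2 μ)
    (fun x v w => ki ρ W A x v w * (nk ρ W A x w)⁻¹)
    (fun x y => (measurable_ki hρ A x y).mul (measurable_nk hρ A x).inv)
    (fun x y v w => by rw [ki_shift hρ hW, nk_shift hρ hW])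
  have hleft : ∑' y, ∫⁻ w, ki ρ W A 0 y w * (nk ρ W A 0 w)⁻¹ ∂(P2 μ) ≤ 1 := by
    rw [← lintegral_tsum (f := fun y w => ki ρ W A 0 y w * (nk ρ W A 0 w)⁻¹) fun y =>
      ((measurable_ki hρ A 0 y).mul (measurable_nk hρ A 0).inv).aemeasurable]
    calc ∫⁻ w, ∑' y, ki ρ W A 0 y w * (nk ρ W A 0 w)⁻¹ ∂(P2 μ)
        = ∫⁻ w, nk ρ W A 0 w * (nk ρ W A 0 w)⁻¹ ∂(P2 μ) := by
          refine lintegral_congr fun w => ?_
          rw [ENNReal.tsum_mul_right]
          rfl
      _ ≤ ∫⁻ _, 1 ∂(P2 μ) := lintegral_mono fun w => ENNReal.mul_inv_le_one _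
      _ = 1 := by simp
  rw [hmt, ← lintegral_tsum (f := fun x w => ki ρ W A x 0 w * (nk ρ W A x w)⁻¹) fun x =>
      ((measurable_ki hρ A x 0).mul (measurable_nk hρ A x).inv).aemeasurable] at hleft
  have hfin := ae_lt_top (Measurable.tsum fun x =>
      (measurable_ki hρ A x 0).mul (measurable_nk hρ A x).inv)
      (lt_of_le_of_lt hleft ENNReal.one_lt_top).ne
  filter_upwards [hfin, ae_goodW μ hρ hW] with w hw hgood x hx
  refine absurd hw (not_lt.mpr ?_)
  set H := Ln ρ W (mix A w) x with hH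
  have hinj : Function.Injective H := (hgood.2 A).inj hρ hW hx.2.2.1
  calc (∞ : ℝ≥0∞) = ∑' _ : ℤ, (nk ρ W A x w)⁻¹ := by
        rw [ENNReal.tsum_const_eq_top_of_ne_zero]
        exact ENNReal.inv_ne_zero.mpr (nk_ne_top hρ hW hgood A x)
    _ = ∑' k : ℤ, ki ρ W A (H k) 0 w * (nk ρ W A (H k) w)⁻¹ := by
        refine tsum_congr fun k => ?_
        rw [hH, nk_along hρ hW hgood hx k]
        have : KO ρ W (tr 0 A) (Ln ρ W (mix A w) x k) w := by
          rw [tr_zero]; exact killed_along hgood hx k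
        unfold ki
        rw [if_pos this, one_mul]
    _ ≤ ∑' x, ki ρ W A x 0 w * (nk ρ W A x w)⁻¹ :=
        ENNReal.tsum_comp_le_tsum_of_injective hinj
          (fun x => ki ρ W A x 0 w * (nk ρ W A x w)⁻¹)

/-! ### Exchanging the two environments -/

private theorem base_swp (A : Finset E) (w : Bool × E → ℝ≥0) : base (swp A w) = mix A w := by
  funext e
  simp [base, swp, mix]

private theorem mix_swp (A : Finset E) (w : Bool × E → ℝ≥0) : mix A (swp A w) = base w := by
  funext e
  simp [base, swp, mix]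

private theorem other_swp {A : Finset E} (w : Bool × E → ℝ≥0) {e : E} (he : e ∈ A) :
    other (swp A w) e = base w e := by
  simp [other, base, swp, he]

/-- Lowering the weights on a finite part of a line to those of the other environment does not
create a shortcut for a line of the base environment. -/
private theorem ae_lower [NullSingletonClass μ] (hρ : ρ ≠ 0) (hW : Tendsto W atTop atTop) :
    ∀ᵐ w ∂(P2 μ), ∀ A : Finset E, (∀ e ∈ A, other w e ≤ base w e) →
      ∀ G ∈ S ρ W (base w), (∀ e ∈ A, ∃ k, edge (G k) (G (k + 1)) = e) →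
      ∀ H ∈ S ρ W (base w), ¬ NG (mix A w) H := by
  have h : ∀ᵐ w ∂(P2 μ), ∀ A : Finset E, ∀ x, ¬ KO ρ W A x (swp A w) :=
    ae_all_iff.mpr fun A => (mp_swp μ A).quasiMeasurePreserving.ae (ae_not_killed μ hρ hW A)
  filter_upwards [h, ae_goodW μ hρ hW] with w hw hgood A hle G hG hAG H hH hNG
  have hGm : G ∈ S ρ W (mix A w) := by
    refine S_lower hρ hW hG A ?_ ?_ hAG
    · intro e
      by_cases he : e ∈ A
      · rw [other_of_mem he]; exact hle e he
      · rw [base_of_notMem he]
    · intro e he; exact base_of_notMem he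
  have hGeq : Ln ρ W (mix A w) (G 0) = G := by
    funext k
    rw [(hgood.2 A).line_eq hGm 0 k, zero_add]
  have hHeq : Ln ρ W (base w) (H 0) = H := by
    funext k
    rw [hgood.1.line_eq hH 0 k, zero_add]
  refine hw A (H 0) ⟨?_, ⟨G 0, ?_, ?_, ?_⟩, ?_, ?_⟩
  · intro e he
    rw [base_swp, other_of_mem he, other_swp w he]
    exact hle e he
  · rw [base_swp]
    exact (hgood.2 A).mem_U hGm 0
  · rw [base_swp, mix_swp, hGeq]
    exact hG
  · rw [base_swp, hGeq]
    exact hAG
  · rw [mix_swp]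
    exact hgood.1.mem_U hH 0
  · rw [base_swp, mix_swp, hHeq]
    exact hNG

/-- Main output: replacing the weights of a segment of a line `G` by the minimal value `a` would
not create a shortcut between two vertices of another line `H`. -/
theorem ae_noShortcut [NullSingletonClass μ] (hρ : ρ ≠ 0) (hW : Tendsto W atTop atTop) {a : ℝ≥0}
    (ha : μ (Set.Iic a) = 0) (ha' : ∀ b, a < b → 0 < μ (Set.Iio b)) :
    ∀ᵐ ω ∂(P μ), ∀ G ∈ S ρ W ω, ∀ H ∈ S ρ W ω, (∀ i j, G i ≠ H j) →
      ∀ (i : ℤ) (m : ℕ) (s : ℤ) (n : ℕ),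
        T ω (H i) (H (i + m)) ≤ T ω (H i) (G s) + a * n + T ω (G (s + n)) (H (i + m)) := by
  have hpair := ae_pair (Q := fun ω ω' => ∀ A : Finset E, (∀ e ∈ A, ω' e ≤ ω e) →
      ∀ G ∈ S ρ W ω, (∀ e ∈ A, ∃ k, edge (G k) (G (k + 1)) = e) →
      ∀ H ∈ S ρ W ω, ¬ NG (fun e => if e ∈ A then ω' e else ω e) H) μ (by
    filter_upwards [ae_lower (ρ := ρ) (W := W) μ hρ hW] with w hw A h1 G hG hA H hH
    have : (fun e => if e ∈ A then other w e else base w e) = mix A w := by
      funext e
      by_cases he : e ∈ A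
      · rw [if_pos he, other_of_mem he]
      · rw [if_neg he, base_of_notMem he]
    rw [this]
    exact hw A h1 G hG hA H hH)
  have hpos : ∀ᵐ ω ∂(P μ), ∀ e, a < ω e := by
    refine ae_edge μ (p := fun s => a < s) ?_
    rw [ae_iff]
    simpa [Set.Iic] using ha
  filter_upwards [hpair, hpos] with ω hω hpos G hG H hH hd i m s n
  -- the edges of the segment
  set A : Finset E := (Finset.range n).image fun k : ℕ => edge (G (s + k)) (G (s + k + 1)) with hA
  have hAG : ∀ e ∈ A, ∃ k, edge (G k) (G (k + 1)) = e := by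
    intro e he
    obtain ⟨k, -, hk⟩ := Finset.mem_image.mp he
    exact ⟨s + k, hk⟩
  refine le_of_forall_pos_le_add fun ε hε => ?_
  set δ : ℝ≥0 := ⟨ε / (n + 1), by positivity⟩ with hδ
  have hδ0 : 0 < δ := by
    rw [← NNReal.coe_pos]
    change 0 < ε / (n + 1)
    positivity
  have hcyl := pos_cylinder μ A (fun e => min (a + δ) (ω e)) fun e _ =>
    ha' _ (lt_min (lt_add_of_pos_right a hδ0) (hpos e))
  obtain ⟨ω', hω'1, hω'2⟩ := (((frequently_ae_iff.mpr hcyl.ne').and_eventually hω).exists)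
  set ω₁ : Om := fun e => if e ∈ A then ω' e else ω e with hω₁
  have hlt : ∀ e ∈ A, ω' e < min (a + δ) (ω e) := hω'1
  have hle : ω₁ ≤ ω := by
    intro e
    by_cases he : e ∈ A
    · simp only [hω₁, if_pos he]
      exact ((hlt e he).trans_le (min_le_right _ _)).le
    · simp only [hω₁, if_neg he, le_refl]
  have hng := hω'2 A (fun e he => ((hlt e he).trans_le (min_le_right _ _)).le) G hG hAG H hH
  have hgeo : T ω₁ (H i) (H (i + m)) = lw ω₁ H i m := by
    by_contra hcon
    exact hng ⟨i, m, hcon⟩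
  have hlw : lw ω₁ H i m = lw ω H i m := by
    refine lw_congr (fun k => ?_) i m
    have : edge (H k) (H (k + 1)) ∉ A := fun hmem =>
      avoid (S_adj hG) (S_adj hH) hd (hAG _ hmem) k rfl
    simp only [hω₁, if_neg this]
  have hgeo' : T ω (H i) (H (i + m)) = lw ω H i m := S_geod hρ hW hH i m
  have hseg : T ω₁ (G s) (G (s + n)) ≤ n * (a + δ) := by
    refine (killers_T_le_lw (S_adj hG) s n).trans ?_
    unfold lw
    calc ∑ j ∈ Finset.range n, (ω₁ (edge (G (s + j)) (G (s + j + 1))) : ℝ)
        ≤ ∑ j ∈ Finset.range n, ((a : ℝ) + δ) := by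
          refine Finset.sum_le_sum fun j hj => ?_
          have hm : edge (G (s + j)) (G (s + j + 1)) ∈ A := Finset.mem_image_of_mem _ hj
          have h2 := ((hlt _ hm).trans_le (min_le_left _ _)).le
          simp only [hω₁, if_pos hm]
          exact_mod_cast h2
      _ = n * (a + δ) := by rw [Finset.sum_const, Finset.card_range, nsmul_eq_mul]
  have hnδ : (n : ℝ) * δ ≤ ε := by
    change (n : ℝ) * (ε / (n + 1)) ≤ ε
    rw [mul_div_assoc', div_le_iff₀ (by positivity)]
    nlinarith
  calc T ω (H i) (H (i + m)) = T ω₁ (H i) (H (i + m)) := by rw [hgeo', hgeo, hlw]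
    _ ≤ T ω₁ (H i) (G s) + T ω₁ (G s) (G (s + n)) + T ω₁ (G (s + n)) (H (i + m)) := by
        have h1 := T_triangle ω₁ (H i) (G s) (H (i + m))
        have h2 := T_triangle ω₁ (G s) (G (s + n)) (H (i + m))
        linarith
    _ ≤ T ω (H i) (G s) + n * (a + δ) + T ω (G (s + n)) (H (i + m)) := by
        have h1 := T_mono hle (H i) (G s)
        have h2 := T_mono hle (G (s + n)) (H (i + m))
        linarith
    _ ≤ _ := by linarith

end FPP
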