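import Pool.Agent.helper96.FPP.Grad
import Pool.Agent.helper96.FPP.Peierls

/-!
# Module I (Lines): the double gradient lines
-/

open MeasureTheory Filter Topology
open scoped NNReal ENNReal BoundedContinuousFunction

namespace FPP

variable {ρ : ℝ × ℝ} {W : ℕ → ℝ}

theorem Ln_zero (ω : Om) (x : V) : Ln ρ W ω x 0 = x := rfl

theorem lines_Ln_ofNat (ω : Om) (x : V) (n : ℕ) :
    Ln ρ W ω x (n : ℤ) = (nxt ρ W ω)^[n] x := rfl

theorem lines_Ln_negSucc (ω : Om) (x : V) (n : ℕ) :
    Ln ρ W ω x (Int.negSucc n) = (prv ρ W ω)^[n + 1] x := rfl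

theorem lines_nxt_eq {ω : Om} (h : Nice ρ W ω) {x y : V} (hxy : DG ρ W ω x y) :
    nxt ρ W ω x = y := by
  obtain ⟨s, rfl⟩ := hxy.1
  have key : ∀ s', DG ρ W ω x (x + vec s') → x + vec s' = x + vec s := by
    intro s' h'
    rw [h.fuq x s' s h'.2.1 hxy.2.1]
  unfold nxt
  split_ifs with h1 h2 h3 h4
  · exact key _ h1
  · exact key _ h2
  · exact key _ h3
  · exact key _ h4
  · exfalso
    cases s
    · exact h1 hxy
    · exact h2 hxy
    · exact h3 hxy
    · exact h4 hxy

theorem lines_prv_eq {ω : Om} (h : Nice ρ W ω) {x y : V} (hxy : DG ρ W ω y x) :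
    prv ρ W ω x = y := by
  obtain ⟨s, rfl⟩ := adj_symm hxy.1
  have key : ∀ s', DG ρ W ω (x + vec s') x → x + vec s' = x + vec s := by
    intro s' h'
    rw [h.buq x s' s h'.2.2 hxy.2.2]
  unfold prv
  split_ifs with h1 h2 h3 h4
  · exact key _ h1
  · exact key _ h2
  · exact key _ h3
  · exact key _ h4
  · exfalso
    cases s
    · exact h1 hxy
    · exact h2 hxy
    · exact h3 hxy
    · exact h4 hxy

/-- On a nice environment, a line is determined by any of its vertices. -/
theorem Nice.line_eq {ω : Om} (h : Nice ρ W ω) {G : ℤ → V} (hG : G ∈ S ρ W ω) (j k : ℤ) :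
    Ln ρ W ω (G j) k = G (j + k) := by
  have hG' : ∀ k, DG ρ W ω (G k) (G (k + 1)) := hG
  have h1 : ∀ n : ℕ, (nxt ρ W ω)^[n] (G j) = G (j + n) := by
    intro n
    induction n with
    | zero => simp
    | succ n ih =>
      rw [Function.iterate_succ_apply', ih]
      have := lines_nxt_eq h (hG' (j + n))
      rw [this]
      congr 1
      push_cast
      ring
  have h2 : ∀ n : ℕ, (prv ρ W ω)^[n] (G j) = G (j - n) := by
    intro n
    induction n with
    | zero => simp
    | succ n ih =>
      rw [Function.iterate_succ_apply', ih]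
      have h3 := hG' (j - n - 1)
      rw [sub_add_cancel] at h3
      rw [lines_prv_eq h h3]
      congr 1
      push_cast
      ring
  cases k with
  | ofNat n => exact h1 n
  | negSucc n =>
    rw [lines_Ln_negSucc, h2]
    congr 1

theorem Nice.mem_U {ω : Om} (h : Nice ρ W ω) {G : ℤ → V} (hG : G ∈ S ρ W ω) (j : ℤ) :
    G j ∈ U ρ W ω := by
  intro k
  rw [h.line_eq hG, h.line_eq hG, ← add_assoc]
  exact hG (j + k)

/-- Two lines through a common vertex agree up to a shift of the parameter. -/
theorem Nice.eq_of_common {ω : Om} (h : Nice ρ W ω) {G H : ℤ → V} (hG : G ∈ S ρ W ω)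
    (hH : H ∈ S ρ W ω) {i j : ℤ} (hij : G i = H j) (k : ℤ) : G (i + k) = H (j + k) := by
  rw [← h.line_eq hG, ← h.line_eq hH, hij]

theorem Nice.inj (hρ : ρ ≠ 0) (hW : Tendsto W atTop atTop) {ω : Om} (h : Nice ρ W ω) {G : ℤ → V}
    (hG : G ∈ S ρ W ω) : Function.Injective G := S_inj hρ hW h.pos hG

theorem lines_nxt_shift (hρ : ρ ≠ 0) (hW : Tendsto W atTop atTop) (ω : Om) (x v : V) :
    nxt ρ W ω (x + v) = nxt ρ W (shift v ω) x + v := by
  classical
  have key : ∀ s, DG ρ W ω (x + v) (x + v + vec s) ↔ DG ρ W (shift v ω) x (x + vec s) := by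
    intro s
    rw [add_right_comm]
    exact DG_shift hρ hW ω x (x + vec s) v
  unfold nxt
  simp only [key]
  split_ifs <;> abel

theorem lines_prv_shift (hρ : ρ ≠ 0) (hW : Tendsto W atTop atTop) (ω : Om) (x v : V) :
    prv ρ W ω (x + v) = prv ρ W (shift v ω) x + v := by
  classical
  have key : ∀ s, DG ρ W ω (x + v + vec s) (x + v) ↔ DG ρ W (shift v ω) (x + vec s) x := by
    intro s
    rw [add_right_comm]
    exact DG_shift hρ hW ω (x + vec s) x v
  unfold prv
  simp only [key]
  split_ifs <;> abel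

theorem Ln_shift (hρ : ρ ≠ 0) (hW : Tendsto W atTop atTop) (ω : Om) (x v : V) (k : ℤ) :
    Ln ρ W ω (x + v) k = Ln ρ W (shift v ω) x k + v := by
  have h1 : ∀ n : ℕ, (nxt ρ W ω)^[n] (x + v) = (nxt ρ W (shift v ω))^[n] x + v := by
    intro n
    induction n with
    | zero => rfl
    | succ n ih =>
      rw [Function.iterate_succ_apply', Function.iterate_succ_apply', ih,
        lines_nxt_shift hρ hW]
  have h2 : ∀ n : ℕ, (prv ρ W ω)^[n] (x + v) = (prv ρ W (shift v ω))^[n] x + v := by
    intro n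
    induction n with
    | zero => rfl
    | succ n ih =>
      rw [Function.iterate_succ_apply', Function.iterate_succ_apply', ih,
        lines_prv_shift hρ hW]
  cases k with
  | ofNat n => exact h1 n
  | negSucc n => exact h2 (n + 1)

theorem U_shift (hρ : ρ ≠ 0) (hW : Tendsto W atTop atTop) (ω : Om) (x v : V) :
    x + v ∈ U ρ W ω ↔ x ∈ U ρ W (shift v ω) := by
  show (∀ k, DG ρ W ω (Ln ρ W ω (x + v) k) (Ln ρ W ω (x + v) (k + 1))) ↔
    (∀ k, DG ρ W (shift v ω) (Ln ρ W (shift v ω) x k) (Ln ρ W (shift v ω) x (k + 1)))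
  refine forall_congr' fun k => ?_
  rw [Ln_shift hρ hW, Ln_shift hρ hW]
  exact DG_shift hρ hW ω _ _ v

theorem lines_measurable_comp {f : V → Om → V} (hf : ∀ y, Measurable (f y)) {g : Om → V}
    (hg : Measurable g) : Measurable fun ω => f (g ω) ω := by
  have h1 : Measurable fun q : Om × V => f q.2 q.1 :=
    measurable_from_prod_countable_left fun y => hf y
  exact h1.comp (measurable_id.prodMk hg)

theorem lines_measurable_nxt (hρ : ρ ≠ 0) (x : V) : Measurable fun ω => nxt ρ W ω x := by
  unfold nxt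
  refine Measurable.ite (measurableSet_DG hρ _ _) measurable_const ?_
  refine Measurable.ite (measurableSet_DG hρ _ _) measurable_const ?_
  refine Measurable.ite (measurableSet_DG hρ _ _) measurable_const ?_
  exact Measurable.ite (measurableSet_DG hρ _ _) measurable_const measurable_const

theorem lines_measurable_prv (hρ : ρ ≠ 0) (x : V) : Measurable fun ω => prv ρ W ω x := by
  unfold prv
  refine Measurable.ite (measurableSet_DG hρ _ _) measurable_const ?_
  refine Measurable.ite (measurableSet_DG hρ _ _) measurable_const ?_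
  refine Measurable.ite (measurableSet_DG hρ _ _) measurable_const ?_
  exact Measurable.ite (measurableSet_DG hρ _ _) measurable_const measurable_const

theorem measurable_Ln (hρ : ρ ≠ 0) (x : V) (k : ℤ) : Measurable fun ω => Ln ρ W ω x k := by
  have h1 : ∀ n : ℕ, Measurable fun ω => (nxt ρ W ω)^[n] x := by
    intro n
    induction n with
    | zero => exact measurable_const
    | succ n ih =>
      simp only [Function.iterate_succ_apply']
      exact lines_measurable_comp (f := fun y ω => nxt ρ W ω y)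
        (fun y => lines_measurable_nxt hρ y) ih
  have h2 : ∀ n : ℕ, Measurable fun ω => (prv ρ W ω)^[n] x := by
    intro n
    induction n with
    | zero => exact measurable_const
    | succ n ih =>
      simp only [Function.iterate_succ_apply']
      exact lines_measurable_comp (f := fun y ω => prv ρ W ω y)
        (fun y => lines_measurable_prv hρ y) ih
  cases k with
  | ofNat n => exact h1 n
  | negSucc n => exact h2 (n + 1)

theorem measurableSet_U (hρ : ρ ≠ 0) (x : V) : MeasurableSet {ω | x ∈ U ρ W ω} := by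
  have : {ω | x ∈ U ρ W ω} = ⋂ k : ℤ, ⋃ y : V, ⋃ z : V,
      {ω | Ln ρ W ω x k = y} ∩ ({ω | Ln ρ W ω x (k + 1) = z} ∩ {ω | DG ρ W ω y z}) := by
    ext ω
    simp only [Set.mem_iInter, Set.mem_iUnion, Set.mem_inter_iff, Set.mem_ofPred_eq]
    show (∀ k, DG ρ W ω (Ln ρ W ω x k) (Ln ρ W ω x (k + 1))) ↔ _
    refine forall_congr' fun k => ?_
    constructor
    · intro h
      exact ⟨_, _, rfl, rfl, h⟩
    · rintro ⟨y, z, rfl, rfl, h⟩
      exact h
  rw [this]
  refine MeasurableSet.iInter fun k => MeasurableSet.iUnion fun y => MeasurableSet.iUnion fun z =>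
    ?_
  refine MeasurableSet.inter ?_ (MeasurableSet.inter ?_ (measurableSet_DG hρ _ _))
  · exact (measurable_Ln hρ x k) (measurableSet_singleton y)
  · exact (measurable_Ln hρ x (k + 1)) (measurableSet_singleton z)

variable (μ : Measure ℝ≥0) [IsProbabilityMeasure μ] [NullSingletonClass μ]

theorem ae_nice (hρ : ρ ≠ 0) (hW : Tendsto W atTop atTop) : ∀ᵐ ω ∂(P μ), Nice ρ W ω := by
  have hpos : ∀ᵐ s ∂μ, 0 < s := by
    have h0 : ∀ᵐ s ∂μ, s ≠ 0 := by
      rw [ae_iff]
      simp
    filter_upwards [h0] with s hs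
    exact pos_iff_ne_zero.mpr hs
  filter_upwards [ae_edge μ hpos, ae_finite_balls μ, ae_FG_unique μ hρ hW,
    ae_FG_unique μ (neg_ne_zero.mpr hρ) hW] with ω h1 h2 h3 h4
  exact ⟨h1, h2, h3, h4⟩

end FPP
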