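import Pool.Agent.helper96.FPP.Defs2

/-!
# Module A (Walk): deterministic facts on walks, passage times, half plane passage times
-/

open MeasureTheory Filter Topology
open scoped NNReal ENNReal BoundedContinuousFunction

namespace FPP

/-! ### Lattice -/

theorem vec_opp (s : Dir) : vec (opp s) = -vec s := by
  cases s <;> rfl

theorem opp_opp (s : Dir) : opp (opp s) = s := by cases s <;> rfl

theorem adj_symm {x y : V} (h : Adj x y) : Adj y x := by
  obtain ⟨s, rfl⟩ := h
  exact ⟨opp s, by rw [vec_opp]; abel⟩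

theorem adj_vec (x : V) (s : Dir) : Adj x (x + vec s) := ⟨s, rfl⟩

theorem vec_inj : Function.Injective vec := by
  intro s s' h
  cases s <;> cases s' <;> simp_all [vec]

theorem adj_add_right {x y v : V} : Adj (x + v) (y + v) ↔ Adj x y := by
  constructor
  · rintro ⟨s, hs⟩
    exact ⟨s, by rw [add_right_comm] at hs; exact add_right_cancel hs⟩
  · rintro ⟨s, rfl⟩
    exact ⟨s, by abel⟩

theorem vec_ne_zero (s : Dir) : vec s ≠ 0 := by
  cases s <;> simp [vec]

theorem adj_ne {x y : V} (h : Adj x y) : x ≠ y := by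
  obtain ⟨s, rfl⟩ := h
  intro h
  exact vec_ne_zero s (by simpa using h.symm)

theorem edge_comm (x y : V) : edge x y = edge y x := by
  unfold edge
  rw [inf_comm, decide_eq_decide.mpr (eq_comm (a := x.1) (b := y.1))]

theorem edge_add_right (x y v : V) : edge (x + v) (y + v) = ((edge x y).1 + v, (edge x y).2) := by
  unfold edge
  refine Prod.ext ?_ ?_
  · refine Prod.ext ?_ ?_
    · simp [min_add_add_right]
    · simp [min_add_add_right]
  · simp

theorem shift_edge (ω : Om) (x y v : V) : shift v ω (edge x y) = ω (edge (x + v) (y + v)) := by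
  rw [edge_add_right]; rfl

theorem shift_zero (ω : Om) : shift 0 ω = ω := by
  funext e; simp [shift]

theorem shift_shift (a b : V) (ω : Om) : shift a (shift b ω) = shift (a + b) ω := by
  funext e; simp [shift, add_assoc]

theorem continuous_shift (v : V) : Continuous (shift v) := by
  unfold shift
  fun_prop

theorem measurable_shift (v : V) : Measurable (shift v) := by
  unfold shift
  fun_prop

theorem edge_vec (x : V) (s : Dir) : edge x (x + vec s) =
    match s with
    | .r => (x, false)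
    | .l => (x + (-1, 0), false)
    | .u => (x, true)
    | .d => (x + (0, -1), true) := by
  cases s
  · refine Prod.ext (Prod.ext ?_ ?_) ?_ <;> simp [edge, vec]
  · refine Prod.ext (Prod.ext ?_ ?_) ?_ <;> simp [edge, vec]
  · refine Prod.ext (Prod.ext ?_ ?_) ?_ <;> simp [edge, vec]
  · refine Prod.ext (Prod.ext ?_ ?_) ?_ <;> simp [edge, vec]

theorem edge_eq_edge {x y x' y' : V} (h : Adj x y) (h' : Adj x' y') (he : edge x y = edge x' y') :
    (x = x' ∧ y = y') ∨ (x = y' ∧ y = x') := by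
  obtain ⟨s, rfl⟩ := h
  obtain ⟨s', rfl⟩ := h'
  rw [edge_vec, edge_vec] at he
  obtain ⟨x1, x2⟩ := x
  obtain ⟨y1, y2⟩ := x'
  cases s <;> cases s' <;> simp [vec] at he ⊢ <;> omega

theorem ends_edge {x y : V} (h : Adj x y) : ends (edge x y) = {x, y} := by
  obtain ⟨s, rfl⟩ := h
  rw [edge_vec]
  obtain ⟨x1, x2⟩ := x
  ext ⟨z1, z2⟩
  cases s <;> simp [ends, vec] <;> omega

theorem exists_edge (e : E) : ∃ y, Adj e.1 y ∧ edge e.1 y = e := by
  obtain ⟨x, b⟩ := e
  cases b
  · exact ⟨x + vec .r, adj_vec _ _, by rw [edge_vec]⟩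
  · exact ⟨x + vec .u, adj_vec _ _, by rw [edge_vec]⟩

theorem nrm_zero : nrm 0 = 0 := by simp [nrm]
theorem nrm_vec (s : Dir) : nrm (vec s) = 1 := by cases s <;> simp [nrm, vec]
theorem nrm_neg (v : V) : nrm (-v) = nrm v := by simp [nrm]
theorem nrm_add_le (v w : V) : nrm (v + w) ≤ nrm v + nrm w := by
  simp only [nrm, Prod.fst_add, Prod.snd_add]; omega
theorem nrm_pos {v : V} (h : v ≠ 0) : 0 < nrm v := by
  obtain ⟨a, b⟩ := v
  simp only [nrm]
  by_contra hh
  apply h
  refine Prod.ext ?_ ?_ <;> simp <;> omega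
theorem nrm_smul (k : ℤ) (v : V) : nrm (k • v) = k.natAbs * nrm v := by
  simp [nrm, Int.natAbs_mul, mul_add]
theorem mem_box {N : ℕ} {v : V} : v ∈ box N ↔ |v.1| ≤ (N : ℤ) ∧ |v.2| ≤ (N : ℤ) := by
  unfold box
  rw [Finset.mem_Icc, Prod.le_def, Prod.le_def, abs_le, abs_le]
  tauto
theorem card_box (N : ℕ) : (box N).card = (2 * N + 1) ^ 2 := by
  unfold box
  rw [← Finset.Icc_product_Icc, Finset.card_product, Int.card_Icc]
  have : ((N : ℤ) + 1 - -(N : ℤ)).toNat = 2 * N + 1 := by omega
  rw [this]; ring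
theorem nrm_le_of_mem_box {N : ℕ} {v : V} (h : v ∈ box N) : nrm v ≤ 2 * N := by
  rw [mem_box, abs_le, abs_le] at h
  simp only [nrm]
  omega
theorem mem_box_of_nrm_le {N : ℕ} {v : V} (h : nrm v ≤ N) : v ∈ box N := by
  rw [mem_box, abs_le, abs_le]
  simp only [nrm] at h
  omega

/-! ### Paths -/

theorem IsPath.edge_injOn {p : ℕ → V} {n : ℕ} (h : IsPath p n) :
    Set.InjOn (fun k => edge (p k) (p (k + 1))) (Set.Iio n) := by
  intro i hi j hj hij
  simp only [Set.mem_Iio] at hi hj
  rcases edge_eq_edge (h.1 i hi) (h.1 j hj) hij with ⟨h1, _⟩ | ⟨h1, h2⟩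
  · exact h.2 (show i ≤ n by omega) (show j ≤ n by omega) h1
  · have e1 := h.2 (show i ≤ n by omega) (show j + 1 ≤ n by omega) h1
    have e2 := h.2 (show i + 1 ≤ n by omega) (show j ≤ n by omega) h2
    omega

theorem IsPath.sub {p : ℕ → V} {n : ℕ} (h : IsPath p n) {a m : ℕ} (ham : a + m ≤ n) :
    IsPath (fun i => p (a + i)) m := by
  refine ⟨fun k hk => ?_, fun i hi j hj hij => ?_⟩
  · have := h.1 (a + k) (by omega)
    simpa [add_assoc] using this
  · simp only [Set.mem_Iic] at hi hj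
    have := h.2 (show a + i ≤ n by omega) (show a + j ≤ n by omega) hij
    omega

theorem nrm_path_le {p : ℕ → V} {n : ℕ} (h : ∀ k < n, Adj (p k) (p (k + 1))) {i j : ℕ}
    (hij : i ≤ j) (hj : j ≤ n) : nrm (p j - p i) ≤ j - i := by
  induction j, hij using Nat.le_induction with
  | base => simp [nrm_zero]
  | succ j hij ih =>
    obtain ⟨s, hs⟩ := h j (by omega)
    have e : p (j + 1) - p i = (p j - p i) + vec s := by rw [hs]; abel
    rw [e]
    have h1 := nrm_add_le (p j - p i) (vec s)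
    rw [nrm_vec] at h1
    have h2 := ih (by omega)
    omega

theorem IsGeodesicRay.isPath {ω : Om} {g : ℕ → V} (h : IsGeodesicRay ω g) (a n : ℕ) :
    IsPath (fun i => g (a + i)) n := by
  refine ⟨fun k _ => ?_, fun i _ j _ hij => ?_⟩
  · have := h.adj (a + k)
    simpa [add_assoc] using this
  · have := h.inj hij
    omega

theorem pw_nonneg (ω : Om) (p : ℕ → V) (n : ℕ) : 0 ≤ pw ω p n :=
  Finset.sum_nonneg fun _ _ => NNReal.coe_nonneg _

theorem pw_add (ω : Om) (p : ℕ → V) (m n : ℕ) :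
    pw ω p (m + n) = pw ω p m + pw ω (fun i => p (m + i)) n := by
  simp only [pw, Finset.sum_range_add, add_assoc]

/-! ### Walks as lists of steps -/

theorem disp_nil : disp [] = 0 := rfl
theorem disp_cons (s : Dir) (l : List Dir) : disp (s :: l) = vec s + disp l := by simp [disp]
theorem disp_append (l l' : List Dir) : disp (l ++ l') = disp l + disp l' := by simp [disp]
theorem wt_nil (ω : Om) (x : V) : wt ω x [] = 0 := rfl
theorem wt_cons (ω : Om) (x : V) (s : Dir) (l : List Dir) :
    wt ω x (s :: l) = ω (edge x (x + vec s)) + wt ω (x + vec s) l := rfl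

theorem wt_append (ω : Om) (x : V) (l l' : List Dir) :
    wt ω x (l ++ l') = wt ω x l + wt ω (x + disp l) l' := by
  induction l generalizing x with
  | nil => simp [wt_nil, disp_nil]
  | cons s l ih =>
    rw [List.cons_append, wt_cons, wt_cons, ih, disp_cons, add_assoc, add_assoc]

/-- The reversed walk. -/
def rev (l : List Dir) : List Dir := (l.map opp).reverse

theorem disp_rev (l : List Dir) : disp (rev l) = -disp l := by
  induction l with
  | nil => simp [rev, disp]
  | cons s l ih =>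
    have : rev (s :: l) = rev l ++ [opp s] := by simp [rev]
    rw [this, disp_append, ih, disp_cons, disp_cons, disp_nil, vec_opp]; abel

theorem wt_rev (ω : Om) (x : V) (l : List Dir) : wt ω (x + disp l) (rev l) = wt ω x l := by
  induction l generalizing x with
  | nil => simp [rev, wt_nil]
  | cons s l ih =>
    have : rev (s :: l) = rev l ++ [opp s] := by simp [rev]
    rw [this, wt_append, disp_cons, ← add_assoc, ih, disp_rev, wt_cons, wt_cons, wt_nil, vec_opp]
    have e1 : x + vec s + disp l + -disp l = x + vec s := by abel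
    have e2 : x + vec s + -vec s = x := by abel
    rw [e1, e2, edge_comm, add_zero, add_comm]

theorem length_rev (l : List Dir) : (rev l).length = l.length := by simp [rev]

theorem exists_walk (v : V) : ∃ l : List Dir, disp l = v ∧ l.length = nrm v := by
  have key : ∀ (s : Dir) (n : ℕ), disp (List.replicate n s) = n • vec s := by
    intro s n
    simp [disp]
  obtain ⟨a, b⟩ := v
  refine ⟨List.replicate a.natAbs (if 0 ≤ a then .r else .l) ++
    List.replicate b.natAbs (if 0 ≤ b then .u else .d), ?_, by simp [nrm]⟩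
  rw [disp_append, key, key]
  split_ifs with h1 h2 h2 <;> refine Prod.ext ?_ ?_ <;>
    simp only [vec, Prod.smul_mk, Prod.fst_add, Prod.snd_add, smul_zero, nsmul_eq_mul, smul_neg,
      mul_one, add_zero, zero_add] <;> omega

theorem pw_take (ω : Om) (x : V) (l : List Dir) :
    pw ω (fun i => x + disp (l.take i)) l.length = wt ω x l := by
  induction l generalizing x with
  | nil => simp [pw, wt_nil]
  | cons s l ih =>
    have := ih (x + vec s)
    simp only [pw] at this ⊢
    rw [List.length_cons, Finset.sum_range_succ', wt_cons, NNReal.coe_add, ← this]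
    rw [add_comm]
    congr 1
    · simp [disp_cons, disp_nil]
    · refine Finset.sum_congr rfl fun i _ => ?_
      have e1 : (s :: l).take (i + 1) = s :: l.take i := List.take_succ_cons
      have e2 : (s :: l).take (i + 1 + 1) = s :: l.take (i + 1) := List.take_succ_cons
      rw [e1, e2, disp_cons, disp_cons, ← add_assoc, ← add_assoc]

theorem exists_list_of_path (ω : Om) (p : ℕ → V) (n : ℕ) (h : ∀ k < n, Adj (p k) (p (k + 1))) :
    ∃ l : List Dir, l.length = n ∧ (∀ i ≤ n, p 0 + disp (l.take i) = p i) ∧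
      (wt ω (p 0) l : ℝ) = pw ω p n := by
  induction n generalizing p with
  | zero =>
    refine ⟨[], rfl, ?_, by simp [wt_nil, pw]⟩
    intro i hi
    have : i = 0 := by omega
    subst this
    simp [disp_nil]
  | succ n ih =>
    obtain ⟨l, h1, h2, h3⟩ := ih (fun k => p (k + 1)) (fun k hk => h (k + 1) (by omega))
    obtain ⟨s, hs⟩ := h 0 (by omega)
    refine ⟨s :: l, by simp [h1], ?_, ?_⟩
    · intro i hi
      cases i with
      | zero => simp [disp_nil]
      | succ i =>
        rw [List.take_succ_cons, disp_cons, ← add_assoc, ← hs]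
        exact h2 i (by omega)
    · rw [wt_cons, ← hs, NNReal.coe_add, pw, Finset.sum_range_succ', add_comm]
      congr 1

/-! ### Passage times -/

instance (x y : V) : Nonempty {l : List Dir // x + disp l = y} := by
  obtain ⟨l, hl, _⟩ := exists_walk (y - x)
  exact ⟨⟨l, by rw [hl]; abel⟩⟩

theorem T_bddBelow (ω : Om) (x y : V) :
    BddBelow (Set.range fun l : {l : List Dir // x + disp l = y} => (wt ω x l.1 : ℝ)) :=
  ⟨0, by rintro _ ⟨l, rfl⟩; exact NNReal.coe_nonneg _⟩

theorem T_nonneg (ω : Om) (x y : V) : 0 ≤ T ω x y :=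
  Real.iInf_nonneg fun _ => NNReal.coe_nonneg _

theorem T_le_wt' (ω : Om) {x y : V} {l : List Dir} (h : x + disp l = y) : T ω x y ≤ wt ω x l :=
  ciInf_le (T_bddBelow ω x y) ⟨l, h⟩

theorem T_le_wt (ω : Om) (x : V) (l : List Dir) : T ω x (x + disp l) ≤ wt ω x l :=
  T_le_wt' ω rfl

theorem exists_wt_lt {ω : Om} {x y : V} {c : ℝ} (h : T ω x y < c) :
    ∃ l : List Dir, x + disp l = y ∧ (wt ω x l : ℝ) < c := by
  obtain ⟨⟨l, hl⟩, hl'⟩ := exists_lt_of_ciInf_lt h
  exact ⟨l, hl, hl'⟩

theorem le_T {ω : Om} {x y : V} {c : ℝ}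
    (h : ∀ l : List Dir, x + disp l = y → c ≤ (wt ω x l : ℝ)) : c ≤ T ω x y :=
  le_ciInf fun l => h l.1 l.2

theorem T_self (ω : Om) (x : V) : T ω x x = 0 := by
  refine le_antisymm ?_ (T_nonneg _ _ _)
  have := T_le_wt ω x []
  simpa [disp_nil, wt_nil] using this

theorem T_comm_le (ω : Om) (x y : V) : T ω x y ≤ T ω y x := by
  refine le_T fun l hl => ?_
  subst hl
  rw [← wt_rev]
  refine T_le_wt' ω ?_
  rw [disp_rev]; abel

theorem T_comm (ω : Om) (x y : V) : T ω x y = T ω y x :=
  le_antisymm (T_comm_le ω x y) (T_comm_le ω y x)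

theorem T_triangle (ω : Om) (x y z : V) : T ω x z ≤ T ω x y + T ω y z := by
  by_contra h
  push Not at h
  have h1 : T ω x y < T ω x y + (T ω x z - T ω x y - T ω y z) / 2 := by linarith
  have h2 : T ω y z < T ω y z + (T ω x z - T ω x y - T ω y z) / 2 := by linarith
  obtain ⟨l, hl, hl'⟩ := exists_wt_lt h1
  obtain ⟨l', hm, hm'⟩ := exists_wt_lt h2
  subst hl
  have h3 := T_le_wt' ω (x := x) (y := z) (l := l ++ l') (by rw [disp_append, ← add_assoc, hm])
  rw [wt_append, NNReal.coe_add] at h3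
  linarith

theorem T_le_edge (ω : Om) {x y : V} (h : Adj x y) : T ω x y ≤ ω (edge x y) := by
  obtain ⟨s, rfl⟩ := h
  have := T_le_wt' ω (x := x) (y := x + vec s) (l := [s]) (by simp [disp_cons, disp_nil])
  simpa [wt_cons, wt_nil] using this

theorem T_le_pw (ω : Om) {p : ℕ → V} {n : ℕ} (h : ∀ k < n, Adj (p k) (p (k + 1))) :
    T ω (p 0) (p n) ≤ pw ω p n := by
  obtain ⟨l, h1, h2, h3⟩ := exists_list_of_path ω p n h
  rw [← h3]
  refine T_le_wt' ω ?_
  rw [← h2 n le_rfl, ← h1, List.take_length]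

/-- The infimum can be taken over self-avoiding paths. -/
theorem exists_path_lt {ω : Om} {x y : V} {c : ℝ} (h : T ω x y < c) :
    ∃ (n : ℕ) (p : ℕ → V), p 0 = x ∧ p n = y ∧ IsPath p n ∧ pw ω p n < c := by
  classical
  obtain ⟨l₀, hl₀⟩ := exists_wt_lt h
  have hex : ∃ n, ∃ l : List Dir, l.length = n ∧ x + disp l = y ∧ (wt ω x l : ℝ) < c :=
    ⟨_, l₀, rfl, hl₀⟩
  obtain ⟨l, hl, hxy, hc⟩ := Nat.find_spec hex
  have hmin : ∀ l' : List Dir, x + disp l' = y → (wt ω x l' : ℝ) < c →
      l.length ≤ l'.length := by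
    intro l' h1 h2
    rw [hl]
    exact Nat.find_min' hex ⟨l', rfl, h1, h2⟩
  refine ⟨l.length, fun i => x + disp (l.take i), by simp [disp_nil], ?_, ⟨?_, ?_⟩, ?_⟩
  · simpa using hxy
  · intro k hk
    refine ⟨l[k], ?_⟩
    show x + disp (l.take (k + 1)) = x + disp (l.take k) + vec l[k]
    rw [List.take_succ_eq_append_getElem hk, disp_append, disp_cons, disp_nil]
    abel
  · have key : ∀ i j, i < j → j ≤ l.length →
        x + disp (l.take i) ≠ x + disp (l.take j) := by
      intro i j hij hj he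
      have hd : disp (l.take i) = disp (l.take j) := add_left_cancel he
      have hsplit : l.take j ++ l.drop j = l := List.take_append_drop j l
      have hsplit2 : l.take i ++ (l.take j).drop i = l.take j := by
        have := List.take_append_drop i (l.take j)
        rwa [List.take_take, min_eq_left hij.le] at this
      have h1 : x + disp (l.take i ++ l.drop j) = y := by
        rw [disp_append, hd, ← disp_append, hsplit]; exact hxy
      have h2 : (wt ω x (l.take i ++ l.drop j) : ℝ) < c := by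
        refine lt_of_le_of_lt ?_ hc
        have e : wt ω x l = wt ω x (l.take j) + wt ω (x + disp (l.take j)) (l.drop j) := by
          rw [← wt_append, hsplit]
        have e' : wt ω x (l.take j) = wt ω x (l.take i) +
            wt ω (x + disp (l.take i)) ((l.take j).drop i) := by
          rw [← wt_append, hsplit2]
        rw [e, e', wt_append, hd]
        push_cast
        have := NNReal.coe_nonneg (wt ω (x + disp (l.take j)) ((l.take j).drop i))
        linarith
      have h3 := hmin _ h1 h2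
      rw [List.length_append, List.length_take, List.length_drop] at h3
      omega
    intro i hi j hj hij
    simp only [Set.mem_Iic] at hi hj
    by_contra hne
    rcases lt_or_gt_of_ne hne with h' | h'
    · exact key i j h' hj hij
    · exact key j i h' hi hij.symm
  · rw [pw_take]; exact hc

theorem wt_shift (ω : Om) (v x : V) (l : List Dir) :
    wt ω (x + v) l = wt (shift v ω) x l := by
  induction l generalizing x with
  | nil => rfl
  | cons s l ih =>
    rw [wt_cons, wt_cons, shift_edge, add_right_comm, ih]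

theorem T_shift (ω : Om) (v x y : V) : T ω (x + v) (y + v) = T (shift v ω) x y := by
  refine le_antisymm (le_T fun l hl => ?_) (le_T fun l hl => ?_)
  · rw [← wt_shift]
    exact T_le_wt' ω (by rw [add_right_comm, hl])
  · rw [wt_shift]
    refine T_le_wt' _ ?_
    rw [add_right_comm] at hl
    exact add_right_cancel hl

theorem wt_mono {ω ω' : Om} (h : ω ≤ ω') (x : V) (l : List Dir) : wt ω x l ≤ wt ω' x l := by
  induction l generalizing x with
  | nil => exact le_rfl
  | cons s l ih => rw [wt_cons, wt_cons]; exact add_le_add (h _) (ih _)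

theorem T_mono {ω ω' : Om} (h : ω ≤ ω') (x y : V) : T ω x y ≤ T ω' x y :=
  le_T fun l hl => (T_le_wt' ω hl).trans (NNReal.coe_le_coe.mpr (wt_mono h x l))

/-- `1`-Lipschitz functions give lower bounds. -/
theorem lip_le_T (ω : Om) (f : V → ℝ)
    (hf : ∀ x s, |f (x + vec s) - f x| ≤ ω (edge x (x + vec s))) (x y : V) :
    f y - f x ≤ T ω x y := by
  refine le_T fun l hl => ?_
  subst hl
  induction l generalizing x with
  | nil => simp [disp_nil, wt_nil]
  | cons s l ih =>
    have h1 := ih (x + vec s)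
    have h2 := (abs_le.mp (hf x s)).2
    rw [wt_cons, disp_cons, ← add_assoc, NNReal.coe_add]
    linarith

theorem measurable_wt (x : V) (l : List Dir) : Measurable fun ω => wt ω x l := by
  induction l generalizing x with
  | nil => exact measurable_const
  | cons s l ih =>
    simp only [wt_cons]
    exact (measurable_pi_apply _).add (ih _)

theorem continuous_wt (x : V) (l : List Dir) : Continuous fun ω => wt ω x l := by
  induction l generalizing x with
  | nil => exact continuous_const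
  | cons s l ih =>
    simp only [wt_cons]
    exact (continuous_apply _).add (ih _)

theorem measurable_T (x y : V) : Measurable fun ω => T ω x y := by
  unfold T
  exact Measurable.iInf fun l => (measurable_wt x l.1).coe_nnreal_real

theorem wt_split {ω ω' : Om} {A : Set E} (hA : ∀ e ∉ A, ω' e = ω e) (x : V) (l : List Dir) :
    wt ω' x l = wt ω x l ∨ ∃ l₁ s l₂, l = l₁ ++ s :: l₂ ∧
      edge (x + disp l₁) (x + disp l₁ + vec s) ∈ A := by
  induction l generalizing x with
  | nil => left; rfl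
  | cons s l ih =>
    by_cases h : edge x (x + vec s) ∈ A
    · right
      exact ⟨[], s, l, rfl, by simpa [disp_nil] using h⟩
    · rcases ih (x + vec s) with h1 | ⟨l₁, s', l₂, h1, h2⟩
      · left
        rw [wt_cons, wt_cons, hA _ h, h1]
      · right
        refine ⟨s :: l₁, s', l₂, by rw [h1]; rfl, ?_⟩
        rw [disp_cons, ← add_assoc]
        exact h2

/-- Raising the weights on `A`: either the passage time stays below `c`, or a cheap path uses an
edge of `A` (hence passes through both its endpoints). -/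
theorem T_split {ω ω' : Om} {A : Set E} (hA : ∀ e ∉ A, ω' e = ω e) {x y : V} {c : ℝ}
    (h : T ω x y < c) :
    T ω' x y < c ∨ ∃ e ∈ A, ∀ q ∈ ends e, T ω x q + T ω q y < c := by
  obtain ⟨l, hl, hc⟩ := exists_wt_lt h
  rcases wt_split hA x l with h1 | ⟨l₁, s, l₂, h1, h2⟩
  · left
    rw [← h1] at hc
    exact lt_of_le_of_lt (T_le_wt' _ hl) hc
  · right
    refine ⟨_, h2, ?_⟩
    intro q hq
    rw [ends_edge (adj_vec _ _)] at hq
    have e1 : wt ω x l = wt ω x l₁ + (ω (edge (x + disp l₁) (x + disp l₁ + vec s)) +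
        wt ω (x + disp l₁ + vec s) l₂) := by
      rw [h1, wt_append, wt_cons]
    have hy : x + disp l₁ + vec s + disp l₂ = y := by
      rw [← hl, h1, disp_append, disp_cons]; abel
    rw [e1] at hc
    push_cast at hc
    have a1 := T_le_wt ω x l₁
    have a2 := T_le_wt' ω hy
    have a3 := T_le_edge ω (adj_vec (x + disp l₁) s)
    rcases hq with rfl | hq
    · have a4 := T_triangle ω (x + disp l₁) (x + disp l₁ + vec s) y
      linarith
    · rw [Set.mem_singleton_iff] at hq
      subst hq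
      have a4 := T_triangle ω x (x + disp l₁) (x + disp l₁ + vec s)
      linarith

/-! ### Half planes -/

theorem dot_add (ρ : ℝ × ℝ) (v w : V) : dot ρ (v + w) = dot ρ v + dot ρ w := by
  simp only [dot, Prod.fst_add, Prod.snd_add]; push_cast; ring
theorem dot_neg (ρ : ℝ × ℝ) (v : V) : dot ρ (-v) = -dot ρ v := by
  simp only [dot, Prod.fst_neg, Prod.snd_neg]; push_cast; ring
theorem dot_neg_left (ρ : ℝ × ℝ) (v : V) : dot (-ρ) v = -dot ρ v := by
  simp only [dot, Prod.fst_neg, Prod.snd_neg]; ring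
theorem dot_zero (ρ : ℝ × ℝ) : dot ρ 0 = 0 := by simp [dot]
theorem dot_sub (ρ : ℝ × ℝ) (v w : V) : dot ρ (v - w) = dot ρ v - dot ρ w := by
  rw [sub_eq_add_neg, dot_add, dot_neg]; ring
theorem dot_smul (ρ : ℝ × ℝ) (k : ℤ) (v : V) : dot ρ (k • v) = k * dot ρ v := by
  simp only [dot, Prod.smul_fst, Prod.smul_snd, smul_eq_mul]; push_cast; ring
theorem abs_dot_le (ρ : ℝ × ℝ) (v : V) : |dot ρ v| ≤ (|ρ.1| + |ρ.2|) * nrm v := by
  have h1 : |dot ρ v| ≤ |ρ.1| * |(v.1 : ℝ)| + |ρ.2| * |(v.2 : ℝ)| := by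
    rw [dot, ← abs_mul, ← abs_mul]; exact abs_add_le _ _
  have h2 : ((nrm v : ℕ) : ℝ) = |(v.1 : ℝ)| + |(v.2 : ℝ)| := by
    simp [nrm, Nat.cast_natAbs]
  rw [h2]
  nlinarith [abs_nonneg ρ.1, abs_nonneg ρ.2, abs_nonneg (v.1 : ℝ), abs_nonneg (v.2 : ℝ),
    mul_nonneg (abs_nonneg ρ.1) (abs_nonneg (v.2 : ℝ)),
    mul_nonneg (abs_nonneg ρ.2) (abs_nonneg (v.1 : ℝ))]

theorem exists_dot_ge {ρ : ℝ × ℝ} (hρ : ρ ≠ 0) (t : ℝ) : ∃ z : V, t ≤ dot ρ z := by
  have key : ∀ r : ℝ, r ≠ 0 → ∃ k : ℤ, t ≤ r * k := by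
    intro r hr
    rcases lt_or_gt_of_ne hr with h | h
    · refine ⟨⌊t / r⌋, ?_⟩
      have := Int.floor_le (t / r)
      have := mul_le_mul_of_nonpos_left this h.le
      rwa [mul_div_cancel₀ _ hr] at this
    · refine ⟨⌈t / r⌉, ?_⟩
      have := Int.le_ceil (t / r)
      have := mul_le_mul_of_nonneg_left this h.le
      rwa [mul_div_cancel₀ _ hr] at this
  by_cases h1 : ρ.1 = 0
  · have h2 : ρ.2 ≠ 0 := fun h2 => hρ (Prod.ext h1 h2)
    obtain ⟨k, hk⟩ := key _ h2
    exact ⟨(0, k), by simpa [dot] using hk⟩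
  · obtain ⟨k, hk⟩ := key _ h1
    exact ⟨(k, 0), by simpa [dot] using hk⟩

variable {ρ : ℝ × ℝ}

theorem u_nonneg (ρ : ℝ × ℝ) (ω : Om) (t : ℝ) (x : V) : 0 ≤ u ρ ω t x :=
  Real.iInf_nonneg fun _ => T_nonneg _ _ _

theorem u_le (ω : Om) {t : ℝ} (x : V) {z : V} (hz : t ≤ dot ρ z) : u ρ ω t x ≤ T ω x z :=
  ciInf_le (f := fun z : {z : V // t ≤ dot ρ z} => T ω x z.1)
    ⟨0, by rintro _ ⟨l, rfl⟩; exact T_nonneg _ _ _⟩ ⟨z, hz⟩

theorem exists_T_lt (hρ : ρ ≠ 0) {ω : Om} {t : ℝ} {x : V} {c : ℝ} (h : u ρ ω t x < c) :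
    ∃ z : V, t ≤ dot ρ z ∧ T ω x z < c := by
  have : Nonempty {z : V // t ≤ dot ρ z} := by
    obtain ⟨z, hz⟩ := exists_dot_ge hρ t
    exact ⟨⟨z, hz⟩⟩
  obtain ⟨⟨z, hz⟩, h'⟩ := exists_lt_of_ciInf_lt h
  exact ⟨z, hz, h'⟩

theorem le_u (hρ : ρ ≠ 0) {ω : Om} {t : ℝ} {x : V} {c : ℝ}
    (h : ∀ z : V, t ≤ dot ρ z → c ≤ T ω x z) : c ≤ u ρ ω t x := by
  have : Nonempty {z : V // t ≤ dot ρ z} := by
    obtain ⟨z, hz⟩ := exists_dot_ge hρ t
    exact ⟨⟨z, hz⟩⟩
  exact le_ciInf fun z => h z.1 z.2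

theorem u_triangle (hρ : ρ ≠ 0) (ω : Om) (t : ℝ) (x y : V) :
    u ρ ω t x ≤ T ω x y + u ρ ω t y := by
  have : u ρ ω t x - T ω x y ≤ u ρ ω t y := by
    refine le_u hρ fun z hz => ?_
    have h1 := u_le ω x hz
    have h2 := T_triangle ω x y z
    linarith
  linarith

theorem u_mono_t (hρ : ρ ≠ 0) (ω : Om) (x : V) : Monotone fun t => u ρ ω t x := by
  intro t t' h
  exact le_u hρ fun z hz => u_le ω x (h.trans hz)

theorem u_mono {ω ω' : Om} (hρ : ρ ≠ 0) (h : ω ≤ ω') (t : ℝ) (x : V) :
    u ρ ω t x ≤ u ρ ω' t x :=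
  le_u hρ fun z hz => (u_le ω x hz).trans (T_mono h x z)

theorem u_shift (ρ : ℝ × ℝ) (ω : Om) (t : ℝ) (x v : V) :
    u ρ ω t (x + v) = u ρ (shift v ω) (t - dot ρ v) x := by
  unfold u
  let e : {z : V // t - dot ρ v ≤ dot ρ z} ≃ {z : V // t ≤ dot ρ z} :=
    { toFun := fun z => ⟨z.1 + v, by rw [dot_add]; linarith [z.2]⟩
      invFun := fun z => ⟨z.1 - v, by rw [dot_sub]; linarith [z.2]⟩
      left_inv := fun z => Subtype.ext (by simp)
      right_inv := fun z => Subtype.ext (by simp) }
  rw [← e.iInf_comp]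
  congr 1
  funext z
  exact T_shift ω v x z.1

theorem measurable_u (hρ : ρ ≠ 0) (x : V) :
    Measurable fun q : ℝ × Om => u ρ q.2 q.1 x := by
  refine measurable_of_Iio fun c => ?_
  have : (fun q : ℝ × Om => u ρ q.2 q.1 x) ⁻¹' Set.Iio c =
      ⋃ z : V, {q : ℝ × Om | q.1 ≤ dot ρ z ∧ T q.2 x z < c} := by
    ext q
    simp only [Set.mem_preimage, Set.mem_Iio, Set.mem_iUnion]
    constructor
    · intro h
      obtain ⟨z, hz, hz'⟩ := exists_T_lt hρ h
      exact ⟨z, hz, hz'⟩
    · rintro ⟨z, hz, hz'⟩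
      exact lt_of_le_of_lt (u_le q.2 x hz) hz'
  rw [this]
  refine MeasurableSet.iUnion fun z => MeasurableSet.inter ?_ ?_
  · exact measurableSet_le measurable_fst measurable_const
  · exact measurableSet_lt ((measurable_T x z).comp measurable_snd) measurable_const

theorem measurable_u_right (hρ : ρ ≠ 0) (t : ℝ) (x : V) :
    Measurable fun ω : Om => u ρ ω t x :=
  (measurable_u hρ x).comp (measurable_const.prodMk measurable_id)

theorem u_split (hρ : ρ ≠ 0) {ω ω' : Om} {A : Set E} (hA : ∀ e ∉ A, ω' e = ω e) {x : V}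
    {t c : ℝ} (h : u ρ ω t x < c) :
    u ρ ω' t x < c ∨ ∃ e ∈ A, ∀ q ∈ ends e, T ω x q + u ρ ω t q < c := by
  obtain ⟨z, hz, hz'⟩ := exists_T_lt hρ h
  rcases T_split hA hz' with h1 | ⟨e, he, h1⟩
  · left
    exact lt_of_le_of_lt (u_le ω' x hz) h1
  · right
    refine ⟨e, he, fun q hq => ?_⟩
    have h2 := h1 q hq
    have h3 := u_le ω q hz
    linarith

theorem intervalIntegrable_u (hρ : ρ ≠ 0) (ω : Om) (x : V) (a b : ℝ) :
    IntervalIntegrable (fun t => u ρ ω t x) volume a b :=
  (u_mono_t hρ ω x).intervalIntegrable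

theorem dft_nonneg (hρ : ρ ≠ 0) (ω : Om) {x y : V} (h : Adj x y) (t : ℝ) :
    0 ≤ dft ρ ω x y t := by
  have h1 := u_triangle hρ ω t x y
  have h2 := T_le_edge ω h
  unfold dft
  linarith

theorem dft_le (hρ : ρ ≠ 0) (ω : Om) {x y : V} (h : Adj x y) (t : ℝ) :
    dft ρ ω x y t ≤ 2 * ω (edge x y) := by
  have h1 := u_triangle hρ ω t y x
  have h2 := T_le_edge ω (adj_symm h)
  rw [edge_comm] at h2
  unfold dft
  linarith

theorem intervalIntegrable_dft (hρ : ρ ≠ 0) (ω : Om) (x y : V) (a b : ℝ) :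
    IntervalIntegrable (fun t => dft ρ ω x y t) volume a b := by
  unfold dft
  exact (intervalIntegrable_const.add (intervalIntegrable_u hρ ω y a b)).sub
    (intervalIntegrable_u hρ ω x a b)

end FPP
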